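import Pool.Agent.H262.LS1

set_option autoImplicit false

namespace Pool.H262.CE

open Set Cardinal Pool.H262.LS

/-- basic neighbourhoods -/
def nb {X K : Type} (f : X → K → ℝ) (p : Finset K × ℝ) (x : X) : Set X :=
  {u | ∀ k ∈ p.1, |f u k - f x k| < p.2}

/-- data for the colouring argument -/
structure Sz (X K : Type) where
  f : X → K → ℝ
  Φ : Finset (X ⊕ K) → Set (X ⊕ K)
  hΦ : ∀ F, (Φ F).Countable
  small : ℕ → Set X → Prop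
  small_anti : ∀ m n S, m ≤ n → small n S → small m S
  small_mono : ∀ m S T, S ⊆ T → small m T → small m S
  H1 : ∀ N, Cl Φ N → ∀ y : X, (∃ x : X, Sum.inl x ∈ N ∧ ∀ k, Sum.inr k ∈ N → f y k = f x k) ∨
     ∃ m0 : ℕ, ∀ (A : Finset K) (ε : ℝ) (x : X), (∀ k ∈ A, Sum.inr k ∈ N) →
        y ∈ nb f (A, ε) x → ¬ small m0 (nb f (A, ε) x)
  H2 : ∀ N, Cl Φ N → ∀ x, Sum.inl x ∉ N → ∃ (A : Finset K) (ε : ℝ), 0 < ε ∧
     ∀ u, Sum.inl u ∈ N → u ∉ nb f (A, ε) x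
  H3 : ∀ x m, ∃ (A : Finset K) (ε : ℝ), 0 < ε ∧ small m (nb f (A, ε) x)
  H4 : ∀ x u, x ≠ u → ∃ k, f x k ≠ f u k

variable {X K : Type} (𝒮 : Sz X K)

/-- bundled closed sets -/
abbrev CS := {N : Set (X ⊕ K) // Cl 𝒮.Φ N}

/-- points outside of all listed closed sets -/
def fresh (𝓛 : List (CS 𝒮)) (x : X) : Prop := ∀ N ∈ 𝓛, Sum.inl x ∉ N.1

open Classical in
/-- forbidden colours coming from a closed set -/
noncomputable def Bd (N : CS 𝒮) (b : X → Set ℕ) (y : X) : Set ℕ :=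
  if h : ∃ x : X, Sum.inl x ∈ N.1 ∧ ∀ k, Sum.inr k ∈ N.1 → 𝒮.f y k = 𝒮.f x k then b h.choose
  else {m | m < Classical.choose ((𝒮.H1 N.1 N.2 y).resolve_left h)}

theorem Bd_finite (N : CS 𝒮) (b : X → Set ℕ) (y : X)
    (hb : ∀ u, Sum.inl u ∈ N.1 → (b u).Finite) : (Bd 𝒮 N b y).Finite := by
  classical
  unfold Bd
  split_ifs with h
  · exact hb _ h.choose_spec.1
  · exact Set.finite_lt_nat _

theorem Bd_mono (N : CS 𝒮) (b b' : X → Set ℕ) (y : X)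
    (hb : ∀ u, Sum.inl u ∈ N.1 → b u ⊆ b' u) : Bd 𝒮 N b y ⊆ Bd 𝒮 N b' y := by
  classical
  unfold Bd
  split_ifs with h
  · exact hb _ h.choose_spec.1
  · exact subset_rfl

theorem Bd_key (N : CS 𝒮) (b : X → Set ℕ) (y z : X) (p : Finset K × ℝ) (m : ℕ)
    (hpar : ∀ k ∈ p.1, Sum.inr k ∈ N.1) (hs : 𝒮.small m (nb 𝒮.f p z))
    (hb : ∀ u, Sum.inl u ∈ N.1 → u ∈ nb 𝒮.f p z → m ∈ b u) (hy : y ∈ nb 𝒮.f p z) :
    m ∈ Bd 𝒮 N b y := by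
  classical
  unfold Bd
  split_ifs with h
  · apply hb _ h.choose_spec.1
    intro k hk
    rw [← h.choose_spec.2 k (hpar k hk)]
    exact hy k hk
  · have hspec := Classical.choose_spec ((𝒮.H1 N.1 N.2 y).resolve_left h)
    change m < _
    by_contra hcon
    push Not at hcon
    exact hspec p.1 p.2 z hpar hy (𝒮.small_anti _ _ _ hcon hs)

/-- stage data: closed set, colouring, neighbourhood codes -/
abbrev Dt := CS 𝒮 × (X → ℕ) × (X → Finset K × ℝ)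

/-- the inductive requirement -/
structure Good (𝓛 : List (CS 𝒮)) (b : X → Set ℕ) (d : Dt 𝒮) : Prop where
  pos : ∀ x, Sum.inl x ∈ d.1.1 → fresh 𝒮 𝓛 x → 0 < (d.2.2 x).2
  par : ∀ x, Sum.inl x ∈ d.1.1 → fresh 𝒮 𝓛 x → ∀ k ∈ (d.2.2 x).1, Sum.inr k ∈ d.1.1
  sm : ∀ x, Sum.inl x ∈ d.1.1 → fresh 𝒮 𝓛 x → 𝒮.small (d.2.1 x) (nb 𝒮.f (d.2.2 x) x)
  av : ∀ x, Sum.inl x ∈ d.1.1 → fresh 𝒮 𝓛 x → ∀ N ∈ 𝓛, ∀ u, Sum.inl u ∈ N.1 →
    u ∉ nb 𝒮.f (d.2.2 x) x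
  bd : ∀ x, Sum.inl x ∈ d.1.1 → fresh 𝒮 𝓛 x → ∀ N ∈ 𝓛, d.2.1 x ∉ Bd 𝒮 N b x
  fin : ∀ x, Sum.inl x ∈ d.1.1 → fresh 𝒮 𝓛 x →
    {m | ∃ z, Sum.inl z ∈ d.1.1 ∧ fresh 𝒮 𝓛 z ∧ x ∈ nb 𝒮.f (d.2.2 z) z ∧ d.2.1 z = m}.Finite
  ne : ∀ x, Sum.inl x ∈ d.1.1 → fresh 𝒮 𝓛 x → ∀ z, Sum.inl z ∈ d.1.1 → fresh 𝒮 𝓛 z →
    z ≠ x → x ∈ nb 𝒮.f (d.2.2 z) z → d.2.1 z ≠ d.2.1 x

theorem nb_inter (f : X → K → ℝ) [DecidableEq K] (p q : Finset K × ℝ) (x : X) :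
    nb f (p.1 ∪ q.1, min p.2 q.2) x ⊆ nb f p x ∩ nb f q x := by
  intro u hu
  constructor
  · intro k hk
    exact lt_of_lt_of_le (hu k (Finset.mem_union_left _ hk)) (min_le_left _ _)
  · intro k hk
    exact lt_of_lt_of_le (hu k (Finset.mem_union_right _ hk)) (min_le_right _ _)

theorem sepL (𝓛 : List (CS 𝒮)) (x : X) (hx : fresh 𝒮 𝓛 x) (F : Finset X) (hF : x ∉ F) (m : ℕ) :
    ∃ p : Finset K × ℝ, 0 < p.2 ∧ (∀ N ∈ 𝓛, ∀ u, Sum.inl u ∈ N.1 → u ∉ nb 𝒮.f p x) ∧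
      (∀ u ∈ F, u ∉ nb 𝒮.f p x) ∧ 𝒮.small m (nb 𝒮.f p x) := by
  classical
  have h1 : ∃ p : Finset K × ℝ, 0 < p.2 ∧ ∀ N ∈ 𝓛, ∀ u, Sum.inl u ∈ N.1 → u ∉ nb 𝒮.f p x := by
    induction 𝓛 with
    | nil => exact ⟨(∅, 1), one_pos, by simp⟩
    | cons N 𝓛 ih =>
      obtain ⟨p, hp, hp2⟩ := ih (fun M hM => hx M (List.mem_cons_of_mem _ hM))
      obtain ⟨A, ε, hε, hA⟩ := 𝒮.H2 N.1 N.2 x (hx N List.mem_cons_self)
      refine ⟨(p.1 ∪ A, min p.2 ε), lt_min hp hε, ?_⟩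
      intro M hM u hu hnb
      have h := nb_inter 𝒮.f p (A, ε) x hnb
      rcases List.mem_cons.1 hM with rfl | hM
      · exact hA u hu h.2
      · exact hp2 M hM u hu h.1
  have h2 : ∃ p : Finset K × ℝ, 0 < p.2 ∧ ∀ u ∈ F, u ∉ nb 𝒮.f p x := by
    induction F using Finset.induction_on with
    | empty => exact ⟨(∅, 1), one_pos, by simp⟩
    | insert a F ha ih =>
      obtain ⟨p, hp, hp2⟩ := ih (fun h => hF (Finset.mem_insert_of_mem h))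
      have hne : x ≠ a := fun h => hF (by rw [h]; exact Finset.mem_insert_self _ _)
      obtain ⟨k, hk⟩ := 𝒮.H4 x a hne
      refine ⟨(p.1 ∪ {k}, min p.2 |𝒮.f a k - 𝒮.f x k|),
        lt_min hp (abs_pos.2 (sub_ne_zero.2 (Ne.symm hk))), ?_⟩
      intro u hu hnb
      have h := nb_inter 𝒮.f p ({k}, |𝒮.f a k - 𝒮.f x k|) x hnb
      rcases Finset.mem_insert.1 hu with rfl | hu
      · exact lt_irrefl _ (h.2 k (Finset.mem_singleton_self _))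
      · exact hp2 u hu h.1
  obtain ⟨p, hp, hp2⟩ := h1
  obtain ⟨q, hq, hq2⟩ := h2
  obtain ⟨A, ε, hε, hA⟩ := 𝒮.H3 x m
  have hsub1 := nb_inter 𝒮.f p q x
  have hsub2 := nb_inter 𝒮.f (p.1 ∪ q.1, min p.2 q.2) (A, ε) x
  refine ⟨((p.1 ∪ q.1) ∪ A, min (min p.2 q.2) ε), lt_min (lt_min hp hq) hε, ?_, ?_, ?_⟩
  · intro N hN u hu hnb
    exact hp2 N hN u hu (hsub1 (hsub2 hnb).1).1
  · intro u hu hnb
    exact hq2 u hu (hsub1 (hsub2 hnb).1).2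
  · exact 𝒮.small_mono m _ _ (fun u hu => (hsub2 hu).2) hA

theorem base (A : Set (X ⊕ K)) (hA : A.Countable) (𝓛 : List (CS 𝒮)) (b : X → Set ℕ)
    (hb : ∀ N ∈ 𝓛, ∀ u, Sum.inl u ∈ N.1 → (b u).Finite) :
    ∃ d : Dt 𝒮, A ⊆ d.1.1 ∧ #d.1.1 ≤ ℵ₀ ∧ Good 𝒮 𝓛 b d := by
  classical
  have hex : ∀ (x : X) (F : Finset X) (m : ℕ), ∃ p : Finset K × ℝ,
      fresh 𝒮 𝓛 x → x ∉ F → 0 < p.2 ∧ (∀ N ∈ 𝓛, ∀ u, Sum.inl u ∈ N.1 → u ∉ nb 𝒮.f p x) ∧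
      (∀ u ∈ F, u ∉ nb 𝒮.f p x) ∧ 𝒮.small m (nb 𝒮.f p x) := by
    intro x F m
    by_cases h : fresh 𝒮 𝓛 x ∧ x ∉ F
    · obtain ⟨p, hp⟩ := sepL 𝒮 𝓛 x h.1 F h.2 m
      exact ⟨p, fun _ _ => hp⟩
    · exact ⟨(∅, 1), fun h1 h2 => absurd ⟨h1, h2⟩ h⟩
  choose e he using hex
  let Φ' : Finset (X ⊕ K) → Set (X ⊕ K) := fun G => 𝒮.Φ G ∪
    ⋃ x ∈ G.toLeft, ⋃ F ∈ G.toLeft.powerset, ⋃ m : ℕ, Sum.inr '' ((e x F m).1 : Set K)
  have hΦ' : ∀ G, (Φ' G).Countable := by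
    intro G
    refine (𝒮.hΦ G).union ?_
    refine (Finset.countable_toSet _).biUnion fun x _ => ?_
    refine (Finset.countable_toSet _).biUnion fun F _ => ?_
    exact countable_iUnion fun m => (Finset.countable_toSet _).image _
  have hcl' := hull_cl Φ' A
  have hcl : Cl 𝒮.Φ (hull Φ' A) := fun F hF => subset_union_left.trans (hcl' F hF)
  have hcard : #(hull Φ' A) ≤ ℵ₀ := by
    refine (hull_card Φ' hΦ' A).trans (max_le ?_ le_rfl)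
    exact Cardinal.le_aleph0_iff_set_countable.2 hA
  have hMc : (hull Φ' A).Countable := Cardinal.le_aleph0_iff_set_countable.1 hcard
  have hXM : {x : X | Sum.inl x ∈ hull Φ' A}.Countable := hMc.preimage Sum.inl_injective
  obtain ⟨idx, hidx⟩ := Set.countable_iff_exists_injOn.1 hXM
  have hfin : ∀ n : ℕ, {z : X | Sum.inl z ∈ hull Φ' A ∧ idx z < n}.Finite := by
    intro n
    apply Set.Finite.of_finite_image (f := idx)
    · exact (Set.finite_lt_nat n).subset (by rintro _ ⟨z, hz, rfl⟩; exact hz.2)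
    · exact hidx.mono (fun z hz => hz.1)
  let FF : X → Finset X := fun x => (hfin (idx x)).toFinset
  have hFF : ∀ x z, z ∈ FF x ↔ Sum.inl z ∈ hull Φ' A ∧ idx z < idx x := by
    intro x z
    simp only [FF, Set.Finite.mem_toFinset]
    rfl
  have hcex : ∀ x : X, ∃ t : ℕ, ∀ N ∈ 𝓛, Nat.pair (idx x) t ∉ Bd 𝒮 N b x := by
    intro x
    have hB : (⋃ N ∈ {N | N ∈ 𝓛}, Bd 𝒮 N b x).Finite := by
      apply Set.Finite.biUnion (List.finite_toSet 𝓛)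
      intro N hN
      exact Bd_finite 𝒮 N b x (hb N hN)
    have hinj : Function.Injective (fun t : ℕ => Nat.pair (idx x) t) := by
      intro s t hst
      exact (Nat.pair_eq_pair.1 hst).2
    by_contra hcon
    push Not at hcon
    apply Set.infinite_range_of_injective hinj
    refine hB.subset ?_
    rintro _ ⟨t, rfl⟩
    obtain ⟨N, hN, ht⟩ := hcon t
    exact mem_iUnion₂.2 ⟨N, hN, ht⟩
  choose t ht using hcex
  let c : X → ℕ := fun x => Nat.pair (idx x) (t x)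
  let E : X → Finset K × ℝ := fun x => e x (FF x) (c x)
  have hself : ∀ x, x ∉ FF x := by
    intro x h
    exact lt_irrefl _ ((hFF x x).1 h).2
  refine ⟨(⟨hull Φ' A, hcl⟩, c, E), subset_hull Φ' A, hcard, ⟨?_, ?_, ?_, ?_, ?_, ?_, ?_⟩⟩
  · intro x _ hfr
    exact (he x (FF x) (c x) hfr (hself x)).1
  · intro x hx hfr k hk
    have hsub : ((insert (Sum.inl x) ((FF x).image Sum.inl) : Finset (X ⊕ K)) : Set (X ⊕ K)) ⊆
        hull Φ' A := by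
      intro w hw
      rw [Finset.mem_coe, Finset.mem_insert, Finset.mem_image] at hw
      rcases hw with rfl | ⟨z, hz, rfl⟩
      · exact hx
      · exact ((hFF x z).1 hz).1
    apply hcl' _ hsub
    right
    refine mem_iUnion₂.2 ⟨x, ?_, mem_iUnion₂.2 ⟨FF x, ?_, mem_iUnion.2 ⟨c x, k, hk, rfl⟩⟩⟩
    · rw [Finset.mem_toLeft]
      exact Finset.mem_insert_self _ _
    · rw [Finset.mem_powerset]
      intro z hz
      rw [Finset.mem_toLeft]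
      exact Finset.mem_insert_of_mem (Finset.mem_image_of_mem _ hz)
  · intro x _ hfr
    exact (he x (FF x) (c x) hfr (hself x)).2.2.2
  · intro x _ hfr
    exact (he x (FF x) (c x) hfr (hself x)).2.1
  · intro x _ _ N hN
    exact ht x N hN
  · intro x _ _
    refine ((hfin (idx x + 1)).image c).subset ?_
    rintro m ⟨z, hz, hzf, hxz, rfl⟩
    refine ⟨z, ⟨hz, ?_⟩, rfl⟩
    by_contra hcon
    have hlt : idx x < idx z := by omega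
    have hmem : x ∈ FF z := (hFF z x).2 ⟨‹_›, hlt⟩
    exact (he z (FF z) (c z) hzf (hself z)).2.2.1 x hmem hxz
  · intro x hx _ z hz _ hne _ heq
    exact hne (hidx hz hx (Nat.pair_eq_pair.1 heq).1)

end Pool.H262.CE
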