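import Pool.Agent.H262.CE1

set_option autoImplicit false

namespace Pool.H262.CE

open Set Cardinal Pool.H262.LS

variable {X K : Type} (𝒮 : Sz X K)

section chain
variable {ι : Type} [LinearOrder ι] [WellFoundedLT ι] (D : ι → Dt 𝒮)
  (𝓛 : List (CS 𝒮)) (b : X → Set ℕ)

/-- union of earlier stages -/
def UU (ξ : ι) : Set (X ⊕ K) := ⋃ η, ⋃ _ : η < ξ, (D η).1.1

/-- closed set generated by earlier stages -/
def PP (ξ : ι) : CS 𝒮 := ⟨hull 𝒮.Φ (UU 𝒮 D ξ), hull_cl _ _⟩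

/-- first appearance -/
def newAt (η : ι) (z : X) : Prop :=
  Sum.inl z ∈ (D η).1.1 ∧ (∀ ζ, ζ < η → Sum.inl z ∉ (D ζ).1.1) ∧ fresh 𝒮 𝓛 z

open Classical in
/-- forbidden colours at a stage -/
noncomputable def bx (ξ : ι) (u : X) : Set ℕ :=
  (if fresh 𝒮 𝓛 u then ∅ else b u) ∪
    {m | ∃ η, ∃ _ : η < ξ, ∃ z, newAt 𝒮 D 𝓛 η z ∧ u ∈ nb 𝒮.f ((D η).2.2 z) z ∧ (D η).2.1 z = m}

/-- the inductive statement along the chain -/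
structure SS (ξ : ι) : Prop where
  sub : UU 𝒮 D ξ ⊆ (D ξ).1.1
  fin : ∀ N ∈ (PP 𝒮 D ξ :: 𝓛), ∀ u, Sum.inl u ∈ N.1 → (bx 𝒮 D 𝓛 b ξ u).Finite
  good : Good 𝒮 (PP 𝒮 D ξ :: 𝓛) (bx 𝒮 D 𝓛 b ξ) (D ξ)

theorem hull_empty_sub (N : CS 𝒮) : hull 𝒮.Φ ∅ ⊆ N.1 := hull_min _ N.2 (empty_subset _)

theorem fin_chain (S : Set ι) (hmono : ∀ ζ η, η ∈ S → ζ < η → (D ζ).1.1 ⊆ (D η).1.1)
    (F : Finset (X ⊕ K)) (hF : (F : Set (X ⊕ K)) ⊆ hull 𝒮.Φ ∅ ∪ ⋃ η ∈ S, (D η).1.1) :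
    (F : Set (X ⊕ K)) ⊆ hull 𝒮.Φ ∅ ∨ ∃ η ∈ S, (F : Set (X ⊕ K)) ⊆ (D η).1.1 := by
  classical
  induction F using Finset.induction_on with
  | empty => left; simp
  | insert a F ha ih =>
    have h1 : (F : Set (X ⊕ K)) ⊆ hull 𝒮.Φ ∅ ∪ ⋃ η ∈ S, (D η).1.1 :=
      fun x hx => hF (Finset.mem_coe.2 (Finset.mem_insert_of_mem hx))
    have h2 : a ∈ hull 𝒮.Φ ∅ ∪ ⋃ η ∈ S, (D η).1.1 :=
      hF (Finset.mem_coe.2 (Finset.mem_insert_self a F))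
    rcases ih h1 with h | ⟨η, hη, h⟩
    · rcases h2 with h2 | h2
      · left
        intro x hx
        rcases Finset.mem_insert.1 (Finset.mem_coe.1 hx) with rfl | hx
        · exact h2
        · exact h hx
      · obtain ⟨η, hη, h3⟩ := mem_iUnion₂.1 h2
        right
        refine ⟨η, hη, ?_⟩
        intro x hx
        rcases Finset.mem_insert.1 (Finset.mem_coe.1 hx) with rfl | hx
        · exact h3
        · exact hull_empty_sub 𝒮 _ (h hx)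
    · rcases h2 with h2 | h2
      · right
        refine ⟨η, hη, ?_⟩
        intro x hx
        rcases Finset.mem_insert.1 (Finset.mem_coe.1 hx) with rfl | hx
        · exact hull_empty_sub 𝒮 _ h2
        · exact h hx
      · obtain ⟨ζ, hζ, h3⟩ := mem_iUnion₂.1 h2
        right
        rcases lt_trichotomy η ζ with hlt | heq | hgt
        · refine ⟨ζ, hζ, ?_⟩
          intro x hx
          rcases Finset.mem_insert.1 (Finset.mem_coe.1 hx) with rfl | hx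
          · exact h3
          · exact hmono η ζ hζ hlt (h hx)
        · refine ⟨ζ, hζ, ?_⟩
          intro x hx
          rcases Finset.mem_insert.1 (Finset.mem_coe.1 hx) with rfl | hx
          · exact h3
          · rw [← heq]; exact h hx
        · refine ⟨η, hη, ?_⟩
          intro x hx
          rcases Finset.mem_insert.1 (Finset.mem_coe.1 hx) with rfl | hx
          · exact hmono ζ η hη hgt h3
          · exact h hx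

theorem cl_chain (S : Set ι) (hmono : ∀ ζ η, η ∈ S → ζ < η → (D ζ).1.1 ⊆ (D η).1.1) :
    Cl 𝒮.Φ (hull 𝒮.Φ ∅ ∪ ⋃ η ∈ S, (D η).1.1) := by
  intro F hF
  rcases fin_chain 𝒮 D S hmono F hF with h | ⟨η, hη, h⟩
  · exact (hull_cl 𝒮.Φ ∅ F h).trans subset_union_left
  · exact ((D η).1.2 F h).trans (Subset.trans
      (subset_biUnion_of_mem (u := fun η => (D η).1.1) hη) subset_union_right)

theorem mono_of (ξ : ι) (h : ∀ η, η < ξ → SS 𝒮 D 𝓛 b η) :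
    ∀ ζ η, η < ξ → ζ < η → (D ζ).1.1 ⊆ (D η).1.1 := by
  intro ζ η hη hζ
  refine Subset.trans ?_ (h η hη).sub
  exact subset_iUnion₂_of_subset ζ hζ subset_rfl

theorem PP_mem (ξ : ι) (h : ∀ η, η < ξ → SS 𝒮 D 𝓛 b η) (w : X ⊕ K)
    (hw : w ∈ (PP 𝒮 D ξ).1) : w ∈ hull 𝒮.Φ ∅ ∨ ∃ η, η < ξ ∧ w ∈ (D η).1.1 := by
  have h1 : (PP 𝒮 D ξ).1 ⊆ hull 𝒮.Φ ∅ ∪ ⋃ η ∈ Iio ξ, (D η).1.1 := by
    apply hull_min
    · exact cl_chain 𝒮 D (Iio ξ) (fun ζ η hη hζ => mono_of 𝒮 D 𝓛 b ξ h ζ η hη hζ)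
    · intro x hx
      right
      exact hx
  rcases h1 hw with h2 | h2
  · exact Or.inl h2
  · obtain ⟨η, hη, h3⟩ := mem_iUnion₂.1 h2
    exact Or.inr ⟨η, hη, h3⟩

theorem UU_sub_PP (ξ : ι) : UU 𝒮 D ξ ⊆ (PP 𝒮 D ξ).1 := subset_hull _ _

theorem D_sub_PP (ξ η : ι) (h : η < ξ) : (D η).1.1 ⊆ (PP 𝒮 D ξ).1 := by
  refine Subset.trans ?_ (UU_sub_PP 𝒮 D ξ)
  exact subset_iUnion₂_of_subset η h subset_rfl

theorem fresh_not_H0 (h𝓛 : 𝓛 ≠ []) (u : X) (hu : fresh 𝒮 𝓛 u) : Sum.inl u ∉ hull 𝒮.Φ ∅ := by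
  obtain ⟨N, hN⟩ := List.exists_mem_of_ne_nil 𝓛 h𝓛
  intro h
  exact hu N hN (hull_empty_sub 𝒮 N h)

theorem newAt_fresh (h𝓛 : 𝓛 ≠ []) (η : ι) (hs : ∀ ζ, ζ < η → SS 𝒮 D 𝓛 b ζ) (z : X)
    (hz : newAt 𝒮 D 𝓛 η z) : fresh 𝒮 (PP 𝒮 D η :: 𝓛) z := by
  intro N hN
  rcases List.mem_cons.1 hN with rfl | hN
  · intro hzP
    rcases PP_mem 𝒮 D 𝓛 b η hs _ hzP with h | ⟨ζ, hζ, h⟩
    · exact fresh_not_H0 𝒮 𝓛 h𝓛 z hz.2.2 h
    · exact hz.2.1 ζ hζ h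
  · exact hz.2.2 N hN

theorem fresh_newAt (η : ι) (z : X) (h1 : Sum.inl z ∈ (D η).1.1)
    (hz : fresh 𝒮 (PP 𝒮 D η :: 𝓛) z) : newAt 𝒮 D 𝓛 η z := by
  refine ⟨h1, ?_, ?_⟩
  · intro ζ hζ h
    exact hz _ List.mem_cons_self (D_sub_PP 𝒮 D η ζ hζ h)
  · intro N hN
    exact hz N (List.mem_cons_of_mem _ hN)

/-- local analysis of neighbourhoods -/
theorem key (h𝓛 : 𝓛 ≠ []) (η₀ η : ι) (h0 : ∀ ζ, ζ ≤ η₀ → SS 𝒮 D 𝓛 b ζ)
    (h1 : ∀ ζ, ζ ≤ η → SS 𝒮 D 𝓛 b ζ) (u z : X) (hu : newAt 𝒮 D 𝓛 η₀ u)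
    (hz : newAt 𝒮 D 𝓛 η z) (hnb : u ∈ nb 𝒮.f ((D η).2.2 z) z) :
    η = η₀ ∨ (η < η₀ ∧ (D η).2.1 z ∈ Bd 𝒮 (PP 𝒮 D η₀) (bx 𝒮 D 𝓛 b η₀) u) := by
  have hzf := newAt_fresh 𝒮 D 𝓛 b h𝓛 η (fun ζ hζ => h1 ζ hζ.le) z hz
  rcases lt_trichotomy η η₀ with hlt | heq | hgt
  · right
    refine ⟨hlt, ?_⟩
    apply Bd_key 𝒮 (PP 𝒮 D η₀) _ u z ((D η).2.2 z)
    · intro k hk
      exact D_sub_PP 𝒮 D η₀ η hlt ((h1 η le_rfl).good.par z hz.1 hzf k hk)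
    · exact (h1 η le_rfl).good.sm z hz.1 hzf
    · intro u' _ hu'
      right
      exact ⟨η, hlt, z, hz, hu', rfl⟩
    · exact hnb
  · exact Or.inl heq
  · exfalso
    exact (h1 η le_rfl).good.av z hz.1 hzf _ List.mem_cons_self u
      (D_sub_PP 𝒮 D η η₀ hgt hu.1) hnb

/-- finiteness of the forbidden sets -/
theorem bx_fin (h𝓛 : 𝓛 ≠ []) (hb : ∀ N ∈ 𝓛, ∀ u, Sum.inl u ∈ N.1 → (b u).Finite)
    (ξ : ι) (hs : ∀ η, η < ξ → SS 𝒮 D 𝓛 b η) :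
    ∀ N ∈ (PP 𝒮 D ξ :: 𝓛), ∀ u, Sum.inl u ∈ N.1 → (bx 𝒮 D 𝓛 b ξ u).Finite := by
  classical
  have hnf : ∀ u, ¬ fresh 𝒮 𝓛 u → (bx 𝒮 D 𝓛 b ξ u).Finite := by
    intro u hu
    have hu' := hu
    unfold fresh at hu'
    push Not at hu'
    obtain ⟨N, hN, huN⟩ := hu'
    have hempty : {m | ∃ η, ∃ _ : η < ξ, ∃ z, newAt 𝒮 D 𝓛 η z ∧
        u ∈ nb 𝒮.f ((D η).2.2 z) z ∧ (D η).2.1 z = m} = ∅ := by
      rw [eq_empty_iff_forall_notMem]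
      rintro m ⟨η, hη, z, hz, hnb, _⟩
      have hzf := newAt_fresh 𝒮 D 𝓛 b h𝓛 η (fun ζ hζ => hs ζ (hζ.trans hη)) z hz
      exact (hs η hη).good.av z hz.1 hzf N (List.mem_cons_of_mem _ hN) u huN hnb
    unfold bx
    rw [hempty, union_empty, if_neg hu]
    exact hb N hN u huN
  intro N hN u huN
  by_cases hu : fresh 𝒮 𝓛 u
  · have hNP : N = PP 𝒮 D ξ := by
      rcases List.mem_cons.1 hN with h | h
      · exact h
      · exact absurd huN (hu N h)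
    subst hNP
    rcases PP_mem 𝒮 D 𝓛 b ξ hs _ huN with h | ⟨η, hη, h⟩
    · exact absurd h (fresh_not_H0 𝒮 𝓛 h𝓛 u hu)
    · have hne : {η : ι | η < ξ ∧ Sum.inl u ∈ (D η).1.1}.Nonempty := ⟨η, hη, h⟩
      have hwf : WellFounded ((· < ·) : ι → ι → Prop) := wellFounded_lt
      set η₀ := hwf.min _ hne with hη₀
      have hmem := hwf.min_mem _ hne
      have hnew : newAt 𝒮 D 𝓛 η₀ u := by
        refine ⟨hmem.2, ?_, hu⟩
        intro ζ hζ hcon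
        exact hwf.not_lt_min _ (show ζ ∈ {η : ι | η < ξ ∧ Sum.inl u ∈ (D η).1.1} from
          ⟨hζ.trans hmem.1, hcon⟩) hζ
      have hs0 : ∀ ζ, ζ ≤ η₀ → SS 𝒮 D 𝓛 b ζ := fun ζ hζ => hs ζ (lt_of_le_of_lt hζ hmem.1)
      have hnewf := newAt_fresh 𝒮 D 𝓛 b h𝓛 η₀ (fun ζ hζ => hs0 ζ hζ.le) u hnew
      unfold bx
      rw [if_pos hu, empty_union]
      refine (((hs0 η₀ le_rfl).good.fin u hnew.1 hnewf).union
        (Bd_finite 𝒮 (PP 𝒮 D η₀) (bx 𝒮 D 𝓛 b η₀) u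
          ((hs0 η₀ le_rfl).fin _ List.mem_cons_self))).subset ?_
      rintro m ⟨η, hη, z, hz, hnb, rfl⟩
      rcases key 𝒮 D 𝓛 b h𝓛 η₀ η hs0 (fun ζ hζ => hs ζ (lt_of_le_of_lt hζ hη)) u z hnew hz hnb with
        heq | ⟨_, h2⟩
      · left
        subst heq
        exact ⟨z, hz.1, newAt_fresh 𝒮 D 𝓛 b h𝓛 _ (fun ζ hζ => hs0 ζ hζ.le) z hz, hnb, rfl⟩
      · exact Or.inr h2
  · exact hnf u hu

/-- the union of the chain is again good -/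
theorem union_good [Nonempty ι] (h𝓛 : 𝓛 ≠ []) (hs : ∀ ξ, SS 𝒮 D 𝓛 b ξ) :
    ∃ d : Dt 𝒮, d.1.1 = ⋃ ξ, (D ξ).1.1 ∧ Good 𝒮 𝓛 b d := by
  classical
  have hmono : ∀ ζ η : ι, ζ < η → (D ζ).1.1 ⊆ (D η).1.1 := by
    intro ζ η hζ
    refine Subset.trans ?_ (hs η).sub
    exact subset_iUnion₂_of_subset ζ hζ subset_rfl
  have hMeq : hull 𝒮.Φ ∅ ∪ ⋃ η ∈ (Set.univ : Set ι), (D η).1.1 = ⋃ ξ, (D ξ).1.1 := by
    apply Subset.antisymm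
    · apply union_subset
      · obtain ⟨ξ⟩ := (inferInstance : Nonempty ι)
        exact (hull_empty_sub 𝒮 (D ξ).1).trans (subset_iUnion (fun ξ => (D ξ).1.1) ξ)
      · intro x hx
        obtain ⟨η, _, h⟩ := mem_iUnion₂.1 hx
        exact mem_iUnion.2 ⟨η, h⟩
    · intro x hx
      obtain ⟨η, h⟩ := mem_iUnion.1 hx
      exact Or.inr (mem_iUnion₂.2 ⟨η, trivial, h⟩)
  have hMcl : Cl 𝒮.Φ (⋃ ξ, (D ξ).1.1) := by
    rw [← hMeq]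
    exact cl_chain 𝒮 D Set.univ (fun ζ η _ hζ => hmono ζ η hζ)
  have hwf : WellFounded ((· < ·) : ι → ι → Prop) := wellFounded_lt
  have hst : ∀ x : X, ∃ ξ : ι, Sum.inl x ∈ (⋃ ξ, (D ξ).1.1) →
      Sum.inl x ∈ (D ξ).1.1 ∧ ∀ ζ, ζ < ξ → Sum.inl x ∉ (D ζ).1.1 := by
    intro x
    by_cases hx : Sum.inl x ∈ (⋃ ξ, (D ξ).1.1)
    · obtain ⟨ξ, hξ⟩ := mem_iUnion.1 hx
      have hne : {η : ι | Sum.inl x ∈ (D η).1.1}.Nonempty := ⟨ξ, hξ⟩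
      refine ⟨hwf.min _ hne, fun _ => ⟨hwf.min_mem _ hne, ?_⟩⟩
      intro ζ hζ hcon
      exact hwf.not_lt_min _ hcon hζ
    · exact ⟨Classical.choice inferInstance, fun h => absurd h hx⟩
  choose st hst using hst
  have hnew : ∀ x, Sum.inl x ∈ (⋃ ξ, (D ξ).1.1) → fresh 𝒮 𝓛 x → newAt 𝒮 D 𝓛 (st x) x := by
    intro x hx hf
    exact ⟨(hst x hx).1, (hst x hx).2, hf⟩
  have hfr : ∀ x, Sum.inl x ∈ (⋃ ξ, (D ξ).1.1) → fresh 𝒮 𝓛 x →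
      fresh 𝒮 (PP 𝒮 D (st x) :: 𝓛) x := by
    intro x hx hf
    exact newAt_fresh 𝒮 D 𝓛 b h𝓛 (st x) (fun ζ _ => hs ζ) x (hnew x hx hf)
  have hstz : ∀ ξ x, newAt 𝒮 D 𝓛 ξ x → st x = ξ := by
    intro ξ x hx
    have hxM : Sum.inl x ∈ (⋃ ξ, (D ξ).1.1) := mem_iUnion.2 ⟨ξ, hx.1⟩
    rcases lt_trichotomy (st x) ξ with h | h | h
    · exact absurd (hst x hxM).1 (hx.2.1 _ h)
    · exact h
    · exact absurd hx.1 ((hst x hxM).2 _ h)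
  refine ⟨(⟨⋃ ξ, (D ξ).1.1, hMcl⟩, fun x => (D (st x)).2.1 x, fun x => (D (st x)).2.2 x), rfl,
    ⟨?_, ?_, ?_, ?_, ?_, ?_, ?_⟩⟩
  · intro x hx hf
    exact (hs (st x)).good.pos x (hst x hx).1 (hfr x hx hf)
  · intro x hx hf k hk
    exact mem_iUnion.2 ⟨st x, (hs (st x)).good.par x (hst x hx).1 (hfr x hx hf) k hk⟩
  · intro x hx hf
    exact (hs (st x)).good.sm x (hst x hx).1 (hfr x hx hf)
  · intro x hx hf N hN u hu
    exact (hs (st x)).good.av x (hst x hx).1 (hfr x hx hf) N (List.mem_cons_of_mem _ hN) u hu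
  · intro x hx hf N hN hcon
    apply (hs (st x)).good.bd x (hst x hx).1 (hfr x hx hf) N (List.mem_cons_of_mem _ hN)
    refine Bd_mono 𝒮 N b _ x ?_ hcon
    intro u hu
    have hnf : ¬ fresh 𝒮 𝓛 u := fun h => h N hN hu
    unfold bx
    rw [if_neg hnf]
    exact subset_union_left
  · intro x hx hf
    refine (((hs (st x)).good.fin x (hst x hx).1 (hfr x hx hf)).union
        (Bd_finite 𝒮 (PP 𝒮 D (st x)) (bx 𝒮 D 𝓛 b (st x)) x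
          ((hs (st x)).fin _ List.mem_cons_self))).subset ?_
    rintro m ⟨z, hz, hzf, hnb, rfl⟩
    rcases key 𝒮 D 𝓛 b h𝓛 (st x) (st z) (fun ζ _ => hs ζ) (fun ζ _ => hs ζ) x z
      (hnew x hx hf) (hnew z hz hzf) hnb with heq | ⟨_, h2⟩
    · left
      have h1 := (hst z hz).1
      have h2 := hfr z hz hzf
      simp only at hnb ⊢
      rw [heq] at h1 h2 hnb ⊢
      exact ⟨z, h1, h2, hnb, rfl⟩
    · exact Or.inr h2
  · intro x hx hf z hz hzf hne hnb heqc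
    rcases key 𝒮 D 𝓛 b h𝓛 (st x) (st z) (fun ζ _ => hs ζ) (fun ζ _ => hs ζ) x z
      (hnew x hx hf) (hnew z hz hzf) hnb with heq | ⟨_, h2⟩
    · have h1 := (hst z hz).1
      have h2 := hfr z hz hzf
      simp only at hnb heqc
      rw [heq] at h1 h2 hnb heqc
      exact (hs (st x)).good.ne x (hst x hx).1 (hfr x hx hf) z h1 h2 hne hnb heqc
    · simp only at heqc
      rw [heqc] at h2
      exact (hs (st x)).good.bd x (hst x hx).1 (hfr x hx hf) _ List.mem_cons_self h2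

end chain

end Pool.H262.CE
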