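import Pool.Agent.H262.CE2

set_option autoImplicit false

namespace Pool.H262.CE

open Set Cardinal Pool.H262.LS

variable {X K : Type} (𝒮 : Sz X K)

/-- the extension property for a set of generators -/
def Ext (A : Set (X ⊕ K)) : Prop :=
  ∀ (𝓛 : List (CS 𝒮)) (b : X → Set ℕ), 𝓛 ≠ [] →
    (∀ N ∈ 𝓛, ∀ u, Sum.inl u ∈ N.1 → (b u).Finite) →
    ∃ d : Dt 𝒮, A ⊆ d.1.1 ∧ #d.1.1 ≤ max #A ℵ₀ ∧ Good 𝒮 𝓛 b d

theorem ext_step (κ : Cardinal.{0}) (hκ : ℵ₀ < κ)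
    (ih : ∀ A : Set (X ⊕ K), #A < κ → Ext 𝒮 A) (A : Set (X ⊕ K)) (hA : #A = κ) :
    Ext 𝒮 A := by
  classical
  intro 𝓛 b h𝓛 hb
  obtain ⟨r, hr, hord⟩ := Cardinal.exists_ord_eq A
  letI : LinearOrder A := linearOrderOfSTO r
  haveI : WellFoundedLT A := ⟨hr.wf⟩
  haveI : Nonempty A := by
    rw [← Cardinal.mk_ne_zero_iff, hA]
    exact (lt_trans Cardinal.aleph0_pos hκ).ne'
  have hIio : ∀ ξ : A, #(Iio ξ) < κ := by
    intro ξ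
    rw [← hA]
    exact Cardinal.mk_Iio_lt ξ hord
  let dflt : Dt 𝒮 := (⟨Set.univ, fun F _ => subset_univ _⟩, fun _ => 0, fun _ => (∅, 1))
  let G : Set (X ⊕ K) → List (CS 𝒮) → (X → Set ℕ) → Dt 𝒮 := fun A' 𝓛' b' =>
    if h : ∃ d : Dt 𝒮, A' ⊆ d.1.1 ∧ #d.1.1 ≤ max #A' ℵ₀ ∧ Good 𝒮 𝓛' b' d then h.choose else dflt
  have hG : ∀ (A' : Set (X ⊕ K)) (𝓛' : List (CS 𝒮)) (b' : X → Set ℕ), #A' < κ → 𝓛' ≠ [] →
      (∀ N ∈ 𝓛', ∀ u, Sum.inl u ∈ N.1 → (b' u).Finite) →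
      A' ⊆ (G A' 𝓛' b').1.1 ∧ #(G A' 𝓛' b').1.1 ≤ max #A' ℵ₀ ∧ Good 𝒮 𝓛' b' (G A' 𝓛' b') := by
    intro A' 𝓛' b' h1 h2 h3
    have h := ih A' h1 𝓛' b' h2 h3
    have hGe : G A' 𝓛' b' = h.choose := dif_pos h
    rw [hGe]
    exact h.choose_spec
  let body : ∀ ξ : A, (∀ η : A, η < ξ → Dt 𝒮) → Dt 𝒮 := fun ξ prev =>
    G ({ξ.1} ∪ ⋃ η, ⋃ h : η < ξ, (prev η h).1.1)
      (⟨hull 𝒮.Φ (⋃ η, ⋃ h : η < ξ, (prev η h).1.1), hull_cl _ _⟩ :: 𝓛)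
      (fun u => (if fresh 𝒮 𝓛 u then ∅ else b u) ∪
        {m | ∃ η, ∃ h : η < ξ, ∃ z, (Sum.inl z ∈ (prev η h).1.1 ∧
          (∀ ζ, ∀ h' : ζ < η, Sum.inl z ∉ (prev ζ (h'.trans h)).1.1) ∧ fresh 𝒮 𝓛 z) ∧
          u ∈ nb 𝒮.f ((prev η h).2.2 z) z ∧ (prev η h).2.1 z = m})
  let D : A → Dt 𝒮 := WellFounded.fix (wellFounded_lt : WellFounded ((· < ·) : A → A → Prop)) body
  have hD : ∀ ξ, D ξ = G ({ξ.1} ∪ UU 𝒮 D ξ) (PP 𝒮 D ξ :: 𝓛) (bx 𝒮 D 𝓛 b ξ) := by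
    intro ξ
    exact WellFounded.fix_eq _ _ ξ
  have hcardD : ∀ ξ : A, (SS 𝒮 D 𝓛 b ξ) ∧ #(D ξ).1.1 ≤ max #(Iio ξ) ℵ₀ ∧ ξ.1 ∈ (D ξ).1.1 := by
    intro ξ
    induction ξ using WellFoundedLT.induction with
    | ind ξ ihξ =>
      have hs : ∀ η, η < ξ → SS 𝒮 D 𝓛 b η := fun η hη => (ihξ η hη).1
      have hfin := bx_fin 𝒮 D 𝓛 b h𝓛 hb ξ hs
      have hcU : #(UU 𝒮 D ξ) ≤ max #(Iio ξ) ℵ₀ := by
        have hUeq : UU 𝒮 D ξ = ⋃ η : Iio ξ, (D η.1).1.1 := by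
          ext x
          simp only [UU, mem_iUnion]
          constructor
          · rintro ⟨η, hη, hx⟩
            exact ⟨⟨η, hη⟩, hx⟩
          · rintro ⟨η, hx⟩
            exact ⟨η.1, η.2, hx⟩
        rw [hUeq]
        refine (Cardinal.mk_iUnion_le _).trans ?_
        refine Cardinal.mul_le_of_le (le_max_right _ _) (le_max_left _ _) (ciSup_le' ?_)
        intro η
        refine (ihξ η.1 η.2).2.1.trans ?_
        refine max_le_max ?_ le_rfl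
        exact Cardinal.mk_le_mk_of_subset (Iio_subset_Iio (le_of_lt η.2))
      have hcA : #(({ξ.1} ∪ UU 𝒮 D ξ : Set (X ⊕ K))) ≤ max #(Iio ξ) ℵ₀ := by
        refine (Cardinal.mk_union_le _ _).trans ?_
        refine Cardinal.add_le_of_le (le_max_right _ _) ?_ hcU
        rw [Cardinal.mk_singleton]
        exact (Cardinal.one_le_aleph0).trans (le_max_right _ _)
      have hlt : #(({ξ.1} ∪ UU 𝒮 D ξ : Set (X ⊕ K))) < κ :=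
        lt_of_le_of_lt hcA (max_lt (hIio ξ) hκ)
      obtain ⟨g1, g2, g3⟩ := hG _ (PP 𝒮 D ξ :: 𝓛) (bx 𝒮 D 𝓛 b ξ) hlt (List.cons_ne_nil _ _) hfin
      rw [← hD ξ] at g1 g2 g3
      refine ⟨⟨subset_union_right.trans g1, hfin, g3⟩, ?_, g1 (Or.inl rfl)⟩
      exact g2.trans (max_le hcA (le_max_right _ _))
  obtain ⟨d, hd1, hd2⟩ := union_good 𝒮 D 𝓛 b h𝓛 (fun ξ => (hcardD ξ).1)
  refine ⟨d, ?_, ?_, hd2⟩
  · intro a ha
    rw [hd1]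
    exact mem_iUnion.2 ⟨⟨a, ha⟩, (hcardD ⟨a, ha⟩).2.2⟩
  · rw [hd1, hA]
    refine (Cardinal.mk_iUnion_le _).trans ?_
    refine Cardinal.mul_le_of_le (le_max_right _ _) ?_ (ciSup_le' ?_)
    · rw [hA]; exact le_max_left _ _
    · intro ξ
      refine (hcardD ξ).2.1.trans ?_
      exact max_le_max (hIio ξ).le le_rfl

theorem ext_all (A : Set (X ⊕ K)) : Ext 𝒮 A := by
  classical
  obtain ⟨κ, hκ⟩ : ∃ κ : Cardinal.{0}, #A = κ := ⟨_, rfl⟩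
  induction κ using WellFoundedLT.induction generalizing A with
  | ind κ ih =>
    by_cases hle : κ ≤ ℵ₀
    · intro 𝓛 b _ hb
      have hA : A.Countable := by
        rw [← Cardinal.le_aleph0_iff_set_countable, hκ]
        exact hle
      obtain ⟨d, h1, h2, h3⟩ := base 𝒮 A hA 𝓛 b hb
      exact ⟨d, h1, h2.trans (le_max_right _ _), h3⟩
    · push Not at hle
      exact ext_step 𝒮 κ hle (fun A' hA' => ih _ hA' A' rfl) A hκ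

/-- final colouring -/
theorem colouring : ∃ (H : Set X) (c : X → ℕ) (E : X → Finset K × ℝ), H.Countable ∧
    (∀ x, x ∉ H → 0 < (E x).2) ∧
    ∀ x z, x ∉ H → z ∉ H → z ≠ x → x ∈ nb 𝒮.f (E z) z → c z ≠ c x := by
  classical
  let H0 : CS 𝒮 := ⟨hull 𝒮.Φ ∅, hull_cl _ _⟩
  have hH0 : (hull 𝒮.Φ ∅).Countable := by
    rw [← Cardinal.le_aleph0_iff_set_countable]
    refine (hull_card 𝒮.Φ 𝒮.hΦ ∅).trans (max_le ?_ le_rfl)
    rw [Cardinal.le_aleph0_iff_set_countable]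
    exact countable_empty
  obtain ⟨d, hd1, _, hd2⟩ := ext_all 𝒮 Set.univ [H0] (fun _ => ∅) (by simp)
    (fun _ _ _ _ => finite_empty)
  have hfr : ∀ x : X, x ∉ {x : X | Sum.inl x ∈ hull 𝒮.Φ ∅} → fresh 𝒮 [H0] x := by
    intro x hx N hN
    rw [List.mem_singleton] at hN
    rw [hN]
    exact hx
  refine ⟨{x : X | Sum.inl x ∈ hull 𝒮.Φ ∅}, d.2.1, d.2.2, hH0.preimage Sum.inl_injective, ?_, ?_⟩
  · intro x hx
    exact hd2.pos x (hd1 trivial) (hfr x hx)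
  · intro x z hx hz hne hnb
    exact hd2.ne x (hd1 trivial) (hfr x hx) z (hd1 trivial) (hfr z hz) hne hnb

end Pool.H262.CE
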