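import Pool.Agent.H262.LS3

set_option autoImplicit false

namespace Pool.H262.LS

open Set Topology

section rank
variable {L : Type} [TopologicalSpace L]

/-- isolated points of a set -/
def iso (S : Set L) : Set L := {x | ∃ U : Set L, IsOpen U ∧ U ∩ S = {x}}

/-- iterated derivatives -/
noncomputable def cb (L : Type) [TopologicalSpace L] (α : Ordinal.{0}) : Set L :=
  {x | ∀ β : Set.Iio α, x ∉ iso (cb L β.1)}
termination_by α
decreasing_by exact β.2

theorem mem_cb (α : Ordinal.{0}) (x : L) : x ∈ cb L α ↔ ∀ β < α, x ∉ iso (cb L β) := by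
  rw [cb]
  constructor
  · intro h β hβ
    exact h ⟨β, hβ⟩
  · intro h β
    exact h β.1 β.2

theorem exists_rank (hsc : ∀ S : Set L, S.Nonempty → ∃ x ∈ S, ∃ U : Set L, IsOpen U ∧ U ∩ S = {x}) :
    ∃ rk : L → Ordinal.{0}, ∀ x, ∃ U : Set L, IsOpen U ∧ x ∈ U ∧ ∀ u ∈ U, u ≠ x → rk u < rk x := by
  classical
  have hall : ∀ x : L, ∃ β : Ordinal.{0}, x ∈ iso (cb L β) := by
    by_contra hcon
    push Not at hcon
    obtain ⟨x, hx⟩ := hcon
    obtain ⟨z, hz, U, hU, hUz⟩ := hsc {x | ∀ β : Ordinal.{0}, x ∉ iso (cb L β)} ⟨x, hx⟩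
    have h1 : ∀ u : L, ∃ β : Ordinal.{0}, u ∈ U → u ≠ z → u ∈ iso (cb L β) := by
      intro u
      by_cases hu : u ∈ U ∧ u ≠ z
      · by_contra hcon
        push Not at hcon
        have : u ∈ U ∩ {x | ∀ β : Ordinal.{0}, x ∉ iso (cb L β)} := by
          refine ⟨hu.1, ?_⟩
          intro β
          exact (hcon β).2.2
        rw [hUz] at this
        exact hu.2 this
      · refine ⟨0, fun h1 h2 => absurd ⟨h1, h2⟩ hu⟩
    choose b hb using h1
    have hbdd : BddAbove (Set.range b) := Ordinal.bddAbove_range b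
    apply hz (Order.succ (⨆ u, b u))
    refine ⟨U, hU, ?_⟩
    ext u
    constructor
    · rintro ⟨hu1, hu2⟩
      by_contra hne
      have hne' : u ≠ z := hne
      rw [mem_cb] at hu2
      exact hu2 (b u) (Order.lt_succ_of_le (le_ciSup hbdd u)) (hb u hu1 hne')
    · rintro rfl
      have hzU : u ∈ U ∩ {x | ∀ β : Ordinal.{0}, x ∉ iso (cb L β)} := by rw [hUz]; rfl
      refine ⟨hzU.1, ?_⟩
      rw [mem_cb]
      intro β _
      exact hz β
  have hmin : ∀ x : L, ∃ β : Ordinal.{0}, x ∈ iso (cb L β) ∧ ∀ γ < β, x ∉ iso (cb L γ) := by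
    intro x
    have hwf : WellFounded ((· < ·) : Ordinal.{0} → Ordinal.{0} → Prop) := wellFounded_lt
    have hne : {β : Ordinal.{0} | x ∈ iso (cb L β)}.Nonempty := hall x
    refine ⟨hwf.min _ hne, hwf.min_mem _ hne, ?_⟩
    intro γ hγ hx
    exact hwf.not_lt_min _ hx hγ
  choose rk hrk1 hrk2 using hmin
  refine ⟨rk, ?_⟩
  intro x
  obtain ⟨U, hU, hUx⟩ := hrk1 x
  have hxU : x ∈ U ∩ cb L (rk x) := by rw [hUx]; rfl
  refine ⟨U, hU, hxU.1, ?_⟩
  intro u hu hne
  have hnot : u ∉ cb L (rk x) := by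
    intro h
    have : u ∈ U ∩ cb L (rk x) := ⟨hu, h⟩
    rw [hUx] at this
    exact hne this
  rw [mem_cb] at hnot
  push Not at hnot
  obtain ⟨β, hβ, huβ⟩ := hnot
  by_contra hcon
  push Not at hcon
  exact hrk2 u β (lt_of_lt_of_le hβ hcon) huβ

end rank

section main
variable {L : Type} [TopologicalSpace L] {𝒦 : Set (L → ℝ)}

/-- codes for closed sets -/
abbrev Con (𝒦 : Set (L → ℝ)) := L ⊕ (𝒦 × ℚ × ℚ)

/-- parameter of a code -/
def par : Con 𝒦 → L ⊕ 𝒦
  | .inl x => .inl x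
  | .inr p => .inr p.1

/-- closed set of a code -/
def cset (W : L → Set L) : Con 𝒦 → Set L
  | .inl x => W x
  | .inr p => {u | ((p.2.1 : ℚ) : ℝ) ≤ p.1.1 u ∧ p.1.1 u ≤ ((p.2.2 : ℚ) : ℝ)}

/-- closed set of a list of codes -/
def CC (W : L → Set L) (l : List (Con 𝒦)) : Set L := {u | ∀ c ∈ l, u ∈ cset W c}

theorem CC_closed (W : L → Set L) (hW : ∀ x, IsClosed (W x)) (hk : ∀ k ∈ 𝒦, Continuous k)
    (l : List (Con 𝒦)) : IsClosed (CC W l) := by
  have : CC W l = ⋂ c ∈ l, cset W c := by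
    ext u
    simp [CC]
  rw [this]
  refine isClosed_iInter fun c => isClosed_iInter fun _ => ?_
  cases c with
  | inl x => exact hW x
  | inr p =>
    exact (isClosed_le continuous_const (hk _ p.1.2)).inter
      (isClosed_le (hk _ p.1.2) continuous_const)

theorem par_countable (E : Finset (L ⊕ 𝒦)) :
    {l : List (Con 𝒦) | ∀ c ∈ l, par c ∈ E}.Countable := by
  classical
  have hT : {c : Con 𝒦 | par c ∈ E}.Countable := by
    have h1 : {c : Con 𝒦 | par c ∈ E} ⊆ ⋃ e ∈ E, par ⁻¹' {e} := by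
      intro c hc
      rw [mem_iUnion₂]
      exact ⟨par c, hc, rfl⟩
    refine Countable.mono h1 ?_
    refine E.countable_toSet.biUnion ?_
    intro e _
    cases e with
    | inl x =>
      refine Countable.mono ?_ (countable_singleton (Sum.inl x : Con 𝒦))
      intro c hc
      cases c with
      | inl y =>
        have : (Sum.inl y : L ⊕ 𝒦) = Sum.inl x := hc
        rw [Sum.inl.injEq] at this
        rw [this]; rfl
      | inr p =>
        have : (Sum.inr p.1 : L ⊕ 𝒦) = Sum.inl x := hc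
        exact absurd this (by simp)
    | inr k =>
      refine Countable.mono ?_ (countable_range (fun q : ℚ × ℚ => (Sum.inr (k, q) : Con 𝒦)))
      intro c hc
      cases c with
      | inl y =>
        have : (Sum.inl y : L ⊕ 𝒦) = Sum.inr k := hc
        exact absurd this (by simp)
      | inr p =>
        have : (Sum.inr p.1 : L ⊕ 𝒦) = Sum.inr k := hc
        rw [Sum.inr.injEq] at this
        refine ⟨p.2, ?_⟩
        rw [← this]
  haveI : Countable {c : Con 𝒦 | par c ∈ E} := hT.to_subtype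
  refine Countable.mono ?_ (countable_range
    (fun l : List {c : Con 𝒦 | par c ∈ E} => l.map Subtype.val))
  intro l hl
  refine ⟨l.attach.map (fun c => ⟨c.1, hl c.1 c.2⟩), ?_⟩
  simp only [List.map_map]
  exact List.attach_map_subtype_val l

/-- countable dense traces -/
theorem exists_K0 (𝒦 : Set (L → ℝ)) (Z : Finset L) : ∃ K0 : Set 𝒦, K0.Countable ∧
    ∀ k : 𝒦, ∀ ε : ℝ, 0 < ε → ∃ k0 ∈ K0, ∀ z ∈ Z, |k0.1 z - k.1 z| < ε := by
  classical
  let ρ : 𝒦 → (Z → ℝ) := fun k z => k.1 z.1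
  obtain ⟨D, hDc, hDd⟩ := TopologicalSpace.exists_countable_dense (Set.range ρ)
  choose s hs using fun d : Set.range ρ => d.2
  refine ⟨s '' D, hDc.image _, ?_⟩
  intro k ε hε
  obtain ⟨d, hd, hdist⟩ := Metric.mem_closure_iff.1 (hDd ⟨ρ k, k, rfl⟩) ε hε
  refine ⟨s d, ⟨d, hd, rfl⟩, ?_⟩
  intro z hz
  have h1 : dist (ρ k) d.1 < ε := hdist
  have h2 := (dist_pi_lt_iff hε).1 h1 ⟨z, hz⟩
  rw [← hs d, Real.dist_eq, abs_sub_comm] at h2
  exact h2

theorem exists_sy [LindelofSpace L] [RegularSpace L]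
    (hsc : ∀ S : Set L, S.Nonempty → ∃ x ∈ S, ∃ U : Set L, IsOpen U ∧ U ∩ S = {x})
    (hc : IsCompact 𝒦) (hk : ∀ k ∈ 𝒦, Continuous k) : Nonempty (Sy L 𝒦) := by
  classical
  obtain ⟨rk, hrk⟩ := exists_rank hsc
  have hW : ∀ x : L, ∃ W : Set L, IsClosed W ∧ W ∈ 𝓝 x ∧ ∀ u ∈ W, u ≠ x → rk u < rk x := by
    intro x
    obtain ⟨U, hU, hxU, hUr⟩ := hrk x
    obtain ⟨W, hW1, hW2, hW3⟩ := exists_mem_nhds_isClosed_subset (hU.mem_nhds hxU)
    exact ⟨W, hW2, hW1, fun u hu => hUr u (hW3 hu)⟩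
  choose W hWc hWn hWr using hW
  have hZ : ∀ l : List (Con 𝒦), ∃ Z : Set L, Z.Countable ∧ (∀ x ∈ Z, x ∈ CC W l) ∧
      CC W l ⊆ ⋃ x ∈ Z, W x := by
    intro l
    exact (CC_closed W hWc hk l).isLindelof.elim_nhds_subcover W (fun x _ => hWn x)
  choose Z hZc hZ1 hZ2 using hZ
  choose K0 hK0c hK0 using exists_K0 𝒦
  let Φ : Finset (L ⊕ 𝒦) → Set (L ⊕ 𝒦) := fun E =>
    (⋃ l ∈ {l : List (Con 𝒦) | ∀ c ∈ l, par c ∈ E}, Sum.inl '' (Z l)) ∪ Sum.inr '' (K0 E.toLeft)
  refine ⟨⟨Φ, ?_, ?_, ?_, hc⟩⟩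
  · intro E
    exact ((par_countable E).biUnion fun l _ => (hZc l).image _).union ((hK0c _).image _)
  · intro N hN y
    have hcl : ∀ l : List (Con 𝒦), (∀ c ∈ l, par c ∈ N) → ∀ x ∈ Z l, Sum.inl x ∈ N := by
      intro l hl x hx
      have hsub : ((l.map par).toFinset : Set (L ⊕ 𝒦)) ⊆ N := by
        intro e he
        rw [Finset.mem_coe, List.mem_toFinset, List.mem_map] at he
        obtain ⟨c, hc, rfl⟩ := he
        exact hl c hc
      apply hN _ hsub
      left
      rw [mem_iUnion₂]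
      refine ⟨l, ?_, x, hx, rfl⟩
      intro c hc
      rw [List.mem_toFinset, List.mem_map]
      exact ⟨c, hc, rfl⟩
    let R : Set L := {x | Sum.inl x ∈ N ∧ ∃ l : List (Con 𝒦), (∀ c ∈ l, par c ∈ N) ∧ y ∈ CC W l ∧
      x ∈ CC W l ∧ ∀ u ∈ CC W l, u ≠ x → rk u < rk x}
    have hstep : ∀ l : List (Con 𝒦), (∀ c ∈ l, par c ∈ N) → y ∈ CC W l →
        ∃ x ∈ R, x ∈ CC W l := by
      intro l hl hy
      have h1 := hZ2 l hy
      rw [mem_iUnion₂] at h1
      obtain ⟨x, hx, hyx⟩ := h1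
      have hxN := hcl l hl x hx
      refine ⟨x, ⟨hxN, Sum.inl x :: l, ?_, ?_, ?_, ?_⟩, hZ1 l x hx⟩
      · intro c hc
        rcases List.mem_cons.1 hc with rfl | hc
        · exact hxN
        · exact hl c hc
      · intro c hc
        rcases List.mem_cons.1 hc with rfl | hc
        · exact hyx
        · exact hy c hc
      · intro c hc
        rcases List.mem_cons.1 hc with rfl | hc
        · exact mem_of_mem_nhds (hWn x)
        · exact hZ1 l x hx c hc
      · intro u hu hne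
        exact hWr x u (hu (Sum.inl x) (List.mem_cons_self)) hne
    have hRne : R.Nonempty := by
      obtain ⟨x, hx, _⟩ := hstep [] (by simp) (by intro c hc; simp at hc)
      exact ⟨x, hx⟩
    have hwf : WellFounded (fun a b : L => rk a < rk b) := InvImage.wf rk wellFounded_lt
    obtain ⟨hxN, l, hl, hyl, hxl, hrl⟩ := hwf.min_mem R hRne
    refine ⟨hwf.min R hRne, hxN, ?_⟩
    intro k hkN
    by_contra hne
    -- a rational interval separating the two values
    have hint : ∃ a b : ℚ, (a : ℝ) ≤ k.1 y ∧ k.1 y ≤ (b : ℝ) ∧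
        ¬ ((a : ℝ) ≤ k.1 (hwf.min R hRne) ∧ k.1 (hwf.min R hRne) ≤ (b : ℝ)) := by
      rcases lt_or_gt_of_ne hne with h | h
      · obtain ⟨b, hb1, hb2⟩ := exists_rat_btwn h
        obtain ⟨a, ha⟩ := exists_rat_lt (k.1 y)
        exact ⟨a, b, ha.le, hb1.le, fun hh => absurd hh.2 (not_le.2 hb2)⟩
      · obtain ⟨a, ha1, ha2⟩ := exists_rat_btwn h
        obtain ⟨b, hb⟩ := exists_rat_gt (k.1 y)
        exact ⟨a, b, ha2.le, hb.le, fun hh => absurd hh.1 (not_le.2 ha1)⟩
    obtain ⟨a, b, ha, hb, hab⟩ := hint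
    have hl1 : ∀ c ∈ (Sum.inr (k, a, b) :: l : List (Con 𝒦)), par c ∈ N := by
      intro c hc
      rcases List.mem_cons.1 hc with rfl | hc
      · exact hkN
      · exact hl c hc
    have hy1 : y ∈ CC W (Sum.inr (k, a, b) :: l : List (Con 𝒦)) := by
      intro c hc
      rcases List.mem_cons.1 hc with rfl | hc
      · exact ⟨ha, hb⟩
      · exact hyl c hc
    obtain ⟨x', hx'R, hx'⟩ := hstep _ hl1 hy1
    have hx'l : x' ∈ CC W l := fun c hc => hx' c (List.mem_cons_of_mem _ hc)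
    have hx'ne : x' ≠ hwf.min R hRne := by
      intro heq
      have := hx' (Sum.inr (k, a, b)) (List.mem_cons_self)
      rw [heq] at this
      exact hab this
    exact hwf.not_lt_min R hx'R (hrl x' hx'l hx'ne)
  · intro N hN k
    have hclK : IsCompact (closure (KN N)) := by
      refine IsCompact.of_isClosed_subset hc isClosed_closure ?_
      have := KN_sub N
      rwa [hc.isClosed.closure_eq] at this
    let LN := {l : L // Sum.inl l ∈ N}
    let ρ : (L → ℝ) → (LN → ℝ) := fun f l => f l.1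
    have hρ : Continuous ρ := continuous_pi fun l => continuous_apply l.1
    have himg : IsClosed (ρ '' closure (KN N)) := (hclK.image hρ).isClosed
    have hmem : ρ k.1 ∈ closure (ρ '' closure (KN N)) := by
      rw [mem_closure_iff]
      intro O hO hkO
      obtain ⟨I, u, hu1, hu2⟩ := isOpen_pi_iff.1 hO _ hkO
      have hε : ∀ i : LN, ∃ ε : ℝ, 0 < ε ∧ (i ∈ I → ∀ t : ℝ, |t - k.1 i.1| < ε → t ∈ u i) := by
        intro i
        by_cases hi : i ∈ I
        · obtain ⟨ε, hε, hball⟩ := Metric.isOpen_iff.1 (hu1 i hi).1 _ (hu1 i hi).2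
          refine ⟨ε, hε, fun _ t ht => hball ?_⟩
          rw [Metric.mem_ball, Real.dist_eq]
          exact ht
        · exact ⟨1, one_pos, fun h => absurd h hi⟩
      choose e he1 he2 using hε
      obtain ⟨ε, hε, hεI⟩ : ∃ ε : ℝ, 0 < ε ∧ ∀ i ∈ I, ε ≤ e i := by
        rcases I.eq_empty_or_nonempty with hI | hI
        · exact ⟨1, one_pos, by rw [hI]; simp⟩
        · refine ⟨I.inf' hI e, ?_, fun i hi => Finset.inf'_le e hi⟩
          rw [Finset.lt_inf'_iff]
          exact fun i _ => he1 i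
      obtain ⟨k0, hk01, hk02⟩ := hK0 (I.image Subtype.val) k ε hε
      have hk0N : Sum.inr k0 ∈ N := by
        have hsub : ((((I.image Subtype.val).map ⟨Sum.inl, Sum.inl_injective⟩ :
            Finset (L ⊕ 𝒦))) : Set (L ⊕ 𝒦)) ⊆ N := by
          intro w hw
          rw [Finset.mem_coe, Finset.mem_map] at hw
          obtain ⟨z, hz, rfl⟩ := hw
          rw [Finset.mem_image] at hz
          obtain ⟨i, _, rfl⟩ := hz
          exact i.2
        apply hN _ hsub
        right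
        refine ⟨k0, ?_, rfl⟩
        have heq : ((I.image Subtype.val).map ⟨Sum.inl, Sum.inl_injective⟩ :
            Finset (L ⊕ 𝒦)).toLeft = I.image Subtype.val := by
          ext z
          rw [Finset.mem_toLeft, Finset.mem_map]
          constructor
          · rintro ⟨z', hz', h⟩
            have : z' = z := Sum.inl_injective h
            rw [← this]; exact hz'
          · intro hz
            exact ⟨z, hz, rfl⟩
        rw [heq]
        exact hk01
      refine ⟨ρ k0.1, hu2 ?_, ⟨k0.1, subset_closure ⟨k0, hk0N, rfl⟩, rfl⟩⟩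
      intro i hi
      apply he2 i hi
      exact lt_of_lt_of_le (hk02 i.1 (Finset.mem_image_of_mem _ hi)) (hεI i hi)
    rw [himg.closure_eq] at hmem
    obtain ⟨k', hk', hk'eq⟩ := hmem
    refine ⟨k', hk', ?_⟩
    intro l hl
    exact congrFun hk'eq ⟨l, hl⟩

/-- Main theorem: countable covers of the function space by sets of small local diameter. -/
theorem sld_main [LindelofSpace L] [RegularSpace L]
    (hsc : ∀ S : Set L, S.Nonempty → ∃ x ∈ S, ∃ U : Set L, IsOpen U ∧ U ∩ S = {x})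
    (hc : IsCompact 𝒦) (hk : ∀ k ∈ 𝒦, Continuous k) (ε : ℝ) (hε : 0 < ε) :
    ∃ c : GG 𝒦 → ℕ, ∀ g : GG 𝒦, ∀ᶠ h in 𝓝 g, c h = c g → ∀ x, |h.1 x - g.1 x| ≤ ε := by
  obtain ⟨𝒮⟩ := exists_sy hsc hc hk
  have hM : Cl 𝒮.Φ Set.univ := fun F _ => subset_univ _
  obtain ⟨c, hcc⟩ := sld_all 𝒮 ⟨Set.univ, hM⟩ ε hε
  refine ⟨c, fun g => ?_⟩
  filter_upwards [hcc g] with h hh heq x
  have := hh heq x
  rwa [rt_univ 𝒮 ⟨Set.univ, hM⟩ rfl x] at this

end main

end Pool.H262.LS
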