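import Pool.Agent.H262.CE3
import Pool.Agent.H262.LS4

set_option autoImplicit false

namespace Pool.H262.CE

open Set Topology Pool.H262.LS

section basics
variable {X K : Type} [TopologicalSpace X] {f : X → K → ℝ}

theorem nb_basis (hf : Topology.IsInducing f) (x : X) (U : Set X) (hU : U ∈ 𝓝 x) :
    ∃ (A : Finset K) (ε : ℝ), 0 < ε ∧ nb f (A, ε) x ⊆ U := by
  classical
  rw [hf.nhds_eq_comap, Filter.mem_comap] at hU
  obtain ⟨V', hV', hVU⟩ := hU
  obtain ⟨V, hVV', hV, hxV⟩ := mem_nhds_iff.1 hV'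
  obtain ⟨I, u, hu1, hu2⟩ := isOpen_pi_iff.1 hV _ hxV
  have hε : ∀ i : K, ∃ ε : ℝ, 0 < ε ∧ (i ∈ I → ∀ t : ℝ, |t - f x i| < ε → t ∈ u i) := by
    intro i
    by_cases hi : i ∈ I
    · obtain ⟨ε, hε, hball⟩ := Metric.isOpen_iff.1 (hu1 i hi).1 _ (hu1 i hi).2
      refine ⟨ε, hε, fun _ t ht => hball ?_⟩
      rw [Metric.mem_ball, Real.dist_eq]
      exact ht
    · exact ⟨1, one_pos, fun h => absurd h hi⟩
  choose e' he1 he2 using hε
  obtain ⟨ε, hε, hεI⟩ : ∃ ε : ℝ, 0 < ε ∧ ∀ i ∈ I, ε ≤ e' i := by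
    rcases I.eq_empty_or_nonempty with hI | hI
    · exact ⟨1, one_pos, by rw [hI]; simp⟩
    · refine ⟨I.inf' hI e', ?_, fun i hi => Finset.inf'_le e' hi⟩
      rw [Finset.lt_inf'_iff]
      exact fun i _ => he1 i
  refine ⟨I, ε, hε, ?_⟩
  intro y hy
  apply hVU
  apply hVV'
  apply hu2
  intro i hi
  exact he2 i hi _ (lt_of_lt_of_le (hy i hi) (hεI i hi))

theorem nb_open (hf : Continuous f) (p : Finset K × ℝ) (x : X) : IsOpen (nb f p x) := by
  classical
  have : nb f p x = ⋂ k ∈ p.1, {u | |f u k - f x k| < p.2} := by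
    ext u
    simp [nb]
  rw [this]
  refine isOpen_biInter_finset fun k _ => ?_
  have hk : Continuous (fun u => f u k) := (continuous_apply k).comp hf
  exact isOpen_lt ((hk.sub continuous_const).abs) continuous_const

theorem countable_lists (T : Set (K × ℚ × ℚ)) (hT : T.Countable) :
    {l : List (K × ℚ × ℚ) | ∀ c ∈ l, c ∈ T}.Countable := by
  classical
  haveI : Countable T := hT.to_subtype
  refine Countable.mono ?_ (countable_range (fun l : List T => l.map Subtype.val))
  intro l hl
  refine ⟨l.attach.map (fun c => ⟨c.1, hl c.1 c.2⟩), ?_⟩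
  simp only [List.map_map]
  exact List.attach_map_subtype_val l

theorem countable_T (E : Finset (X ⊕ K)) : {c : K × ℚ × ℚ | Sum.inr c.1 ∈ E}.Countable := by
  classical
  have h : {c : K × ℚ × ℚ | Sum.inr c.1 ∈ E} ⊆
      ⋃ k ∈ {k : K | (Sum.inr k : X ⊕ K) ∈ E}, Set.range (fun q : ℚ × ℚ => (k, q)) := by
    intro c hc
    exact mem_iUnion₂.2 ⟨c.1, hc, c.2, rfl⟩
  refine Countable.mono h (Countable.biUnion ?_ fun k _ => countable_range _)
  exact (E.countable_toSet).preimage Sum.inr_injective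

end basics

section main
variable {X K Y : Type} [TopologicalSpace X] [TopologicalSpace K] [TopologicalSpace Y]

/-- rational constraints -/
def sat (f : X → K → ℝ) (l : List (K × ℚ × ℚ)) : Set X :=
  {u | ∀ c ∈ l, ((c.2.1 : ℚ) : ℝ) < f u c.1 ∧ f u c.1 < ((c.2.2 : ℚ) : ℝ)}

theorem exists_sz [CompactSpace K] [Nonempty K] [CompactSpace Y] [T2Space Y]
    (f : X → K → ℝ) (hf : Topology.IsEmbedding f) (hfc : ∀ x, Continuous (f x))
    (e : X → Y) (he : Topology.IsEmbedding e) (hG : IsGδ (Set.range e))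
    (hsc : ∀ S : Set X, S.Nonempty → ∃ x ∈ S, ∃ U : Set X, IsOpen U ∧ U ∩ S = {x}) :
    ∃ 𝒮 : Sz X K, 𝒮.f = f := by
  classical
  obtain ⟨rk, hrk⟩ := exists_rank hsc
  have hk : ∀ k : K, Continuous (fun x => f x k) :=
    fun k => (continuous_apply k).comp hf.continuous
  -- codes of rank neighbourhoods
  have hcode : ∀ x : X, ∃ (p : ℕ) (kk : ℕ → K) (q : ℕ), ∀ u : X,
      (∀ i < p, |f u (kk i) - f x (kk i)| < 1 / ((q : ℝ) + 1)) → u ≠ x → rk u < rk x := by
    intro x
    obtain ⟨U, hU, hxU, hUr⟩ := hrk x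
    obtain ⟨A, ε, hε, hA⟩ := nb_basis hf.isInducing x U (hU.mem_nhds hxU)
    obtain ⟨q, hq⟩ := exists_nat_one_div_lt hε
    let k0 : K := Classical.choice inferInstance
    refine ⟨A.toList.length, fun i => A.toList.getD i k0, q, ?_⟩
    intro u hu hne
    apply hUr u (hA ?_) hne
    intro k hkA
    obtain ⟨i, hi, hik⟩ := List.mem_iff_getElem.1 (Finset.mem_toList.2 hkA)
    have h1 : |f u (A.toList.getD i k0) - f x (A.toList.getD i k0)| < 1 / ((q : ℝ) + 1) := hu i hi
    have h2 : A.toList.getD i k0 = k := by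
      rw [List.getD_eq_getElem _ _ hi, hik]
    rw [h2] at h1
    exact h1.trans hq
  choose p kk q hpkq using hcode
  -- types
  let Z : Finset X → ℕ × ℕ × List ℚ → Set X := fun F τ =>
    {z | p z = τ.1 ∧ q z = τ.2.1 ∧
      (∀ i < τ.1, |f z (kk z i) - ((τ.2.2.getD i 0 : ℚ) : ℝ)| < 1 / ((τ.2.1 : ℝ) + 1) / 8) ∧
      ∀ x ∈ F, ∀ i < τ.1, |f x (kk z i) - f z (kk z i)| < 1 / ((τ.2.1 : ℝ) + 1) / 8}
  have hgex : ∀ (F : Finset X) (τ : ℕ × ℕ × List ℚ), ∃ S : Set X, S.Countable ∧
      ((Z F τ).Nonempty → ∃ z ∈ S, z ∈ Z F τ ∧ ∀ z' ∈ Z F τ, rk z ≤ rk z') := by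
    intro F τ
    by_cases h : (Z F τ).Nonempty
    · have hwf : WellFounded (fun a b : X => rk a < rk b) := InvImage.wf rk wellFounded_lt
      refine ⟨{hwf.min _ h}, countable_singleton _, fun _ => ⟨_, rfl, hwf.min_mem _ h, ?_⟩⟩
      intro z' hz'
      exact not_lt.1 (hwf.not_lt_min _ hz')
    · exact ⟨∅, countable_empty, fun h' => absurd h' h⟩
  choose gS hgSc hgS using hgex
  have hwex : ∀ l : List (K × ℚ × ℚ), ∃ S : Set X, S.Countable ∧
      ((sat f l).Nonempty → ∃ z ∈ S, z ∈ sat f l) := by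
    intro l
    by_cases h : (sat f l).Nonempty
    · obtain ⟨z, hz⟩ := h
      exact ⟨{z}, countable_singleton _, fun _ => ⟨z, rfl, hz⟩⟩
    · exact ⟨∅, countable_empty, fun h' => absurd h' h⟩
  choose wS hwSc hwS using hwex
  let Φ : Finset (X ⊕ K) → Set (X ⊕ K) := fun E =>
    (⋃ τ : ℕ × ℕ × List ℚ, Sum.inl '' gS E.toLeft τ) ∪
    ⋃ l ∈ {l : List (K × ℚ × ℚ) | ∀ c ∈ l, c ∈ {c : K × ℚ × ℚ | (Sum.inr c.1 : X ⊕ K) ∈ E}},
      Sum.inl '' wS l
  have hΦ : ∀ E, (Φ E).Countable := by
    intro E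
    refine (countable_iUnion fun τ => (hgSc _ τ).image _).union ?_
    exact (countable_lists _ (countable_T E)).biUnion fun l _ => (hwSc l).image _
  -- closedness of traces
  have hclosed : ∀ N, Cl Φ N → ∀ z, z ∈ closure {u : X | Sum.inl u ∈ N} → Sum.inl z ∈ N := by
    intro N hN z hz
    by_contra hzN
    set ε : ℝ := 1 / ((q z : ℝ) + 1) with hε
    have hεpos : 0 < ε := by positivity
    have haex : ∀ i : ℕ, ∃ a : ℚ, |f z (kk z i) - (a : ℝ)| < ε / 8 := by
      intro i
      obtain ⟨a, ha1, ha2⟩ := exists_rat_btwn (show f z (kk z i) < f z (kk z i) + ε / 8 by linarith)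
      refine ⟨a, ?_⟩
      rw [abs_lt]
      constructor <;> linarith
    choose a ha using haex
    let al : List ℚ := (List.range (p z)).map a
    have hal : ∀ i < p z, al.getD i 0 = a i := by
      intro i hi
      rw [List.getD_eq_getElem _ _ (by simpa [al] using hi)]
      simp [al]
    let S : Set X := {u : X | Sum.inl u ∈ N} ∩
      {u | ∀ i < p z, |f u (kk z i) - f z (kk z i)| < ε / 8}
    have hVopen : IsOpen {u | ∀ i < p z, |f u (kk z i) - f z (kk z i)| < ε / 8} := by
      have : {u | ∀ i < p z, |f u (kk z i) - f z (kk z i)| < ε / 8} =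
          ⋂ i ∈ Finset.range (p z), {u | |f u (kk z i) - f z (kk z i)| < ε / 8} := by
        ext u
        simp
      rw [this]
      refine isOpen_biInter_finset fun i _ => ?_
      exact isOpen_lt (((hk _).sub continuous_const).abs) continuous_const
    have hzS : z ∈ closure S := by
      rw [mem_closure_iff] at hz ⊢
      intro O hO hzO
      obtain ⟨u, hu1, hu2⟩ := hz (O ∩ {u | ∀ i < p z, |f u (kk z i) - f z (kk z i)| < ε / 8})
        (hO.inter hVopen) ⟨hzO, fun i _ => by rw [sub_self, abs_zero]; linarith⟩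
      exact ⟨u, hu1.1, hu2, hu1.2⟩
    -- the reflected points
    have hfam : ∀ F : Finset X, (F : Set X) ⊆ S → ∃ i < p z, ∃ k : K,
        7 * ε / 8 ≤ |f z k - (a i : ℝ)| ∧ ∀ x ∈ F, |f x k - (a i : ℝ)| ≤ ε / 4 := by
      intro F hF
      have hzZ : z ∈ Z F (p z, q z, al) := by
        refine ⟨rfl, rfl, ?_, ?_⟩
        · intro i hi
          change |f z (kk z i) - ((al.getD i 0 : ℚ) : ℝ)| < ε / 8
          rw [hal i hi]
          exact ha i
        · intro x hx i hi
          exact (hF hx).2 i hi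
      obtain ⟨w, hwS', hwZ, hwmin⟩ := hgS F (p z, q z, al) ⟨z, hzZ⟩
      have hwN : Sum.inl w ∈ N := by
        have hsub : ((F.map ⟨Sum.inl, Sum.inl_injective⟩ : Finset (X ⊕ K)) : Set (X ⊕ K)) ⊆ N := by
          intro v hv
          rw [Finset.mem_coe, Finset.mem_map] at hv
          obtain ⟨x, hx, rfl⟩ := hv
          exact (hF hx).1
        apply hN _ hsub
        left
        refine mem_iUnion.2 ⟨(p z, q z, al), w, ?_, rfl⟩
        have heq : (F.map ⟨Sum.inl, Sum.inl_injective⟩ : Finset (X ⊕ K)).toLeft = F := by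
          ext x
          rw [Finset.mem_toLeft, Finset.mem_map]
          constructor
          · rintro ⟨x', hx', h⟩
            have : x' = x := Sum.inl_injective h
            rw [← this]; exact hx'
          · intro hx
            exact ⟨x, hx, rfl⟩
        rw [heq]
        exact hwS'
      have hwz : w ≠ z := fun h => hzN (h ▸ hwN)
      have hrkwz : rk w ≤ rk z := hwmin z hzZ
      obtain ⟨hw1, hw2, hw3, hw4⟩ := hwZ
      have hex : ∃ i < p w, 1 / ((q w : ℝ) + 1) ≤ |f z (kk w i) - f w (kk w i)| := by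
        by_contra hcon
        push Not at hcon
        exact absurd (hpkq w z hcon (Ne.symm hwz)) (not_lt.2 hrkwz)
      obtain ⟨i, hi, hi2⟩ := hex
      have hi' : i < p z := by
        have h : p w = p z := hw1
        rwa [h] at hi
      have hqq : (1 / ((q w : ℝ) + 1)) = ε := by
        have h : q w = q z := hw2
        rw [hε, h]
      rw [hqq] at hi2
      have h3 : |f w (kk w i) - ((a i : ℚ) : ℝ)| < ε / 8 := by
        have := hw3 i hi'
        change |f w (kk w i) - ((al.getD i 0 : ℚ) : ℝ)| < ε / 8 at this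
        rwa [hal i hi'] at this
      refine ⟨i, hi', kk w i, ?_, ?_⟩
      · have h4 : |f z (kk w i) - f w (kk w i)| ≤
            |f z (kk w i) - (a i : ℝ)| + |f w (kk w i) - (a i : ℝ)| := by
          have := abs_sub (f z (kk w i) - (a i : ℝ)) (f w (kk w i) - (a i : ℝ))
          have heq : f z (kk w i) - (a i : ℝ) - (f w (kk w i) - (a i : ℝ)) =
            f z (kk w i) - f w (kk w i) := by ring
          rwa [heq] at this
        linarith
      · intro x hx
        have h5 : |f x (kk w i) - f w (kk w i)| < ε / 8 := hw4 x hx i hi'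
        have h6 : |f x (kk w i) - (a i : ℝ)| ≤
            |f x (kk w i) - f w (kk w i)| + |f w (kk w i) - (a i : ℝ)| := by
          have := abs_add_le (f x (kk w i) - f w (kk w i)) (f w (kk w i) - (a i : ℝ))
          have heq : f x (kk w i) - f w (kk w i) + (f w (kk w i) - (a i : ℝ)) =
            f x (kk w i) - (a i : ℝ) := by ring
          rwa [heq] at this
        linarith
    have huni : ∃ i < p z, ∀ F : Finset X, (F : Set X) ⊆ S → ∃ k : K,
        7 * ε / 8 ≤ |f z k - (a i : ℝ)| ∧ ∀ x ∈ F, |f x k - (a i : ℝ)| ≤ ε / 4 := by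
      by_contra hcon
      push Not at hcon
      have h1 : ∀ i : ℕ, ∃ F : Finset X, (F : Set X) ⊆ S ∧ (i < p z → ∀ k : K,
          7 * ε / 8 ≤ |f z k - (a i : ℝ)| → ∃ x ∈ F, ε / 4 < |f x k - (a i : ℝ)|) := by
        intro i
        by_cases hi : i < p z
        · obtain ⟨F, hF1, hF2⟩ := hcon i hi
          exact ⟨F, hF1, fun _ => hF2⟩
        · exact ⟨∅, by simp, fun h => absurd h hi⟩
      choose FF hFF1 hFF2 using h1
      obtain ⟨i, hi, k, hk1, hk2⟩ := hfam ((Finset.range (p z)).biUnion FF) (by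
        intro x hx
        rw [Finset.mem_coe, Finset.mem_biUnion] at hx
        obtain ⟨i, _, hx⟩ := hx
        exact hFF1 i hx)
      obtain ⟨x, hx, hlt⟩ := hFF2 i hi k hk1
      exact absurd (hk2 x (Finset.mem_biUnion.2 ⟨i, Finset.mem_range.2 hi, hx⟩)) (not_le.2 hlt)
    obtain ⟨i, _, hi⟩ := huni
    have hTc : IsCompact {k : K | 7 * ε / 8 ≤ |f z k - (a i : ℝ)|} :=
      (isClosed_le continuous_const (((hfc z).sub continuous_const).abs)).isCompact
    obtain ⟨k, hk1, hk2⟩ := hTc.inter_iInter_nonempty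
      (fun x : S => {k : K | |f x.1 k - (a i : ℝ)| ≤ ε / 4})
      (fun x => isClosed_le (((hfc x.1).sub continuous_const).abs) continuous_const)
      (by
        intro u
        obtain ⟨k, hk1, hk2⟩ := hi (u.image Subtype.val) (by
          intro x hx
          rw [Finset.mem_coe, Finset.mem_image] at hx
          obtain ⟨y, _, rfl⟩ := hx
          exact y.2)
        refine ⟨k, hk1, ?_⟩
        refine mem_iInter₂.2 fun x hx => ?_
        exact hk2 x.1 (Finset.mem_image_of_mem _ hx))
    have hsub : S ⊆ {x | |f x k - (a i : ℝ)| ≤ ε / 4} := by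
      intro x hx
      exact mem_iInter.1 hk2 ⟨x, hx⟩
    have hcl : IsClosed {x | |f x k - (a i : ℝ)| ≤ ε / 4} :=
      isClosed_le (((hk k).sub continuous_const).abs) continuous_const
    have h9 : |f z k - (a i : ℝ)| ≤ ε / 4 := (closure_minimal hsub hcl) hzS
    have h10 : 7 * ε / 8 ≤ |f z k - (a i : ℝ)| := hk1
    linarith
  -- complete sequence
  obtain ⟨G0, hG0o, hG0e⟩ := hG.eq_iInter_nat
  let G : ℕ → Set Y := fun m => ⋂ i ∈ Finset.range (m + 1), G0 i
  have hGo : ∀ m, IsOpen (G m) := fun m => isOpen_biInter_finset fun i _ => hG0o i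
  have hGanti : ∀ m n, m ≤ n → G n ⊆ G m := by
    intro m n hmn y hy
    refine mem_iInter₂.2 fun i hi => ?_
    refine mem_iInter₂.1 hy i ?_
    rw [Finset.mem_range] at hi ⊢
    omega
  have hGr : ∀ m x, e x ∈ G m := by
    intro m x
    refine mem_iInter₂.2 fun i _ => ?_
    have : e x ∈ ⋂ n, G0 n := by rw [← hG0e]; exact ⟨x, rfl⟩
    exact mem_iInter.1 this i
  have hGall : ∀ y, (∀ m, y ∈ G m) → y ∈ Set.range e := by
    intro y hy
    rw [hG0e]
    refine mem_iInter.2 fun n => ?_
    exact mem_iInter₂.1 (hy n) n (Finset.self_mem_range_succ n)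
  refine ⟨⟨f, Φ, hΦ, fun m S => closure (e '' S) ⊆ G m, ?_, ?_, ?_, ?_, ?_, ?_⟩, rfl⟩
  · intro m n S hmn h
    exact h.trans (hGanti m n hmn)
  · intro m S T hST h
    exact (closure_mono (image_mono hST)).trans h
  · -- dichotomy
    intro N hN y
    by_cases h : ∃ m0 : ℕ, ∀ (A : Finset K) (ε : ℝ) (x : X), (∀ k ∈ A, Sum.inr k ∈ N) →
        y ∈ nb f (A, ε) x → ¬ closure (e '' nb f (A, ε) x) ⊆ G m0
    · exact Or.inr h
    · left
      push Not at h
      choose A ε x hA hy hsm using h
      let 𝔉 : Set (Set X) := {S | S = {u : X | Sum.inl u ∈ N} ∨ ∃ (A : Finset K) (ε : ℝ) (x : X),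
        (∀ k ∈ A, Sum.inr k ∈ N) ∧ y ∈ nb f (A, ε) x ∧ S = nb f (A, ε) x}
      have hfip : ∀ T : Finset (Set X), (T : Set (Set X)) ⊆ 𝔉 →
          ∃ l : List (K × ℚ × ℚ), (∀ c ∈ l, (Sum.inr c.1 : X ⊕ K) ∈ N) ∧ y ∈ sat f l ∧
            ∀ u, Sum.inl u ∈ N → u ∈ sat f l → u ∈ ⋂₀ (T : Set (Set X)) := by
        intro T
        induction T using Finset.induction_on with
        | empty =>
          intro _
          exact ⟨[], by simp, by intro c hc; simp at hc, fun u _ _ => by simp⟩
        | insert S T _ ih =>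
          intro hT
          obtain ⟨l, hl1, hl2, hl3⟩ := ih (fun s hs => hT (Finset.mem_coe.2
            (Finset.mem_insert_of_mem hs)))
          have hS : S ∈ 𝔉 := hT (Finset.mem_coe.2 (Finset.mem_insert_self S T))
          have hstep : ∃ l' : List (K × ℚ × ℚ), (∀ c ∈ l', (Sum.inr c.1 : X ⊕ K) ∈ N) ∧
              y ∈ sat f l' ∧ ∀ u, Sum.inl u ∈ N → u ∈ sat f l' → u ∈ S := by
            rcases hS with hS | ⟨A, ε, x, hAN, hyA, hS⟩
            · exact ⟨[], by simp, by intro c hc; simp at hc, fun u hu _ => by rw [hS]; exact hu⟩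
            · have hrat : ∀ k : K, ∃ ab : ℚ × ℚ, k ∈ A → ((f x k - ε < (ab.1 : ℝ) ∧
                  (ab.1 : ℝ) < f y k) ∧ (f y k < (ab.2 : ℝ) ∧ (ab.2 : ℝ) < f x k + ε)) := by
                intro k
                by_cases hkA : k ∈ A
                · have h1 : |f y k - f x k| < ε := hyA k hkA
                  rw [abs_lt] at h1
                  obtain ⟨a, ha1, ha2⟩ := exists_rat_btwn
                    (show f x k - ε < f y k by linarith [h1.1])
                  obtain ⟨b, hb1, hb2⟩ := exists_rat_btwn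
                    (show f y k < f x k + ε by linarith [h1.2])
                  exact ⟨(a, b), fun _ => ⟨⟨ha1, ha2⟩, hb1, hb2⟩⟩
                · exact ⟨(0, 0), fun h => absurd h hkA⟩
              choose ab hab using hrat
              refine ⟨A.toList.map (fun k => (k, ab k)), ?_, ?_, ?_⟩
              · intro c hc
                obtain ⟨k, hk', rfl⟩ := List.mem_map.1 hc
                exact hAN k (Finset.mem_toList.1 hk')
              · intro c hc
                obtain ⟨k, hk', rfl⟩ := List.mem_map.1 hc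
                have := hab k (Finset.mem_toList.1 hk')
                exact ⟨this.1.2, this.2.1⟩
              · intro u _ hu
                rw [hS]
                intro k hkA
                have h1 := hu (k, ab k) (List.mem_map.2 ⟨k, Finset.mem_toList.2 hkA, rfl⟩)
                have h2 := hab k hkA
                change |f u k - f x k| < ε
                rw [abs_lt]
                constructor <;> linarith [h1.1, h1.2, h2.1.1, h2.2.2]
          obtain ⟨l', hl1', hl2', hl3'⟩ := hstep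
          refine ⟨l' ++ l, ?_, ?_, ?_⟩
          · intro c hc
            rcases List.mem_append.1 hc with hc | hc
            · exact hl1' c hc
            · exact hl1 c hc
          · intro c hc
            rcases List.mem_append.1 hc with hc | hc
            · exact hl2' c hc
            · exact hl2 c hc
          · intro u hu hus
            rw [Finset.coe_insert, sInter_insert]
            refine ⟨hl3' u hu (fun c hc => hus c (List.mem_append_left _ hc)), ?_⟩
            exact hl3 u hu (fun c hc => hus c (List.mem_append_right _ hc))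
      obtain ⟨𝒰, h𝒰⟩ := Ultrafilter.exists_ultrafilter_of_finite_inter_nonempty 𝔉 (by
        intro T hT
        obtain ⟨l, hl1, hl2, hl3⟩ := hfip T hT
        obtain ⟨w, hw1, hw2⟩ := hwS l ⟨y, hl2⟩
        refine ⟨w, hl3 w ?_ hw2⟩
        have hsub : (((l.map (fun c => (Sum.inr c.1 : X ⊕ K))).toFinset : Finset (X ⊕ K)) :
            Set (X ⊕ K)) ⊆ N := by
          intro v hv
          rw [Finset.mem_coe, List.mem_toFinset, List.mem_map] at hv
          obtain ⟨c, hc, rfl⟩ := hv
          exact hl1 c hc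
        apply hN _ hsub
        right
        refine mem_iUnion₂.2 ⟨l, ?_, w, hw1, rfl⟩
        intro c hc
        change (Sum.inr c.1 : X ⊕ K) ∈ (l.map (fun c => (Sum.inr c.1 : X ⊕ K))).toFinset
        rw [List.mem_toFinset, List.mem_map]
        exact ⟨c, hc, rfl⟩)
      obtain ⟨ys, -, hys⟩ := isCompact_univ.ultrafilter_le_nhds (𝒰.map e) (by simp)
      have htend : Filter.Tendsto e 𝒰 (𝓝 ys) := hys
      have hyr : ys ∈ Set.range e := by
        apply hGall
        intro m
        apply hsm m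
        have h1 : nb f (A m, ε m) (x m) ∈ 𝒰 := h𝒰 (Or.inr ⟨A m, ε m, x m, hA m, hy m, rfl⟩)
        exact mem_closure_of_tendsto htend (Filter.mem_of_superset h1
          (fun u hu => mem_image_of_mem e hu))
      obtain ⟨x0, rfl⟩ := hyr
      have htx : Filter.Tendsto id (𝒰 : Filter X) (𝓝 x0) := by
        rw [he.isInducing.tendsto_nhds_iff]
        exact htend
      have hNU : {u : X | Sum.inl u ∈ N} ∈ 𝒰 := h𝒰 (Or.inl rfl)
      refine ⟨x0, hclosed N hN x0 (mem_closure_of_tendsto htx hNU), ?_⟩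
      intro k hkN
      have hlim : Filter.Tendsto (fun u => f u k) (𝒰 : Filter X) (𝓝 (f x0 k)) :=
        ((hk k).tendsto x0).comp htx
      by_contra hne
      have hd : 0 < |f x0 k - f y k| := abs_pos.2 (sub_ne_zero.2 (Ne.symm hne))
      have h1 : nb f ({k}, |f x0 k - f y k| / 2) y ∈ 𝒰 := by
        apply h𝒰
        right
        refine ⟨{k}, _, y, ?_, ?_, rfl⟩
        · intro k' hk'
          rw [Finset.mem_singleton] at hk'
          rw [hk']; exact hkN
        · intro k' _
          rw [sub_self, abs_zero]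
          exact half_pos hd
      have h2 : ∀ᶠ u in (𝒰 : Filter X), |f u k - f y k| ≤ |f x0 k - f y k| / 2 := by
        refine Filter.mem_of_superset h1 ?_
        intro u hu
        exact (hu k (Finset.mem_singleton_self k)).le
      have h3 := le_of_tendsto ((hlim.sub_const (f y k)).abs) h2
      linarith
  · intro N hN x hx
    have h1 : x ∉ closure {u : X | Sum.inl u ∈ N} := fun h => hx (hclosed N hN x h)
    obtain ⟨A, ε, hε, hA⟩ := nb_basis hf.isInducing x (closure {u : X | Sum.inl u ∈ N})ᶜ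
      (isClosed_closure.isOpen_compl.mem_nhds h1)
    exact ⟨A, ε, hε, fun u hu hnb => hA hnb (subset_closure hu)⟩
  · intro x m
    obtain ⟨V, hV1, hV2, hV3⟩ := exists_mem_nhds_isClosed_subset ((hGo m).mem_nhds (hGr m x))
    obtain ⟨A, ε, hε, hA⟩ := nb_basis hf.isInducing x (e ⁻¹' V)
      (he.continuous.continuousAt.preimage_mem_nhds hV1)
    refine ⟨A, ε, hε, ?_⟩
    refine Subset.trans (closure_minimal ?_ hV2) hV3
    rintro _ ⟨u, hu, rfl⟩
    exact hA hu
  · intro x u hxu
    by_contra hcon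
    push Not at hcon
    exact hxu (hf.injective (funext hcon))

end main

end Pool.H262.CE
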