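import Pool.Agent.H262.CE4

set_option autoImplicit false

namespace Pool.H262.CE

open Set Topology

theorem cech (X : Type) [TopologicalSpace X]
    (hX : ∃ (K : Type) (_ : TopologicalSpace K), CompactSpace K ∧ T2Space K ∧
        ∃ f : X → (K → ℝ), IsEmbedding f ∧ ∀ x, Continuous (f x))
    (hY : ∃ (Y : Type) (_ : TopologicalSpace Y), CompactSpace Y ∧ T2Space Y ∧
        ∃ e : X → Y, IsEmbedding e ∧ IsGδ (Set.range e))
    (hsc : ∀ S : Set X, S.Nonempty → ∃ x ∈ S, ∃ U : Set X, IsOpen U ∧ U ∩ S = {x}) :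
    ∃ D : ℕ → Set X, (⋃ n, D n) = Set.univ ∧
        ∀ n, ∀ x ∈ D n, ∃ U : Set X, IsOpen U ∧ U ∩ D n = {x} := by
  classical
  obtain ⟨K, _, hK1, hK2, f, hf, hfc⟩ := hX
  obtain ⟨Y, _, hY1, hY2, e, he, hG⟩ := hY
  rcases isEmpty_or_nonempty K with hKe | hKn
  · have hsub : ∀ x y : X, x = y := by
      intro x y
      apply hf.injective
      funext k
      exact (hKe.false k).elim
    refine ⟨fun _ => Set.univ, Set.eq_univ_iff_forall.2 fun x => mem_iUnion.2 ⟨0, trivial⟩, ?_⟩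
    intro _ x _
    refine ⟨Set.univ, isOpen_univ, ?_⟩
    ext y
    simp [hsub y x]
  · obtain ⟨𝒮, h𝒮⟩ := exists_sz f hf hfc e he hG hsc
    obtain ⟨H, c, E, hH, hE, hc⟩ := colouring 𝒮
    rw [h𝒮] at hc
    obtain ⟨idx, hidx⟩ := Set.countable_iff_exists_injOn.1 hH
    refine ⟨fun n => {x | (x ∉ H ∧ n = 2 * c x) ∨ (x ∈ H ∧ n = 2 * idx x + 1)}, ?_, ?_⟩
    · rw [Set.eq_univ_iff_forall]
      intro x
      rw [mem_iUnion]
      by_cases hx : x ∈ H
      · exact ⟨2 * idx x + 1, Or.inr ⟨hx, rfl⟩⟩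
      · exact ⟨2 * c x, Or.inl ⟨hx, rfl⟩⟩
    · rintro n x (⟨hx, hn⟩ | ⟨hx, hn⟩)
      · refine ⟨nb f (E x) x, nb_open hf.continuous _ _, ?_⟩
        ext y
        constructor
        · rintro ⟨hy1, ⟨hy2, hy3⟩ | ⟨hy2, hy3⟩⟩
          · by_contra hne
            have hne' : y ≠ x := hne
            apply hc y x hy2 hx (Ne.symm hne') hy1
            omega
          · omega
        · rintro rfl
          refine ⟨?_, Or.inl ⟨hx, hn⟩⟩
          intro k _
          rw [sub_self, abs_zero]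
          exact hE y hx
      · refine ⟨Set.univ, isOpen_univ, ?_⟩
        ext y
        constructor
        · rintro ⟨_, ⟨hy2, hy3⟩ | ⟨hy2, hy3⟩⟩
          · omega
          · exact hidx hy2 hx (by omega)
        · rintro rfl
          exact ⟨trivial, Or.inr ⟨hx, hn⟩⟩

end Pool.H262.CE
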