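import Mathlib

set_option autoImplicit false

namespace Pool.H262.EG

open Set

/-- finite-set-valued free selection, stage data -/
structure St (P : Type) (F : ℕ → P → ℕ → Set P) (n : ℕ) where
  s : ℕ → P
  J : ℕ → Set P
  hJ : ∀ m, ¬ (J m).Countable
  h1 : ∀ m, n ≤ m → ∀ k ∈ J m, ∀ i, i < n → s i ∉ F m k i
  h2 : ∀ i, i < n → ∀ j, j < n → i ≠ j → s j ∉ F i (s i) j

theorem st_step (P : Type) (F : ℕ → P → ℕ → Set P) (hF : ∀ m k n, (F m k n).Finite)
    (n : ℕ) (S : St P F n) : ∃ S' : St P F (n+1), ∀ i, i < n → S'.s i = S.s i := by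
  classical
  -- bad elements
  let bad : ℕ → Set P := fun m => {a | {k ∈ S.J m | a ∉ F m k n}.Countable}
  have hbad : ∀ m, (bad m).Finite := by
    intro m
    by_contra hinf
    have hinf : (bad m).Infinite := hinf
    obtain ⟨g, hg, hgb⟩ : ∃ g : ℕ → P, Function.Injective g ∧ ∀ i, g i ∈ bad m := by
      refine ⟨fun i => (hinf.natEmbedding (bad m) i : P), ?_, fun i => (hinf.natEmbedding (bad m) i).2⟩
      intro a b hab
      exact (hinf.natEmbedding (bad m)).injective (Subtype.ext hab)
    have hc : (⋃ i, {k ∈ S.J m | g i ∉ F m k n}).Countable :=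
      countable_iUnion fun i => hgb i
    have : ∃ k ∈ S.J m, k ∉ (⋃ i, {k ∈ S.J m | g i ∉ F m k n}) := by
      by_contra hcon
      push Not at hcon
      exact S.hJ m (hc.mono hcon)
    obtain ⟨k, hk, hk2⟩ := this
    have hall : ∀ i, g i ∈ F m k n := by
      intro i
      by_contra hi
      exact hk2 (mem_iUnion.2 ⟨i, hk, hi⟩)
    exact (Set.infinite_range_of_injective hg) ((hF m k n).subset (by rintro _ ⟨i, rfl⟩; exact hall i))
  have hex : ∃ a ∈ S.J n, (∀ i, i < n → a ∉ F i (S.s i) n) ∧ ∀ m, a ∉ bad m := by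
    by_contra hcon
    push Not at hcon
    apply S.hJ n
    have hc : ((⋃ i, F i (S.s i) n) ∪ ⋃ m, bad m).Countable :=
      (countable_iUnion fun i => (hF _ _ _).countable).union
        (countable_iUnion fun m => (hbad m).countable)
    refine hc.mono ?_
    intro a ha
    by_cases h : ∀ i, i < n → a ∉ F i (S.s i) n
    · obtain ⟨m, hm⟩ := hcon a ha h
      exact Or.inr (mem_iUnion.2 ⟨m, hm⟩)
    · push Not at h
      obtain ⟨i, _, hi⟩ := h
      exact Or.inl (mem_iUnion.2 ⟨i, hi⟩)
  obtain ⟨a, haJ, ha1, ha2⟩ := hex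
  refine ⟨⟨fun i => if i = n then a else S.s i, fun m => {k ∈ S.J m | a ∉ F m k n}, ?_, ?_, ?_⟩, ?_⟩
  · intro m
    exact ha2 m
  · intro m hm k hk i hi
    by_cases h : i = n
    · subst h
      simpa using hk.2
    · have : i < n := by omega
      simp only [h, if_false]
      exact S.h1 m (by omega) k hk.1 i this
  · intro i hi j hj hij
    by_cases h : i = n
    · subst h
      have hji : j ≠ i := fun h => hij h.symm
      simp only [if_true, hji, if_false]
      exact S.h1 i le_rfl a haJ j (by omega)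
    · by_cases h' : j = n
      · subst h'
        simp only [if_true, h, if_false]
        exact ha1 i (by omega)
      · simp only [h, h', if_false]
        exact S.h2 i (by omega) j (by omega) hij
  · intro i hi
    have : i ≠ n := by omega
    simp [this]

theorem free_sel (P : Type) (hP : ¬ (Set.univ : Set P).Countable)
    (F : ℕ → P → ℕ → Set P) (hF : ∀ m k n, (F m k n).Finite) :
    ∃ s : ℕ → P, ∀ m n, m ≠ n → s n ∉ F m (s m) n := by
  classical
  have hne : Nonempty P := by
    by_contra h
    rw [not_nonempty_iff] at h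
    exact hP (Set.to_countable _)
  let S0 : St P F 0 :=
    ⟨fun _ => Classical.choice hne, fun _ => Set.univ, fun _ => hP,
      fun m _ k _ i hi => absurd hi (Nat.not_lt_zero _),
      fun i hi => absurd hi (Nat.not_lt_zero _)⟩
  choose nxt hnxt using fun (n : ℕ) (S : St P F n) => st_step P F hF n S
  let Q : ∀ n, St P F n := fun n => Nat.rec S0 (fun n S => nxt n S) n
  have hQ : ∀ n, Q (n+1) = nxt n (Q n) := fun n => rfl
  have hst : ∀ n i, i < n → (Q n).s i = (Q (i+1)).s i := by
    intro n
    induction n with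
    | zero => intro i hi; omega
    | succ n ih =>
      intro i hi
      by_cases h : i = n
      · subst h; rfl
      · rw [hQ, hnxt n (Q n) i (by omega)]
        exact ih i (by omega)
  refine ⟨fun i => (Q (i+1)).s i, ?_⟩
  intro m n hmn
  have h := (Q (max m n + 1)).h2 m (by omega) n (by omega) hmn
  rw [hst _ m (by omega), hst _ n (by omega)] at h
  exact h

/-- uncountable disjoint subfamilies -/
theorem unc_disj {α X : Type} (supp : α → Set X) (hc : ∀ a, (supp a).Countable)
    (hne : ∀ a, (supp a).Nonempty) (A : Set α)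
    (hA : ∀ C : Set X, C.Countable → ∃ a ∈ A, Disjoint (supp a) C) :
    ∃ B ⊆ A, ¬ B.Countable ∧ B.PairwiseDisjoint supp := by
  classical
  obtain ⟨B, hB⟩ := zorn_subset {B : Set α | B ⊆ A ∧ B.PairwiseDisjoint supp} (by
    intro c hcs hch
    refine ⟨⋃₀ c, ⟨?_, ?_⟩, fun s hs => subset_sUnion_of_mem hs⟩
    · exact sUnion_subset fun s hs => (hcs hs).1
    · intro a ha b hb hab
      obtain ⟨s, hs, has⟩ := ha
      obtain ⟨t, ht, hbt⟩ := hb
      rcases hch.total hs ht with h | h
      · exact (hcs ht).2 (h has) hbt hab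
      · exact (hcs hs).2 has (h hbt) hab)
  refine ⟨B, hB.prop.1, ?_, hB.prop.2⟩
  intro hBc
  obtain ⟨a, haA, ha⟩ := hA (⋃ b ∈ B, supp b) (hBc.biUnion fun b _ => hc b)
  have hab : ∀ b ∈ B, Disjoint (supp a) (supp b) := by
    intro b hb
    exact ha.mono_right (subset_biUnion_of_mem hb)
  have haB : a ∉ B := by
    intro h
    have := hab a h
    rw [disjoint_self] at this
    exact (hne a).ne_empty this
  have hins : insert a B ∈ {B : Set α | B ⊆ A ∧ B.PairwiseDisjoint supp} := by
    refine ⟨insert_subset haA hB.prop.1, ?_⟩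
    exact hB.prop.2.insert fun b hb _ => hab b hb
  have := hB.eq_of_subset hins (subset_insert a B)
  exact haB (this ▸ mem_insert a B)

end Pool.H262.EG
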