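import Pool.Agent.H262.EG1

set_option autoImplicit false

namespace Pool.H262.EG

open Set

/-- a labelled system of countable down-sets -/
structure Sys (X Θ : Type) [LinearOrder Θ] where
  lab : X → Θ
  dn : X → Set X
  self : ∀ x, x ∈ dn x
  mono : ∀ x y, x ∈ dn y → x = y ∨ lab y < lab x
  cnt : ∀ x, (dn x).Countable
  nd : ∀ (ξ : Θ) (c : ℕ → X), (∀ n, ξ < lab (c n)) →
    ∃ y, lab y = ξ ∧ dn y = insert y (⋃ n, dn (c n))
  leaf : ∀ ξ : Θ, ∃ D : Set X, ¬ D.Countable ∧ (∀ x ∈ D, ξ < lab x) ∧ D.PairwiseDisjoint dn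
  bdd : ∀ g : ℕ → Θ, ∃ b, ∀ n, g n < b
  ne : Nonempty Θ

theorem avoid {X : Type} (dn : X → Set X) (D : Set X) (hD : ¬ D.Countable)
    (hp : D.PairwiseDisjoint dn) (C : Set X) (hC : C.Countable) :
    ∃ x ∈ D, Disjoint (dn x) C := by
  classical
  by_contra hcon
  push Not at hcon
  apply hD
  have h2 : ∀ x : X, ∃ z : X, x ∈ D → z ∈ dn x ∧ z ∈ C := by
    intro x
    by_cases hx : x ∈ D
    · obtain ⟨z, hz1, hz2⟩ := Set.not_disjoint_iff.1 (hcon x hx)
      exact ⟨z, fun _ => ⟨hz1, hz2⟩⟩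
    · exact ⟨x, fun h => absurd h hx⟩
  choose g hg using h2
  have hmaps : MapsTo g D C := fun x hx => (hg x hx).2
  have hinj : InjOn g D := by
    intro a ha b hb hab
    by_contra hne
    have := hp ha hb hne
    exact Set.disjoint_left.1 this (hg a ha).1 (by rw [hab]; exact (hg b hb).1)
  exact hmaps.countable_of_injOn hinj hC

theorem exists_tuple {X : Type} (dn : X → Set X) (hcnt : ∀ x, (dn x).Countable)
    (D : ℕ → Set X) (hD : ∀ n, ¬ (D n).Countable)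
    (hp : ∀ n, (D n).PairwiseDisjoint dn) (C : Set X) (hC : C.Countable) :
    ∃ p : ℕ → X, (∀ n, p n ∈ D n) ∧ (∀ n m, n ≠ m → Disjoint (dn (p n)) (dn (p m))) ∧
      ∀ n, Disjoint (dn (p n)) C := by
  classical
  choose pick hpick1 hpick2 using fun (n : ℕ) (C : {C : Set X // C.Countable}) =>
    avoid dn (D n) (hD n) (hp n) C.1 C.2
  let Cs : ℕ → {C : Set X // C.Countable} := fun n =>
    Nat.rec ⟨C, hC⟩ (fun n C => ⟨C.1 ∪ dn (pick n C), C.2.union (hcnt _)⟩) n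
  have hCs : ∀ n, (Cs (n+1)).1 = (Cs n).1 ∪ dn (pick n (Cs n)) := fun n => rfl
  have hmono : ∀ n k, (Cs n).1 ⊆ (Cs (n + k)).1 := by
    intro n k
    induction k with
    | zero => exact subset_rfl
    | succ k ih =>
      refine ih.trans ?_
      rw [← add_assoc, hCs]
      exact subset_union_left
  have hlt : ∀ n m, n < m → Disjoint (dn (pick n (Cs n))) (dn (pick m (Cs m))) := by
    intro n m hnm
    have h1 : dn (pick n (Cs n)) ⊆ (Cs m).1 := by
      obtain ⟨k, rfl⟩ := Nat.exists_eq_add_of_lt hnm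
      have := hmono (n+1) k
      rw [show n + k + 1 = n + 1 + k by ring]
      refine Subset.trans ?_ this
      rw [hCs]; exact subset_union_right
    exact ((hpick2 m (Cs m)).mono_right h1).symm
  refine ⟨fun n => pick n (Cs n), fun n => hpick1 n _, ?_, ?_⟩
  · intro n m hnm
    rcases lt_or_gt_of_ne hnm with h | h
    · exact hlt n m h
    · exact (hlt m n h).symm
  · intro n
    refine (hpick2 n (Cs n)).mono_right ?_
    have := hmono 0 n
    rwa [zero_add] at this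

theorem max_pairwise {α : Type} (S : Set α) (R : α → α → Prop) (hR : ∀ a b, R a b → R b a) :
    ∃ T ⊆ S, T.Pairwise R ∧ ∀ s ∈ S, (∀ t ∈ T, s ≠ t → R s t) → s ∈ T := by
  classical
  obtain ⟨B, hB⟩ := zorn_subset {B : Set α | B ⊆ S ∧ B.Pairwise R} (by
    intro c hcs hch
    refine ⟨⋃₀ c, ⟨?_, ?_⟩, fun s hs => subset_sUnion_of_mem hs⟩
    · exact sUnion_subset fun s hs => (hcs hs).1
    · intro a ha b hb hab
      obtain ⟨s, hs, has⟩ := ha
      obtain ⟨t, ht, hbt⟩ := hb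
      rcases hch.total hs ht with h | h
      · exact (hcs ht).2 (h has) hbt hab
      · exact (hcs hs).2 has (h hbt) hab)
  refine ⟨B, hB.prop.1, hB.prop.2, ?_⟩
  intro s hs hsr
  have hins : insert s B ∈ {B : Set α | B ⊆ S ∧ B.Pairwise R} := by
    refine ⟨insert_subset hs hB.prop.1, ?_⟩
    intro a ha b hb hab
    rcases ha with rfl | ha
    · rcases hb with rfl | hb
      · exact absurd rfl hab
      · exact hsr b hb hab
    · rcases hb with rfl | hb
      · exact hR _ _ (hsr a ha hab.symm)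
      · exact hB.prop.2 ha hb hab
  have := hB.eq_of_subset hins (subset_insert s B)
  exact this ▸ mem_insert s B

theorem unc_color {α : Type} (B : Set α) (hB : ¬ B.Countable) (g : α → ℕ) :
    ∃ m, ¬ ({a ∈ B | g a = m}).Countable := by
  by_contra hcon
  push Not at hcon
  apply hB
  refine (countable_iUnion hcon).mono ?_
  intro a ha
  exact mem_iUnion.2 ⟨g a, ha, rfl⟩

section
variable {X Θ : Type} [LinearOrder Θ] (𝒮 : Sys X Θ)

/-- colors which occur on uncountable disjoint families with labels above `ξ` -/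
def MM (f : X → ℕ) (ξ : Θ) : Set ℕ :=
  {m | ∃ D : Set X, ¬ D.Countable ∧ (∀ x ∈ D, f x = m ∧ ξ < 𝒮.lab x) ∧ D.PairwiseDisjoint 𝒮.dn}

theorem MM_anti (f : X → ℕ) {ξ η : Θ} (h : ξ ≤ η) : MM 𝒮 f η ⊆ MM 𝒮 f ξ := by
  rintro m ⟨D, h1, h2, h3⟩
  exact ⟨D, h1, fun x hx => ⟨(h2 x hx).1, h.trans_lt (h2 x hx).2⟩, h3⟩

theorem MM_stab (f : X → ℕ) : ∃ ξ₀ : Θ, ∀ ξ, ξ₀ ≤ ξ → MM 𝒮 f ξ₀ ⊆ MM 𝒮 f ξ := by
  classical
  have h : ∀ m : ℕ, ∃ η : Θ, (∃ ξ, m ∉ MM 𝒮 f ξ) → m ∉ MM 𝒮 f η := by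
    intro m
    by_cases h : ∃ ξ, m ∉ MM 𝒮 f ξ
    · obtain ⟨ξ, hξ⟩ := h
      exact ⟨ξ, fun _ => hξ⟩
    · exact ⟨𝒮.ne.some, fun h' => absurd h' h⟩
  choose g hg using h
  obtain ⟨ξ₀, hξ₀⟩ := 𝒮.bdd g
  refine ⟨ξ₀, ?_⟩
  intro ξ _ m hm
  by_contra hcon
  exact hg m ⟨ξ, hcon⟩ (MM_anti 𝒮 f (hξ₀ m).le hm)

/-- The families of points chosen for the main argument. -/
theorem stage1 (f : X → ℕ) : ∃ (M : Set ℕ) (ξ₀ ξ' : Θ) (P : Type) (x : ℕ → P → X),
    M = MM 𝒮 f ξ₀ ∧ ξ₀ < ξ' ∧ ¬ (Set.univ : Set P).Countable ∧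
    (∀ n k, ξ' < 𝒮.lab (x n k)) ∧ (∀ n k, n ∈ M → f (x n k) = n) ∧
    (∀ n k n' k', (n ≠ n' ∨ k ≠ k') → Disjoint (𝒮.dn (x n k)) (𝒮.dn (x n' k'))) := by
  classical
  obtain ⟨ξ₀, hξ₀⟩ := MM_stab 𝒮 f
  obtain ⟨ξ', hξ'⟩ := 𝒮.bdd (fun _ => ξ₀)
  have hlt : ξ₀ < ξ' := hξ' 0
  have hD : ∀ n : ℕ, ∃ D : Set X, ¬ D.Countable ∧ (∀ x ∈ D, ξ' < 𝒮.lab x) ∧
      D.PairwiseDisjoint 𝒮.dn ∧ (n ∈ MM 𝒮 f ξ₀ → ∀ x ∈ D, f x = n) := by
    intro n
    by_cases hn : n ∈ MM 𝒮 f ξ₀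
    · obtain ⟨D, h1, h2, h3⟩ := hξ₀ ξ' hlt.le hn
      exact ⟨D, h1, fun x hx => (h2 x hx).2, h3, fun _ x hx => (h2 x hx).1⟩
    · obtain ⟨D, h1, h2, h3⟩ := 𝒮.leaf ξ'
      exact ⟨D, h1, h2, h3, fun h => absurd h hn⟩
  choose D hD1 hD2 hD3 hD4 using hD
  obtain ⟨B, hBA, hBc, hBd⟩ := unc_disj (α := ℕ → X) (X := X) (fun p => ⋃ n, 𝒮.dn (p n))
    (fun p => countable_iUnion fun n => 𝒮.cnt _)
    (fun p => ⟨p 0, mem_iUnion.2 ⟨0, 𝒮.self _⟩⟩)
    {p | (∀ n, p n ∈ D n) ∧ ∀ n m, n ≠ m → Disjoint (𝒮.dn (p n)) (𝒮.dn (p m))}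
    (by
      intro C hC
      obtain ⟨p, hp1, hp2, hp3⟩ := exists_tuple 𝒮.dn 𝒮.cnt D hD1 hD3 C hC
      exact ⟨p, ⟨hp1, hp2⟩, by rw [disjoint_iUnion_left]; exact hp3⟩)
  refine ⟨MM 𝒮 f ξ₀, ξ₀, ξ', B, fun n k => k.1 n, rfl, hlt, ?_, ?_, ?_, ?_⟩
  · intro h
    apply hBc
    rw [Set.countable_univ_iff] at h
    exact h
  · intro n k
    exact hD2 n _ ((hBA k.2).1 n)
  · intro n k hn
    exact hD4 n hn _ ((hBA k.2).1 n)
  · intro n k n' k' hne
    by_cases hk : k = k'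
    · subst hk
      have : n ≠ n' := by
        rcases hne with h | h
        · exact h
        · exact absurd rfl h
      exact (hBA k.2).2 n n' this
    · have hk' : k.1 ≠ k'.1 := fun h => hk (Subtype.ext h)
      have := hBd k.2 k'.2 hk'
      exact this.mono (subset_iUnion (fun n => 𝒮.dn (k.1 n)) n)
        (subset_iUnion (fun n => 𝒮.dn (k'.1 n)) n')

/-- main combinatorial theorem -/
theorem main_comb (f : X → ℕ) : ∃ (x : X) (y : ℕ → X),
    (∀ i, f (y i) = f x) ∧ (∀ i, y i ≠ x) ∧ (∀ i, 𝒮.dn x ⊆ 𝒮.dn (y i)) ∧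
    ∀ i j, i ≠ j → 𝒮.dn (y i) ∩ 𝒮.dn (y j) ⊆ 𝒮.dn x := by
  classical
  obtain ⟨M, ξ₀, ξ', P, x, hM, hξ, hP, hlab, hcol, hdis⟩ := stage1 𝒮 f
  choose y hy1 hy2 using fun (s : ℕ → P) => 𝒮.nd ξ' (fun n => x n (s n)) (fun n => hlab n (s n))
  -- membership facts
  have hmem : ∀ (s : ℕ → P) n, 𝒮.dn (x n (s n)) ⊆ 𝒮.dn (y s) := by
    intro s n
    rw [hy2 s]
    exact (subset_iUnion (fun n => 𝒮.dn (x n (s n))) n).trans (subset_insert _ _)
  have hnot : ∀ (s : ℕ → P) n k, y s ∉ 𝒮.dn (x n k) := by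
    intro s n k h
    rcases 𝒮.mono _ _ h with h | h
    · have h1 := hlab n k
      rw [← h, hy1 s] at h1
      exact lt_irrefl _ h1
    · rw [hy1 s] at h
      exact lt_asymm h (hlab n k)
  have hdis' : ∀ n k n' k' z, z ∈ 𝒮.dn (x n k) → z ∈ 𝒮.dn (x n' k') → n = n' ∧ k = k' := by
    intro n k n' k' z h1 h2
    by_contra hcon
    have : n ≠ n' ∨ k ≠ k' := by tauto
    exact Set.disjoint_left.1 (hdis n k n' k' this) h1 h2
  have hinj : ∀ s t : ℕ → P, y s = y t → s = t := by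
    intro s t hst
    funext n
    have h1 : x n (s n) ∈ 𝒮.dn (y t) := by
      rw [← hst]; exact hmem s n (𝒮.self _)
    rw [hy2 t] at h1
    rcases h1 with h1 | h1
    · exfalso
      apply hnot t n (s n)
      rw [← h1]; exact 𝒮.self _
    · obtain ⟨n', hn'⟩ := mem_iUnion.1 h1
      obtain ⟨h3, h4⟩ := hdis' _ _ _ _ _ (𝒮.self (x n (s n))) hn'
      subst h3
      exact h4
  have hinter : ∀ s t : ℕ → P, s ≠ t → ∀ z, z ∈ 𝒮.dn (y s) → z ∈ 𝒮.dn (y t) →
      ∃ n, s n = t n ∧ z ∈ 𝒮.dn (x n (s n)) := by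
    intro s t hst z hzs hzt
    rw [hy2 s] at hzs
    rw [hy2 t] at hzt
    rcases hzs with hzs | hzs
    · exfalso
      rcases hzt with hzt | hzt
      · exact hst (hinj s t (hzs.symm.trans hzt))
      · obtain ⟨n', hn'⟩ := mem_iUnion.1 hzt
        apply hnot s n' (t n')
        rw [← hzs]; exact hn'
    · obtain ⟨n, hn⟩ := mem_iUnion.1 hzs
      rcases hzt with hzt | hzt
      · exfalso
        apply hnot t n (s n)
        rw [← hzt]; exact hn
      · obtain ⟨n', hn'⟩ := mem_iUnion.1 hzt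
        obtain ⟨h3, h4⟩ := hdis' _ _ _ _ _ hn hn'
        subst h3
        exact ⟨n, h4, hn⟩
  -- countable exceptional set
  have hexc : ∃ C : Set P, C.Countable ∧ ∀ s : ℕ → P, (∀ n, s n ∉ C) → f (y s) ∈ M := by
    by_contra hcon
    push Not at hcon
    obtain ⟨B, hBA, hBc, hBd⟩ := unc_disj (α := ℕ → P) (X := ℕ × P)
      (fun s => Set.range (fun n => (n, s n)))
      (fun s => countable_range _) (fun s => range_nonempty _) {s | f (y s) ∉ M}
      (by
        intro C hC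
        obtain ⟨s, hs1, hs2⟩ := hcon (Prod.snd '' C) (hC.image _)
        refine ⟨s, hs2, ?_⟩
        rw [Set.disjoint_left]
        rintro _ ⟨n, rfl⟩ h
        exact hs1 n ⟨_, h, rfl⟩)
    obtain ⟨m, hm⟩ := unc_color B hBc (fun s => f (y s))
    have hmM : m ∈ M := by
      rw [hM]
      refine ⟨y '' {s ∈ B | f (y s) = m}, ?_, ?_, ?_⟩
      · intro hc
        apply hm
        exact Set.countable_of_injective_of_countable_image
          (Set.injOn_of_injective (fun s t h => hinj s t h)) hc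
      · rintro _ ⟨s, hs, rfl⟩
        exact ⟨hs.2, by rw [hy1 s]; exact hξ⟩
      · rintro _ ⟨s, hs, rfl⟩ _ ⟨t, ht, rfl⟩ hst
        have hst' : s ≠ t := fun h => hst (by rw [h])
        rw [Function.onFun, Set.disjoint_left]
        intro z hzs hzt
        obtain ⟨n, hn, _⟩ := hinter s t hst' z hzs hzt
        have hd := hBd hs.1 ht.1 hst'
        exact Set.disjoint_left.1 hd ⟨n, rfl⟩ ⟨n, by simp [hn]⟩
    have : ({s ∈ B | f (y s) = m}).Nonempty := by
      by_contra h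
      rw [Set.not_nonempty_iff_eq_empty] at h
      apply hm
      rw [h]; exact countable_empty
    obtain ⟨s, hs1, hs2⟩ := this
    exact hBA hs1 (by rw [hs2]; exact hmM)
  obtain ⟨C, hC, hCs⟩ := hexc
  let P' := {p : P // p ∉ C}
  have hP' : ¬ (Set.univ : Set P').Countable := by
    intro h
    apply hP
    have h2 : ((Subtype.val : P' → P) '' Set.univ ∪ C).Countable := (h.image _).union hC
    refine h2.mono ?_
    intro p _
    by_cases hp : p ∈ C
    · exact Or.inr hp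
    · exact Or.inl ⟨⟨p, hp⟩, trivial, rfl⟩
  let y' : (ℕ → P') → X := fun s => y (fun n => (s n).1)
  have hy'M : ∀ s, f (y' s) ∈ M := fun s => hCs _ (fun n => (s n).2)
  let Sm : ℕ → P' → Set (ℕ → P') := fun m k => {s | s m = k ∧ f (y' s) = m}
  let R : ℕ → (ℕ → P') → (ℕ → P') → Prop := fun m s t => ∀ n, n ≠ m → s n ≠ t n
  choose T hTS hTR hTmax using fun m k => max_pairwise (Sm m k) (R m)
    (fun a b h n hn => (h n hn).symm)
  have hinf : ∃ m k, (T m k).Infinite := by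
    by_contra hcon
    push Not at hcon
    have hfin : ∀ m k, (T m k).Finite := fun m k => by simpa using hcon m k
    obtain ⟨s, hs⟩ := free_sel P' hP' (fun m k n => (fun t : ℕ → P' => t n) '' T m k)
      (fun m k n => (hfin m k).image _)
    set m := f (y' s) with hm
    have hsT : s ∈ T m (s m) := by
      apply hTmax
      · exact ⟨rfl, rfl⟩
      · intro t ht _ n hn heq
        exact hs m n hn.symm ⟨t, ht, heq.symm⟩
    exact hs m (m+1) (by omega) ⟨s, hsT, rfl⟩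
  obtain ⟨m, k, hT⟩ := hinf
  let g : ℕ → (ℕ → P') := fun i => (hT.natEmbedding (T m k) i : ℕ → P')
  have hgT : ∀ i, g i ∈ T m k := fun i => (hT.natEmbedding (T m k) i).2
  have hgne : ∀ i j, i ≠ j → g i ≠ g j := by
    intro i j hij h
    exact hij ((hT.natEmbedding (T m k)).injective (Subtype.ext h))
  have hmM : m ∈ M := by
    have := hy'M (g 0)
    rwa [(hTS m k (hgT 0)).2] at this
  have hgm : ∀ i, g i m = k := fun i => (hTS m k (hgT i)).1
  refine ⟨x m k.1, fun i => y' (g i), ?_, ?_, ?_, ?_⟩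
  · intro i
    rw [hcol m _ hmM]
    exact (hTS m k (hgT i)).2
  · intro i h
    apply hnot (fun n => (g i n).1) m k.1
    have h' : y' (g i) = x m k.1 := h
    change y' (g i) ∈ _
    rw [h']; exact 𝒮.self _
  · intro i
    have := hmem (fun n => (g i n).1) m
    simp only [hgm i] at this
    exact this
  · intro i j hij z hz
    have hne : (fun n => (g i n).1) ≠ (fun n => (g j n).1) := by
      intro h
      apply hgne i j hij
      funext n
      exact Subtype.ext (congrFun h n)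
    obtain ⟨n, hn, hzn⟩ := hinter _ _ hne z hz.1 hz.2
    have hnm : n = m := by
      by_contra hnm
      exact hTR m k (hgT i) (hgT j) (hgne i j hij) n hnm (Subtype.ext hn)
    subst hnm
    have : (g i n).1 = k.1 := by rw [hgm i]
    rw [this] at hzn
    exact hzn

end

end Pool.H262.EG
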