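import Pool.Agent.H262.EG2

set_option autoImplicit false

namespace Pool.H262.EG

open Set Topology

section
variable {X Θ : Type} [LinearOrder Θ] [WellFoundedLT Θ] (𝒮 : Sys X Θ)

open Classical in
/-- the embedding into `C_p` of the space of ultrafilters on `X` -/
noncomputable def emb (x : X) (U : Ultrafilter X) : ℝ := if 𝒮.dn x ∈ U then 1 else 0

theorem emb_pos {x : X} {U : Ultrafilter X} (h : 𝒮.dn x ∈ U) : emb 𝒮 x U = 1 := by
  classical
  unfold emb
  exact if_pos h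

theorem emb_neg {x : X} {U : Ultrafilter X} (h : 𝒮.dn x ∉ U) : emb 𝒮 x U = 0 := by
  classical
  unfold emb
  exact if_neg h

theorem emb_cont (x : X) : Continuous (emb 𝒮 x) := by
  classical
  have hcl : IsClopen {U : Ultrafilter X | 𝒮.dn x ∈ U} :=
    ⟨ultrafilter_isClosed_basic _, ultrafilter_isOpen_basic _⟩
  unfold emb
  refine Continuous.if ?_ continuous_const continuous_const
  intro a ha
  rw [hcl.frontier_eq] at ha
  exact ha.elim

theorem emb_pure (x z : X) [Decidable (z ∈ 𝒮.dn x)] :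
    emb 𝒮 x (pure z) = if z ∈ 𝒮.dn x then 1 else 0 := by
  classical
  unfold emb
  simp only [Ultrafilter.mem_pure]

theorem emb_inj : Function.Injective (emb 𝒮) := by
  classical
  intro x y hxy
  have h1 : x ∈ 𝒮.dn y := by
    have := congrFun hxy (pure x)
    rw [emb_pure, emb_pure, if_pos (𝒮.self x)] at this
    by_contra h
    rw [if_neg h] at this
    exact one_ne_zero this
  have h2 : y ∈ 𝒮.dn x := by
    have := congrFun hxy (pure y)
    rw [emb_pure, emb_pure, if_pos (𝒮.self y)] at this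
    by_contra h
    rw [if_neg h] at this
    exact one_ne_zero this.symm
  rcases 𝒮.mono _ _ h1 with h | h
  · exact h
  · rcases 𝒮.mono _ _ h2 with h' | h'
    · exact h'.symm
    · exact absurd (h.trans h') (lt_irrefl _)

/-- the topology -/
@[reducible] noncomputable def top : TopologicalSpace X :=
  TopologicalSpace.induced (emb 𝒮) inferInstance

theorem emb_emb : @Topology.IsEmbedding X (Ultrafilter X → ℝ) (top 𝒮) _ (emb 𝒮) :=
  @Topology.IsEmbedding.mk X (Ultrafilter X → ℝ) (top 𝒮) _ (emb 𝒮)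
    (@Topology.IsInducing.mk X (Ultrafilter X → ℝ) (top 𝒮) _ (emb 𝒮) rfl) (emb_inj 𝒮)

theorem up_open (z : X) : IsOpen[top 𝒮] {y : X | z ∈ 𝒮.dn y} := by
  classical
  letI := top 𝒮
  have h : Continuous (emb 𝒮) := continuous_induced_dom
  have h2 : Continuous (fun y => emb 𝒮 y (pure z)) := (continuous_pi_iff.1 h) (pure z)
  have h3 : {y : X | z ∈ 𝒮.dn y} = (fun y => emb 𝒮 y (pure z)) ⁻¹' (Set.Ioi (1/2)) := by
    ext y
    simp only [mem_ofPred_eq, mem_preimage, mem_Ioi, emb_pure]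
    by_cases h : z ∈ 𝒮.dn y
    · simp only [h, if_true, true_iff]; norm_num
    · simp only [h, if_false, false_iff]; norm_num
  rw [h3]
  exact isOpen_Ioi.preimage h2

theorem conv (x : X) (y : ℕ → X) (h1 : ∀ i, 𝒮.dn x ⊆ 𝒮.dn (y i))
    (h2 : ∀ i j, i ≠ j → 𝒮.dn (y i) ∩ 𝒮.dn (y j) ⊆ 𝒮.dn x) :
    Filter.Tendsto y Filter.atTop (@nhds X (top 𝒮) x) := by
  classical
  letI := top 𝒮
  rw [(emb_emb 𝒮).isInducing.tendsto_nhds_iff]
  rw [tendsto_pi_nhds]
  intro U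
  by_cases hx : 𝒮.dn x ∈ U
  · have : ∀ i, emb 𝒮 (y i) U = emb 𝒮 x U := by
      intro i
      rw [emb_pos 𝒮 hx, emb_pos 𝒮 (Filter.mem_of_superset hx (h1 i))]
    have h : (fun i => (emb 𝒮 ∘ y) i U) = fun _ => emb 𝒮 x U := by
      funext i; exact this i
    rw [h]
    exact tendsto_const_nhds
  · have hone : ∀ i j, 𝒮.dn (y i) ∈ U → 𝒮.dn (y j) ∈ U → i = j := by
      intro i j hi hj
      by_contra hij
      exact hx (Filter.mem_of_superset (Filter.inter_mem hi hj) (h2 i j hij))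
    have hev : ∀ᶠ i in Filter.atTop, (emb 𝒮 ∘ y) i U = emb 𝒮 x U := by
      by_cases hex : ∃ i, 𝒮.dn (y i) ∈ U
      · obtain ⟨i, hi⟩ := hex
        filter_upwards [Filter.eventually_gt_atTop i] with j hj
        have : 𝒮.dn (y j) ∉ U := fun h => (hj.ne (hone i j hi h)).elim
        rw [Function.comp, emb_neg 𝒮 this, emb_neg 𝒮 hx]
      · push Not at hex
        exact Filter.Eventually.of_forall fun j => by
          rw [Function.comp, emb_neg 𝒮 (hex j), emb_neg 𝒮 hx]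
    exact tendsto_const_nhds.congr' (hev.mono fun i hi => hi.symm)

theorem metaL : ∀ S : Set X, letI := top 𝒮; ∀ 𝒰 : Set (Set S), (∀ U ∈ 𝒰, IsOpen U) →
    ⋃₀ 𝒰 = Set.univ →
          ∃ 𝒱 : Set (Set S), (∀ V ∈ 𝒱, IsOpen V) ∧ ⋃₀ 𝒱 = Set.univ ∧
            (∀ V ∈ 𝒱, ∃ U ∈ 𝒰, V ⊆ U) ∧
            ∀ x : S, {V | V ∈ 𝒱 ∧ x ∈ V}.Countable := by
  classical
  intro S
  letI := top 𝒮
  intro 𝒰 hU hcov
  have h : ∀ z : S, ∃ U ∈ 𝒰, z ∈ U := by
    intro z
    have : z ∈ ⋃₀ 𝒰 := by rw [hcov]; trivial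
    exact this
  choose O hO1 hO2 using h
  refine ⟨Set.range fun z : S => O z ∩ {y : S | (z : X) ∈ 𝒮.dn y}, ?_, ?_, ?_, ?_⟩
  · rintro _ ⟨z, rfl⟩
    exact (hU _ (hO1 z)).inter ((up_open 𝒮 z).preimage continuous_subtype_val)
  · rw [Set.eq_univ_iff_forall]
    intro z
    exact ⟨_, ⟨z, rfl⟩, hO2 z, 𝒮.self _⟩
  · rintro _ ⟨z, rfl⟩
    exact ⟨O z, hO1 z, inter_subset_left⟩
  · intro x
    have hc : {z : S | (z : X) ∈ 𝒮.dn x}.Countable :=
      (𝒮.cnt x).preimage Subtype.val_injective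
    refine (hc.image (fun z : S => O z ∩ {y : S | (z : X) ∈ 𝒮.dn y})).mono ?_
    rintro _ ⟨⟨z, rfl⟩, hz⟩
    exact ⟨z, hz.2, rfl⟩

theorem scat : ∀ S : Set X, S.Nonempty → ∃ x ∈ S, ∃ U : Set X, IsOpen[top 𝒮] U ∧ U ∩ S = {x} := by
  classical
  intro S hS
  have hwf : WellFounded (fun a b : X => 𝒮.lab a < 𝒮.lab b) := InvImage.wf 𝒮.lab wellFounded_lt
  refine ⟨hwf.min S hS, hwf.min_mem S hS, {y | hwf.min S hS ∈ 𝒮.dn y}, up_open 𝒮 _, ?_⟩
  ext y
  constructor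
  · rintro ⟨h1, h2⟩
    rcases 𝒮.mono _ _ h1 with h | h
    · exact h.symm
    · exact absurd h (hwf.not_lt_min S h2)
  · rintro rfl
    exact ⟨𝒮.self _, hwf.min_mem S hS⟩

theorem not_sigma : letI := top 𝒮; ¬ ∃ D : ℕ → Set X, (⋃ n, D n) = Set.univ ∧
    ∀ n, DiscreteTopology (D n) := by
  classical
  letI := top 𝒮
  rintro ⟨D, hD, hdisc⟩
  have h : ∀ x : X, ∃ n, x ∈ D n := by
    intro x
    have : x ∈ ⋃ n, D n := by rw [hD]; trivial
    exact mem_iUnion.1 this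
  choose f hf using h
  obtain ⟨x, y, hy1, hy2, hy3, hy4⟩ := main_comb 𝒮 f
  have hconv := conv 𝒮 x y hy3 hy4
  have hdx := hdisc (f x)
  have hop : IsOpen ({⟨x, hf x⟩} : Set (D (f x))) := isOpen_discrete _
  obtain ⟨O, hO, hOx⟩ := isOpen_induced_iff.1 hop
  have hxO : x ∈ O := by
    have : (⟨x, hf x⟩ : D (f x)) ∈ Subtype.val ⁻¹' O := by rw [hOx]; rfl
    exact this
  have hev := hconv.eventually (hO.mem_nhds hxO)
  obtain ⟨i, hi⟩ := hev.exists
  have hyi : y i ∈ D (f x) := by rw [← hy1 i]; exact hf _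
  have : (⟨y i, hyi⟩ : D (f x)) ∈ Subtype.val ⁻¹' O := hi
  rw [hOx] at this
  exact hy2 i (congrArg Subtype.val this)

end

end Pool.H262.EG
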