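import Pool.Agent.H262.EG3

set_option autoImplicit false

namespace Pool.H262.EG

open Set

/-- labelled well-founded trees -/
inductive Tr (Θ : Type) : Type
  | leaf : Θ → Tr Θ
  | node : Θ → (ℕ → Tr Θ) → Tr Θ

/-- root label -/
def Tr.lab {Θ : Type} : Tr Θ → Θ
  | .leaf ξ => ξ
  | .node ξ _ => ξ

/-- all subtrees -/
def Tr.dn {Θ : Type} : Tr Θ → Set (Tr Θ)
  | .leaf ξ => {.leaf ξ}
  | .node ξ c => insert (.node ξ c) (⋃ n, (c n).dn)

/-- labels strictly increase inward -/
def Tr.good {Θ : Type} [LinearOrder Θ] : Tr Θ → Prop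
  | .leaf _ => True
  | .node ξ c => ∀ n, (c n).good ∧ ξ < (c n).lab

theorem Tr.self {Θ : Type} (x : Tr Θ) : x ∈ x.dn := by
  cases x with
  | leaf ξ => simp [Tr.dn]
  | node ξ c => simp [Tr.dn]

theorem Tr.cnt {Θ : Type} (x : Tr Θ) : x.dn.Countable := by
  induction x with
  | leaf ξ => simp [Tr.dn]
  | node ξ c ih =>
    rw [Tr.dn]
    exact (countable_iUnion ih).insert _

theorem Tr.dn_good {Θ : Type} [LinearOrder Θ] (y : Tr Θ) (hy : y.good) :
    ∀ x ∈ y.dn, x.good ∧ (x = y ∨ y.lab < x.lab) := by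
  induction y with
  | leaf ξ =>
    intro x hx
    rw [Tr.dn, mem_singleton_iff] at hx
    subst hx
    exact ⟨hy, Or.inl rfl⟩
  | node ξ c ih =>
    intro x hx
    rw [Tr.dn] at hx
    rw [Tr.good] at hy
    rcases hx with hx | hx
    · subst hx
      exact ⟨by rw [Tr.good]; exact hy, Or.inl rfl⟩
    · obtain ⟨n, hn⟩ := mem_iUnion.1 hx
      obtain ⟨h1, h2⟩ := ih n (hy n).1 x hn
      refine ⟨h1, Or.inr ?_⟩
      rcases h2 with h2 | h2
      · rw [h2]; exact (hy n).2
      · exact (hy n).2.trans h2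

/-- the tree system on good trees -/
noncomputable def trSys (Θ : Type) [LinearOrder Θ] [Nonempty Θ]
    (hΘ : ∀ g : ℕ → Θ, ∃ b, ∀ n, g n < b) : Sys {x : Tr Θ // x.good} Θ where
  lab x := x.1.lab
  dn x := {z | z.1 ∈ x.1.dn}
  self x := x.1.self
  mono x y h := by
    rcases (Tr.dn_good y.1 y.2 x.1 h).2 with h | h
    · exact Or.inl (Subtype.ext h)
    · exact Or.inr h
  cnt x := x.1.cnt.preimage Subtype.val_injective
  nd ξ c hc := by
    refine ⟨⟨.node ξ (fun n => (c n).1), ?_⟩, rfl, ?_⟩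
    · rw [Tr.good]
      exact fun n => ⟨(c n).2, hc n⟩
    · ext z
      simp only [mem_ofPred_eq, Tr.dn, mem_insert_iff, mem_iUnion, Subtype.ext_iff]
  leaf ξ := by
    refine ⟨(fun η : Θ => (⟨.leaf η, by rw [Tr.good]; trivial⟩ : {x : Tr Θ // x.good})) '' Set.Ioi ξ,
      ?_, ?_, ?_⟩
    · intro hc
      have hinj : Function.Injective
          (fun η : Θ => (⟨.leaf η, by rw [Tr.good]; trivial⟩ : {x : Tr Θ // x.good})) := by
        intro a b hab
        have := congrArg Subtype.val hab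
        exact Tr.leaf.inj this
      have h2 : (Set.Ioi ξ).Countable :=
        Set.countable_of_injective_of_countable_image hinj.injOn hc
      have hne : (Set.Ioi ξ).Nonempty := by
        obtain ⟨b, hb⟩ := hΘ (fun _ => ξ)
        exact ⟨b, hb 0⟩
      obtain ⟨g, hg⟩ := h2.exists_eq_range hne
      obtain ⟨b, hb⟩ := hΘ g
      have hbξ : b ∈ Set.Ioi ξ := by
        have h3 : g 0 ∈ Set.Ioi ξ := by rw [hg]; exact ⟨0, rfl⟩
        exact lt_trans h3 (hb 0)
      rw [hg] at hbξ
      obtain ⟨n, hn⟩ := hbξ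
      have := hb n
      rw [hn] at this
      exact lt_irrefl _ this
    · rintro _ ⟨η, hη, rfl⟩
      exact hη
    · rintro _ ⟨η, hη, rfl⟩ _ ⟨η', hη', rfl⟩ hne
      rw [Function.onFun, Set.disjoint_left]
      intro z hz hz'
      simp only [mem_ofPred_eq, Tr.dn, mem_singleton_iff] at hz hz'
      apply hne
      apply Subtype.ext
      exact hz.symm.trans hz'
  bdd := hΘ
  ne := inferInstance

theorem exists_omega1 : ∃ (Θ : Type) (_ : LinearOrder Θ), WellFoundedLT Θ ∧ Nonempty Θ ∧
    ∀ g : ℕ → Θ, ∃ b, ∀ n, g n < b := by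
  refine ⟨(Cardinal.aleph 1).ord.ToType, inferInstance, inferInstance, ?_, ?_⟩
  · rw [← Cardinal.mk_ne_zero_iff, Cardinal.mk_ord_toType]
    exact (Cardinal.aleph_pos 1).ne'
  · intro g
    by_contra hcon
    push Not at hcon
    have hIic : ∀ a : (Cardinal.aleph 1).ord.ToType, (Set.Iic a).Countable := by
      intro a
      have h1 : Cardinal.mk (Set.Iio a) < Cardinal.aleph 1 := by
        have := Cardinal.mk_Iio_lt a (by simp)
        simpa using this
      have h2 : (Set.Iio a).Countable := by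
        rw [← Cardinal.le_aleph0_iff_set_countable]
        rw [← Order.lt_succ_iff, Cardinal.succ_aleph0]
        exact h1
      rw [← Set.Iio_insert]
      exact h2.insert a
    have hall : (Set.univ : Set (Cardinal.aleph 1).ord.ToType).Countable := by
      refine (countable_iUnion fun n => hIic (g n)).mono ?_
      intro b _
      obtain ⟨n, hn⟩ := hcon b
      exact mem_iUnion.2 ⟨n, hn⟩
    rw [← Cardinal.le_aleph0_iff_set_countable, Cardinal.mk_univ, Cardinal.mk_ord_toType] at hall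
    exact absurd hall (not_le.2 Cardinal.aleph0_lt_aleph_one)

end Pool.H262.EG
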