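import Mathlib

set_option autoImplicit false

noncomputable section

namespace Pool.Agent.H262.Erd

open Set Topology Filter

/-- Real Hilbert space `ℓ²`. -/
abbrev L2 : Type := lp (fun _ : ℕ => ℝ) 2

/-- All coordinates lie in `{0} ∪ {1/k}`. -/
def InP (x : L2) : Prop :=
  ∀ i : ℕ, (x : ℕ → ℝ) i = 0 ∨ ∃ k : ℕ, 0 < k ∧ (x : ℕ → ℝ) i = 1 / (k : ℝ)

lemma InP.nonneg {x : L2} (h : InP x) (i : ℕ) : 0 ≤ (x : ℕ → ℝ) i := by
  rcases h i with h | ⟨k, _, h⟩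
  · rw [h]
  · rw [h]; positivity

lemma norm_sub_sq_le {x y : L2} (h0 : ∀ i, 0 ≤ (x : ℕ → ℝ) i)
    (h : ∀ i, (x : ℕ → ℝ) i ≤ (y : ℕ → ℝ) i) : ‖y - x‖ ^ 2 ≤ ‖y‖ ^ 2 - ‖x‖ ^ 2 := by
  have e : y = x + (y - x) := by abel
  have h1 : ‖y‖ ^ 2 = ‖x‖ ^ 2 + 2 * inner ℝ x (y - x) + ‖y - x‖ ^ 2 := by
    conv_lhs => rw [e]
    exact norm_add_sq_real x (y - x)
  have h2 : 0 ≤ inner ℝ x (y - x) := by
    rw [lp.inner_eq_tsum]
    apply tsum_nonneg
    intro i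
    have : (((y - x : L2)) : ℕ → ℝ) i = (y : ℕ → ℝ) i - (x : ℕ → ℝ) i := rfl
    rw [this]
    simp only [RCLike.inner_apply, conj_trivial]
    exact mul_nonneg (sub_nonneg.mpr (h i)) (h0 i)
  linarith

lemma continuous_coord (i : ℕ) : Continuous fun x : L2 => (x : ℕ → ℝ) i := by
  have h : LipschitzWith 1 fun x : L2 => (x : ℕ → ℝ) i := by
    apply LipschitzWith.of_dist_le_mul
    intro x y
    rw [dist_eq_norm, dist_eq_norm]
    have := lp.norm_apply_le_norm (p := 2) (by norm_num) (x - y) i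
    simpa using this
  exact h.continuous

/-- Erdős's argument: no nonempty bounded subset of the complete Erdős space is clopen. -/
lemma no_clopen (U : Set L2) (hP : ∀ x ∈ U, InP x) (hcl : IsClosed U)
    (hop : ∀ x ∈ U, ∃ r : ℝ, 0 < r ∧ ∀ y, InP y → ‖y - x‖ < r → y ∈ U)
    (hne : U.Nonempty) (R : ℝ) (hbd : ∀ x ∈ U, ‖x‖ ≤ R) : False := by
  -- almost maximal extension
  have next : ∀ (x : U) (n : ℕ), ∃ y : U, (∀ i, (x.1 : ℕ → ℝ) i ≤ (y.1 : ℕ → ℝ) i) ∧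
      ∀ z ∈ U, (∀ i, (x.1 : ℕ → ℝ) i ≤ (z : ℕ → ℝ) i) → ‖z‖ ^ 2 ≤ ‖y.1‖ ^ 2 + (1 / 2) ^ n := by
    intro x n
    set S : Set ℝ := {t | ∃ z ∈ U, (∀ i, (x.1 : ℕ → ℝ) i ≤ (z : ℕ → ℝ) i) ∧ t = ‖z‖ ^ 2} with hS
    have hSne : S.Nonempty := ⟨‖x.1‖ ^ 2, x.1, x.2, fun i => le_rfl, rfl⟩
    have hSbd : BddAbove S := by
      refine ⟨R ^ 2, ?_⟩
      rintro t ⟨z, hz, -, rfl⟩
      have := hbd z hz
      have := norm_nonneg z
      nlinarith
    have hlt : sSup S - (1 / 2 : ℝ) ^ n < sSup S := by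
      have : (0:ℝ) < (1 / 2 : ℝ) ^ n := by positivity
      linarith
    obtain ⟨t, ⟨y, hy, hxy, rfl⟩, hty⟩ := exists_lt_of_lt_csSup hSne hlt
    refine ⟨⟨y, hy⟩, hxy, ?_⟩
    intro z hz hxz
    have : ‖z‖ ^ 2 ≤ sSup S := le_csSup hSbd ⟨z, hz, hxz, rfl⟩
    linarith
  choose nx hnx1 hnx2 using next
  obtain ⟨x0, hx0⟩ := hne
  let s : ℕ → U := fun n => Nat.rec ⟨x0, hx0⟩ (fun k x => nx x k) n
  have hs : ∀ n, s (n + 1) = nx (s n) n := fun n => rfl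
  have hmono1 : ∀ n i, ((s n).1 : ℕ → ℝ) i ≤ ((s (n + 1)).1 : ℕ → ℝ) i := by
    intro n i
    rw [hs]; exact hnx1 (s n) n i
  have hmono : ∀ i, Monotone fun n => ((s n).1 : ℕ → ℝ) i := fun i =>
    monotone_nat_of_le_succ fun n => hmono1 n i
  have hdiff : ∀ m n, m ≤ n → ‖(s n).1 - (s m).1‖ ^ 2 ≤ ‖(s n).1‖ ^ 2 - ‖(s m).1‖ ^ 2 := by
    intro m n hmn
    exact norm_sub_sq_le (fun i => (hP _ (s m).2).nonneg i) (fun i => hmono i hmn)
  have hnm : Monotone fun n => ‖(s n).1‖ ^ 2 := by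
    intro m n hmn
    have := hdiff m n hmn
    have := sq_nonneg ‖(s n).1 - (s m).1‖
    simp only
    linarith
  have hbdd : BddAbove (range fun n => ‖(s n).1‖ ^ 2) := by
    refine ⟨R ^ 2, ?_⟩
    rintro t ⟨n, rfl⟩
    have := hbd _ (s n).2
    have := norm_nonneg (s n).1
    simp only
    nlinarith
  have hlim := tendsto_atTop_ciSup hnm hbdd
  have hcs := hlim.cauchySeq
  have hcauchy : CauchySeq fun n => (s n).1 := by
    rw [Metric.cauchySeq_iff'] at hcs ⊢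
    intro ε hε
    obtain ⟨N, hN⟩ := hcs (ε ^ 2) (by positivity)
    refine ⟨N, fun n hn => ?_⟩
    have h1 := hN n hn
    rw [Real.dist_eq] at h1
    have h2 := hdiff N n hn
    have h3 := (abs_lt.mp h1).2
    rw [dist_eq_norm]
    have h4 : ‖(s n).1 - (s N).1‖ ^ 2 < ε ^ 2 := by linarith
    exact lt_of_pow_lt_pow_left₀ 2 hε.le h4
  obtain ⟨x, hx⟩ := cauchySeq_tendsto_of_complete hcauchy
  have hxU : x ∈ U := hcl.mem_of_tendsto hx (Eventually.of_forall fun n => (s n).2)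
  have hle : ∀ n i, ((s n).1 : ℕ → ℝ) i ≤ (x : ℕ → ℝ) i := by
    intro n i
    have ht : Tendsto (fun n => ((s n).1 : ℕ → ℝ) i) atTop (𝓝 ((x : ℕ → ℝ) i)) :=
      ((continuous_coord i).tendsto x).comp hx
    exact (hmono i).ge_of_tendsto ht n
  have hnorm : Tendsto (fun n => ‖(s n).1‖ ^ 2) atTop (𝓝 (‖x‖ ^ 2)) := (hx.norm).pow 2
  have hmax : ∀ z ∈ U, (∀ i, (x : ℕ → ℝ) i ≤ (z : ℕ → ℝ) i) → ‖z‖ ^ 2 ≤ ‖x‖ ^ 2 := by
    intro z hz hxz
    have h1 : ∀ n, ‖z‖ ^ 2 ≤ ‖(s (n + 1)).1‖ ^ 2 + (1 / 2) ^ n := by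
      intro n
      rw [hs]
      exact hnx2 (s n) n z hz (fun i => (hle n i).trans (hxz i))
    have h2 : Tendsto (fun n => ‖(s (n + 1)).1‖ ^ 2 + (1 / 2 : ℝ) ^ n) atTop
        (𝓝 (‖x‖ ^ 2 + 0)) := by
      refine Tendsto.add ?_ ?_
      · exact (tendsto_add_atTop_iff_nat 1).mpr hnorm
      · exact tendsto_pow_atTop_nhds_zero_of_lt_one (by norm_num) (by norm_num)
    rw [add_zero] at h2
    exact ge_of_tendsto' h2 h1
  obtain ⟨r, hr, hball⟩ := hop x hxU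
  obtain ⟨j, hj⟩ := exists_nat_one_div_lt hr
  -- coordinates tend to zero
  have hsum : Summable fun i => ‖(x : ℕ → ℝ) i‖ ^ (2 : ENNReal).toReal :=
    (lp.memℓp x).summable (by norm_num)
  have hx0' : Tendsto (fun i => ‖(x : ℕ → ℝ) i‖ ^ (2 : ENNReal).toReal) atTop (𝓝 0) :=
    hsum.tendsto_atTop_zero
  have hpos : (0:ℝ) < 1 / ((j : ℝ) + 1) := by positivity
  obtain ⟨i, hi⟩ := (hx0'.eventually (gt_mem_nhds (show (0:ℝ) < (1 / ((j : ℝ) + 1)) ^ 2 by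
    positivity))).exists
  have hxi : (x : ℕ → ℝ) i < 1 / ((j : ℝ) + 1) := by
    have h1 : ‖(x : ℕ → ℝ) i‖ ^ 2 < (1 / ((j : ℝ) + 1)) ^ 2 := by
      have e : ‖(x : ℕ → ℝ) i‖ ^ (2 : ENNReal).toReal = ‖(x : ℕ → ℝ) i‖ ^ (2 : ℕ) := by
        norm_cast
      rw [e] at hi
      exact hi
    have h2 := lt_of_pow_lt_pow_left₀ 2 hpos.le h1
    exact (le_abs_self _).trans_lt h2
  have hxi0 := (hP x hxU).nonneg i
  set a : ℝ := 1 / ((j : ℝ) + 1) - (x : ℕ → ℝ) i with ha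
  have ha0 : 0 < a := by linarith
  set z : L2 := x + lp.single 2 i a with hz
  have hzi : ∀ m, (z : ℕ → ℝ) m = (x : ℕ → ℝ) m + if m = i then a else 0 := by
    intro m
    have : (z : ℕ → ℝ) m = (x : ℕ → ℝ) m + (lp.single 2 i a : L2) m := rfl
    rw [this]
    by_cases hm : m = i
    · subst hm; simp
    · simp [hm]
  have hzP : InP z := by
    intro m
    rw [hzi]
    by_cases hm : m = i
    · right
      refine ⟨j + 1, Nat.succ_pos j, ?_⟩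
      subst hm
      rw [if_pos rfl, ha]
      push_cast
      ring
    · rw [if_neg hm, add_zero]
      exact hP x hxU m
  have hzx : ‖z - x‖ = a := by
    have : z - x = lp.single 2 i a := by rw [hz]; abel
    rw [this, lp.norm_single (by norm_num), Real.norm_eq_abs, abs_of_pos ha0]
  have hzU : z ∈ U := by
    apply hball z hzP
    rw [hzx]
    linarith
  have hxz : ∀ m, (x : ℕ → ℝ) m ≤ (z : ℕ → ℝ) m := by
    intro m
    rw [hzi]
    split_ifs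
    · linarith
    · linarith
  have h1 := hmax z hzU hxz
  have h2 := norm_sub_sq_le (fun i => (hP x hxU).nonneg i) hxz
  rw [hzx] at h2
  nlinarith

end Pool.Agent.H262.Erd
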