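import Mathlib
import Pool.Agent.H262.Erd1

set_option autoImplicit false

noncomputable section

namespace Pool.Agent.H262.Erd

open Set Topology Filter

/-- Zero-dimensionality at a point: a neighbourhood base of clopen sets. -/
def ZD (Y : Type*) [TopologicalSpace Y] (y : Y) : Prop :=
  ∀ W ∈ 𝓝 y, ∃ V : Set Y, IsClopen V ∧ y ∈ V ∧ V ⊆ W

lemma ZD.of_isInducing {Y Z : Type*} [TopologicalSpace Y] [TopologicalSpace Z] {f : Y → Z}
    (hf : IsInducing f) {y : Y} (h : ZD Z (f y)) : ZD Y y := by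
  intro W hW
  rw [hf.nhds_eq_comap, mem_comap] at hW
  obtain ⟨W', hW', hsub⟩ := hW
  obtain ⟨V, hV, hyV, hVW⟩ := h W' hW'
  exact ⟨f ⁻¹' V, hV.preimage hf.continuous, hyV, (preimage_mono hVW).trans hsub⟩

lemma norm_sq_eq_tsum (x : L2) : ‖x‖ ^ 2 = ∑' i, ((x : ℕ → ℝ) i) ^ 2 := by
  rw [← real_inner_self_eq_norm_sq, lp.inner_eq_tsum]
  apply tsum_congr
  intro i
  simp only [RCLike.inner_apply, conj_trivial]
  ring

lemma summable_sq (x : L2) : Summable fun i => ((x : ℕ → ℝ) i) ^ 2 := by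
  have := lp.summable_inner (𝕜 := ℝ) x x
  refine this.congr ?_
  intro i
  simp only [RCLike.inner_apply, conj_trivial]
  ring

/-- Coordinatewise convergence plus control of norms gives norm convergence. -/
lemma tendsto_of_coord {α : Type*} {l : Filter α} {F : α → L2} {x : L2}
    (h1 : ∀ i, Tendsto (fun t => (F t : ℕ → ℝ) i) l (𝓝 ((x : ℕ → ℝ) i)))
    (h2 : ∀ δ : ℝ, 0 < δ → ∀ᶠ t in l, ‖F t‖ ^ 2 ≤ ‖x‖ ^ 2 + δ) :
    Tendsto F l (𝓝 x) := by
  rw [Metric.tendsto_nhds]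
  intro ε hε
  set M : ℝ := ‖x‖ + 1 with hM
  have hM0 : 0 < M := by have := norm_nonneg x; linarith
  -- small parameter
  obtain ⟨e, he, hes⟩ : ∃ e : ℝ, 0 < e ∧ e + 2 * e + 2 * M * e + 2 * ‖x‖ * e < ε ^ 2 := by
    refine ⟨ε ^ 2 / (2 * (3 + 2 * M + 2 * ‖x‖)), by positivity, ?_⟩
    have hD : 0 < 3 + 2 * M + 2 * ‖x‖ := by positivity
    have : ε ^ 2 / (2 * (3 + 2 * M + 2 * ‖x‖)) + 2 * (ε ^ 2 / (2 * (3 + 2 * M + 2 * ‖x‖)))
        + 2 * M * (ε ^ 2 / (2 * (3 + 2 * M + 2 * ‖x‖)))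
        + 2 * ‖x‖ * (ε ^ 2 / (2 * (3 + 2 * M + 2 * ‖x‖))) = ε ^ 2 / 2 := by
      field_simp
      ring
    rw [this]
    have : 0 < ε ^ 2 := by positivity
    linarith
  have hs := lp.hasSum_single (E := fun _ : ℕ => ℝ) (p := 2) (by norm_num) x
  have hs' := hs.eventually (Metric.ball_mem_nhds x he)
  obtain ⟨T, hT⟩ := hs'.exists
  set P : L2 := ∑ i ∈ T, lp.single 2 i ((x : ℕ → ℝ) i) with hP
  have hxP : ‖x - P‖ < e := by
    rw [← dist_eq_norm, dist_comm]; exact hT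
  have hinner : ∀ y : L2, inner ℝ y P = ∑ i ∈ T, (y : ℕ → ℝ) i * (x : ℕ → ℝ) i := by
    intro y
    rw [hP, inner_sum]
    apply Finset.sum_congr rfl
    intro i _
    rw [lp.inner_single_right]
    simp only [RCLike.inner_apply, conj_trivial]
    ring
  have hlim : Tendsto (fun t => inner ℝ (F t) P) l (𝓝 (inner ℝ x P)) := by
    simp only [hinner]
    exact tendsto_finsetSum _ fun i _ => (h1 i).mul_const _
  have hev := hlim.eventually (Metric.ball_mem_nhds _ he)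
  have hev2 := h2 e he
  have hev3 := h2 1 one_pos
  filter_upwards [hev, hev2, hev3] with t ht1 ht2 ht3
  rw [Real.dist_eq] at ht1
  have hFM : ‖F t‖ ≤ M := by
    have : ‖F t‖ ^ 2 ≤ M ^ 2 := by
      have := norm_nonneg x
      nlinarith
    exact le_of_sq_le_sq this hM0.le
  have e1 : ‖F t - x‖ ^ 2 = ‖F t‖ ^ 2 - 2 * inner ℝ (F t) x + ‖x‖ ^ 2 := norm_sub_sq_real _ _
  have e2 : inner ℝ (F t) x = inner ℝ (F t) P + inner ℝ (F t) (x - P) := by
    rw [← inner_add_right]; congr 1; abel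
  have e3 : inner ℝ x x = inner ℝ x P + inner ℝ x (x - P) := by
    rw [← inner_add_right]; congr 1; abel
  rw [real_inner_self_eq_norm_sq] at e3
  have b1 : |inner ℝ (F t) (x - P)| ≤ M * e :=
    (abs_real_inner_le_norm _ _).trans (mul_le_mul hFM hxP.le (norm_nonneg _) hM0.le)
  have b2 : |inner ℝ x (x - P)| ≤ ‖x‖ * e :=
    (abs_real_inner_le_norm _ _).trans (mul_le_mul_of_nonneg_left hxP.le (norm_nonneg _))
  have c1 := (abs_le.mp b1).1
  have c2 := (abs_le.mp b2).2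
  have c3 := (abs_lt.mp ht1).1
  rw [dist_eq_norm]
  have : ‖F t - x‖ ^ 2 < ε ^ 2 := by
    rw [e1, e2]
    nlinarith
  exact lt_of_pow_lt_pow_left₀ 2 hε.le this

/-- The coordinate set. -/
def Z : Set ℝ := insert 0 (range fun k : ℕ => 1 / ((k : ℝ) + 1))

lemma Z_compact : IsCompact Z :=
  (tendsto_one_div_add_atTop_nhds_zero_nat (𝕜 := ℝ)).isCompact_insert_range

lemma Z_countable : Z.Countable := (countable_range _).insert _

lemma InP.mem_Z {x : L2} (h : InP x) (i : ℕ) : (x : ℕ → ℝ) i ∈ Z := by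
  rcases h i with h | ⟨k, hk, h⟩
  · rw [h]; exact mem_insert _ _
  · rw [h]
    refine mem_insert_of_mem _ ⟨k - 1, ?_⟩
    simp only
    have : ((k - 1 : ℕ) : ℝ) + 1 = k := by
      rw [Nat.cast_sub hk]; simp
    rw [this]

/-- A nonempty closed bounded subset of the complete Erdős space is zero-dimensional at some
point. -/
lemma exists_ZD (A : Set L2) (hA : ∀ x ∈ A, InP x) (hcl : IsClosed A) (hne : A.Nonempty)
    (R : ℝ) (hbd : ∀ x ∈ A, ‖x‖ ≤ R) : ∃ a : A, ZD A a := by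
  classical
  let c : L2 → (ℕ → ℝ) := fun x => (x : ℕ → ℝ)
  have hc : Continuous c := continuous_pi continuous_coord
  set B : Set (ℕ → ℝ) := closure (c '' A) with hB
  let K : Set (ℕ → ℝ) := Set.pi univ fun _ => Z
  have hK : IsCompact K := isCompact_univ_pi fun _ => Z_compact
  have hBK : B ⊆ K := by
    apply closure_minimal _ hK.isClosed
    rintro _ ⟨x, hx, rfl⟩ i _
    exact (hA x hx).mem_Z i
  have hBc : IsCompact B := hK.of_isClosed_subset isClosed_closure hBK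
  have : CompactSpace B := isCompact_iff_compactSpace.mp hBc
  have : Nonempty B := by
    obtain ⟨x, hx⟩ := hne
    exact ⟨⟨c x, subset_closure ⟨x, hx, rfl⟩⟩⟩
  have : TotallyDisconnectedSpace B := by
    rw [totallyDisconnectedSpace_subtype_iff]
    intro T hT hpre z hz w hw
    funext i
    have h1 : IsPreconnected ((fun f : ℕ → ℝ => f i) '' T) :=
      hpre.image _ (continuous_apply i).continuousOn
    have h2 : (fun f : ℕ → ℝ => f i) '' T ⊆ Z := by
      rintro _ ⟨f, hf, rfl⟩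
      exact hBK (hT hf) i (mem_univ i)
    have h3 := Z_countable.isTotallyDisconnected _ h2 h1
    exact h3 ⟨z, hz, rfl⟩ ⟨w, hw, rfl⟩
  -- bounded partial sums on B
  have hpart : ∀ z ∈ B, ∀ n : ℕ, ∑ i ∈ Finset.range n, (z i) ^ 2 ≤ R ^ 2 := by
    intro z hz n
    have hclosed : IsClosed {z : ℕ → ℝ | ∑ i ∈ Finset.range n, (z i) ^ 2 ≤ R ^ 2} :=
      isClosed_le (by fun_prop) continuous_const
    have hsub : c '' A ⊆ {z : ℕ → ℝ | ∑ i ∈ Finset.range n, (z i) ^ 2 ≤ R ^ 2} := by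
      rintro _ ⟨x, hx, rfl⟩
      change ∑ i ∈ Finset.range n, ((x : ℕ → ℝ) i) ^ 2 ≤ R ^ 2
      have h1 : ∑ i ∈ Finset.range n, ((x : ℕ → ℝ) i) ^ 2 ≤ ‖x‖ ^ 2 := by
        rw [norm_sq_eq_tsum]
        exact (summable_sq x).sum_le_tsum _ (fun i _ => sq_nonneg _)
      have h2 := hbd x hx
      have h3 := norm_nonneg x
      nlinarith
    exact closure_minimal hsub hclosed hz
  have hsummable : ∀ z ∈ B, Summable fun i => (z i) ^ 2 := fun z hz =>
    summable_of_sum_range_le (fun i => sq_nonneg _) (hpart z hz)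
  let S : B → ℝ := fun z => ∑' i, (z.1 i) ^ 2
  have hSle : ∀ z : B, S z ≤ R ^ 2 := fun z =>
    (hsummable z.1 z.2).tsum_le_of_sum_range_le (hpart z.1 z.2)
  have hlsc : ∀ (w : B) (t : ℝ), t < S w → ∀ᶠ w' in 𝓝 w, t < S w' := by
    intro w t ht
    have h1 := (hsummable w.1 w.2).hasSum.tendsto_sum_nat
    obtain ⟨n, hn⟩ := (h1.eventually (lt_mem_nhds ht)).exists
    have h2 : Continuous fun w' : B => ∑ i ∈ Finset.range n, (w'.1 i) ^ 2 :=
      continuous_finset_sum _ fun i _ =>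
        (((continuous_apply i).comp continuous_subtype_val).pow 2)
    filter_upwards [(h2.tendsto w).eventually (lt_mem_nhds hn)] with w' hw'
    exact hw'.trans_le ((hsummable w'.1 w'.2).sum_le_tsum _ (fun i _ => sq_nonneg _))
  -- Baire category
  let G : ℕ → Set B := fun m => {z | ∃ V : Set B, IsOpen V ∧ z ∈ V ∧
    ∀ w ∈ V, ∀ w' ∈ V, S w ≤ S w' + 1 / ((m : ℝ) + 1)}
  have hGo : ∀ m, IsOpen (G m) := by
    intro m
    rw [isOpen_iff_forall_mem_open]
    rintro z ⟨V, hV, hz, hVV⟩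
    exact ⟨V, fun w hw => ⟨V, hV, hw, hVV⟩, hV, hz⟩
  have hGd : ∀ m, Dense (G m) := by
    intro m
    rw [dense_iff_inter_open]
    intro W hW hWne
    set t : Set ℝ := S '' W with ht
    have htne : t.Nonempty := hWne.image _
    have htb : BddAbove t := ⟨R ^ 2, by rintro _ ⟨w, -, rfl⟩; exact hSle w⟩
    have hm : (0:ℝ) < 1 / ((m : ℝ) + 1) := by positivity
    obtain ⟨_, ⟨w, hw, rfl⟩, hlt⟩ := exists_lt_of_lt_csSup htne
      (show sSup t - 1 / ((m : ℝ) + 1) < sSup t by linarith)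
    have hev := (hlsc w _ hlt).and (hW.mem_nhds hw)
    obtain ⟨V, hVsub, hVo, hwV⟩ := mem_nhds_iff.mp hev
    refine ⟨w, hw, V, hVo, hwV, ?_⟩
    intro w1 hw1 w2 hw2
    have h1 : S w1 ≤ sSup t := le_csSup htb ⟨w1, (hVsub hw1).2, rfl⟩
    have h2 : sSup t - 1 / ((m : ℝ) + 1) < S w2 := (hVsub hw2).1
    linarith
  obtain ⟨z, hz⟩ := (dense_iInter_of_isOpen hGo hGd).nonempty
  rw [mem_iInter] at hz
  have hzc : ∀ δ : ℝ, 0 < δ → ∀ᶠ w in 𝓝 z, S w ≤ S z + δ := by
    intro δ hδ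
    obtain ⟨m, hm⟩ := exists_nat_one_div_lt hδ
    obtain ⟨V, hV, hzV, hVV⟩ := hz m
    filter_upwards [hV.mem_nhds hzV] with w hw
    have := hVV w hw z hzV
    linarith
  -- the corresponding vector
  have hmem : Memℓp z.1 2 := by
    apply memℓp_gen
    have := hsummable z.1 z.2
    refine this.congr ?_
    intro i
    have e : ‖z.1 i‖ ^ (2 : ENNReal).toReal = ‖z.1 i‖ ^ (2 : ℕ) := by norm_cast
    rw [e, Real.norm_eq_abs, sq_abs]
  let x : L2 := ⟨z.1, hmem⟩
  have hxc : ∀ i, (x : ℕ → ℝ) i = z.1 i := fun i => rfl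
  have hSx : ‖x‖ ^ 2 = S z := norm_sq_eq_tsum x
  let cB : A → B := fun a => ⟨c a.1, subset_closure ⟨a.1, a.2, rfl⟩⟩
  have hcB : Continuous cB := (hc.comp continuous_subtype_val).subtype_mk _
  have hS : ∀ a : A, S (cB a) = ‖a.1‖ ^ 2 := fun a => (norm_sq_eq_tsum a.1).symm
  set l : Filter A := comap cB (𝓝 z) with hl
  have htl : Tendsto (fun a : A => a.1) l (𝓝 x) := by
    apply tendsto_of_coord
    · intro i
      have h1 : Tendsto (fun a : A => (cB a).1 i) l (𝓝 (z.1 i)) := by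
        have h2 : Continuous fun w : B => w.1 i :=
          (continuous_apply i).comp continuous_subtype_val
        exact (h2.tendsto z).comp tendsto_comap
      exact h1
    · intro δ hδ
      have h1 : ∀ᶠ a in l, S (cB a) ≤ S z + δ := tendsto_comap.eventually (hzc δ hδ)
      filter_upwards [h1] with a ha
      rw [hS] at ha
      rw [hSx]
      exact ha
  have : l.NeBot := by
    rw [hl, comap_neBot_iff_frequently]
    have h1 : z.1 ∈ closure (c '' A) := z.2
    rw [mem_closure_iff_frequently] at h1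
    have h2 : ∃ᶠ y in 𝓝 z, y.1 ∈ c '' A := by
      rw [nhds_subtype_eq_comap]
      intro hcon
      apply h1
      rw [eventually_comap] at hcon
      filter_upwards [hcon] with y hy hyA
      exact hy ⟨y, subset_closure hyA⟩ rfl hyA
    refine h2.mono ?_
    rintro y ⟨a, ha, hay⟩
    exact ⟨⟨a, ha⟩, Subtype.ext hay⟩
  have hxA : x ∈ A := hcl.mem_of_tendsto htl (Eventually.of_forall fun a => a.2)
  refine ⟨⟨x, hxA⟩, ?_⟩
  intro W hW
  have hWl : W ∈ l := by
    have h1 : Tendsto id l (𝓝 (⟨x, hxA⟩ : A)) := by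
      rw [tendsto_subtype_rng]
      exact htl
    exact h1 hW
  rw [hl, mem_comap] at hWl
  obtain ⟨O, hO, hOW⟩ := hWl
  obtain ⟨C, hC, hzC, hCO⟩ := compact_exists_isClopen_in_isOpen (isOpen_interior (s := O))
    (mem_interior_iff_mem_nhds.mpr hO)
  refine ⟨cB ⁻¹' C, hC.preimage hcB, ?_, ?_⟩
  · exact hzC
  · exact (preimage_mono (hCO.trans interior_subset)).trans hOW

end Pool.Agent.H262.Erd
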