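import Mathlib
import Pool.Agent.H262.Erd2

set_option autoImplicit false

noncomputable section

namespace Pool.Agent.H262.Erd

open Set Topology Filter

/-- The compact-open topology on the homeomorphism group. -/
@[instance_reducible] def coTop (X : Type*) [TopologicalSpace X] : TopologicalSpace (X ≃ₜ X) :=
  TopologicalSpace.induced (fun g : X ≃ₜ X => ContinuousMap.mk (⇑g) g.continuous) inferInstance

attribute [local instance] coTop

section general

variable {X : Type*} [TopologicalSpace X]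

/-- The underlying continuous map. -/
def toC (g : X ≃ₜ X) : C(X, X) := ContinuousMap.mk (⇑g) g.continuous

lemma isInducing_toC : IsInducing (toC (X := X)) := ⟨rfl⟩

lemma continuous_evalAt (x : X) : Continuous fun g : X ≃ₜ X => g x :=
  (continuous_eval_const (F := C(X, X)) x).comp isInducing_toC.continuous

/-- Left translation is continuous. -/
lemma continuous_transRight (h : X ≃ₜ X) : Continuous fun g : X ≃ₜ X => g.trans h := by
  rw [isInducing_toC.continuous_iff]
  have : toC ∘ (fun g : X ≃ₜ X => g.trans h) = (fun k : C(X, X) => (toC h).comp k) ∘ toC := by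
    funext g; ext x; rfl
  rw [this]
  exact (ContinuousMap.continuous_postcomp (toC h)).comp isInducing_toC.continuous

/-- Left translation as a homeomorphism. -/
def lt (h : X ≃ₜ X) : (X ≃ₜ X) ≃ₜ (X ≃ₜ X) where
  toFun g := g.trans h
  invFun g := g.trans h.symm
  left_inv g := by ext x; simp
  right_inv g := by ext x; simp
  continuous_toFun := continuous_transRight h
  continuous_invFun := continuous_transRight h.symm

lemma ZD_homog (g g' : X ≃ₜ X) (h : ZD (X ≃ₜ X) g) : ZD (X ≃ₜ X) g' := by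
  apply ZD.of_isInducing (lt (g'.symm.trans g)).isInducing
  have : (lt (g'.symm.trans g)) g' = g := by
    ext x
    simp [lt]
  rw [this]
  exact h

/-- The homeomorphism of `ℕ × X` which is `g` on the `m`-th copy and the identity elsewhere. -/
def ins (m : ℕ) (g : X ≃ₜ X) : (ℕ × X) ≃ₜ (ℕ × X) where
  toFun p := if p.1 = m then (m, g p.2) else p
  invFun p := if p.1 = m then (m, g.symm p.2) else p
  left_inv := by
    rintro ⟨j, x⟩
    by_cases h : j = m <;> simp [h]
  right_inv := by
    rintro ⟨j, x⟩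
    by_cases h : j = m <;> simp [h]
  continuous_toFun := by
    rw [continuous_prod_of_discrete_left]
    intro j
    by_cases h : j = m
    · simp only [h, if_true]
      fun_prop
    · simp only [h, if_false]
      fun_prop
  continuous_invFun := by
    rw [continuous_prod_of_discrete_left]
    intro j
    by_cases h : j = m
    · simp only [h, if_true]
      fun_prop
    · simp only [h, if_false]
      fun_prop

lemma ins_self (m : ℕ) (g : X ≃ₜ X) (x : X) : ins m g (m, x) = (m, g x) := by
  change (if m = m then (m, g x) else (m, x)) = _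
  simp

lemma ins_ne {m j : ℕ} (h : j ≠ m) (g : X ≃ₜ X) (x : X) : ins m g (j, x) = (j, x) := by
  change (if j = m then (m, g x) else (j, x)) = _
  simp [h]

lemma continuous_ins (m : ℕ) : Continuous (ins m : (X ≃ₜ X) → (ℕ × X ≃ₜ ℕ × X)) := by
  rw [isInducing_toC.continuous_iff, ContinuousMap.continuous_compactOpen]
  intro K hK U hU
  by_cases hcase : ∀ p ∈ K, p.1 ≠ m → p ∈ U
  · have hKm : IsCompact (Prod.snd '' (K ∩ ({m} ×ˢ univ)) : Set X) :=
      (hK.inter_right ((isClosed_discrete _).prod isClosed_univ)).image continuous_snd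
    have hUm : IsOpen ((fun x : X => (m, x)) ⁻¹' U) := hU.preimage (by fun_prop)
    have : {g : X ≃ₜ X | MapsTo ((toC ∘ ins m) g) K U}
        = toC ⁻¹' {f : C(X, X) | MapsTo f (Prod.snd '' (K ∩ ({m} ×ˢ univ)) : Set X)
          ((fun x : X => (m, x)) ⁻¹' U)} := by
      ext g
      constructor
      · intro hg
        rintro _ ⟨⟨j, x⟩, ⟨hK1, hj, -⟩, rfl⟩
        have hj' : j = m := hj
        subst hj'
        have h1 : ins j g (j, x) ∈ U := hg hK1
        rw [ins_self] at h1
        exact h1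
      · intro hg
        rintro ⟨j, x⟩ hjx
        change ins m g (j, x) ∈ U
        by_cases hj : j = m
        · subst hj
          rw [ins_self]
          exact hg ⟨(j, x), ⟨hjx, rfl, mem_univ _⟩, rfl⟩
        · rw [ins_ne hj]
          exact hcase _ hjx hj
    rw [this]
    exact (ContinuousMap.isOpen_setOfPred_mapsTo hKm hUm).preimage isInducing_toC.continuous
  · have : {g : X ≃ₜ X | MapsTo ((toC ∘ ins m) g) K U} = ∅ := by
      ext g
      simp only [mem_empty_iff_false, iff_false]
      intro hg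
      apply hcase
      rintro ⟨j, x⟩ hp hj
      have h1 : ins m g (j, x) ∈ U := hg hp
      rw [ins_ne hj] at h1
      exact h1
    rw [this]
    exact isOpen_empty

lemma isInducing_ins (m : ℕ) : IsInducing (ins m : (X ≃ₜ X) → (ℕ × X ≃ₜ ℕ × X)) := by
  let r : (ℕ × X ≃ₜ ℕ × X) → C(X, X) := fun G =>
    ((ContinuousMap.mk Prod.snd continuous_snd : C(ℕ × X, X)).comp (toC G)).comp
      (ContinuousMap.mk (fun x : X => (m, x)) (by fun_prop))
  have hr : Continuous r :=
    (ContinuousMap.continuous_precomp _).comp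
      ((ContinuousMap.continuous_postcomp _).comp isInducing_toC.continuous)
  apply IsInducing.of_comp (continuous_ins m) hr
  have : r ∘ ins m = toC := by
    funext g
    ext x
    change (ins m g (m, x)).2 = g x
    rw [ins_self]
  rw [this]
  exact isInducing_toC

lemma range_ins (m : ℕ) : range (ins m : (X ≃ₜ X) → (ℕ × X ≃ₜ ℕ × X)) =
    {G | (∀ j x, j ≠ m → G (j, x) = (j, x)) ∧ ∀ x, (G (m, x)).1 = m} := by
  ext G
  constructor
  · rintro ⟨g, rfl⟩
    refine ⟨fun j x hj => ins_ne hj g x, fun x => ?_⟩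
    rw [ins_self]
  · rintro ⟨h1, h2⟩
    have h2' : ∀ x, G (m, x) = (m, (G (m, x)).2) := fun x => Prod.ext (h2 x) rfl
    have h3 : ∀ x, (G.symm (m, x)).1 = m := by
      intro x
      by_contra hne
      have h4 := h1 (G.symm (m, x)).1 (G.symm (m, x)).2 hne
      rw [Prod.mk.eta, G.apply_symm_apply] at h4
      exact hne (congrArg Prod.fst h4).symm
    have h3' : ∀ x, G.symm (m, x) = (m, (G.symm (m, x)).2) := fun x => Prod.ext (h3 x) rfl
    let g : X ≃ₜ X :=
      { toFun := fun x => (G (m, x)).2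
        invFun := fun x => (G.symm (m, x)).2
        left_inv := by
          intro x
          change (G.symm (m, (G (m, x)).2)).2 = x
          rw [← h2' x, G.symm_apply_apply]
        right_inv := by
          intro x
          change (G (m, (G.symm (m, x)).2)).2 = x
          rw [← h3' x, G.apply_symm_apply]
        continuous_toFun := by
          exact continuous_snd.comp (G.continuous.comp (by fun_prop))
        continuous_invFun := by
          exact continuous_snd.comp (G.symm.continuous.comp (by fun_prop)) }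
    refine ⟨g, ?_⟩
    ext ⟨j, x⟩ : 1
    by_cases hj : j = m
    · subst hj
      rw [ins_self]
      exact (h2' x).symm
    · rw [ins_ne hj, h1 j x hj]

lemma isClosed_range_ins [T2Space X] (m : ℕ) :
    IsClosed (range (ins m : (X ≃ₜ X) → (ℕ × X ≃ₜ ℕ × X))) := by
  rw [range_ins]
  have e : {G : ℕ × X ≃ₜ ℕ × X | (∀ j x, j ≠ m → G (j, x) = (j, x)) ∧ ∀ x, (G (m, x)).1 = m}
      = (⋂ (j : ℕ) (x : X) (_ : j ≠ m), {G | G (j, x) = (j, x)})
        ∩ ⋂ x : X, {G | (G (m, x)).1 = m} := by
    ext G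
    simp only [mem_inter_iff, mem_iInter]
    rfl
  rw [e]
  apply IsClosed.inter
  · refine isClosed_iInter fun j => isClosed_iInter fun x => isClosed_iInter fun _ => ?_
    exact isClosed_eq (continuous_evalAt (j, x)) continuous_const
  · refine isClosed_iInter fun x => ?_
    exact isClosed_eq (continuous_fst.comp (continuous_evalAt (m, x))) continuous_const

/-- Homeomorphisms supported in the `m`-th copy tend to the identity. -/
lemma tendsto_ins (g : ℕ → (X ≃ₜ X)) :
    Tendsto (fun m => ins m (g m)) atTop (𝓝 (Homeomorph.refl (ℕ × X))) := by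
  rw [isInducing_toC.tendsto_nhds_iff, ContinuousMap.tendsto_nhds_compactOpen]
  intro K hK U hU hKU
  have hfin : (Prod.fst '' K : Set ℕ).Finite := (hK.image continuous_fst).finite_of_discrete
  obtain ⟨N, hN⟩ := hfin.bddAbove
  filter_upwards [eventually_gt_atTop N] with m hm
  rintro ⟨j, x⟩ hjx
  have hj : j ≤ N := hN ⟨(j, x), hjx, rfl⟩
  change ins m (g m) (j, x) ∈ U
  rw [ins_ne (by omega)]
  exact hKU hjx

lemma exists_small (N : Set (ℕ × X ≃ₜ ℕ × X)) (hN : N ∈ 𝓝 (Homeomorph.refl (ℕ × X))) :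
    ∃ m, ∀ g : X ≃ₜ X, ins m g ∈ N := by
  by_contra hcon
  push Not at hcon
  choose g hg using hcon
  have := (tendsto_ins g).eventually hN
  obtain ⟨m, hm⟩ := this.exists
  exact hg m hm

end general

/-- The complete Erdős space, as a subset of `ℓ²`. -/
abbrev ES : Set L2 := {x : L2 | ∀ i : ℕ, (x : ℕ → ℝ) i = 0 ∨
            ∃ k : ℕ, 0 < k ∧ (x : ℕ → ℝ) i = 1 / (k : ℝ)}

lemma inP_iff (x : L2) : InP x ↔ ∀ i, (x : ℕ → ℝ) i ∈ Z := by
  constructor
  · exact fun h i => h.mem_Z i
  · intro h i
    rcases h i with h | ⟨k, h⟩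
    · exact Or.inl h
    · right
      refine ⟨k + 1, Nat.succ_pos k, ?_⟩
      rw [← h]
      push_cast
      rfl

lemma isClosed_ES : IsClosed ES := by
  have e : ES = ⋂ i : ℕ, (fun x : L2 => (x : ℕ → ℝ) i) ⁻¹' Z := by
    ext x
    rw [mem_iInter]
    exact inP_iff x
  rw [e]
  exact isClosed_iInter fun i => Z_compact.isClosed.preimage (continuous_coord i)

lemma not_ZD_zero (z : ES) : ¬ ZD ES z := by
  intro h
  obtain ⟨V, hV, hzV, hsub⟩ := h (Metric.ball z 1) (Metric.ball_mem_nhds z one_pos)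
  refine no_clopen (Subtype.val '' V) ?_ ?_ ?_ ⟨z.1, z, hzV, rfl⟩ (‖z.1‖ + 1) ?_
  · rintro _ ⟨x, _, rfl⟩
    exact x.2
  · exact isClosed_ES.isClosedEmbedding_subtypeVal.isClosedMap _ hV.isClosed
  · rintro _ ⟨x, hx, rfl⟩
    obtain ⟨r, hr, hball⟩ := Metric.isOpen_iff.mp hV.isOpen x hx
    refine ⟨r, hr, fun y hy hyx => ⟨⟨y, hy⟩, hball ?_, rfl⟩⟩
    rw [Metric.mem_ball, Subtype.dist_eq, dist_eq_norm]
    exact hyx
  · rintro _ ⟨x, hx, rfl⟩
    have h1 := hsub hx
    rw [Metric.mem_ball, Subtype.dist_eq, dist_eq_norm] at h1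
    have h2 : ‖x.1‖ ≤ ‖x.1 - z.1‖ + ‖z.1‖ := by
      have := norm_add_le (x.1 - z.1) z.1
      simpa using this
    linarith

/-- The homeomorphism groups of `X` and of `ℕ × X` are not both homeomorphic to the complete
Erdős space. -/
theorem not_both {X : Type*} [TopologicalSpace X] [T2Space X]
    (Φ₁ : (X ≃ₜ X) ≃ₜ ES) (Φ₂ : (ℕ × X ≃ₜ ℕ × X) ≃ₜ ES) : False := by
  set e : L2 := (Φ₂ (Homeomorph.refl _)).1 with he
  let N : Set (ℕ × X ≃ₜ ℕ × X) := {G | ‖(Φ₂ G).1 - e‖ < 1}
  have hcont : Continuous fun G : (ℕ × X ≃ₜ ℕ × X) => (Φ₂ G).1 :=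
    continuous_subtype_val.comp Φ₂.continuous
  have hN : N ∈ 𝓝 (Homeomorph.refl (ℕ × X)) := by
    have ho : IsOpen N := isOpen_lt (hcont.sub continuous_const).norm continuous_const
    apply ho.mem_nhds
    change ‖(Φ₂ (Homeomorph.refl _)).1 - e‖ < 1
    rw [he, sub_self, norm_zero]
    exact one_pos
  obtain ⟨m, hm⟩ := exists_small N hN
  let f : (X ≃ₜ X) → L2 := fun g => (Φ₂ (ins m g)).1
  have hf : IsInducing f :=
    (IsInducing.subtypeVal.comp Φ₂.isInducing).comp (isInducing_ins m)
  have hA : IsClosed (range f) := by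
    have e1 : range f = Subtype.val '' (Φ₂ '' range (ins m : (X ≃ₜ X) → _)) := by
      rw [← range_comp, ← range_comp]
      rfl
    rw [e1]
    apply isClosed_ES.isClosedEmbedding_subtypeVal.isClosedMap
    exact Φ₂.isClosedMap _ (isClosed_range_ins m)
  obtain ⟨a, ha⟩ := exists_ZD (range f) (by rintro _ ⟨g, rfl⟩; exact (Φ₂ (ins m g)).2) hA
    ⟨_, Homeomorph.refl X, rfl⟩ (‖e‖ + 1) (by
      rintro _ ⟨g, rfl⟩
      have h1 : ‖(Φ₂ (ins m g)).1 - e‖ < 1 := hm g
      have h2 : ‖(Φ₂ (ins m g)).1‖ ≤ ‖(Φ₂ (ins m g)).1 - e‖ + ‖e‖ := by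
        have := norm_add_le ((Φ₂ (ins m g)).1 - e) e
        simpa using this
      change ‖(Φ₂ (ins m g)).1‖ ≤ ‖e‖ + 1
      linarith)
  obtain ⟨g, hg⟩ := a.2
  have hf' : IsInducing (fun g => (⟨f g, g, rfl⟩ : range f)) :=
    hf.codRestrict (s := range f) (fun g => ⟨g, rfl⟩)
  have hag : (⟨f g, g, rfl⟩ : range f) = a := Subtype.ext hg
  have h1 : ZD (X ≃ₜ X) g := by
    apply ZD.of_isInducing hf'
    rw [hag]
    exact ha
  let z : ES := Φ₁ g
  have h2 : ZD ES z := by
    apply ZD.of_isInducing Φ₁.symm.isInducing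
    rw [Φ₁.symm_apply_apply]
    exact h1
  exact not_ZD_zero z h2

end Pool.Agent.H262.Erd
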