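import Mathlib

set_option autoImplicit false

/-!
Lipschitz free p-spaces (0 < p < 1): cost functionals on finitely supported functions.
-/

namespace Pool.Agent.H262.FP

open Finset

noncomputable section

/-- p-homogeneous subadditive functional (p-th power of a p-seminorm) -/
structure IsPF {W : Type*} [AddCommGroup W] [Module ℝ W] (p : ℝ) (Q : W → ℝ) : Prop where
  nonneg : ∀ v, 0 ≤ Q v
  add_le : ∀ v w, Q (v + w) ≤ Q v + Q w
  smul : ∀ (t : ℝ) v, Q (t • v) = |t| ^ p * Q v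

namespace IsPF

variable {W : Type*} [AddCommGroup W] [Module ℝ W] {p : ℝ} {Q : W → ℝ}

theorem zero (h : IsPF p Q) (hp : 0 < p) : Q 0 = 0 := by
  have := h.smul 0 0
  rwa [zero_smul, abs_zero, Real.zero_rpow hp.ne', zero_mul] at this

theorem neg (h : IsPF p Q) (v : W) : Q (-v) = Q v := by
  have := h.smul (-1) v
  rwa [neg_one_smul, abs_neg, abs_one, Real.one_rpow, one_mul] at this

theorem sub_le (h : IsPF p Q) (v w : W) : Q (v - w) ≤ Q v + Q w := by
  rw [sub_eq_add_neg, ← h.neg w]; exact h.add_le _ _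

theorem sub_comm (h : IsPF p Q) (v w : W) : Q (v - w) = Q (w - v) := by
  rw [← h.neg (v - w), neg_sub]

theorem sum_le (h : IsPF p Q) (hp : 0 < p) {ι : Type*} (s : Finset ι) (f : ι → W) :
    Q (∑ i ∈ s, f i) ≤ ∑ i ∈ s, Q (f i) := by
  classical
  induction s using Finset.induction_on with
  | empty => simp [h.zero hp]
  | insert a s ha ih =>
    rw [Finset.sum_insert ha, Finset.sum_insert ha]
    exact (h.add_le _ _).trans (by linarith)

/-- finite sums of p-functionals are p-functionals -/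
theorem finset_sum {ι : Type*} (s : Finset ι) (R : ι → W → ℝ) (h : ∀ i ∈ s, IsPF p (R i)) :
    IsPF p (fun v => ∑ i ∈ s, R i v) where
  nonneg := fun v => Finset.sum_nonneg (fun i hi => (h i hi).nonneg v)
  add_le := fun v w => by
    rw [← Finset.sum_add_distrib]
    exact Finset.sum_le_sum (fun i hi => (h i hi).add_le v w)
  smul := fun t v => by
    rw [Finset.mul_sum]
    exact Finset.sum_congr rfl (fun i hi => (h i hi).smul t v)

/-- composition with a linear map -/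
theorem comp {W' : Type*} [AddCommGroup W'] [Module ℝ W'] (h : IsPF p Q) (T : W' →ₗ[ℝ] W) :
    IsPF p (fun v => Q (T v)) where
  nonneg := fun v => h.nonneg _
  add_le := fun v w => by rw [map_add]; exact h.add_le _ _
  smul := fun t v => by rw [map_smul]; exact h.smul _ _

end IsPF

theorem abs_add_rpow_le {p : ℝ} (hp : 0 < p) (hp1 : p ≤ 1) (a b : ℝ) :
    |a + b| ^ p ≤ |a| ^ p + |b| ^ p :=
  (Real.rpow_le_rpow (abs_nonneg _) (abs_add_le a b) hp.le).trans
    (Real.rpow_add_le_add_rpow (abs_nonneg _) (abs_nonneg _) hp.le hp1)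

theorem abs_mul_rpow {p : ℝ} (a b : ℝ) : |a * b| ^ p = |a| ^ p * |b| ^ p := by
  rw [abs_mul, Real.mul_rpow (abs_nonneg _) (abs_nonneg _)]

theorem abs_rpow_nonneg {p : ℝ} (a : ℝ) : 0 ≤ |a| ^ p := Real.rpow_nonneg (abs_nonneg _) _

variable {M : Type*}

/-- Dirac -/
abbrev dl (s : M) : M →₀ ℝ := Finsupp.single s 1

/-- elementary difference -/
def ed (e : M × M) : M →₀ ℝ := dl e.1 - dl e.2

/-- boundary of a flow -/
def bd : ((M × M) →₀ ℝ) →ₗ[ℝ] (M →₀ ℝ) := Finsupp.linearCombination ℝ ed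

theorem bd_apply (f : (M × M) →₀ ℝ) : bd f = ∑ e ∈ f.support, f e • ed e := by
  rw [bd, Finsupp.linearCombination_apply, Finsupp.sum]

theorem bd_single (e : M × M) (a : ℝ) : bd (Finsupp.single e a) = a • ed e := by
  rw [bd, Finsupp.linearCombination_single]

/-- cost of a flow -/
def cost (p : ℝ) (ω : M × M → ℝ) (f : (M × M) →₀ ℝ) : ℝ := ∑ e ∈ f.support, |f e| ^ p * ω e

section cost

variable {p : ℝ} {ω : M × M → ℝ}

theorem cost_eq_sum (hp : 0 < p) {f : (M × M) →₀ ℝ} {S : Finset (M × M)} (h : f.support ⊆ S) :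
    cost p ω f = ∑ e ∈ S, |f e| ^ p * ω e := by
  unfold cost
  apply Finset.sum_subset h
  intro n _ hn
  rw [Finsupp.notMem_support_iff] at hn
  rw [hn, abs_zero, Real.zero_rpow hp.ne', zero_mul]

theorem cost_nonneg (hω : ∀ e, 0 ≤ ω e) (f : (M × M) →₀ ℝ) : 0 ≤ cost p ω f :=
  Finset.sum_nonneg (fun _ _ => mul_nonneg (abs_rpow_nonneg _) (hω _))

theorem cost_add_le (hp : 0 < p) (hp1 : p ≤ 1) (hω : ∀ e, 0 ≤ ω e) (f g : (M × M) →₀ ℝ) :
    cost p ω (f + g) ≤ cost p ω f + cost p ω g := by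
  classical
  rw [cost_eq_sum hp (Finsupp.support_add : (f+g).support ⊆ f.support ∪ g.support),
    cost_eq_sum hp (Finset.subset_union_left : f.support ⊆ f.support ∪ g.support),
    cost_eq_sum hp (Finset.subset_union_right : g.support ⊆ f.support ∪ g.support),
    ← Finset.sum_add_distrib]
  refine Finset.sum_le_sum (fun e _ => ?_)
  rw [Finsupp.add_apply, ← add_mul]
  exact mul_le_mul_of_nonneg_right (abs_add_rpow_le hp hp1 _ _) (hω e)

theorem cost_smul (hp : 0 < p) (t : ℝ) (f : (M × M) →₀ ℝ) :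
    cost p ω (t • f) = |t| ^ p * cost p ω f := by
  rw [cost_eq_sum hp (Finsupp.support_smul : (t • f).support ⊆ f.support), cost, Finset.mul_sum]
  refine Finset.sum_congr rfl (fun n _ => ?_)
  rw [Finsupp.smul_apply, smul_eq_mul, abs_mul_rpow, mul_assoc]

theorem cost_single (hp : 0 < p) (e : M × M) (a : ℝ) :
    cost p ω (Finsupp.single e a) = |a| ^ p * ω e := by
  classical
  rw [cost_eq_sum hp (Finsupp.support_single_subset : (Finsupp.single e a).support ⊆ {e})]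
  simp

theorem cost_zero : cost p ω 0 = 0 := by simp [cost]

theorem cost_mono {ω' : M × M → ℝ} (h : ∀ e, ω e ≤ ω' e) (f : (M × M) →₀ ℝ) :
    cost p ω f ≤ cost p ω' f :=
  Finset.sum_le_sum (fun e _ => mul_le_mul_of_nonneg_left (h e) (abs_rpow_nonneg _))

/-- the set of costs of representations of `v` (modulo the base point) -/
def costSet (p : ℝ) (ω : M × M → ℝ) (o : M) (v : M →₀ ℝ) : Set ℝ :=
  {c | ∃ (f : (M × M) →₀ ℝ) (t : ℝ), v = bd f + t • dl o ∧ c = cost p ω f}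

/-- the p-th power of the free p-norm with cost `ω` -/
def nn (p : ℝ) (ω : M × M → ℝ) (o : M) (v : M →₀ ℝ) : ℝ := sInf (costSet p ω o v)

theorem exists_rep (o : M) (v : M →₀ ℝ) :
    ∃ (f : (M × M) →₀ ℝ) (t : ℝ), v = bd f + t • dl o := by
  classical
  induction v using Finsupp.induction_linear with
  | zero => exact ⟨0, 0, by simp⟩
  | add v w hv hw =>
    obtain ⟨f, t, h1⟩ := hv
    obtain ⟨g, u, h2⟩ := hw
    exact ⟨f + g, t + u, by rw [h1, h2, map_add, add_smul]; abel⟩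
  | single a b =>
    refine ⟨Finsupp.single (a, o) b, b, ?_⟩
    rw [bd_single, ed, smul_sub, sub_add_cancel, Finsupp.smul_single, smul_eq_mul, mul_one]

theorem costSet_nonempty (o : M) (v : M →₀ ℝ) : (costSet p ω o v).Nonempty := by
  obtain ⟨f, t, h⟩ := exists_rep o v
  exact ⟨_, f, t, h, rfl⟩

theorem costSet_bddBelow (hω : ∀ e, 0 ≤ ω e) (o : M) (v : M →₀ ℝ) :
    BddBelow (costSet p ω o v) := by
  refine ⟨0, ?_⟩
  rintro _ ⟨f, t, _, rfl⟩
  exact cost_nonneg hω f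

theorem nn_le (hω : ∀ e, 0 ≤ ω e) {o : M} {v : M →₀ ℝ} {f : (M × M) →₀ ℝ} {t : ℝ}
    (h : v = bd f + t • dl o) : nn p ω o v ≤ cost p ω f :=
  csInf_le (costSet_bddBelow hω o v) ⟨f, t, h, rfl⟩

theorem exists_near {o : M} {v : M →₀ ℝ} {c : ℝ} (h : nn p ω o v < c) :
    ∃ (f : (M × M) →₀ ℝ) (t : ℝ), v = bd f + t • dl o ∧ cost p ω f < c := by
  obtain ⟨_, ⟨f, t, h1, rfl⟩, h2⟩ := exists_lt_of_csInf_lt (costSet_nonempty (p := p) (ω := ω) o v) h
  exact ⟨f, t, h1, h2⟩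

theorem nn_nonneg (hω : ∀ e, 0 ≤ ω e) (o : M) (v : M →₀ ℝ) : 0 ≤ nn p ω o v := by
  refine le_csInf (costSet_nonempty o v) ?_
  rintro _ ⟨f, t, _, rfl⟩
  exact cost_nonneg hω f

theorem nn_add_le (hp : 0 < p) (hp1 : p ≤ 1) (hω : ∀ e, 0 ≤ ω e) (o : M) (v w : M →₀ ℝ) :
    nn p ω o (v + w) ≤ nn p ω o v + nn p ω o w := by
  refine le_of_forall_pos_le_add (fun ε hε => ?_)
  obtain ⟨f, t, h1, h2⟩ := exists_near (lt_add_of_pos_right (nn p ω o v) (half_pos hε))
  obtain ⟨g, u, h3, h4⟩ := exists_near (lt_add_of_pos_right (nn p ω o w) (half_pos hε))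
  have h5 : v + w = bd (f + g) + (t + u) • dl o := by
    rw [map_add, add_smul]
    nth_rewrite 1 [h1]
    nth_rewrite 1 [h3]
    abel
  have h6 := nn_le hω h5 (p := p)
  have h7 := cost_add_le hp hp1 hω f g
  linarith

theorem nn_smul_le (hp : 0 < p) (hω : ∀ e, 0 ≤ ω e) (o : M) (t : ℝ) (v : M →₀ ℝ) :
    nn p ω o (t • v) ≤ |t| ^ p * nn p ω o v := by
  refine le_of_forall_pos_lt_add (fun ε hε => ?_)
  have hpos : 0 < |t| ^ p + 1 := by have := abs_rpow_nonneg (p := p) t; linarith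
  obtain ⟨f, u, h1, h2⟩ := exists_near (lt_add_of_pos_right (nn p ω o v)
    (show 0 < ε / (|t| ^ p + 1) by positivity))
  have h3 : t • v = bd (t • f) + (t * u) • dl o := by
    rw [map_smul, mul_smul, ← smul_add, ← h1]
  have h4 := nn_le hω h3 (p := p)
  rw [cost_smul hp] at h4
  have h5 : |t| ^ p * cost p ω f ≤ |t| ^ p * (nn p ω o v + ε / (|t| ^ p + 1)) :=
    mul_le_mul_of_nonneg_left h2.le (abs_rpow_nonneg _)
  have h6 : |t| ^ p * (ε / (|t| ^ p + 1)) < ε := by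
    rw [mul_div_assoc', div_lt_iff₀ hpos]
    nlinarith
  nlinarith

theorem isPF_nn (hp : 0 < p) (hp1 : p ≤ 1) (hω : ∀ e, 0 ≤ ω e) (o : M) :
    IsPF p (nn p ω o) where
  nonneg := nn_nonneg hω o
  add_le := nn_add_le hp hp1 hω o
  smul := fun t v => by
    apply le_antisymm (nn_smul_le hp hω o t v)
    by_cases ht : t = 0
    · subst ht
      rw [abs_zero, Real.zero_rpow hp.ne', zero_mul]
      exact nn_nonneg hω o _
    · have h1 := nn_smul_le hp hω o t⁻¹ (t • v)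
      rw [smul_smul, inv_mul_cancel₀ ht, one_smul] at h1
      have h2 : |t| ^ p * |t⁻¹| ^ p = 1 := by
        rw [← abs_mul_rpow, mul_inv_cancel₀ ht, abs_one, Real.one_rpow]
      calc |t| ^ p * nn p ω o v ≤ |t| ^ p * (|t⁻¹| ^ p * nn p ω o (t • v)) :=
            mul_le_mul_of_nonneg_left h1 (abs_rpow_nonneg _)
        _ = nn p ω o (t • v) := by rw [← mul_assoc, h2, one_mul]

theorem nn_ed_le (hp : 0 < p) (hω : ∀ e, 0 ≤ ω e) (o : M) (e : M × M) : nn p ω o (ed e) ≤ ω e := by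
  have h : ed e = bd (Finsupp.single e 1) + (0:ℝ) • dl o := by
    rw [bd_single, one_smul, zero_smul, add_zero]
  have := nn_le hω h (p := p)
  rwa [cost_single hp, abs_one, Real.one_rpow, one_mul] at this

theorem nn_base (hω : ∀ e, 0 ≤ ω e) (o : M) : nn p ω o (dl o) = 0 := by
  apply le_antisymm _ (nn_nonneg hω o _)
  have h : dl o = bd (0 : (M × M) →₀ ℝ) + (1:ℝ) • dl o := by
    rw [map_zero, one_smul, zero_add]
  have := nn_le hω h (p := p)
  rwa [cost_zero] at this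

theorem nn_smul_base (hp : 0 < p) (hp1 : p ≤ 1) (hω : ∀ e, 0 ≤ ω e) (o : M) (t : ℝ) :
    nn p ω o (t • dl o) = 0 := by
  rw [(isPF_nn hp hp1 hω o).smul, nn_base hω, mul_zero]

/-- maximality -/
theorem le_nn (hp : 0 < p) (hω : ∀ e, 0 ≤ ω e) {o : M} {Q : (M →₀ ℝ) → ℝ} (hQ : IsPF p Q)
    (hQo : Q (dl o) = 0) {C : ℝ} (hC : 0 ≤ C) (hQe : ∀ e, Q (ed e) ≤ C * ω e) (v : M →₀ ℝ) :
    Q v ≤ C * nn p ω o v := by
  have hrep : ∀ (f : (M × M) →₀ ℝ) (t : ℝ), v = bd f + t • dl o → Q v ≤ C * cost p ω f := by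
    intro f t h
    rw [h]
    refine (hQ.add_le _ _).trans ?_
    rw [hQ.smul, hQo, mul_zero, add_zero, bd_apply]
    refine (hQ.sum_le hp _ _).trans ?_
    rw [cost, Finset.mul_sum]
    refine Finset.sum_le_sum (fun e _ => ?_)
    rw [hQ.smul]
    calc |f e| ^ p * Q (ed e) ≤ |f e| ^ p * (C * ω e) :=
          mul_le_mul_of_nonneg_left (hQe e) (abs_rpow_nonneg _)
      _ = C * (|f e| ^ p * ω e) := by ring
  refine le_of_forall_pos_lt_add (fun ε hε => ?_)
  obtain ⟨f, t, h1, h2⟩ := exists_near (lt_add_of_pos_right (nn p ω o v)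
    (show 0 < ε / (C + 1) by positivity))
  have h3 := hrep f t h1
  have h4 : C * cost p ω f ≤ C * (nn p ω o v + ε / (C + 1)) :=
    mul_le_mul_of_nonneg_left h2.le hC
  have h5 : C * (ε / (C + 1)) < ε := by
    rw [mul_div_assoc', div_lt_iff₀ (by linarith)]
    nlinarith
  nlinarith

theorem nn_mono (hω : ∀ e, 0 ≤ ω e) {ω' : M × M → ℝ} (h : ∀ e, ω e ≤ ω' e) (o : M) (v : M →₀ ℝ) :
    nn p ω o v ≤ nn p ω' o v := by
  refine le_csInf (costSet_nonempty o v) ?_
  rintro _ ⟨f, t, h1, rfl⟩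
  exact (nn_le hω h1).trans (cost_mono h f)

/-- bound by an explicit combination -/
theorem nn_sum_le (hp : 0 < p) (hp1 : p ≤ 1) (hω : ∀ e, 0 ≤ ω e) (o : M) {ι : Type*} (s : Finset ι)
    (a : ι → ℝ) (e : ι → M × M) :
    nn p ω o (∑ i ∈ s, a i • ed (e i)) ≤ ∑ i ∈ s, |a i| ^ p * ω (e i) := by
  refine ((isPF_nn hp hp1 hω o).sum_le hp _ _).trans ?_
  refine Finset.sum_le_sum (fun i _ => ?_)
  rw [(isPF_nn hp hp1 hω o).smul]
  exact mul_le_mul_of_nonneg_left (nn_ed_le hp hω o _) (abs_rpow_nonneg _)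

end cost

end

end Pool.Agent.H262.FP
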