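import Mathlib
import Pool.Agent.H262.FP1

set_option autoImplicit false

/-!
Rosenthal's lemma and the detection principle.
-/

namespace Pool.Agent.H262.FP

open Finset

noncomputable section

theorem rosenthal_aux (ε : ℝ) (hε : 0 < ε) (k : ℕ) : ∀ (q : ℕ → ℕ → ℝ),
    (∀ i j, 0 ≤ q i j) → (∀ i (F : Finset ℕ), ∑ j ∈ F, q i j ≤ k * ε) →
    ∃ φ : ℕ → ℕ, StrictMono φ ∧ ∀ i (F : Finset ℕ), i ∉ F → ∑ j ∈ F, q (φ i) (φ j) ≤ ε := by
  classical
  induction k with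
  | zero =>
    intro q hq hsum
    refine ⟨id, strictMono_id, fun i F _ => ?_⟩
    have := hsum i F
    simp only [Nat.cast_zero, zero_mul] at this
    exact this.trans hε.le
  | succ k ih =>
    intro q hq hsum
    by_cases h : ∃ a, ∀ i (F : Finset ℕ), i ∉ F → ∑ j ∈ F, q (Nat.pair a i) (Nat.pair a j) ≤ ε
    · obtain ⟨a, ha⟩ := h
      exact ⟨fun i => Nat.pair a i, fun i j hij => Nat.pair_lt_pair_right a hij, ha⟩
    · push Not at h
      choose I F hI hF using h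
      set u : ℕ → ℕ := fun a => Nat.pair a (I a) with hu
      have hinj : Function.Injective u := by
        intro a b hab
        exact (Nat.pair_eq_pair.mp hab).1
      obtain ⟨ψ, hψ, huψ⟩ := Filter.strictMono_subseq_of_tendsto_atTop hinj.nat_tendsto_atTop
      have key : ∀ i (G : Finset ℕ), ∑ j ∈ G, q (u (ψ i)) (u (ψ j)) ≤ k * ε := by
        intro i G
        set A : Finset ℕ := G.image (fun j => u (ψ j)) with hA
        set B : Finset ℕ := (F (ψ i)).image (fun j => Nat.pair (ψ i) j) with hB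
        have hdisj : Disjoint A B := by
          rw [Finset.disjoint_left]
          intro m hmA hmB
          rw [hA, Finset.mem_image] at hmA
          rw [hB, Finset.mem_image] at hmB
          obtain ⟨j, _, hj⟩ := hmA
          obtain ⟨j', hj'F, hj'⟩ := hmB
          have h1 : Nat.pair (ψ j) (I (ψ j)) = Nat.pair (ψ i) j' := by
            rw [hj', ← hj]
          obtain ⟨h2, h3⟩ := Nat.pair_eq_pair.mp h1
          rw [h2] at h3
          exact hI (ψ i) (h3 ▸ hj'F)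
        have h1 := hsum (u (ψ i)) (A ∪ B)
        rw [Finset.sum_union hdisj, hA, hB, Finset.sum_image, Finset.sum_image] at h1
        · have h2 := hF (ψ i)
          push_cast at h1
          change ∑ j ∈ G, q (u (ψ i)) (u (ψ j)) + ∑ j ∈ F (ψ i), q (Nat.pair (ψ i) (I (ψ i))) (Nat.pair (ψ i) j) ≤ _ at h1
          linarith
        · intro a _ b _ hab
          exact (Nat.pair_eq_pair.mp hab).2
        · intro a _ b _ hab
          exact huψ.injective hab
      obtain ⟨φ, hφ, hφ2⟩ := ih (fun i j => q (u (ψ i)) (u (ψ j))) (fun i j => hq _ _) key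
      exact ⟨fun i => u (ψ (φ i)), fun i j hij => huψ (hφ hij), hφ2⟩

/-- `x` has a subsequence with a lower `ℓ_p`-estimate for the functional `N` -/
def LP {W : Type*} [AddCommGroup W] [Module ℝ W] (N : W → ℝ) (p : ℝ) (x : ℕ → W) : Prop :=
  ∃ φ : ℕ → ℕ, StrictMono φ ∧ ∃ c : ℝ, 0 < c ∧ ∀ (F : Finset ℕ) (β : ℕ → ℝ),
    c * ∑ k ∈ F, |β k| ^ p ≤ N (∑ k ∈ F, β k • x (φ k))

/-- `x` has a subsequence detected by a summable family of `p`-seminorms -/
def Det {W : Type*} [AddCommGroup W] [Module ℝ W] (N : W → ℝ) (p : ℝ) (x : ℕ → W) : Prop :=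
  ∃ (ν : ℕ → ℕ) (Q : ℕ → W → ℝ) (C c : ℝ), StrictMono ν ∧ (∀ k, IsPF p (Q k)) ∧ 0 < C ∧ 0 < c ∧
    (∀ v (F : Finset ℕ), ∑ k ∈ F, Q k v ≤ C * N v) ∧ ∀ k, c ≤ Q k (x (ν k))

theorem principle {W : Type*} [AddCommGroup W] [Module ℝ W] {N : W → ℝ} {p : ℝ} (hp : 0 < p)
    {x : ℕ → W} {B : ℝ} (hB : ∀ n, N (x n) ≤ B) {Q : ℕ → W → ℝ} (hQ : ∀ k, IsPF p (Q k))
    {C : ℝ} (hC : 0 < C) (hsum : ∀ v (F : Finset ℕ), ∑ k ∈ F, Q k v ≤ C * N v)
    {ν : ℕ → ℕ} (hν : StrictMono ν) {c : ℝ} (hc : 0 < c) (hlow : ∀ k, c ≤ Q k (x (ν k))) :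
    LP N p x := by
  classical
  obtain ⟨K, hK⟩ := exists_nat_ge (C * B / (c / 2))
  have hK' : C * B ≤ K * (c / 2) := by
    rwa [div_le_iff₀ (by positivity)] at hK
  obtain ⟨φ, hφ, hφ2⟩ := rosenthal_aux (c / 2) (by positivity) K (fun i j => Q j (x (ν i)))
    (fun i j => (hQ j).nonneg _)
    (fun i F => ((hsum (x (ν i)) F).trans (mul_le_mul_of_nonneg_left (hB _) hC.le)).trans hK')
  refine ⟨fun i => ν (φ i), fun i j hij => hν (hφ hij), c / (2 * C), by positivity, fun F β => ?_⟩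
  set v := ∑ k ∈ F, β k • x (ν (φ k)) with hv
  have h1 : ∀ j ∈ F, |β j| ^ p * c ≤ Q (φ j) v + ∑ i ∈ F.erase j, |β i| ^ p * Q (φ j) (x (ν (φ i))) := by
    intro j hj
    have h2 : β j • x (ν (φ j)) = v - ∑ i ∈ F.erase j, β i • x (ν (φ i)) := by
      rw [hv, ← Finset.add_sum_erase F _ hj, add_sub_cancel_right]
    have h3 : Q (φ j) (β j • x (ν (φ j))) ≤ Q (φ j) v + ∑ i ∈ F.erase j, |β i| ^ p * Q (φ j) (x (ν (φ i))) := by
      rw [h2]
      refine ((hQ (φ j)).sub_le _ _).trans (add_le_add le_rfl ?_)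
      refine ((hQ (φ j)).sum_le hp _ _).trans (le_of_eq ?_)
      exact Finset.sum_congr rfl (fun i _ => (hQ (φ j)).smul _ _)
    rw [(hQ (φ j)).smul] at h3
    refine le_trans (mul_le_mul_of_nonneg_left (hlow (φ j)) (abs_rpow_nonneg _)) h3
  have h4 : ∑ j ∈ F, Q (φ j) v ≤ C * N v := by
    have := hsum v (F.image φ)
    rwa [Finset.sum_image (fun a _ b _ hab => hφ.injective hab)] at this
  have h5 : ∑ j ∈ F, ∑ i ∈ F.erase j, |β i| ^ p * Q (φ j) (x (ν (φ i)))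
      = ∑ i ∈ F, |β i| ^ p * ∑ j ∈ F.erase i, Q (φ j) (x (ν (φ i))) := by
    have h6 : ∀ j ∈ F, ∑ i ∈ F.erase j, |β i| ^ p * Q (φ j) (x (ν (φ i)))
        = ∑ i ∈ F, if i ≠ j then |β i| ^ p * Q (φ j) (x (ν (φ i))) else 0 := by
      intro j _
      rw [← Finset.sum_filter]
      congr 1
      ext i; simp [and_comm]
    have h7 : ∀ i ∈ F, |β i| ^ p * ∑ j ∈ F.erase i, Q (φ j) (x (ν (φ i)))
        = ∑ j ∈ F, if i ≠ j then |β i| ^ p * Q (φ j) (x (ν (φ i))) else 0 := by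
      intro i _
      rw [← Finset.sum_filter, Finset.mul_sum]
      congr 1
      ext j; simp [and_comm, eq_comm]
    rw [Finset.sum_congr rfl h6, Finset.sum_congr rfl h7, Finset.sum_comm]
  have h8 : ∑ i ∈ F, |β i| ^ p * ∑ j ∈ F.erase i, Q (φ j) (x (ν (φ i))) ≤ ∑ i ∈ F, |β i| ^ p * (c / 2) := by
    refine Finset.sum_le_sum (fun i _ => ?_)
    exact mul_le_mul_of_nonneg_left (hφ2 i (F.erase i) (Finset.notMem_erase i F)) (abs_rpow_nonneg _)
  have h9 := Finset.sum_le_sum h1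
  rw [Finset.sum_add_distrib, h5, ← Finset.sum_mul] at h9
  rw [← Finset.sum_mul] at h8
  rw [div_mul_eq_mul_div, div_le_iff₀ (by positivity)]
  nlinarith

theorem Det.lp {W : Type*} [AddCommGroup W] [Module ℝ W] {N : W → ℝ} {p : ℝ} (hp : 0 < p)
    {x : ℕ → W} {B : ℝ} (hB : ∀ n, N (x n) ≤ B) (h : Det N p x) : LP N p x := by
  obtain ⟨ν, Q, C, c, hν, hQ, hC, hc, hsum, hlow⟩ := h
  exact principle hp hB hQ hC hsum hν hc hlow

end

end Pool.Agent.H262.FP
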