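import Mathlib
import Pool.Agent.H262.FP2

set_option autoImplicit false

/-!
Forest reduction and random partitions of forests.
-/

namespace Pool.Agent.H262.FP

open Finset
open scoped Classical in
/-- leaf-ordered forests -/
inductive Forest {M : Type*} : Finset (M × M) → Prop
  | empty : Forest ∅
  | insert {J : Finset (M × M)} {e : M × M} {v w : M} (hJ : Forest J) (he : e ∉ J) (hvw : v ≠ w)
      (hev : e = (v, w) ∨ e = (w, v)) (hfresh : ∀ e' ∈ J, e'.1 ≠ v ∧ e'.2 ≠ v) :
      Forest (Insert.insert e J)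

noncomputable section

open scoped Classical

variable {M : Type*}

theorem Forest.subset {J : Finset (M × M)} (hJ : Forest J) :
    ∀ J' : Finset (M × M), J' ⊆ J → Forest J' := by
  induction hJ with
  | empty =>
    intro J' h
    rw [Finset.subset_empty.mp h]; exact Forest.empty
  | @insert J e v w hJ he hvw hev hfresh ih =>
    intro J' h
    by_cases heJ' : e ∈ J'
    · have h1 : J'.erase e ⊆ J := by
        intro a ha
        rw [Finset.mem_erase] at ha
        have := h ha.2
        rw [Finset.mem_insert] at this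
        exact this.resolve_left ha.1
      have h2 := Forest.insert (ih _ h1) (Finset.notMem_erase e J') hvw hev
        (fun e' he' => hfresh e' (h1 he'))
      rwa [Finset.insert_erase heJ'] at h2
    · apply ih
      intro a ha
      have := h ha
      rw [Finset.mem_insert] at this
      rcases this with h1 | h1
      · exact absurd (h1 ▸ ha) heJ'
      · exact h1

/-- `J` has a leaf -/
def HasLeaf (J : Finset (M × M)) : Prop :=
  ∃ e ∈ J, ∃ v w : M, v ≠ w ∧ (e = (v, w) ∨ e = (w, v)) ∧ ∀ e' ∈ J, e' ≠ e → e'.1 ≠ v ∧ e'.2 ≠ v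

theorem forest_of_leaves (J : Finset (M × M))
    (h : ∀ J' : Finset (M × M), J' ⊆ J → J'.Nonempty → HasLeaf J') : Forest J := by
  induction J using Finset.strongInduction with
  | H J ih =>
    rcases J.eq_empty_or_nonempty with h0 | h0
    · rw [h0]; exact Forest.empty
    · obtain ⟨e, he, v, w, hvw, hev, hl⟩ := h J subset_rfl h0
      have h1 : Forest (J.erase e) :=
        ih _ (Finset.erase_ssubset he) (fun J' hJ' => h J' (hJ'.trans (Finset.erase_subset _ _)))
      have h2 := Forest.insert h1 (Finset.notMem_erase e J) hvw hev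
        (fun e' he' => by
          rw [Finset.mem_erase] at he'
          exact hl e' he'.2 he'.1)
      rwa [Finset.insert_erase he] at h2

/-- total mass -/
def tot : (M →₀ ℝ) →ₗ[ℝ] ℝ := Finsupp.linearCombination ℝ (fun _ => (1:ℝ))

theorem tot_dl (s : M) : tot (dl s) = 1 := by
  simp [tot]

theorem tot_ed (e : M × M) : tot (ed e) = 0 := by
  rw [ed, map_sub, tot_dl, tot_dl, sub_self]

theorem tot_bd (f : (M × M) →₀ ℝ) : tot (bd f) = 0 := by
  rw [bd_apply, map_sum]
  exact Finset.sum_eq_zero (fun e _ => by rw [map_smul, tot_ed, smul_zero])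

theorem tot_eq_sum {g : M →₀ ℝ} {V : Finset M} (h : g.support ⊆ V) : tot g = ∑ v ∈ V, g v := by
  rw [tot, Finsupp.linearCombination_apply, Finsupp.sum]
  simp only [smul_eq_mul, mul_one]
  apply Finset.sum_subset h
  intro n _ hn
  rwa [Finsupp.notMem_support_iff] at hn

theorem ed_apply_eq_zero {e : M × M} {v : M} (h1 : e.1 ≠ v) (h2 : e.2 ≠ v) : ed e v = 0 := by
  rw [ed, Finsupp.sub_apply, Finsupp.single_apply, Finsupp.single_apply, if_neg h1, if_neg h2,
    sub_zero]

/-- a finite leafless graph carries a nontrivial cycle -/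
theorem exists_cycle (J : Finset (M × M)) (hne : J.Nonempty) (hloop : ∀ e ∈ J, e.1 ≠ e.2)
    (hleaf : ∀ e ∈ J, ∀ v, (e.1 = v ∨ e.2 = v) → ∃ e' ∈ J, e' ≠ e ∧ (e'.1 = v ∨ e'.2 = v)) :
    ∃ b : (M × M) →₀ ℝ, b ≠ 0 ∧ b.support ⊆ J ∧ bd b = 0 := by
  set V : Finset M := J.image Prod.fst ∪ J.image Prod.snd with hV
  have hV1 : ∀ e ∈ J, e.1 ∈ V := fun e he =>
    Finset.mem_union_left _ (Finset.mem_image_of_mem _ he)
  have hV2 : ∀ e ∈ J, e.2 ∈ V := fun e he =>
    Finset.mem_union_right _ (Finset.mem_image_of_mem _ he)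
  have hinc : ∀ v ∈ V, ∃ e ∈ J, e.1 = v ∨ e.2 = v := by
    intro v hv
    rw [hV, Finset.mem_union, Finset.mem_image, Finset.mem_image] at hv
    rcases hv with ⟨e, he, h⟩ | ⟨e, he, h⟩
    · exact ⟨e, he, Or.inl h⟩
    · exact ⟨e, he, Or.inr h⟩
  have hcard : V.card ≤ J.card := by
    have h1 := Finset.sum_card_bipartiteAbove_eq_sum_card_bipartiteBelow
      (s := V) (t := J) (fun (v : M) (e : M × M) => e.1 = v ∨ e.2 = v)
    have h2 : ∑ v ∈ V, 2 ≤ ∑ v ∈ V, (Finset.bipartiteAbove (fun (v : M) (e : M × M) => e.1 = v ∨ e.2 = v) J v).card := by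
      refine Finset.sum_le_sum (fun v hv => ?_)
      obtain ⟨e, he, hev⟩ := hinc v hv
      obtain ⟨e', he', hne', hev'⟩ := hleaf e he v hev
      have h3 : ({e, e'} : Finset (M × M)) ⊆ Finset.bipartiteAbove (fun (v : M) (e : M × M) => e.1 = v ∨ e.2 = v) J v := by
        intro a ha
        rw [Finset.mem_insert, Finset.mem_singleton] at ha
        rw [Finset.mem_bipartiteAbove]
        rcases ha with rfl | rfl
        · exact ⟨he, hev⟩
        · exact ⟨he', hev'⟩
      have h4 := Finset.card_le_card h3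
      rwa [Finset.card_pair hne'.symm] at h4
    have h5 : ∑ e ∈ J, (Finset.bipartiteBelow (fun (v : M) (e : M × M) => e.1 = v ∨ e.2 = v) V e).card ≤ ∑ e ∈ J, 2 := by
      refine Finset.sum_le_sum (fun e _ => ?_)
      have h3 : Finset.bipartiteBelow (fun (v : M) (e : M × M) => e.1 = v ∨ e.2 = v) V e ⊆ ({e.1, e.2} : Finset M) := by
        intro a ha
        rw [Finset.mem_bipartiteBelow] at ha
        rw [Finset.mem_insert, Finset.mem_singleton]
        rcases ha.2 with h | h
        · exact Or.inl h.symm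
        · exact Or.inr h.symm
      exact (Finset.card_le_card h3).trans Finset.card_le_two
    rw [Finset.sum_const, smul_eq_mul] at h2 h5
    omega
  set Φ : (J → ℝ) →ₗ[ℝ] (V → ℝ) := Fintype.linearCombination ℝ
    (fun (e : J) (v : V) => ed e.1 v.1) with hΦ
  have hΦapp : ∀ b v, Φ b v = ∑ e : J, b e * ed e.1 v.1 := by
    intro b v
    rw [hΦ, Fintype.linearCombination_apply, Finset.sum_apply]
    simp only [Pi.smul_apply, smul_eq_mul]
  -- the associated flow
  have hflow : ∀ b : J → ℝ, ∃ f : (M × M) →₀ ℝ, f.support ⊆ J ∧ (∀ e : J, f e.1 = b e) ∧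
      (∀ v : V, bd f v.1 = Φ b v) ∧ (∀ v, v ∉ V → bd f v = 0) := by
    intro b
    set f : (M × M) →₀ ℝ := Finsupp.onFinset J (fun e => if h : e ∈ J then b ⟨e, h⟩ else 0)
      (fun e he => by
        by_contra hcon
        exact he (by rw [dif_neg hcon])) with hf
    have hfe : ∀ e : J, f e.1 = b e := by
      intro e
      rw [hf, Finsupp.onFinset_apply, dif_pos e.2]
    have hfs : f.support ⊆ J := Finsupp.support_onFinset_subset
    have hbdv : ∀ v, bd f v = ∑ e ∈ J, f e * ed e v := by
      intro v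
      rw [bd_apply, Finsupp.finsetSum_apply]
      simp only [Finsupp.smul_apply, smul_eq_mul]
      apply Finset.sum_subset hfs
      intro e _ hn
      rw [Finsupp.notMem_support_iff] at hn
      rw [hn, zero_mul]
    refine ⟨f, hfs, hfe, ?_, ?_⟩
    · intro v
      rw [hbdv, hΦapp, ← Finset.sum_coe_sort]
      exact Finset.sum_congr rfl (fun e _ => by rw [hfe])
    · intro v hv
      rw [hbdv]
      refine Finset.sum_eq_zero (fun e he => ?_)
      rw [ed_apply_eq_zero, mul_zero]
      · rintro rfl; exact hv (hV1 e he)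
      · rintro rfl; exact hv (hV2 e he)
  have hnotinj : ¬ Function.Injective Φ := by
    intro hinj
    have h1 := LinearMap.finrank_le_finrank_of_injective hinj
    rw [Module.finrank_fintype_fun_eq_card, Module.finrank_fintype_fun_eq_card,
      Fintype.card_coe, Fintype.card_coe] at h1
    have h2 : J.card = V.card := le_antisymm h1 hcard
    have h3 : Module.finrank ℝ (J → ℝ) = Module.finrank ℝ (V → ℝ) := by
      rw [Module.finrank_fintype_fun_eq_card, Module.finrank_fintype_fun_eq_card,
        Fintype.card_coe, Fintype.card_coe, h2]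
    have h4 := (LinearMap.injective_iff_surjective_of_finrank_eq_finrank h3).mp hinj
    obtain ⟨e0, he0⟩ := hne
    obtain ⟨b, hb⟩ := h4 (Pi.single ⟨e0.1, hV1 e0 he0⟩ 1)
    obtain ⟨f, hfs, hfe, hf1, hf2⟩ := hflow b
    have h5 : (bd f).support ⊆ V := by
      intro v hv
      by_contra hcon
      exact (Finsupp.mem_support_iff.mp hv) (hf2 v hcon)
    have h6 := tot_bd f
    rw [tot_eq_sum h5, ← Finset.sum_coe_sort] at h6
    have h7 : ∑ v : V, bd f v.1 = 1 := by
      have : ∀ v : V, bd f v.1 = (Pi.single ⟨e0.1, hV1 e0 he0⟩ 1 : V → ℝ) v := by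
        intro v; rw [hf1, hb]
      rw [Finset.sum_congr rfl (fun v _ => this v), Finset.sum_pi_single']
      simp
    rw [h7] at h6
    exact one_ne_zero h6
  rw [injective_iff_map_eq_zero] at hnotinj
  push Not at hnotinj
  obtain ⟨b, hb0, hbne⟩ := hnotinj
  obtain ⟨f, hfs, hfe, hf1, hf2⟩ := hflow b
  refine ⟨f, ?_, hfs, ?_⟩
  · rintro rfl
    apply hbne
    ext e
    rw [← hfe e]; rfl
  · ext v
    by_cases hv : v ∈ V
    · have := hf1 ⟨v, hv⟩
      rw [hb0] at this
      exact this
    · rw [hf2 v hv]; rfl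

/-- one-sided zero crossing -/
theorem exists_first_zero (f b : (M × M) →₀ ℝ) (hsub : b.support ⊆ f.support)
    (h : ∃ e ∈ b.support, 0 < -(f e / b e)) :
    ∃ t : ℝ, 0 < t ∧ (∃ e ∈ b.support, f e + t * b e = 0) ∧
      ∀ e ∈ b.support, 0 < -(f e / b e) → t ≤ -(f e / b e) := by
  set P := b.support.filter (fun e => 0 < -(f e / b e)) with hP
  have hPne : P.Nonempty := by
    obtain ⟨e, he, hpos⟩ := h
    exact ⟨e, Finset.mem_filter.mpr ⟨he, hpos⟩⟩
  obtain ⟨e1, he1, hmin⟩ := Finset.exists_min_image P (fun e => -(f e / b e)) hPne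
  rw [hP, Finset.mem_filter] at he1
  refine ⟨-(f e1 / b e1), he1.2, ⟨e1, he1.1, ?_⟩, ?_⟩
  · have : b e1 ≠ 0 := Finsupp.mem_support_iff.mp he1.1
    field_simp
    ring
  · intro e he hpos
    exact hmin e (by rw [hP, Finset.mem_filter]; exact ⟨he, hpos⟩)

theorem support_shift {f b : (M × M) →₀ ℝ} (hsub : b.support ⊆ f.support) {t : ℝ}
    (h : ∃ e ∈ b.support, f e + t * b e = 0) : (f + t • b).support ⊂ f.support := by
  rw [Finset.ssubset_iff_subset_ne]
  have h1 : (f + t • b).support ⊆ f.support := by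
    intro e he
    by_contra hcon
    rw [Finsupp.mem_support_iff] at he
    apply he
    have h2 : e ∉ b.support := fun h => hcon (hsub h)
    rw [Finsupp.notMem_support_iff] at hcon h2
    rw [Finsupp.add_apply, Finsupp.smul_apply, hcon, h2]; simp
  refine ⟨h1, ?_⟩
  intro heq
  obtain ⟨e, he, h0⟩ := h
  have h2 : e ∈ (f + t • b).support := by rw [heq]; exact hsub he
  rw [Finsupp.mem_support_iff, Finsupp.add_apply, Finsupp.smul_apply, smul_eq_mul] at h2
  exact h2 h0

theorem shift_one {p : ℝ} (hp : 0 < p) {ω : M × M → ℝ} (hω : ∀ e, 0 ≤ ω e)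
    (f b : (M × M) →₀ ℝ) (hb : b ≠ 0) (hsub : b.support ⊆ f.support)
    (hall : ∀ e ∈ b.support, 0 < -(f e / b e)) :
    ∃ t : ℝ, (∃ e ∈ b.support, f e + t * b e = 0) ∧ cost p ω (f + t • b) ≤ cost p ω f := by
  obtain ⟨e0, he0⟩ : b.support.Nonempty := by
    rw [Finsupp.support_nonempty_iff]; exact hb
  obtain ⟨t, ht, hz, hmin⟩ := exists_first_zero f b hsub ⟨e0, he0, hall e0 he0⟩
  refine ⟨t, hz, ?_⟩
  rw [cost_eq_sum hp (support_shift hsub hz).subset]
  refine Finset.sum_le_sum (fun e _ => ?_)
  refine mul_le_mul_of_nonneg_right ?_ (hω e)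
  refine Real.rpow_le_rpow (abs_nonneg _) ?_ hp.le
  rw [Finsupp.add_apply, Finsupp.smul_apply, smul_eq_mul]
  by_cases heb : e ∈ b.support
  · have hbe : b e ≠ 0 := Finsupp.mem_support_iff.mp heb
    set τ := -(f e / b e) with hτ
    have hfe : f e = -τ * b e := by rw [hτ]; field_simp
    have h1 := hmin e heb (hall e heb)
    have h2 : f e + t * b e = (t - τ) * b e := by rw [hfe]; ring
    rw [h2, hfe, abs_mul, abs_mul]
    refine mul_le_mul_of_nonneg_right ?_ (abs_nonneg _)
    rw [abs_neg, abs_of_pos (hall e heb), abs_le]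
    constructor <;> linarith
  · rw [Finsupp.notMem_support_iff] at heb
    rw [heb, mul_zero, add_zero]

/-- shift along a cycle, killing an edge without increasing the cost -/
theorem shift {p : ℝ} (hp : 0 < p) (hp1 : p ≤ 1) {ω : M × M → ℝ} (hω : ∀ e, 0 ≤ ω e)
    (f b : (M × M) →₀ ℝ) (hb : b ≠ 0) (hsub : b.support ⊆ f.support) (hbd : bd b = 0) :
    ∃ g : (M × M) →₀ ℝ, bd g = bd f ∧ cost p ω g ≤ cost p ω f ∧ g.support ⊂ f.support := by
  have hτne : ∀ e ∈ b.support, -(f e / b e) ≠ 0 := by
    intro e he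
    have h1 := Finsupp.mem_support_iff.mp he
    have h2 := Finsupp.mem_support_iff.mp (hsub he)
    exact neg_ne_zero.mpr (div_ne_zero h2 h1)
  have fin : ∀ t : ℝ, (∃ e ∈ b.support, f e + t * b e = 0) → cost p ω (f + t • b) ≤ cost p ω f →
      ∃ g : (M × M) →₀ ℝ, bd g = bd f ∧ cost p ω g ≤ cost p ω f ∧ g.support ⊂ f.support := by
    intro t h1 h2
    refine ⟨f + t • b, ?_, h2, support_shift hsub h1⟩
    rw [map_add, map_smul, hbd, smul_zero, add_zero]
  by_cases hpos : ∃ e ∈ b.support, 0 < -(f e / b e)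
  swap
  · -- all negative
    push Not at hpos
    have hall : ∀ e ∈ (-b).support, 0 < -(f e / (-b) e) := by
      intro e he
      rw [Finsupp.support_neg] at he
      have h1 := lt_of_le_of_ne (hpos e he) (hτne e he)
      rw [Finsupp.neg_apply, div_neg, neg_neg]
      linarith
    obtain ⟨t, h1, h2⟩ := shift_one hp hω f (-b) (neg_ne_zero.mpr hb)
      (by rw [Finsupp.support_neg]; exact hsub) hall
    apply fin (-t)
    · obtain ⟨e, he, h0⟩ := h1
      rw [Finsupp.support_neg] at he
      refine ⟨e, he, ?_⟩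
      rw [Finsupp.neg_apply] at h0
      linarith
    · have : f + (-t) • b = f + t • (-b) := by rw [neg_smul, smul_neg]
      rw [this]; exact h2
  by_cases hneg : ∃ e ∈ b.support, -(f e / b e) < 0
  swap
  · push Not at hneg
    have hall : ∀ e ∈ b.support, 0 < -(f e / b e) := fun e he =>
      lt_of_le_of_ne (hneg e he) (hτne e he).symm
    obtain ⟨t, h1, h2⟩ := shift_one hp hω f b hb hsub hall
    exact fin t h1 h2
  -- both signs
  obtain ⟨t1, ht1, hz1, hmin1⟩ := exists_first_zero f b hsub hpos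
  have hneg' : ∃ e ∈ (-b).support, 0 < -(f e / (-b) e) := by
    obtain ⟨e, he, h⟩ := hneg
    refine ⟨e, by rw [Finsupp.support_neg]; exact he, ?_⟩
    rw [Finsupp.neg_apply, div_neg, neg_neg]; linarith
  obtain ⟨s, hs, hz2, hmin2⟩ := exists_first_zero f (-b)
    (by rw [Finsupp.support_neg]; exact hsub) hneg'
  have hz2' : ∃ e ∈ b.support, f e + (-s) * b e = 0 := by
    obtain ⟨e, he, h0⟩ := hz2
    rw [Finsupp.support_neg] at he
    refine ⟨e, he, ?_⟩
    rw [Finsupp.neg_apply] at h0
    linarith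
  have hconv : (s / (t1 + s)) * cost p ω (f + t1 • b) + (t1 / (t1 + s)) * cost p ω (f + (-s) • b)
      ≤ cost p ω f := by
    rw [cost_eq_sum hp (support_shift hsub hz1).subset, cost_eq_sum hp (support_shift hsub hz2').subset,
      cost, Finset.mul_sum, Finset.mul_sum, ← Finset.sum_add_distrib]
    refine Finset.sum_le_sum (fun e _ => ?_)
    rw [← mul_assoc, ← mul_assoc, ← add_mul]
    refine mul_le_mul_of_nonneg_right ?_ (hω e)
    have hsum : 0 < t1 + s := by linarith
    set A := f e + t1 * b e with hA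
    set B := f e + (-s) * b e with hB
    have hfe : f e = (s / (t1 + s)) * A + (t1 / (t1 + s)) * B := by
      rw [hA, hB]; field_simp; ring
    have hAB : 0 ≤ A * B := by
      by_cases heb : e ∈ b.support
      · have hbe : b e ≠ 0 := Finsupp.mem_support_iff.mp heb
        set τ := -(f e / b e) with hτ
        have hfe : f e = -τ * b e := by rw [hτ]; field_simp
        have h2 : A * B = (t1 - τ) * (-s - τ) * (b e * b e) := by rw [hA, hB, hfe]; ring
        rw [h2]
        refine mul_nonneg ?_ (mul_self_nonneg _)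
        rcases lt_or_gt_of_ne (hτne e heb) with h | h
        · -- τ < 0
          have h3 := hmin2 e (by rw [Finsupp.support_neg]; exact heb)
            (by rw [Finsupp.neg_apply, div_neg, neg_neg]; linarith)
          rw [Finsupp.neg_apply, div_neg, neg_neg] at h3
          have h4 : τ ≤ -s := by rw [hτ]; linarith
          have h5 : τ < 0 := h
          exact mul_nonneg (by linarith) (by linarith)
        · have h3 := hmin1 e heb h
          have h4 : t1 ≤ τ := h3
          exact mul_nonneg_of_nonpos_of_nonpos (by linarith) (by linarith)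
      · rw [Finsupp.notMem_support_iff] at heb
        rw [hA, hB, heb, mul_zero, mul_zero, add_zero]
        exact mul_self_nonneg _
    have habs : |f e| = (s / (t1 + s)) * |A| + (t1 / (t1 + s)) * |B| := by
      have hα : 0 ≤ s / (t1 + s) := by positivity
      have hβ : 0 ≤ t1 / (t1 + s) := by positivity
      rw [hfe]
      rcases mul_nonneg_iff.mp hAB with ⟨h1, h2⟩ | ⟨h1, h2⟩
      · rw [abs_of_nonneg h1, abs_of_nonneg h2, abs_of_nonneg]
        positivity
      · rw [abs_of_nonpos h1, abs_of_nonpos h2, abs_of_nonpos]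
        · ring
        · have := mul_nonpos_of_nonneg_of_nonpos hα h1
          have := mul_nonpos_of_nonneg_of_nonpos hβ h2
          linarith
    have hconc := (Real.concaveOn_rpow hp.le hp1).2 (Set.mem_Ici.mpr (abs_nonneg A))
      (Set.mem_Ici.mpr (abs_nonneg B)) (show 0 ≤ s / (t1 + s) by positivity)
      (show 0 ≤ t1 / (t1 + s) by positivity) (by field_simp; ring)
    simp only [smul_eq_mul] at hconc
    rw [habs]
    rw [Finsupp.add_apply, Finsupp.smul_apply, smul_eq_mul, Finsupp.add_apply, Finsupp.smul_apply,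
      smul_eq_mul]
    exact hconc
  have hsum : 0 < t1 + s := by linarith
  by_cases hc : cost p ω (f + t1 • b) ≤ cost p ω f
  · exact fin t1 hz1 hc
  · push Not at hc
    apply fin (-s) hz2'
    by_contra hcon
    push Not at hcon
    have h1 : (s / (t1 + s)) * cost p ω f < (s / (t1 + s)) * cost p ω (f + t1 • b) :=
      mul_lt_mul_of_pos_left hc (by positivity)
    have h2 : (t1 / (t1 + s)) * cost p ω f < (t1 / (t1 + s)) * cost p ω (f + (-s) • b) :=
      mul_lt_mul_of_pos_left hcon (by positivity)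
    have h3 : (s / (t1 + s)) * cost p ω f + (t1 / (t1 + s)) * cost p ω f = cost p ω f := by
      field_simp; ring
    linarith

/-- Forest reduction -/
theorem exists_forest {p : ℝ} (hp : 0 < p) (hp1 : p ≤ 1) {ω : M × M → ℝ} (hω : ∀ e, 0 ≤ ω e) :
    ∀ (n : ℕ) (f : (M × M) →₀ ℝ), f.support.card ≤ n →
    ∃ g : (M × M) →₀ ℝ, bd g = bd f ∧ cost p ω g ≤ cost p ω f ∧ Forest g.support := by
  intro n
  induction n with
  | zero =>
    intro f hf
    refine ⟨f, rfl, le_rfl, ?_⟩
    rw [Nat.le_zero, Finset.card_eq_zero] at hf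
    rw [hf]; exact Forest.empty
  | succ n ih =>
    intro f hf
    by_cases hF : Forest f.support
    · exact ⟨f, rfl, le_rfl, hF⟩
    · have h1 : ∃ J' : Finset (M × M), J' ⊆ f.support ∧ J'.Nonempty ∧ ¬ HasLeaf J' := by
        by_contra hcon
        push Not at hcon
        exact hF (forest_of_leaves _ hcon)
      obtain ⟨J', hJ', hne, hnl⟩ := h1
      have h2 : ∃ b : (M × M) →₀ ℝ, b ≠ 0 ∧ b.support ⊆ J' ∧ bd b = 0 := by
        by_cases hl : ∃ e ∈ J', e.1 = e.2
        · obtain ⟨e, he, h⟩ := hl
          refine ⟨Finsupp.single e 1, ?_, ?_, ?_⟩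
          · intro h0
            have := DFunLike.congr_fun h0 e
            simp at this
          · refine Finsupp.support_single_subset.trans ?_
            rw [Finset.singleton_subset_iff]; exact he
          · rw [bd_single, ed, h, sub_self, smul_zero]
        · push Not at hl
          apply exists_cycle J' hne hl
          intro e he v hv
          by_contra hcon
          push Not at hcon
          apply hnl
          rcases hv with rfl | rfl
          · exact ⟨e, he, e.1, e.2, hl e he, Or.inl rfl, hcon⟩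
          · exact ⟨e, he, e.2, e.1, (hl e he).symm, Or.inr rfl, hcon⟩
      obtain ⟨b, hb, hbs, hbd⟩ := h2
      obtain ⟨g, hg1, hg2, hg3⟩ := shift hp hp1 hω f b hb (hbs.trans hJ') hbd
      have h3 : g.support.card ≤ n := by
        have := Finset.card_lt_card hg3
        omega
      obtain ⟨g', h4, h5, h6⟩ := ih g h3
      exact ⟨g', h4.trans hg1, h5.trans hg2, h6⟩

end

end Pool.Agent.H262.FP
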