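import Mathlib
import Pool.Agent.H262.FP3

set_option autoImplicit false

/-!
Partitions of forests at a given scale; cutting lemma.
-/

namespace Pool.Agent.H262.FP

open Finset

noncomputable section

open scoped Classical

variable {M : Type*} [MetricSpace M]

/-- partition lemma -/
theorem partition {J : Finset (M × M)} (hJ : Forest J) (N : ℕ) (hN : 0 < N) (u : ℝ) (hu : 0 ≤ u)
    (H : M × M → ℕ) (hH : ∀ e : M × M, e ∈ J → dist e.1 e.2 ≤ u * H e) :
    ∃ (h : M → ℕ) (π : ℕ → M → M), (∀ θ v, dist v (π θ v) ≤ u * (((h v + θ) % N : ℕ) : ℝ)) ∧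
      ∀ e ∈ J, ((Finset.range N).filter (fun θ => π θ e.1 ≠ π θ e.2)).card ≤ H e := by
  induction hJ with
  | empty =>
    refine ⟨fun _ => 0, fun _ v => v, fun θ v => ?_, fun e he => absurd he (Finset.notMem_empty e)⟩
    rw [dist_self]; positivity
  | @insert J e v w hJ he hvw hev hfresh ih =>
    obtain ⟨h, π, h1, h2⟩ := ih (fun e' he' => hH e' (Finset.mem_insert_of_mem he'))
    have hdist : dist v w ≤ u * H e := by
      have := hH e (Finset.mem_insert_self e J)
      rcases hev with h' | h'
      · rw [h'] at this ⊢; exact this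
      · rw [h'] at this ⊢; rw [dist_comm]; exact this
    refine ⟨Function.update h v (h w + H e),
      fun θ => Function.update (π θ) v (if (h w + θ) % N + H e < N then π θ w else v), ?_, ?_⟩
    · intro θ a
      beta_reduce
      by_cases ha : a = v
      · subst ha
        rw [Function.update_self, Function.update_self]
        split_ifs with hc
        · have h3 : (h w + H e + θ) % N = (h w + θ) % N + H e := by
            have : (h w + H e + θ) % N = ((h w + θ) % N + H e) % N := by
              rw [Nat.mod_add_mod]; congr 1; ring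
            rw [this, Nat.mod_eq_of_lt hc]
          rw [h3]
          push_cast
          have h4 := h1 θ w
          have h5 := dist_triangle a w (π θ w)
          linarith
        · rw [dist_self]; positivity
      · rw [Function.update_of_ne ha, Function.update_of_ne ha]
        exact h1 θ a
    · intro e' he'
      rw [Finset.mem_insert] at he'
      rcases he' with rfl | he'
      · have hsub : (Finset.range N).filter (fun θ =>
            Function.update (π θ) v (if (h w + θ) % N + H e' < N then π θ w else v) e'.1 ≠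
            Function.update (π θ) v (if (h w + θ) % N + H e' < N then π θ w else v) e'.2) ⊆
            (Finset.range N).filter (fun θ => N - H e' ≤ (h w + θ) % N) := by
          intro θ hθ
          rw [Finset.mem_filter] at hθ ⊢
          refine ⟨hθ.1, ?_⟩
          by_contra hcon
          apply hθ.2
          have hc : (h w + θ) % N + H e' < N := by omega
          rcases hev with h' | h'
          · rw [h']
            simp only [Function.update_self, Function.update_of_ne hvw.symm]
            rw [h'] at hc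
            rw [if_pos hc]
          · rw [h']
            simp only [Function.update_self, Function.update_of_ne hvw.symm]
            rw [h'] at hc
            rw [if_pos hc]
        refine (Finset.card_le_card hsub).trans ?_
        have hinj : Set.InjOn (fun θ => (h w + θ) % N) ((Finset.range N).filter (fun θ => N - H e' ≤ (h w + θ) % N)) := by
          intro a ha b hb hab
          rw [Finset.mem_coe, Finset.mem_filter, Finset.mem_range] at ha hb
          have h3 : (h w + a) ≡ (h w + b) [MOD N] := hab
          have h4 := Nat.ModEq.add_left_cancel' (h w) h3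
          exact Nat.ModEq.eq_of_lt_of_lt h4 ha.1 hb.1
        have hmaps : Set.MapsTo (fun θ => (h w + θ) % N) ((Finset.range N).filter (fun θ => N - H e' ≤ (h w + θ) % N))
            (Finset.Ico (N - H e') N) := by
          intro a ha
          rw [Finset.mem_coe, Finset.mem_filter] at ha
          rw [Finset.mem_coe, Finset.mem_Ico]
          exact ⟨ha.2, Nat.mod_lt _ hN⟩
        have := Finset.card_le_card_of_injOn _ hmaps hinj
        rw [Nat.card_Ico] at this
        omega
      · have h3 := hfresh e' he'
        have h4 := h2 e' he'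
        simp only [Function.update_of_ne h3.1, Function.update_of_ne h3.2]
        exact h4

/-- a cut at scale `R` of the short edges of a forest flow -/
theorem cut {p : ℝ} (f : (M × M) →₀ ℝ) (hF : Forest f.support) {R : ℝ} (hR : 0 < R)
    {δ : ℝ} (hδ : 0 < δ) :
    ∃ π : M → M, (∀ v, dist v (π v) ≤ R) ∧
      ∑ e ∈ f.support.filter (fun e => dist e.1 e.2 < R ∧ π e.1 ≠ π e.2), |f e| ^ p ≤
        (1 / R) * ∑ e ∈ f.support.filter (fun e => dist e.1 e.2 < R), |f e| ^ p * dist e.1 e.2 + δ := by
  set J := f.support.filter (fun e => dist e.1 e.2 < R) with hJ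
  have hFJ : Forest J := hF.subset J (Finset.filter_subset _ _)
  set T := ∑ e ∈ J, |f e| ^ p with hT
  have hT0 : 0 ≤ T := Finset.sum_nonneg (fun _ _ => abs_rpow_nonneg _)
  obtain ⟨N, hN⟩ := exists_nat_gt (T / δ)
  have hN0 : (0:ℝ) < N := lt_of_le_of_lt (by positivity) hN
  have hNpos : 0 < N := by exact_mod_cast hN0
  have hNT : T ≤ N * δ := by
    rw [div_lt_iff₀ hδ] at hN; linarith
  set u : ℝ := R / N with hu
  have hu0 : 0 < u := by positivity
  set H : M × M → ℕ := fun e => ⌈dist e.1 e.2 / u⌉₊ with hH
  have hH1 : ∀ e ∈ J, dist e.1 e.2 ≤ u * H e := by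
    intro e _
    have := Nat.le_ceil (dist e.1 e.2 / u)
    rw [div_le_iff₀ hu0] at this
    rw [mul_comm]; exact this
  have hH2 : ∀ e, (H e : ℝ) ≤ dist e.1 e.2 / u + 1 := fun e =>
    (Nat.ceil_lt_add_one (by positivity)).le
  obtain ⟨h, π, h1, h2⟩ := partition hFJ N hNpos u hu0.le H hH1
  -- averaging
  have havg : ∑ θ ∈ Finset.range N, ∑ e ∈ J.filter (fun e => π θ e.1 ≠ π θ e.2), |f e| ^ p
      ≤ ∑ θ ∈ Finset.range N, ((1 / R) * ∑ e ∈ J, |f e| ^ p * dist e.1 e.2 + δ) := by
    have h3 : ∑ θ ∈ Finset.range N, ∑ e ∈ J.filter (fun e => π θ e.1 ≠ π θ e.2), |f e| ^ p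
        = ∑ e ∈ J, ((Finset.range N).filter (fun θ => π θ e.1 ≠ π θ e.2)).card * |f e| ^ p := by
      simp_rw [Finset.sum_filter]
      rw [Finset.sum_comm]
      refine Finset.sum_congr rfl (fun e _ => ?_)
      rw [← Finset.sum_filter, Finset.sum_const, nsmul_eq_mul]
    rw [h3, Finset.sum_const, Finset.card_range, nsmul_eq_mul]
    have h4 : ∑ e ∈ J, (((Finset.range N).filter (fun θ => π θ e.1 ≠ π θ e.2)).card : ℝ) * |f e| ^ p
        ≤ ∑ e ∈ J, (dist e.1 e.2 / u + 1) * |f e| ^ p := by
      refine Finset.sum_le_sum (fun e he => ?_)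
      refine mul_le_mul_of_nonneg_right ?_ (abs_rpow_nonneg _)
      exact le_trans (by exact_mod_cast h2 e he) (hH2 e)
    have h5 : ∑ e ∈ J, (dist e.1 e.2 / u + 1) * |f e| ^ p
        = N * ((1 / R) * ∑ e ∈ J, |f e| ^ p * dist e.1 e.2) + T := by
      rw [hT, Finset.mul_sum, Finset.mul_sum, ← Finset.sum_add_distrib]
      refine Finset.sum_congr rfl (fun e _ => ?_)
      rw [hu]
      field_simp
    rw [h5] at h4
    linarith
  obtain ⟨θ, hθ, hle⟩ := Finset.exists_le_of_sum_le (Finset.nonempty_range_iff.mpr hNpos.ne') havg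
  refine ⟨π θ, fun v => ?_, ?_⟩
  · refine (h1 θ v).trans ?_
    have h3 : (h v + θ) % N < N := Nat.mod_lt _ hNpos
    have h4 : (((h v + θ) % N : ℕ) : ℝ) ≤ N := by exact_mod_cast h3.le
    calc u * (((h v + θ) % N : ℕ) : ℝ) ≤ u * N := mul_le_mul_of_nonneg_left h4 hu0.le
      _ = R := by rw [hu]; field_simp
  · rw [hJ, Finset.filter_filter] at hle
    exact hle

/-- cut with prescribed representatives near a set `S` -/
theorem cut' {p : ℝ} (f : (M × M) →₀ ℝ) (hF : Forest f.support) {R : ℝ} (hR : 0 < R)
    {δ : ℝ} (hδ : 0 < δ) (S : Set M) (ρ : M → M) {R' : ℝ} (hR' : 0 ≤ R')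
    (hρ : ∀ s ∈ S, dist s (ρ s) ≤ R') :
    ∃ π : M → M, (∀ v, dist v (π v) ≤ 2 * R + R') ∧
      (∀ s ∈ S, ∃ s' ∈ S, π s = ρ s' ∧ dist s s' ≤ 2 * R) ∧
      ∑ e ∈ f.support.filter (fun e => dist e.1 e.2 < R ∧ π e.1 ≠ π e.2), |f e| ^ p ≤
        (1 / R) * ∑ e ∈ f.support.filter (fun e => dist e.1 e.2 < R), |f e| ^ p * dist e.1 e.2 + δ := by
  obtain ⟨π, h1, h2⟩ := cut (p := p) f hF hR hδ
  set κ : M → M := fun q => if h : ∃ s ∈ S, π s = q then ρ (Classical.choose h) else q with hκ
  refine ⟨fun v => κ (π v), ?_, ?_, ?_⟩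
  · intro v
    beta_reduce
    by_cases h : ∃ s ∈ S, π s = π v
    · have h3 := Classical.choose_spec h
      have h4 : κ (π v) = ρ (Classical.choose h) := by rw [hκ]; simp only; rw [dif_pos h]
      rw [h4]
      set s := Classical.choose h
      have h5 := h1 v
      have h6 := h1 s
      have h7 := hρ s h3.1
      have h8 : dist v (ρ s) ≤ dist v (π v) + dist (π v) s + dist s (ρ s) := dist_triangle4 _ _ _ _
      rw [← h3.2, dist_comm (π s) s] at h8
      rw [← h3.2] at h5
      linarith
    · have h4 : κ (π v) = π v := by rw [hκ]; simp only; rw [dif_neg h]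
      rw [h4]
      have := h1 v
      linarith
  · intro s hs
    have h : ∃ s' ∈ S, π s' = π s := ⟨s, hs, rfl⟩
    have h3 := Classical.choose_spec h
    have h4 : κ (π s) = ρ (Classical.choose h) := by rw [hκ]; simp only; rw [dif_pos h]
    refine ⟨Classical.choose h, h3.1, h4, ?_⟩
    have h5 := h1 s
    have h6 := h1 (Classical.choose h)
    rw [h3.2] at h6
    have h7 := dist_triangle_right s (Classical.choose h) (π s)
    linarith
  · refine le_trans (Finset.sum_le_sum_of_subset_of_nonneg ?_ (fun _ _ _ => abs_rpow_nonneg _)) h2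
    intro e he
    rw [Finset.mem_filter] at he ⊢
    refine ⟨he.1, he.2.1, fun hcon => he.2.2 ?_⟩
    simp only [hcon]

end

end Pool.Agent.H262.FP
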