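import Mathlib
import Pool.Agent.H262.FP5

set_option autoImplicit false

/-!
Multiplication operators; the three detection lemmas.
-/

namespace Pool.Agent.H262.FP

open Finset

noncomputable section

open scoped Classical

variable {M : Type*} [MetricSpace M]

/-- multiplication by `g` -/
def mulop (g : M → ℝ) : (M →₀ ℝ) →ₗ[ℝ] (M →₀ ℝ) :=
  Finsupp.linearCombination ℝ (fun s => g s • dl s)

omit [MetricSpace M] in
theorem mulop_dl (g : M → ℝ) (s : M) : mulop g (dl s) = g s • dl s := by
  rw [mulop, Finsupp.linearCombination_single, one_smul]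

omit [MetricSpace M] in
theorem mulop_apply (g : M → ℝ) (v : M →₀ ℝ) (s : M) : mulop g v s = g s * v s := by
  induction v using Finsupp.induction_linear with
  | zero => simp
  | add v w hv hw => rw [map_add, Finsupp.add_apply, hv, hw, Finsupp.add_apply, mul_add]
  | single a b =>
    rw [mulop, Finsupp.linearCombination_single, Finsupp.smul_apply, Finsupp.smul_apply,
      Finsupp.single_apply, Finsupp.single_apply]
    split_ifs with h
    · subst h; simp; ring
    · simp

omit [MetricSpace M] in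
theorem mulop_mulop (g h : M → ℝ) (v : M →₀ ℝ) :
    mulop g (mulop h v) = mulop (fun s => g s * h s) v := by
  ext s
  rw [mulop_apply, mulop_apply, mulop_apply, mul_assoc]

theorem isPF_f {p : ℝ} (hp : 0 < p) (hp1 : p ≤ 1) (o : M) : IsPF p (nn p (ωf p) o) :=
  isPF_nn hp hp1 (ωf_nonneg p) o

theorem nn_dl_le {p : ℝ} (hp : 0 < p) (hp1 : p ≤ 1) (o t : M) :
    nn p (ωf p) o (dl t) ≤ dist t o ^ p := by
  have h : dl t = ed (t, o) + (1:ℝ) • dl o := by rw [ed, one_smul]; abel
  rw [h]
  refine ((isPF_f hp hp1 o).add_le _ _).trans ?_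
  rw [nn_smul_base hp hp1 (ωf_nonneg p), add_zero]
  exact nn_ed_le hp (ωf_nonneg p) o _

theorem mul_bound_aux {p : ℝ} (hp : 0 < p) (hp1 : p ≤ 1) (o : M) (ψ : M → ℝ)
    (hψ : ∀ s, |ψ s| ≤ 1) {L : ℝ} (hL : 0 ≤ L) (s t : M)
    (hLip : |ψ s - ψ t| * dist t o ≤ L * dist s t) :
    nn p (ωf p) o (mulop ψ (ed (s, t))) ≤ (1 + L ^ p) * dist s t ^ p := by
  have h1 : mulop ψ (ed (s, t)) = ψ s • ed (s, t) + (ψ s - ψ t) • dl t := by
    rw [ed, map_sub, mulop_dl, mulop_dl, smul_sub, sub_smul]; abel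
  rw [h1]
  refine ((isPF_f hp hp1 o).add_le _ _).trans ?_
  rw [(isPF_f hp hp1 o).smul, (isPF_f hp hp1 o).smul, add_mul, one_mul]
  refine add_le_add ?_ ?_
  · have h2 : |ψ s| ^ p ≤ 1 := Real.rpow_le_one (abs_nonneg _) (hψ s) hp.le
    have h3 : nn p (ωf p) o (ed (s, t)) ≤ dist s t ^ p := nn_ed_le hp (ωf_nonneg p) o _
    have h4 := (isPF_f hp hp1 o).nonneg (ed (s, t))
    have h5 := abs_rpow_nonneg (p := p) (ψ s)
    nlinarith
  · calc |ψ s - ψ t| ^ p * nn p (ωf p) o (dl t) ≤ |ψ s - ψ t| ^ p * dist t o ^ p :=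
          mul_le_mul_of_nonneg_left (nn_dl_le hp hp1 o t) (abs_rpow_nonneg _)
      _ = (|ψ s - ψ t| * dist t o) ^ p := (Real.mul_rpow (abs_nonneg _) dist_nonneg).symm
      _ ≤ (L * dist s t) ^ p := Real.rpow_le_rpow (mul_nonneg (abs_nonneg _) dist_nonneg) hLip hp.le
      _ = L ^ p * dist s t ^ p := Real.mul_rpow hL dist_nonneg

theorem mul_bound {p : ℝ} (hp : 0 < p) (hp1 : p ≤ 1) (o : M) (ψ : M → ℝ)
    (hψ : ∀ s, |ψ s| ≤ 1) {L : ℝ} (hL : 0 ≤ L)
    (hLip : ∀ s t, |ψ s - ψ t| * min (dist s o) (dist t o) ≤ L * dist s t) (e : M × M) :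
    nn p (ωf p) o (mulop ψ (ed e)) ≤ (1 + L ^ p) * ωf p e := by
  obtain ⟨s, t⟩ := e
  have h := hLip s t
  rcases le_total (dist s o) (dist t o) with h1 | h1
  · rw [min_eq_left h1] at h
    have h2 : ed (s, t) = -ed (t, s) := by simp only [ed]; abel
    rw [h2, map_neg, (isPF_f hp hp1 o).neg]
    have h3 := mul_bound_aux hp hp1 o ψ hψ hL t s (by rw [abs_sub_comm, dist_comm t s]; exact h)
    rw [ωf]; simp only
    rw [dist_comm s t]; exact h3
  · rw [min_eq_right h1] at h
    exact mul_bound_aux hp hp1 o ψ hψ hL s t h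

theorem mul_family {p : ℝ} (hp : 0 < p) (hp1 : p ≤ 1) (o : M) (ψ : ℕ → M → ℝ)
    (hψ : ∀ k s, |ψ k s| ≤ 1) {L : ℝ} (hL : 0 ≤ L)
    (hLip : ∀ k s t, |ψ k s - ψ k t| * min (dist s o) (dist t o) ≤ L * dist s t)
    (hdisj : ∀ s k l, ψ k s ≠ 0 → ψ l s ≠ 0 → k = l) (v : M →₀ ℝ) (F : Finset ℕ) :
    ∑ k ∈ F, nn p (ωf p) o (mulop (ψ k) v) ≤ (2 * (1 + L ^ p)) * nn p (ωf p) o v := by
  have hPF : IsPF p (fun v => ∑ k ∈ F, nn p (ωf p) o (mulop (ψ k) v)) :=
    IsPF.finset_sum F (fun k v => nn p (ωf p) o (mulop (ψ k) v))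
      (fun k _ => (isPF_f hp hp1 o).comp (mulop (ψ k)))
  have hLp : 0 ≤ L ^ p := Real.rpow_nonneg hL _
  refine le_nn hp (ωf_nonneg p) hPF ?_ (by positivity) ?_ v
  · apply Finset.sum_eq_zero
    intro k _
    rw [mulop_dl, nn_smul_base hp hp1 (ωf_nonneg p)]
  · intro e
    set D := (1 + L ^ p) * ωf p e with hD
    have hD0 : 0 ≤ D := mul_nonneg (by positivity) (ωf_nonneg p e)
    have h1 : ∀ k ∈ F, nn p (ωf p) o (mulop (ψ k) (ed e)) ≤
        (if ψ k e.1 ≠ 0 then D else 0) + (if ψ k e.2 ≠ 0 then D else 0) := by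
      intro k _
      by_cases h2 : ψ k e.1 ≠ 0
      · rw [if_pos h2]
        have := mul_bound hp hp1 o (ψ k) (hψ k) hL (hLip k) e
        split_ifs <;> linarith
      · by_cases h3 : ψ k e.2 ≠ 0
        · rw [if_pos h3]
          have := mul_bound hp hp1 o (ψ k) (hψ k) hL (hLip k) e
          split_ifs <;> linarith
        · rw [not_not] at h2 h3
          rw [if_neg (not_not.mpr h2), if_neg (not_not.mpr h3), ed, map_sub, mulop_dl, mulop_dl, h2,
            h3, zero_smul, zero_smul, sub_zero, (isPF_f hp hp1 o).zero hp, add_zero]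
    have h2 : ∀ s, ∑ k ∈ F, (if ψ k s ≠ 0 then D else 0) ≤ D := by
      intro s
      rw [← Finset.sum_filter, Finset.sum_const, nsmul_eq_mul]
      have h3 : (F.filter (fun k => ψ k s ≠ 0)).card ≤ 1 := by
        rw [Finset.card_le_one]
        intro a ha b hb
        rw [Finset.mem_filter] at ha hb
        exact hdisj s a b ha.2 hb.2
      have h4 : ((F.filter (fun k => ψ k s ≠ 0)).card : ℝ) ≤ 1 := by exact_mod_cast h3
      nlinarith
    refine (Finset.sum_le_sum h1).trans ?_
    rw [Finset.sum_add_distrib]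
    have h3 := h2 e.1
    have h4 := h2 e.2
    have h5 : 2 * (1 + L ^ p) * ωf p e = D + D := by rw [hD]; ring
    linarith

/-- radial cutoff -/
def gr (o : M) (ρ : ℝ) (s : M) : ℝ := max 0 (min 1 (2 - dist s o / ρ))

theorem gr_nonneg (o : M) (ρ : ℝ) (s : M) : 0 ≤ gr o ρ s := le_max_left _ _
theorem gr_le_one (o : M) (ρ : ℝ) (s : M) : gr o ρ s ≤ 1 := max_le zero_le_one (min_le_left _ _)

theorem gr_eq_one {o : M} {ρ : ℝ} (hρ : 0 < ρ) {s : M} (h : dist s o ≤ ρ) : gr o ρ s = 1 := by
  have : dist s o / ρ ≤ 1 := by rw [div_le_one hρ]; exact h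
  rw [gr, min_eq_left (by linarith)]; exact max_eq_right zero_le_one

theorem gr_eq_zero {o : M} {ρ : ℝ} (hρ : 0 < ρ) {s : M} (h : 2 * ρ ≤ dist s o) : gr o ρ s = 0 := by
  have : 2 ≤ dist s o / ρ := by rw [le_div_iff₀ hρ]; exact h
  rw [gr]
  exact max_eq_left ((min_le_right _ _).trans (by linarith))

theorem gr_lip {o : M} {ρ : ℝ} (hρ : 0 < ρ) (s t : M) : |gr o ρ s - gr o ρ t| ≤ dist s t / ρ := by
  unfold gr
  refine (abs_max_sub_max_le_max _ _ _ _).trans ?_
  rw [sub_self, abs_zero]
  refine max_le (by positivity) ?_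
  refine (abs_min_sub_min_le_max _ _ _ _).trans ?_
  rw [sub_self, abs_zero]
  refine max_le (by positivity) ?_
  have h1 : 2 - dist s o / ρ - (2 - dist t o / ρ) = (dist t o - dist s o) / ρ := by ring
  rw [h1, abs_div, abs_of_pos hρ]
  refine div_le_div_of_nonneg_right ?_ hρ.le
  rw [dist_comm s t]
  exact abs_dist_sub_le t s o

theorem gr_lip' {o : M} {ρ : ℝ} (hρ : 0 < ρ) (s t : M) :
    |gr o ρ s - gr o ρ t| * min (dist s o) (dist t o) ≤ 2 * dist s t := by
  by_cases h : 2 * ρ ≤ min (dist s o) (dist t o)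
  · rw [gr_eq_zero hρ (h.trans (min_le_left _ _)), gr_eq_zero hρ (h.trans (min_le_right _ _)),
      sub_self, abs_zero, zero_mul]
    positivity
  · rw [not_le] at h
    have h1 := gr_lip hρ s t (o := o)
    calc |gr o ρ s - gr o ρ t| * min (dist s o) (dist t o) ≤ (dist s t / ρ) * (2 * ρ) :=
          mul_le_mul h1 h.le (le_min dist_nonneg dist_nonneg) (by positivity)
      _ = 2 * dist s t := by field_simp

variable {p : ℝ}

/-- Detection D0: radial tightness -/
theorem radial (hp : 0 < p) (hp1 : p ≤ 1) (o : M) {x : ℕ → M →₀ ℝ}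
    (hLP : ¬ Det (nn p (ωf p) o) p x) {c : ℝ} (hc : 0 < c) :
    ∃ ρ : ℝ, 0 < ρ ∧ ∃ n0, ∀ n, n0 ≤ n → nn p (ωf p) o (x n - mulop (gr o ρ) (x n)) < c := by
  by_contra hcon
  push Not at hcon
  apply hLP
  have step : ∀ σ : ℕ × ℝ, ∃ τ : ℕ × ℝ × ℝ, σ.1 < τ.1 ∧ τ.2.1 = 2 * max σ.2 1 ∧ τ.2.1 ≤ τ.2.2 ∧
      (∀ s ∈ (x τ.1).support, dist s o ≤ τ.2.2) ∧
      c ≤ nn p (ωf p) o (x τ.1 - mulop (gr o τ.2.1) (x τ.1)) := by
    rintro ⟨n, b⟩
    have ha : 0 < 2 * max b 1 := by have := le_max_right b 1; linarith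
    obtain ⟨n', hn', h1⟩ := hcon (2 * max b 1) ha (n+1)
    obtain ⟨K, hK⟩ : ∃ K, ∀ s ∈ (x n').support, dist s o ≤ K := by
      obtain ⟨K, hK⟩ := ((x n').support.image (fun s => dist s o)).bddAbove
      exact ⟨K, fun s hs => hK (Finset.mem_coe.mpr (Finset.mem_image_of_mem _ hs))⟩
    refine ⟨(n', 2 * max b 1, max K (2 * max b 1)), ?_, rfl, le_max_right _ _, ?_, h1⟩
    · simp only; omega
    · intro s hs; exact (hK s hs).trans (le_max_left _ _)
  choose G hG using step
  set seq : ℕ → ℕ × ℝ × ℝ := fun k => Nat.rec (G (0, 1)) (fun _ τ => G (τ.1, τ.2.2)) k with hseq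
  have hs0 : seq 0 = G (0, 1) := rfl
  have hs1 : ∀ k, seq (k+1) = G ((seq k).1, (seq k).2.2) := fun k => rfl
  have hall : ∀ k, (2 ≤ (seq k).2.1) ∧ ((seq k).2.1 ≤ (seq k).2.2) ∧
      (∀ s ∈ (x (seq k).1).support, dist s o ≤ (seq k).2.2) ∧
      c ≤ nn p (ωf p) o (x (seq k).1 - mulop (gr o (seq k).2.1) (x (seq k).1)) := by
    intro k
    cases k with
    | zero =>
      rw [hs0]
      obtain ⟨_, h2, h3, h4, h5⟩ := hG (0, 1)
      refine ⟨?_, h3, h4, h5⟩
      rw [h2]; simp
    | succ k =>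
      rw [hs1]
      obtain ⟨_, h2, h3, h4, h5⟩ := hG ((seq k).1, (seq k).2.2)
      refine ⟨?_, h3, h4, h5⟩
      rw [h2]
      have := le_max_right (seq k).2.2 1
      simp only; linarith
  have hstep : ∀ k, 2 * (seq k).2.2 ≤ (seq (k+1)).2.1 := by
    intro k
    rw [hs1]
    obtain ⟨_, h2, _⟩ := hG ((seq k).1, (seq k).2.2)
    rw [h2]
    have := le_max_left (seq k).2.2 1
    simp only; linarith
  have hν : StrictMono (fun k => (seq k).1) := by
    apply strictMono_nat_of_lt_succ
    intro k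
    rw [hs1]
    exact (hG ((seq k).1, (seq k).2.2)).1
  have hmono : ∀ k l, k < l → 2 * (seq k).2.2 ≤ (seq l).2.1 := by
    intro k l hkl
    induction l, hkl using Nat.le_induction with
    | base => exact hstep k
    | succ l _ ih =>
      have h1 := hstep l
      have h2 := (hall l).2.1
      have h3 := (hall l).1
      linarith
  set ψ : ℕ → M → ℝ := fun k s => gr o (seq k).2.2 s - gr o (seq k).2.1 s with hψ
  have hapos : ∀ k, 0 < (seq k).2.1 := fun k => by have := (hall k).1; linarith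
  have hbpos : ∀ k, 0 < (seq k).2.2 := fun k => (hapos k).trans_le (hall k).2.1
  have hsupp : ∀ k s, ψ k s ≠ 0 → (seq k).2.1 < dist s o ∧ dist s o < 2 * (seq k).2.2 := by
    intro k s hne
    constructor
    · by_contra hcon
      rw [not_lt] at hcon
      apply hne
      simp only [hψ]
      rw [gr_eq_one (hbpos k) (hcon.trans (hall k).2.1), gr_eq_one (hapos k) hcon, sub_self]
    · by_contra hcon
      rw [not_lt] at hcon
      apply hne
      simp only [hψ]
      have := (hall k).2.1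
      rw [gr_eq_zero (hbpos k) hcon, gr_eq_zero (hapos k) (by linarith), sub_self]
  refine ⟨fun k => (seq k).1, fun k v => nn p (ωf p) o (mulop (ψ k) v), 2 * (1 + (4:ℝ) ^ p), c, hν,
    (fun k => (isPF_f hp hp1 o).comp _), by positivity, hc, ?_, ?_⟩
  · intro v F
    apply mul_family hp hp1 o ψ _ (by norm_num) _ _ v F
    · intro k s
      simp only [hψ]
      rw [abs_le]
      have h1 := gr_nonneg o (seq k).2.2 s
      have h2 := gr_le_one o (seq k).2.2 s
      have h3 := gr_nonneg o (seq k).2.1 s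
      have h4 := gr_le_one o (seq k).2.1 s
      constructor <;> linarith
    · intro k s t
      have h1 := gr_lip' (hbpos k) s t (o := o)
      have h2 := gr_lip' (hapos k) s t (o := o)
      have h3 : |ψ k s - ψ k t| ≤ |gr o (seq k).2.2 s - gr o (seq k).2.2 t| +
          |gr o (seq k).2.1 s - gr o (seq k).2.1 t| := by
        have : ψ k s - ψ k t = (gr o (seq k).2.2 s - gr o (seq k).2.2 t) -
            (gr o (seq k).2.1 s - gr o (seq k).2.1 t) := by simp only [hψ]; ring
        rw [this]; exact abs_sub _ _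
      have h4 : 0 ≤ min (dist s o) (dist t o) := le_min dist_nonneg dist_nonneg
      have h5 := mul_le_mul_of_nonneg_right h3 h4
      rw [add_mul] at h5
      linarith
    · intro s k l hk hl
      by_contra hne
      obtain ⟨h1, h2⟩ := hsupp k s hk
      obtain ⟨h3, h4⟩ := hsupp l s hl
      rcases lt_or_gt_of_ne hne with h | h
      · have := hmono k l h; linarith
      · have := hmono l k h; linarith
  · intro k
    beta_reduce
    have h1 : mulop (ψ k) (x (seq k).1) = x (seq k).1 - mulop (gr o (seq k).2.1) (x (seq k).1) := by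
      ext s
      rw [Finsupp.sub_apply, mulop_apply, mulop_apply]
      by_cases hs : s ∈ (x (seq k).1).support
      · simp only [hψ]
        rw [gr_eq_one (hbpos k) ((hall k).2.2.1 s hs)]; ring
      · rw [Finsupp.notMem_support_iff] at hs
        rw [hs]; ring
    rw [h1]
    exact (hall k).2.2.2

/-- Detection II: location -/
theorem location (hp : 0 < p) (hp1 : p ≤ 1) (o : M) {x : ℕ → M →₀ ℝ}
    (hLP : ¬ Det (nn p (ωf p) o) p x) {ρ : ℝ} (hρ : 0 < ρ)
    {R : ℝ} (hR : 0 < R) {c : ℝ} (hc : 0 < c) :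
    ∃ E : Finset M, o ∈ E ∧ ∃ n0, ∀ n, n0 ≤ n → ∃ z : M →₀ ℝ,
      (∀ s ∈ z.support, ∃ u ∈ E, dist s u ≤ R) ∧
      nn p (ωf p) o (mulop (gr o ρ) (x n) - z) < c := by
  by_contra hcon
  push Not at hcon
  apply hLP
  set y : ℕ → M →₀ ℝ := fun n => mulop (gr o ρ) (x n) with hy
  have step : ∀ σ : ℕ × Finset M, ∃ n' : ℕ, σ.1 < n' ∧ ∀ z : M →₀ ℝ,
      (∀ s ∈ z.support, ∃ u ∈ insert o σ.2, dist s u ≤ R) → c ≤ nn p (ωf p) o (y n' - z) := by
    rintro ⟨n, E⟩
    obtain ⟨n', hn', h1⟩ := hcon (insert o E) (Finset.mem_insert_self _ _) (n+1)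
    exact ⟨n', by simp only; omega, h1⟩
  choose G hG using step
  set seq : ℕ → ℕ × Finset M := fun k => Nat.rec (0, ∅)
    (fun _ σ => (G σ, insert o σ.2 ∪ (y (G σ)).support)) k with hseq
  have hs1 : ∀ k, seq (k+1) = (G (seq k), insert o (seq k).2 ∪ (y (G (seq k))).support) := fun k => rfl
  set ν : ℕ → ℕ := fun k => G (seq k) with hνdef
  set E : ℕ → Finset M := fun k => insert o (seq k).2 with hE
  have hν : StrictMono ν := by
    apply strictMono_nat_of_lt_succ
    intro k
    have := (hG (seq (k+1))).1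
    rw [hs1] at this
    simp only [hνdef]
    rw [hs1]
    exact this
  have hlow : ∀ k (z : M →₀ ℝ), (∀ s ∈ z.support, ∃ u ∈ E k, dist s u ≤ R) →
      c ≤ nn p (ωf p) o (y (ν k) - z) := fun k => (hG (seq k)).2
  have hEstep : ∀ k, E k ⊆ E (k+1) ∧ (y (ν k)).support ⊆ E (k+1) := by
    intro k
    constructor
    · intro a ha
      simp only [hE]
      rw [hs1]
      exact Finset.mem_insert_of_mem (Finset.mem_union_left _ ha)
    · intro a ha
      simp only [hE]
      rw [hs1]
      exact Finset.mem_insert_of_mem (Finset.mem_union_right _ ha)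
  have hEmono : ∀ k l, k ≤ l → E k ⊆ E l := by
    intro k l hkl
    induction l, hkl using Nat.le_induction with
    | base => exact subset_rfl
    | succ l _ ih => exact ih.trans (hEstep l).1
  set Nk : ℕ → Finset M := fun k => (y (ν k)).support.filter (fun s => ∀ u ∈ E k, R < dist s u) with hNk
  have hNne : ∀ k, (Nk k).Nonempty := by
    intro k
    by_contra hemp
    rw [Finset.not_nonempty_iff_eq_empty] at hemp
    have h1 := hlow k (y (ν k)) (fun s hs => by
      by_contra hcon2
      push Not at hcon2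
      have : s ∈ Nk k := by
        rw [hNk]; exact Finset.mem_filter.mpr ⟨hs, hcon2⟩
      rw [hemp] at this
      exact absurd this (Finset.notMem_empty s))
    rw [sub_self, (isPF_f hp hp1 o).zero hp] at h1
    linarith
  set χ : ℕ → M → ℝ := fun k s => max 0 (1 - 3 * Metric.infDist s (Nk k : Set M) / R) with hχ
  have hχ0 : ∀ k s, 0 ≤ χ k s := fun k s => le_max_left _ _
  have hχ1 : ∀ k s, χ k s ≤ 1 := fun k s => by
    simp only [hχ]
    refine max_le zero_le_one ?_
    have : 0 ≤ 3 * Metric.infDist s (Nk k : Set M) / R := by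
      have := Metric.infDist_nonneg (x := s) (s := (Nk k : Set M))
      positivity
    linarith
  have hχlip : ∀ k s t, |χ k s - χ k t| ≤ 3 / R * dist s t := by
    intro k s t
    simp only [hχ]
    refine (abs_max_sub_max_le_max _ _ _ _).trans ?_
    rw [sub_self, abs_zero]
    refine max_le (by positivity) ?_
    have h1 : 1 - 3 * Metric.infDist s (Nk k : Set M) / R - (1 - 3 * Metric.infDist t (Nk k : Set M) / R)
        = 3 / R * (Metric.infDist t (Nk k : Set M) - Metric.infDist s (Nk k : Set M)) := by ring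
    rw [h1, abs_mul, abs_of_pos (by positivity : 0 < 3 / R)]
    refine mul_le_mul_of_nonneg_left ?_ (by positivity)
    rw [abs_le]
    have h2 := Metric.infDist_le_infDist_add_dist (s := (Nk k : Set M)) (x := s) (y := t)
    have h3 := Metric.infDist_le_infDist_add_dist (s := (Nk k : Set M)) (x := t) (y := s)
    rw [dist_comm t s] at h3
    constructor <;> linarith
  have hχsupp : ∀ k s, χ k s ≠ 0 → ∃ u ∈ Nk k, dist s u < R / 3 := by
    intro k s hne
    have h1 : Metric.infDist s (Nk k : Set M) < R / 3 := by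
      by_contra hcon2
      rw [not_lt] at hcon2
      apply hne
      simp only [hχ]
      apply max_eq_left
      have : 1 ≤ 3 * Metric.infDist s (Nk k : Set M) / R := by
        rw [le_div_iff₀ hR]; linarith
      linarith
    obtain ⟨u, hu, h2⟩ := (Metric.infDist_lt_iff (Finset.coe_nonempty.mpr (hNne k))).mp h1
    exact ⟨u, Finset.mem_coe.mp hu, h2⟩
  have hχone : ∀ k, ∀ s ∈ Nk k, χ k s = 1 := by
    intro k s hs
    simp only [hχ]
    rw [Metric.infDist_zero_of_mem (Finset.mem_coe.mpr hs)]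
    simp
  have hfar : ∀ k l, k < l → ∀ u ∈ Nk k, ∀ u' ∈ Nk l, R < dist u' u := by
    intro k l hkl u hu u' hu'
    rw [hNk] at hu hu'
    simp only [Finset.mem_filter] at hu hu'
    exact hu'.2 u (hEmono (k+1) l hkl ((hEstep k).2 hu.1))
  set ψ : ℕ → M → ℝ := fun k s => χ k s * gr o ρ s with hψ
  set L : ℝ := 2 * ρ * (3 / R + 1 / ρ) with hL
  have hL0 : 0 ≤ L := by positivity
  refine ⟨ν, fun k v => nn p (ωf p) o (mulop (ψ k) v), 2 * (1 + L ^ p), c, hν,
    (fun k => (isPF_f hp hp1 o).comp _), by positivity, hc, ?_, ?_⟩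
  · intro v F
    apply mul_family hp hp1 o ψ _ hL0 _ _ v F
    · intro k s
      simp only [hψ]
      rw [abs_of_nonneg (mul_nonneg (hχ0 k s) (gr_nonneg o ρ s))]
      have h1 := hχ0 k s
      have h2 := hχ1 k s
      have h3 := gr_nonneg o ρ s
      have h4 := gr_le_one o ρ s
      nlinarith
    · intro k s t
      by_cases h : 2 * ρ ≤ min (dist s o) (dist t o)
      · simp only [hψ]
        rw [gr_eq_zero hρ (h.trans (min_le_left _ _)), gr_eq_zero hρ (h.trans (min_le_right _ _)),
          mul_zero, mul_zero, sub_self, abs_zero, zero_mul]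
        positivity
      · rw [not_le] at h
        have h1 : |ψ k s - ψ k t| ≤ (3 / R + 1 / ρ) * dist s t := by
          have h2 : ψ k s - ψ k t = (χ k s - χ k t) * gr o ρ s + χ k t * (gr o ρ s - gr o ρ t) := by
            simp only [hψ]; ring
          rw [h2]
          refine (abs_add_le _ _).trans ?_
          rw [abs_mul, abs_mul, abs_of_nonneg (gr_nonneg o ρ s), abs_of_nonneg (hχ0 k t)]
          have h3 := hχlip k s t
          have h4 := gr_lip hρ s t (o := o)
          have h5 := gr_le_one o ρ s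
          have h6 := hχ1 k t
          have h7 := gr_nonneg o ρ s
          have h8 := hχ0 k t
          have h9 : |χ k s - χ k t| * gr o ρ s ≤ 3 / R * dist s t := by
            have := abs_nonneg (χ k s - χ k t)
            nlinarith
          have h10 : χ k t * |gr o ρ s - gr o ρ t| ≤ dist s t / ρ := by
            have := abs_nonneg (gr o ρ s - gr o ρ t)
            nlinarith
          calc |χ k s - χ k t| * gr o ρ s + χ k t * |gr o ρ s - gr o ρ t| ≤ 3 / R * dist s t + dist s t / ρ :=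
                add_le_add h9 h10
            _ = (3 / R + 1 / ρ) * dist s t := by ring
        calc |ψ k s - ψ k t| * min (dist s o) (dist t o) ≤ ((3 / R + 1 / ρ) * dist s t) * (2 * ρ) :=
              mul_le_mul h1 h.le (le_min dist_nonneg dist_nonneg) (by positivity)
          _ = L * dist s t := by rw [hL]; ring
    · intro s k l hk hl
      by_contra hne
      have hk' : χ k s ≠ 0 := fun h => hk (by simp only [hψ, h, zero_mul])
      have hl' : χ l s ≠ 0 := fun h => hl (by simp only [hψ, h, zero_mul])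
      obtain ⟨u, hu, h1⟩ := hχsupp k s hk'
      obtain ⟨u', hu', h2⟩ := hχsupp l s hl'
      have h3 : dist u u' ≤ dist s u + dist s u' := dist_triangle_left u u' s
      rcases lt_or_gt_of_ne hne with h | h
      · have := hfar k l h u hu u' hu'
        rw [dist_comm] at this
        linarith
      · have := hfar l k h u' hu' u hu
        linarith
  · intro k
    beta_reduce
    have h1 : mulop (ψ k) (x (ν k)) = mulop (χ k) (y (ν k)) := by
      simp only [hy, hψ]; rw [mulop_mulop]
    have h2 := hlow k (y (ν k) - mulop (χ k) (y (ν k))) (fun s hs => by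
      rw [Finsupp.mem_support_iff, Finsupp.sub_apply, mulop_apply (χ k)] at hs
      by_contra hcon2
      push Not at hcon2
      have h3 : s ∈ (y (ν k)).support := by
        rw [Finsupp.mem_support_iff]
        intro h0
        apply hs; rw [h0]; ring
      have h4 : s ∈ Nk k := by
        rw [hNk]; exact Finset.mem_filter.mpr ⟨h3, hcon2⟩
      apply hs
      rw [hχone k s h4]; ring)
    rw [sub_sub_cancel] at h2
    rw [h1]; exact h2

end

end Pool.Agent.H262.FP
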