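import Mathlib
import Pool.Agent.H262.FP6

set_option autoImplicit false

/-!
Window detection, total boundedness, and the main theorem on finitely supported elements.
-/

namespace Pool.Agent.H262.FP

open Finset

noncomputable section

open scoped Classical

variable {M : Type*} [MetricSpace M] {p : ℝ}

theorem nn_r_le_f {r : ℝ} (hr : 0 ≤ r) (o : M) (v : M →₀ ℝ) :
    nn p (ωr p r) o v ≤ nn p (ωf p) o v :=
  nn_mono (ωr_nonneg hr) (fun e => ωr_le_ωf p r e) o v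

theorem five_rpow_le (hp1 : p ≤ 1) : (5:ℝ) ^ p ≤ 5 := by
  calc (5:ℝ) ^ p ≤ 5 ^ (1:ℝ) := Real.rpow_le_rpow_of_exponent_le (by norm_num) hp1
    _ = 5 := Real.rpow_one _

/-- C1 for an arbitrary finitely supported element -/
theorem exists_window (hp : 0 < p) (hp1 : p ≤ 1) (o : M) (x : M →₀ ℝ) {r : ℝ} (hr : 0 < r) {c : ℝ}
    (hc : c ≤ nn p (ωr p r) o x) : ∃ ε : ℝ, 0 < ε ∧ ε ≤ r ∧ c / 5 ≤ nn p (ωw p ε r) o x := by
  set S : Finset M := insert o x.support with hS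
  obtain ⟨η, hη, hsep⟩ : ∃ η > 0, ∀ s ∈ S, ∀ s' ∈ S, s ≠ s' → η ≤ dist s s' := by
    by_cases hne : ((S ×ˢ S).filter (fun q => q.1 ≠ q.2)).Nonempty
    · obtain ⟨q, hq, hmin⟩ := Finset.exists_min_image _ (fun q : M × M => dist q.1 q.2) hne
      rw [Finset.mem_filter] at hq
      refine ⟨dist q.1 q.2, dist_pos.mpr hq.2, fun s hs s' hs' hss => ?_⟩
      exact hmin (s, s') (Finset.mem_filter.mpr ⟨Finset.mem_product.mpr ⟨hs, hs'⟩, hss⟩)
    · refine ⟨1, one_pos, fun s hs s' hs' hss => ?_⟩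
      exfalso
      apply hne
      exact ⟨(s, s'), Finset.mem_filter.mpr ⟨Finset.mem_product.mpr ⟨hs, hs'⟩, hss⟩⟩
  refine ⟨min r (η / 4), lt_min hr (by positivity), min_le_left _ _, ?_⟩
  have hε : 0 < min r (η / 4) := lt_min hr (by positivity)
  have h1 := c1 hp hp1 hε (min_le_left _ _) (o := o) (x := x) (S : Set M)
    (Finset.mem_coe.mpr (Finset.mem_insert_self _ _))
    (fun s hs => Finset.mem_coe.mpr (Finset.mem_insert_of_mem hs))
    (fun s hs s' hs' hd => by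
      by_contra hne
      have h2 := hsep s (Finset.mem_coe.mp hs) s' (Finset.mem_coe.mp hs') hne
      have h3 : min r (η / 4) ≤ η / 4 := min_le_right _ _
      linarith)
  have h2 : 0 ≤ nn p (ωw p (min r (η / 4)) r) o x := nn_nonneg (ωw_nonneg hε.le hr.le) o x
  have h3 := five_rpow_le hp1
  rw [div_le_iff₀ (by norm_num)]
  nlinarith

/-- Detection I: scales -/
theorem scales (hp : 0 < p) (hp1 : p < 1) (o : M) {x : ℕ → M →₀ ℝ}
    (hLP : ¬ Det (nn p (ωf p) o) p x) {c : ℝ} (hc : 0 < c) :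
    ∃ r : ℝ, 0 < r ∧ ∃ n0, ∀ n, n0 ≤ n → nn p (ωr p r) o (x n) < c := by
  by_contra hcon
  push Not at hcon
  apply hLP
  have step : ∀ (k : ℕ) (σ : ℕ × {α : ℝ // 0 < α}), ∃ (τ : ℕ × {α : ℝ // 0 < α}) (ε r : ℝ),
      σ.1 < τ.1 ∧ 0 < ε ∧ 0 < r ∧ c / 5 ≤ nn p (ωw p ε r) o (x τ.1) ∧
      (∀ d : ℝ, (σ.2 : ℝ) ≤ d → r ^ p ≤ (1/2) ^ k * d ^ p) ∧
      (∀ d : ℝ, 0 ≤ d → d ≤ (τ.2 : ℝ) → d * ε ^ (p - 1) ≤ (1/2) ^ k * d ^ p) ∧
      (τ.2 : ℝ) ≤ σ.2 := by
    rintro k ⟨n, β, hβ⟩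
    set κ : ℝ := (1/2 : ℝ) ^ k with hκ
    have hκ0 : 0 < κ := by positivity
    have hr : 0 < β * κ ^ (1 / p) := mul_pos hβ (Real.rpow_pos_of_pos hκ0 _)
    obtain ⟨n', hn', h1⟩ := hcon (β * κ ^ (1 / p)) hr (n+1)
    obtain ⟨ε, hε, hεr, h2⟩ := exists_window hp hp1.le o (x n') hr h1
    have hα : 0 < min β (ε * κ ^ (1 / (1 - p))) := lt_min hβ (mul_pos hε (Real.rpow_pos_of_pos hκ0 _))
    refine ⟨(n', ⟨min β (ε * κ ^ (1 / (1 - p))), hα⟩), ε, β * κ ^ (1 / p), by simp only; omega, hε,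
      hr, h2, ?_, ?_, min_le_left _ _⟩
    · intro d hd
      rw [Real.mul_rpow hβ.le (Real.rpow_nonneg hκ0.le _), ← Real.rpow_mul hκ0.le,
        one_div_mul_cancel hp.ne', Real.rpow_one, mul_comm]
      exact mul_le_mul_of_nonneg_left (Real.rpow_le_rpow hβ.le hd hp.le) hκ0.le
    · intro d hd0 hd
      rcases eq_or_lt_of_le hd0 with h0 | h0
      · rw [← h0, zero_mul, Real.zero_rpow hp.ne', mul_zero]
      · have h3 : d ≤ ε * κ ^ (1 / (1 - p)) := hd.trans (min_le_right _ _)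
        have h4 : d ^ (1 - p) ≤ ε ^ (1 - p) * κ := by
          have h5 := Real.rpow_le_rpow h0.le h3 (by linarith : (0:ℝ) ≤ 1 - p)
          rw [Real.mul_rpow hε.le (Real.rpow_nonneg hκ0.le _), ← Real.rpow_mul hκ0.le,
            one_div_mul_cancel (by linarith : (1 - p) ≠ 0), Real.rpow_one] at h5
          exact h5
        have h6 : d = d ^ p * d ^ (1 - p) := by
          rw [← Real.rpow_add h0]; simp
        have h7 : ε ^ (1 - p) * ε ^ (p - 1) = 1 := by
          rw [← Real.rpow_add hε]; simp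
        have h8 : 0 ≤ ε ^ (p - 1) := Real.rpow_nonneg hε.le _
        have h9 : 0 ≤ d ^ p := Real.rpow_nonneg hd0 _
        calc d * ε ^ (p - 1) = d ^ p * (d ^ (1 - p) * ε ^ (p - 1)) := by
              conv_lhs => rw [h6]
              ring
          _ ≤ d ^ p * ((ε ^ (1 - p) * κ) * ε ^ (p - 1)) :=
              mul_le_mul_of_nonneg_left (mul_le_mul_of_nonneg_right h4 h8) h9
          _ = κ * d ^ p * (ε ^ (1 - p) * ε ^ (p - 1)) := by ring
          _ = κ * d ^ p := by rw [h7, mul_one]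
  choose G Eps Rr hG using step
  set seq : ℕ → ℕ × {α : ℝ // 0 < α} := fun k => Nat.rec (0, ⟨1, one_pos⟩) (fun j σ => G j σ) k with hseq
  have hs1 : ∀ k, seq (k+1) = G k (seq k) := fun k => rfl
  set ν : ℕ → ℕ := fun k => (seq (k+1)).1 with hνdef
  set ε : ℕ → ℝ := fun k => Eps k (seq k) with hε
  set r : ℕ → ℝ := fun k => Rr k (seq k) with hr
  have hall : ∀ k, (seq k).1 < (seq (k+1)).1 ∧ 0 < ε k ∧ 0 < r k ∧ c / 5 ≤ nn p (ωw p (ε k) (r k)) o (x (ν k)) ∧
      (∀ d : ℝ, ((seq k).2 : ℝ) ≤ d → (r k) ^ p ≤ (1/2) ^ k * d ^ p) ∧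
      (∀ d : ℝ, 0 ≤ d → d ≤ ((seq (k+1)).2 : ℝ) → d * (ε k) ^ (p - 1) ≤ (1/2) ^ k * d ^ p) ∧
      ((seq (k+1)).2 : ℝ) ≤ (seq k).2 := by
    intro k
    exact hG k (seq k)
  have hν : StrictMono ν := strictMono_nat_of_lt_succ (fun k => (hall (k+1)).1)
  have hanti : Antitone (fun k => ((seq k).2 : ℝ)) := antitone_nat_of_succ_le (fun k => (hall k).2.2.2.2.2.2)
  refine ⟨ν, fun k v => nn p (ωw p (ε k) (r k)) o v, 3, c / 5, hν,
    (fun k => isPF_nn hp hp1.le (ωw_nonneg (hall k).2.1.le (hall k).2.2.1.le) o),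
    by norm_num, by positivity, ?_, (fun k => (hall k).2.2.2.1)⟩
  intro v F
  refine le_nn hp (ωf_nonneg p) (IsPF.finset_sum F (fun k v => nn p (ωw p (ε k) (r k)) o v)
    (fun k _ => isPF_nn hp hp1.le (ωw_nonneg (hall k).2.1.le (hall k).2.2.1.le) o)) ?_ (by norm_num) ?_ v
  · apply Finset.sum_eq_zero
    intro k _
    exact nn_base (ωw_nonneg (hall k).2.1.le (hall k).2.2.1.le) o
  · intro e
    have hd0 : 0 ≤ dist e.1 e.2 := dist_nonneg
    have h1 : ∀ k ∈ F, nn p (ωw p (ε k) (r k)) o (ed e) ≤ (1/2) ^ k * ωf p e +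
        (if ((seq (k+1)).2 : ℝ) < dist e.1 e.2 ∧ dist e.1 e.2 < ((seq k).2 : ℝ) then ωf p e else 0) := by
      intro k _
      refine (nn_ed_le hp (ωw_nonneg (hall k).2.1.le (hall k).2.2.1.le) o e).trans ?_
      have h2 : 0 ≤ (1/2 : ℝ) ^ k * ωf p e := mul_nonneg (by positivity) (ωf_nonneg p e)
      split_ifs with hcase
      · have : ωw p (ε k) (r k) e ≤ ωf p e := (ωw_le_ωr _ _ _ _).trans (ωr_le_ωf _ _ _)
        linarith
      · rw [add_zero]
        by_cases h3 : ((seq (k+1)).2 : ℝ) < dist e.1 e.2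
        · have h4 : ((seq k).2 : ℝ) ≤ dist e.1 e.2 := by
            by_contra h5
            exact hcase ⟨h3, not_le.mp h5⟩
          exact (ωw_le_ωr _ _ _ _).trans ((min_le_right _ _).trans ((hall k).2.2.2.2.1 _ h4))
        · rw [not_lt] at h3
          exact (min_le_left _ _).trans ((hall k).2.2.2.2.2.1 _ hd0 h3)
    refine (Finset.sum_le_sum h1).trans ?_
    rw [Finset.sum_add_distrib, ← Finset.sum_mul, ← Finset.sum_filter, Finset.sum_const, nsmul_eq_mul]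
    have h2 : ∑ k ∈ F, (1/2 : ℝ) ^ k ≤ 2 := by
      have h3 : Summable (fun k : ℕ => (1/2 : ℝ) ^ k) := summable_geometric_two
      have h4 := h3.sum_le_tsum F (fun k _ => by positivity)
      rwa [tsum_geometric_two] at h4
    have h3 : (F.filter (fun k => ((seq (k+1)).2 : ℝ) < dist e.1 e.2 ∧ dist e.1 e.2 < ((seq k).2 : ℝ))).card ≤ 1 := by
      rw [Finset.card_le_one]
      intro a ha b hb
      rw [Finset.mem_filter] at ha hb
      by_contra hne
      rcases lt_or_gt_of_ne hne with h | h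
      · have h4 := hanti (show a + 1 ≤ b from h)
        simp only at h4
        have := ha.2.1; have := hb.2.2
        linarith
      · have h4 := hanti (show b + 1 ≤ a from h)
        simp only at h4
        have := hb.2.1; have := ha.2.2
        linarith
    have h4 : ((F.filter (fun k => ((seq (k+1)).2 : ℝ) < dist e.1 e.2 ∧ dist e.1 e.2 < ((seq k).2 : ℝ))).card : ℝ) ≤ 1 := by
      exact_mod_cast h3
    have h5 := ωf_nonneg p e
    nlinarith

theorem nn_le_supported (hp : 0 < p) (hp1 : p ≤ 1) (o : M) (E : Finset M) {w : M →₀ ℝ}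
    (hw : w.support ⊆ E) : nn p (ωf p) o w ≤ ∑ u ∈ E, |w u| ^ p * dist u o ^ p := by
  have h1 : w = ∑ u ∈ E, w u • dl u := by
    conv_lhs => rw [← Finsupp.sum_single w, Finsupp.sum]
    rw [Finset.sum_subset hw]
    · exact Finset.sum_congr rfl (fun u _ => by rw [Finsupp.smul_single, smul_eq_mul, mul_one])
    · intro u _ hu
      rw [Finsupp.notMem_support_iff] at hu
      rw [hu]; simp
  conv_lhs => rw [h1]
  refine ((isPF_f hp hp1 o).sum_le hp _ _).trans ?_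
  refine Finset.sum_le_sum (fun u _ => ?_)
  rw [(isPF_f hp hp1 o).smul]
  exact mul_le_mul_of_nonneg_left (nn_dl_le hp hp1 o u) (abs_rpow_nonneg _)

/-- pigeonhole on a finite set -/
theorem pigeon (hp : 0 < p) (hp1 : p ≤ 1) (o : M) (E : Finset M) {w : ℕ → M →₀ ℝ}
    (hw : ∀ n, (w n).support ⊆ E) {B : ℝ} (hB : ∀ n, mass p E (w n) ≤ B) {c : ℝ} (hc : 0 < c) :
    ∃ n m, n < m ∧ nn p (ωf p) o (w n - w m) < c := by
  set a : ℕ → (E → ℝ) := fun n u => w n u.1 with ha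
  have hB0 : 0 ≤ B := (Finset.sum_nonneg (fun _ _ => abs_rpow_nonneg _)).trans (hB 0)
  have hbd : ∀ n, a n ∈ Metric.closedBall (0 : E → ℝ) (B ^ (1 / p)) := by
    intro n
    rw [mem_closedBall_zero_iff, pi_norm_le_iff_of_nonneg (Real.rpow_nonneg hB0 _)]
    intro u
    have h1 : |w n u.1| ^ p ≤ B := by
      refine le_trans ?_ (hB n)
      exact Finset.single_le_sum (f := fun u => |w n u| ^ p) (fun _ _ => abs_rpow_nonneg _) u.2
    rw [Real.norm_eq_abs]
    have h2 := Real.rpow_le_rpow (abs_rpow_nonneg _) h1 (by positivity : (0:ℝ) ≤ 1 / p)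
    rwa [← Real.rpow_mul (abs_nonneg _), mul_one_div_cancel hp.ne', Real.rpow_one] at h2
  obtain ⟨L, _, φ, hφ, hL⟩ := (isCompact_closedBall (0 : E → ℝ) (B ^ (1 / p))).tendsto_subseq hbd
  have hL' : Filter.Tendsto (fun k => a (φ (k+1))) Filter.atTop (nhds L) :=
    hL.comp (Filter.tendsto_add_atTop_nat 1)
  have hdiff : Filter.Tendsto (fun k => a (φ k) - a (φ (k+1))) Filter.atTop (nhds 0) := by
    have := Filter.Tendsto.sub hL hL'
    rwa [sub_self] at this
  set g : (E → ℝ) → ℝ := fun v => ∑ u : E, |v u| ^ p * dist u.1 o ^ p with hg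
  have hgc : Continuous g := by
    refine continuous_finsetSum _ (fun u _ => ?_)
    refine Continuous.mul ?_ continuous_const
    exact Continuous.rpow_const ((continuous_apply u).abs) (fun _ => Or.inr hp.le)
  have hg0 : g 0 = 0 := by
    simp only [hg]
    apply Finset.sum_eq_zero
    intro u _
    rw [Pi.zero_apply, abs_zero, Real.zero_rpow hp.ne', zero_mul]
  have hlim : Filter.Tendsto (fun k => g (a (φ k) - a (φ (k+1)))) Filter.atTop (nhds 0) := by
    have := (hgc.tendsto 0).comp hdiff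
    rwa [hg0] at this
  obtain ⟨k, hk⟩ := (hlim.eventually (gt_mem_nhds hc)).exists
  refine ⟨φ k, φ (k+1), hφ (Nat.lt_succ_self k), lt_of_le_of_lt ?_ hk⟩
  have hsub : (w (φ k) - w (φ (k+1))).support ⊆ E := by
    intro u hu
    by_contra hcon
    rw [Finsupp.mem_support_iff, Finsupp.sub_apply] at hu
    apply hu
    rw [Finsupp.notMem_support_iff.mp (fun h => hcon (hw _ h)),
      Finsupp.notMem_support_iff.mp (fun h => hcon (hw _ h)), sub_zero]
  refine (nn_le_supported hp hp1 o E hsub).trans (le_of_eq ?_)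
  simp only [hg]
  rw [← Finset.sum_coe_sort]
  rfl

/-- if nothing is detected, the sequence is close to a bounded subset of a finite-dimensional space -/
theorem approx (hp : 0 < p) (hp1 : p < 1) (o : M) {x : ℕ → M →₀ ℝ}
    (hDet : ¬ Det (nn p (ωf p) o) p x) {c : ℝ} (hc : 0 < c) :
    ∃ (E : Finset M) (B : ℝ) (n0 : ℕ), ∀ n, n0 ≤ n → ∃ w : M →₀ ℝ, w.support ⊆ E ∧ mass p E w ≤ B ∧
      nn p (ωf p) o (x n - w) ≤ 41 * c := by
  have hPF := isPF_f hp hp1.le o
  obtain ⟨r, hr, n1, h1⟩ := scales hp hp1 o hDet hc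
  obtain ⟨ρ, hρ, n2, h2⟩ := radial hp hp1.le o hDet hc
  obtain ⟨E, hoE, n3, h3⟩ := location hp hp1.le o hDet hρ hr hc
  refine ⟨E, 4 * (3 * c) / r ^ p, max (max n1 n2) n3, fun n hn => ?_⟩
  have hn1 : n1 ≤ n := by omega
  have hn2 : n2 ≤ n := by omega
  have hn3 : n3 ≤ n := by omega
  obtain ⟨z, hz1, hz2⟩ := h3 n hn3
  have h4 := h2 n hn2
  have h5 := h1 n hn1
  have hPFr := isPF_nn hp hp1.le (ωr_nonneg (p := p) (M := M) hr.le) o
  have h6 : nn p (ωr p r) o z < 3 * c := by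
    have h7 : z = x n - ((x n - mulop (gr o ρ) (x n)) + (mulop (gr o ρ) (x n) - z)) := by abel
    rw [h7]
    have h8 := hPFr.sub_le (x n) ((x n - mulop (gr o ρ) (x n)) + (mulop (gr o ρ) (x n) - z))
    have h9 := hPFr.add_le (x n - mulop (gr o ρ) (x n)) (mulop (gr o ρ) (x n) - z)
    have h10 := nn_r_le_f (p := p) hr.le o (x n - mulop (gr o ρ) (x n))
    have h11 := nn_r_le_f (p := p) hr.le o (mulop (gr o ρ) (x n) - z)
    linarith
  obtain ⟨w, hw1, hw2, hw3⟩ := c2 hp hp1.le hr le_rfl E hoE hz1 h6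
  refine ⟨w, hw1, hw2, ?_⟩
  have h7 : x n - w = (x n - mulop (gr o ρ) (x n)) + (mulop (gr o ρ) (x n) - z) + (z - w) := by abel
  rw [h7]
  have h8 := hPF.add_le ((x n - mulop (gr o ρ) (x n)) + (mulop (gr o ρ) (x n) - z)) (z - w)
  have h9 := hPF.add_le (x n - mulop (gr o ρ) (x n)) (mulop (gr o ρ) (x n) - z)
  linarith

/-- **Main theorem** on finitely supported elements: bounded uniformly separated sequences have a
subsequence with a lower `ℓ_p`-estimate. -/
theorem main_det (hp : 0 < p) (hp1 : p < 1) (o : M) {x : ℕ → M →₀ ℝ} {c0 : ℝ} (hc0 : 0 < c0) {K : ℕ}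
    (hsep : ∀ n m, K ≤ n → n < m → c0 ≤ nn p (ωf p) o (x n - x m)) :
    Det (nn p (ωf p) o) p x := by
  by_contra hDet
  have hPF := isPF_f hp hp1.le o
  set c : ℝ := c0 / 100 with hcdef
  have hc : 0 < c := by positivity
  obtain ⟨E, B, n1, h1⟩ := approx hp hp1 o hDet hc
  set n0 := max n1 K with hn0
  have key : ∀ n, ∃ w : M →₀ ℝ, w.support ⊆ E ∧ mass p E w ≤ B ∧
      nn p (ωf p) o (x (n0 + n) - w) ≤ 41 * c := fun n => h1 (n0 + n) (by omega)
  choose w hw1 hw2 hw3 using key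
  obtain ⟨n, m, hnm, h4⟩ := pigeon hp hp1.le o E hw1 hw2 hc
  have h5 := hsep (n0 + n) (n0 + m) (by omega) (by omega)
  have h6 : x (n0 + n) - x (n0 + m) = (x (n0 + n) - w n) - (x (n0 + m) - w m) + (w n - w m) := by abel
  rw [h6] at h5
  have h7 := hPF.add_le ((x (n0 + n) - w n) - (x (n0 + m) - w m)) (w n - w m)
  have h8 := hPF.sub_le (x (n0 + n) - w n) (x (n0 + m) - w m)
  have h9 := hw3 n
  have h10 := hw3 m
  have : c0 = 100 * c := by rw [hcdef]; ring
  linarith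

theorem main_fin (hp : 0 < p) (hp1 : p < 1) (o : M) {x : ℕ → M →₀ ℝ} {B : ℝ}
    (hB : ∀ n, nn p (ωf p) o (x n) ≤ B) {c0 : ℝ} (hc0 : 0 < c0) {K : ℕ}
    (hsep : ∀ n m, K ≤ n → n < m → c0 ≤ nn p (ωf p) o (x n - x m)) :
    LP (nn p (ωf p) o) p x :=
  (main_det hp hp1 o hc0 hsep).lp hp hB

end

end Pool.Agent.H262.FP
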