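import Mathlib

set_option autoImplicit false

/-!
# Lipschitz free `p`-spaces: definitions used in the statements

Scalars are `𝕜 = ℝ` or `ℂ` (`RCLike`).
-/

namespace Pool.Agent.H262.FreeP

/-- `(X, N)` is a `p`-Banach space over `𝕜`: `N` is a complete `p`-norm on `X`. -/
structure IsPBanach (𝕜 : Type) [RCLike 𝕜] (p : ℝ) (X : Type) [AddCommGroup X] [Module 𝕜 X]
    (N : X → ℝ) : Prop where
  nonneg : ∀ x, 0 ≤ N x
  eq_zero_iff : ∀ x, N x = 0 ↔ x = 0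
  smul : ∀ (c : 𝕜) (x : X), N (c • x) = ‖c‖ * N x
  add_le : ∀ x y, N (x + y) ^ p ≤ N x ^ p + N y ^ p
  complete : ∀ s : ℕ → X, (∀ ε > 0, ∃ K : ℕ, ∀ m ≥ K, ∀ n ≥ K, N (s m - s n) < ε) →
    ∃ z, Filter.Tendsto (fun n => N (s n - z)) Filter.atTop (nhds 0)

/-- `(F, N, δ)` is the Lipschitz free `p`-space `F_p(M)` over the metric space `M` with base point
`o`, over the scalar field `𝕜`: `(F, N)` is a `p`-Banach space, `δ : M → F` is an isometric map with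
`δ o = 0` whose range has dense linear span, and every Lipschitz map `f` from `M` to a `p`-Banach
space `X` with `f o = 0` factors as `f = T ∘ δ` for a unique bounded linear `T : F → X`, whose norm
is at most every Lipschitz constant `L ≥ 0` of `f` (so `‖T‖ = Lip f`, as `δ` is isometric). -/
structure IsFreePSpace (𝕜 : Type) [RCLike 𝕜] (p : ℝ) (M : Type) [MetricSpace M] (o : M)
    (F : Type) [AddCommGroup F] [Module 𝕜 F] (N : F → ℝ) (δ : M → F) : Prop where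
  pbanach : IsPBanach 𝕜 p F N
  base : δ o = 0
  isometric : ∀ s t, N (δ s - δ t) = dist s t
  dense : ∀ z, ∀ ε > 0, ∃ w ∈ Submodule.span 𝕜 (Set.range δ), N (z - w) < ε
  universal : ∀ (X : Type) [AddCommGroup X] [Module 𝕜 X] (NX : X → ℝ), IsPBanach 𝕜 p X NX →
    ∀ (f : M → X) (L : ℝ), 0 ≤ L → f o = 0 → (∀ s t, NX (f s - f t) ≤ L * dist s t) →
      ∃ T : F →ₗ[𝕜] X, (∀ s, T (δ s) = f s) ∧ (∀ z, NX (T z) ≤ L * N z) ∧
        ∀ T' : F →ₗ[𝕜] X, (∃ C, ∀ z, NX (T' z) ≤ C * N z) → (∀ s, T' (δ s) = f s) → T' = T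

/-- The sequence `x` is equivalent to the canonical basis of `ℓ_p`. -/
def EquivLp (𝕜 : Type) [RCLike 𝕜] (p : ℝ) {F : Type} [AddCommGroup F] [Module 𝕜 F]
    (N : F → ℝ) (x : ℕ → F) : Prop :=
  ∃ c C : ℝ, 0 < c ∧ c ≤ C ∧ ∀ a : ℕ →₀ 𝕜,
    c * (a.sum fun _ t => ‖t‖ ^ p) ^ (1 / p) ≤ N (a.sum fun n t => t • x n) ∧
    N (a.sum fun n t => t • x n) ≤ C * (a.sum fun _ t => ‖t‖ ^ p) ^ (1 / p)

/-- The Schur `p`-property: every infinite, bounded, uniformly separated set contains a sequence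
equivalent to the canonical basis of `ℓ_p`. -/
def SchurP (𝕜 : Type) [RCLike 𝕜] (p : ℝ) (F : Type) [AddCommGroup F] [Module 𝕜 F]
    (N : F → ℝ) : Prop :=
  ∀ A : Set F, A.Infinite → (∃ B : ℝ, ∀ x ∈ A, N x ≤ B) →
    (∃ η : ℝ, 0 < η ∧ ∀ x ∈ A, ∀ y ∈ A, x ≠ y → η ≤ N (x - y)) →
    ∃ x : ℕ → F, (∀ n, x n ∈ A) ∧ EquivLp 𝕜 p N x

/-- `z` belongs to the closed linear span of `δ(K)` in `(F, N)`, i.e. to `F_p(K; M)`. -/
def InClosedSpan (𝕜 : Type) [RCLike 𝕜] {M F : Type} [AddCommGroup F] [Module 𝕜 F]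
    (N : F → ℝ) (δ : M → F) (K : Set M) (z : F) : Prop :=
  ∀ η > 0, ∃ w ∈ Submodule.span 𝕜 (δ '' K), N (z - w) < η

/-- Kalton's property of a set `W ⊆ F_p(M)`: for all `ε, r > 0` there is a finite `E ⊆ M` with
`W ⊆ F_p([E]_r; M) + ε B`, where `[E]_r` is the set of points at distance at most `r` from `E`. -/
def KaltonProperty (𝕜 : Type) [RCLike 𝕜] {M F : Type} [MetricSpace M] [AddCommGroup F] [Module 𝕜 F]
    (N : F → ℝ) (δ : M → F) (W : Set F) : Prop :=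
  ∀ ε > 0, ∀ r > 0, ∃ E : Finset M, ∀ x ∈ W, ∃ y : F,
    InClosedSpan 𝕜 N δ {s : M | ∃ u ∈ E, dist s u ≤ r} y ∧ N (x - y) ≤ ε

end Pool.Agent.H262.FreeP
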