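import Mathlib
import Pool.Agent.H262.FP7
import Pool.Agent.H262.FreeP

set_option autoImplicit false

/-!
The explicit free p-norm over `𝕜 = ℝ, ℂ` on finitely supported functions, comparison with the real
one, and the canonical complete model.
-/

namespace Pool.Agent.H262.FP

open Finset FreeP

noncomputable section

open scoped Classical

variable {𝕜 : Type} [RCLike 𝕜] {p : ℝ}

theorem norm_add_rpow_le {E : Type*} [SeminormedAddCommGroup E] (hp : 0 < p) (hp1 : p ≤ 1) (a b : E) :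
    ‖a + b‖ ^ p ≤ ‖a‖ ^ p + ‖b‖ ^ p :=
  (Real.rpow_le_rpow (norm_nonneg _) (norm_add_le a b) hp.le).trans
    (Real.rpow_add_le_add_rpow (norm_nonneg _) (norm_nonneg _) hp.le hp1)

theorem norm_rpow_nonneg {E : Type*} [SeminormedAddCommGroup E] (a : E) : 0 ≤ ‖a‖ ^ p :=
  Real.rpow_nonneg (norm_nonneg _) _

/-- p-homogeneous subadditive functional over `𝕜` -/
structure IsPFK (𝕜 : Type) [RCLike 𝕜] {W : Type*} [AddCommGroup W] [Module 𝕜 W] (p : ℝ)
    (Q : W → ℝ) : Prop where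
  nonneg : ∀ v, 0 ≤ Q v
  add_le : ∀ v w, Q (v + w) ≤ Q v + Q w
  smul : ∀ (t : 𝕜) v, Q (t • v) = ‖t‖ ^ p * Q v

namespace IsPFK

variable {W : Type*} [AddCommGroup W] [Module 𝕜 W] {Q : W → ℝ}

theorem zero (h : IsPFK 𝕜 p Q) (hp : 0 < p) : Q 0 = 0 := by
  have := h.smul 0 0
  rwa [zero_smul, norm_zero, Real.zero_rpow hp.ne', zero_mul] at this

theorem neg (h : IsPFK 𝕜 p Q) (v : W) : Q (-v) = Q v := by
  have := h.smul (-1) v
  rwa [neg_one_smul, norm_neg, norm_one, Real.one_rpow, one_mul] at this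

theorem sub_le (h : IsPFK 𝕜 p Q) (v w : W) : Q (v - w) ≤ Q v + Q w := by
  rw [sub_eq_add_neg, ← h.neg w]; exact h.add_le _ _

theorem sum_le (h : IsPFK 𝕜 p Q) (hp : 0 < p) {ι : Type*} (s : Finset ι) (f : ι → W) :
    Q (∑ i ∈ s, f i) ≤ ∑ i ∈ s, Q (f i) := by
  classical
  induction s using Finset.induction_on with
  | empty => simp [h.zero hp]
  | insert a s ha ih =>
    rw [Finset.sum_insert ha, Finset.sum_insert ha]
    exact (h.add_le _ _).trans (by linarith)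

end IsPFK

section basics

variable {M : Type}

/-- Dirac -/
abbrev dlK (𝕜 : Type) [RCLike 𝕜] (s : M) : M →₀ 𝕜 := Finsupp.single s 1

/-- elementary difference -/
def edK (𝕜 : Type) [RCLike 𝕜] (e : M × M) : M →₀ 𝕜 := dlK 𝕜 e.1 - dlK 𝕜 e.2

/-- boundary -/
def bdK : ((M × M) →₀ 𝕜) →ₗ[𝕜] (M →₀ 𝕜) := Finsupp.linearCombination 𝕜 (edK 𝕜)

theorem bdK_apply (f : (M × M) →₀ 𝕜) : bdK f = ∑ e ∈ f.support, f e • edK 𝕜 e := by
  rw [bdK, Finsupp.linearCombination_apply, Finsupp.sum]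

theorem bdK_single (e : M × M) (a : 𝕜) : bdK (Finsupp.single e a) = a • edK 𝕜 e := by
  rw [bdK, Finsupp.linearCombination_single]

end basics

variable {M : Type} [MetricSpace M]

/-- cost -/
def costK (p : ℝ) (f : (M × M) →₀ 𝕜) : ℝ := ∑ e ∈ f.support, ‖f e‖ ^ p * ωf p e

theorem costK_eq_sum (hp : 0 < p) {f : (M × M) →₀ 𝕜} {S : Finset (M × M)} (h : f.support ⊆ S) :
    costK p f = ∑ e ∈ S, ‖f e‖ ^ p * ωf p e := by
  unfold costK
  apply Finset.sum_subset h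
  intro n _ hn
  rw [Finsupp.notMem_support_iff] at hn
  rw [hn, norm_zero, Real.zero_rpow hp.ne', zero_mul]

theorem costK_nonneg (f : (M × M) →₀ 𝕜) : 0 ≤ costK p f :=
  Finset.sum_nonneg (fun _ _ => mul_nonneg (norm_rpow_nonneg _) (ωf_nonneg p _))

theorem costK_add_le (hp : 0 < p) (hp1 : p ≤ 1) (f g : (M × M) →₀ 𝕜) :
    costK p (f + g) ≤ costK p f + costK p g := by
  rw [costK_eq_sum hp (Finsupp.support_add : (f+g).support ⊆ f.support ∪ g.support),
    costK_eq_sum hp (Finset.subset_union_left : f.support ⊆ f.support ∪ g.support),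
    costK_eq_sum hp (Finset.subset_union_right : g.support ⊆ f.support ∪ g.support),
    ← Finset.sum_add_distrib]
  refine Finset.sum_le_sum (fun e _ => ?_)
  rw [Finsupp.add_apply, ← add_mul]
  exact mul_le_mul_of_nonneg_right (norm_add_rpow_le hp hp1 _ _) (ωf_nonneg p e)

theorem costK_smul (hp : 0 < p) (t : 𝕜) (f : (M × M) →₀ 𝕜) :
    costK p (t • f) = ‖t‖ ^ p * costK p f := by
  rw [costK_eq_sum hp (Finsupp.support_smul : (t • f).support ⊆ f.support), costK, Finset.mul_sum]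
  refine Finset.sum_congr rfl (fun n _ => ?_)
  rw [Finsupp.smul_apply, smul_eq_mul, norm_mul, Real.mul_rpow (norm_nonneg _) (norm_nonneg _),
    mul_assoc]

theorem costK_single (hp : 0 < p) (e : M × M) (a : 𝕜) :
    costK p (Finsupp.single e a) = ‖a‖ ^ p * ωf p e := by
  rw [costK_eq_sum hp (Finsupp.support_single_subset : (Finsupp.single e a).support ⊆ {e})]
  simp

theorem costK_zero : costK p (0 : (M × M) →₀ 𝕜) = 0 := by simp [costK]

/-- costs of representations -/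
def costSetK (p : ℝ) (o : M) (v : M →₀ 𝕜) : Set ℝ :=
  {c | ∃ (f : (M × M) →₀ 𝕜) (t : 𝕜), v = bdK f + t • dlK 𝕜 o ∧ c = costK p f}

/-- p-th power of the free p-norm -/
def nnK (p : ℝ) (o : M) (v : M →₀ 𝕜) : ℝ := sInf (costSetK p o v)

omit [MetricSpace M] in
theorem exists_repK (o : M) (v : M →₀ 𝕜) :
    ∃ (f : (M × M) →₀ 𝕜) (t : 𝕜), v = bdK f + t • dlK 𝕜 o := by
  induction v using Finsupp.induction_linear with
  | zero => exact ⟨0, 0, by simp⟩
  | add v w hv hw =>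
    obtain ⟨f, t, h1⟩ := hv
    obtain ⟨g, u, h2⟩ := hw
    exact ⟨f + g, t + u, by rw [h1, h2, map_add, add_smul]; abel⟩
  | single a b =>
    refine ⟨Finsupp.single (a, o) b, b, ?_⟩
    rw [bdK_single, edK, smul_sub, sub_add_cancel, Finsupp.smul_single, smul_eq_mul, mul_one]

theorem costSetK_nonempty (o : M) (v : M →₀ 𝕜) : (costSetK p o v).Nonempty := by
  obtain ⟨f, t, h⟩ := exists_repK o v
  exact ⟨_, f, t, h, rfl⟩

theorem costSetK_bddBelow (o : M) (v : M →₀ 𝕜) : BddBelow (costSetK p o v) := by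
  refine ⟨0, ?_⟩
  rintro _ ⟨f, t, _, rfl⟩
  exact costK_nonneg f

theorem nnK_le {o : M} {v : M →₀ 𝕜} {f : (M × M) →₀ 𝕜} {t : 𝕜}
    (h : v = bdK f + t • dlK 𝕜 o) : nnK p o v ≤ costK p f :=
  csInf_le (costSetK_bddBelow o v) ⟨f, t, h, rfl⟩

theorem exists_nearK {o : M} {v : M →₀ 𝕜} {c : ℝ} (h : nnK p o v < c) :
    ∃ (f : (M × M) →₀ 𝕜) (t : 𝕜), v = bdK f + t • dlK 𝕜 o ∧ costK p f < c := by
  obtain ⟨_, ⟨f, t, h1, rfl⟩, h2⟩ := exists_lt_of_csInf_lt (costSetK_nonempty (p := p) o v) h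
  exact ⟨f, t, h1, h2⟩

theorem nnK_nonneg (o : M) (v : M →₀ 𝕜) : 0 ≤ nnK p o v := by
  refine le_csInf (costSetK_nonempty o v) ?_
  rintro _ ⟨f, t, _, rfl⟩
  exact costK_nonneg f

theorem nnK_add_le (hp : 0 < p) (hp1 : p ≤ 1) (o : M) (v w : M →₀ 𝕜) :
    nnK p o (v + w) ≤ nnK p o v + nnK p o w := by
  refine le_of_forall_pos_le_add (fun ε hε => ?_)
  obtain ⟨f, t, h1, h2⟩ := exists_nearK (lt_add_of_pos_right (nnK p o v) (half_pos hε))
  obtain ⟨g, u, h3, h4⟩ := exists_nearK (lt_add_of_pos_right (nnK p o w) (half_pos hε))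
  have h5 : v + w = bdK (f + g) + (t + u) • dlK 𝕜 o := by
    rw [map_add, add_smul]
    nth_rewrite 1 [h1]
    nth_rewrite 1 [h3]
    abel
  have h6 := nnK_le h5 (p := p)
  have h7 := costK_add_le hp hp1 f g
  linarith

theorem nnK_smul_le (hp : 0 < p) (o : M) (t : 𝕜) (v : M →₀ 𝕜) :
    nnK p o (t • v) ≤ ‖t‖ ^ p * nnK p o v := by
  refine le_of_forall_pos_lt_add (fun ε hε => ?_)
  have hpos : 0 < ‖t‖ ^ p + 1 := by have := norm_rpow_nonneg (p := p) t; linarith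
  obtain ⟨f, u, h1, h2⟩ := exists_nearK (lt_add_of_pos_right (nnK p o v)
    (show 0 < ε / (‖t‖ ^ p + 1) by positivity))
  have h3 : t • v = bdK (t • f) + (t * u) • dlK 𝕜 o := by
    rw [map_smul, mul_smul, ← smul_add, ← h1]
  have h4 := nnK_le h3 (p := p)
  rw [costK_smul hp] at h4
  have h5 : ‖t‖ ^ p * costK p f ≤ ‖t‖ ^ p * (nnK p o v + ε / (‖t‖ ^ p + 1)) :=
    mul_le_mul_of_nonneg_left h2.le (norm_rpow_nonneg _)
  have h6 : ‖t‖ ^ p * (ε / (‖t‖ ^ p + 1)) < ε := by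
    rw [mul_div_assoc', div_lt_iff₀ hpos]
    nlinarith
  nlinarith

theorem isPFK_nnK (hp : 0 < p) (hp1 : p ≤ 1) (o : M) : IsPFK 𝕜 p (nnK (𝕜 := 𝕜) p o) where
  nonneg := nnK_nonneg o
  add_le := nnK_add_le hp hp1 o
  smul := fun t v => by
    apply le_antisymm (nnK_smul_le hp o t v)
    by_cases ht : t = 0
    · subst ht
      rw [norm_zero, Real.zero_rpow hp.ne', zero_mul]
      exact nnK_nonneg o _
    · have h1 := nnK_smul_le hp o t⁻¹ (t • v)
      rw [smul_smul, inv_mul_cancel₀ ht, one_smul] at h1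
      have h2 : ‖t‖ ^ p * ‖t⁻¹‖ ^ p = 1 := by
        rw [← Real.mul_rpow (norm_nonneg _) (norm_nonneg _), ← norm_mul, mul_inv_cancel₀ ht, norm_one,
          Real.one_rpow]
      calc ‖t‖ ^ p * nnK p o v ≤ ‖t‖ ^ p * (‖t⁻¹‖ ^ p * nnK p o (t • v)) :=
            mul_le_mul_of_nonneg_left h1 (norm_rpow_nonneg _)
        _ = nnK p o (t • v) := by rw [← mul_assoc, h2, one_mul]

theorem nnK_edK_le (hp : 0 < p) (o : M) (e : M × M) : nnK p o (edK 𝕜 e) ≤ ωf p e := by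
  have h : edK 𝕜 e = bdK (Finsupp.single e 1) + (0:𝕜) • dlK 𝕜 o := by
    rw [bdK_single, one_smul, zero_smul, add_zero]
  have := nnK_le h (p := p)
  rwa [costK_single hp, norm_one, Real.one_rpow, one_mul] at this

theorem nnK_base (o : M) : nnK p o (dlK 𝕜 o) = 0 := by
  apply le_antisymm _ (nnK_nonneg o _)
  have h : dlK 𝕜 o = bdK (0 : (M × M) →₀ 𝕜) + (1:𝕜) • dlK 𝕜 o := by
    rw [map_zero, one_smul, zero_add]
  have := nnK_le h (p := p)
  rwa [costK_zero] at this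

/-- maximality -/
theorem le_nnK (hp : 0 < p) {o : M} {Q : (M →₀ 𝕜) → ℝ} (hQ : IsPFK 𝕜 p Q)
    (hQo : Q (dlK 𝕜 o) = 0) {C : ℝ} (hC : 0 ≤ C) (hQe : ∀ e, Q (edK 𝕜 e) ≤ C * ωf p e) (v : M →₀ 𝕜) :
    Q v ≤ C * nnK p o v := by
  have hrep : ∀ (f : (M × M) →₀ 𝕜) (t : 𝕜), v = bdK f + t • dlK 𝕜 o → Q v ≤ C * costK p f := by
    intro f t h
    rw [h]
    refine (hQ.add_le _ _).trans ?_
    rw [hQ.smul, hQo, mul_zero, add_zero, bdK_apply]
    refine (hQ.sum_le hp _ _).trans ?_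
    rw [costK, Finset.mul_sum]
    refine Finset.sum_le_sum (fun e _ => ?_)
    rw [hQ.smul]
    calc ‖f e‖ ^ p * Q (edK 𝕜 e) ≤ ‖f e‖ ^ p * (C * ωf p e) :=
          mul_le_mul_of_nonneg_left (hQe e) (norm_rpow_nonneg _)
      _ = C * (‖f e‖ ^ p * ωf p e) := by ring
  refine le_of_forall_pos_lt_add (fun ε hε => ?_)
  obtain ⟨f, t, h1, h2⟩ := exists_nearK (lt_add_of_pos_right (nnK p o v)
    (show 0 < ε / (C + 1) by positivity))
  have h3 := hrep f t h1
  have h4 : C * costK p f ≤ C * (nnK p o v + ε / (C + 1)) :=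
    mul_le_mul_of_nonneg_left h2.le hC
  have h5 : C * (ε / (C + 1)) < ε := by
    rw [mul_div_assoc', div_lt_iff₀ (by linarith)]
    nlinarith
  nlinarith

/-! ### real and imaginary parts -/

/-- real part -/
def reF {A : Type*} (v : A →₀ 𝕜) : A →₀ ℝ := v.mapRange RCLike.re (by simp)
/-- imaginary part -/
def imF {A : Type*} (v : A →₀ 𝕜) : A →₀ ℝ := v.mapRange RCLike.im (by simp)
/-- embedding -/
def ofF {A : Type*} (v : A →₀ ℝ) : A →₀ 𝕜 := v.mapRange (fun x : ℝ => (x : 𝕜)) (by simp)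

theorem reF_apply {A : Type*} (v : A →₀ 𝕜) (a : A) : reF v a = RCLike.re (v a) := by
  rw [reF, Finsupp.mapRange_apply]
theorem imF_apply {A : Type*} (v : A →₀ 𝕜) (a : A) : imF v a = RCLike.im (v a) := by
  rw [imF, Finsupp.mapRange_apply]
theorem ofF_apply {A : Type*} (v : A →₀ ℝ) (a : A) : (ofF v : A →₀ 𝕜) a = (v a : 𝕜) := by
  rw [ofF, Finsupp.mapRange_apply]

theorem reF_add {A : Type*} (v w : A →₀ 𝕜) : reF (v + w) = reF v + reF w := by
  ext a; simp only [reF_apply, Finsupp.add_apply, map_add]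
theorem imF_add {A : Type*} (v w : A →₀ 𝕜) : imF (v + w) = imF v + imF w := by
  ext a; simp only [imF_apply, Finsupp.add_apply, map_add]
theorem reF_sub {A : Type*} (v w : A →₀ 𝕜) : reF (v - w) = reF v - reF w := by
  ext a; simp only [reF_apply, Finsupp.sub_apply, map_sub]
theorem imF_sub {A : Type*} (v w : A →₀ 𝕜) : imF (v - w) = imF v - imF w := by
  ext a; simp only [imF_apply, Finsupp.sub_apply, map_sub]
theorem reF_smul {A : Type*} (t : 𝕜) (v : A →₀ 𝕜) :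
    reF (t • v) = RCLike.re t • reF v - RCLike.im t • imF v := by
  ext a
  simp only [reF_apply, imF_apply, Finsupp.smul_apply, Finsupp.sub_apply, smul_eq_mul,
    RCLike.mul_re]
theorem imF_smul {A : Type*} (t : 𝕜) (v : A →₀ 𝕜) :
    imF (t • v) = RCLike.re t • imF v + RCLike.im t • reF v := by
  ext a
  simp only [reF_apply, imF_apply, Finsupp.smul_apply, Finsupp.add_apply, smul_eq_mul,
    RCLike.mul_im]

omit [MetricSpace M] in
theorem reF_dlK (o : M) : reF (dlK 𝕜 o) = dl o := by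
  ext a
  rw [reF_apply, Finsupp.single_apply, Finsupp.single_apply]
  split_ifs <;> simp

omit [MetricSpace M] in
theorem imF_dlK (o : M) : imF (dlK 𝕜 o) = 0 := by
  ext a
  rw [imF_apply, Finsupp.single_apply]
  split_ifs <;> simp

omit [MetricSpace M] in
theorem reF_edK (e : M × M) : reF (edK 𝕜 e) = ed e := by
  rw [edK, reF_sub, reF_dlK, reF_dlK, ed]

omit [MetricSpace M] in
theorem imF_edK (e : M × M) : imF (edK 𝕜 e) = 0 := by
  rw [edK, imF_sub, imF_dlK, imF_dlK, sub_zero]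

theorem abs_re_rpow_le (hp : 0 < p) (z : 𝕜) : |RCLike.re z| ^ p ≤ ‖z‖ ^ p :=
  Real.rpow_le_rpow (abs_nonneg _) (RCLike.abs_re_le_norm z) hp.le

theorem abs_im_rpow_le (hp : 0 < p) (z : 𝕜) : |RCLike.im z| ^ p ≤ ‖z‖ ^ p :=
  Real.rpow_le_rpow (abs_nonneg _) (RCLike.abs_im_le_norm z) hp.le

theorem nn_reF_le (hp : 0 < p) (hp1 : p ≤ 1) (o : M) (v : M →₀ 𝕜) :
    nn p (ωf p) o (reF v) ≤ nnK p o v := by
  refine le_csInf (costSetK_nonempty o v) ?_
  rintro _ ⟨f, t, h1, rfl⟩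
  have h2 : reF v = ∑ e ∈ f.support, RCLike.re (f e) • ed e + RCLike.re t • dl o := by
    rw [h1, reF_add, reF_smul, reF_dlK, imF_dlK, smul_zero, sub_zero, bdK_apply]
    congr 1
    have : ∀ S : Finset (M × M), reF (∑ e ∈ S, f e • edK 𝕜 e) = ∑ e ∈ S, RCLike.re (f e) • ed e := by
      intro S
      induction S using Finset.induction_on with
      | empty => ext a; simp [reF_apply]
      | insert a s ha ih =>
        rw [Finset.sum_insert ha, Finset.sum_insert ha, reF_add, ih, reF_smul, reF_edK, imF_edK,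
          smul_zero, sub_zero]
    exact this _
  rw [h2]
  have hPF := isPF_nn hp hp1 (ωf_nonneg (M := M) p) o
  refine (hPF.add_le _ _).trans ?_
  rw [nn_smul_base hp hp1 (ωf_nonneg p), add_zero]
  refine (nn_sum_le hp hp1 (ωf_nonneg p) o _ _ _).trans ?_
  exact Finset.sum_le_sum (fun e _ => mul_le_mul_of_nonneg_right (abs_re_rpow_le hp _) (ωf_nonneg p e))

theorem nn_imF_le (hp : 0 < p) (hp1 : p ≤ 1) (o : M) (v : M →₀ 𝕜) :
    nn p (ωf p) o (imF v) ≤ nnK p o v := by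
  refine le_csInf (costSetK_nonempty o v) ?_
  rintro _ ⟨f, t, h1, rfl⟩
  have h2 : imF v = ∑ e ∈ f.support, RCLike.im (f e) • ed e + RCLike.im t • dl o := by
    rw [h1, imF_add, imF_smul, reF_dlK, imF_dlK, smul_zero, zero_add, bdK_apply]
    congr 1
    have : ∀ S : Finset (M × M), imF (∑ e ∈ S, f e • edK 𝕜 e) = ∑ e ∈ S, RCLike.im (f e) • ed e := by
      intro S
      induction S using Finset.induction_on with
      | empty => ext a; simp [imF_apply]
      | insert a s ha ih =>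
        rw [Finset.sum_insert ha, Finset.sum_insert ha, imF_add, ih, imF_smul, reF_edK, imF_edK,
          smul_zero, zero_add]
    exact this _
  rw [h2]
  have hPF := isPF_nn hp hp1 (ωf_nonneg (M := M) p) o
  refine (hPF.add_le _ _).trans ?_
  rw [nn_smul_base hp hp1 (ωf_nonneg p), add_zero]
  refine (nn_sum_le hp hp1 (ωf_nonneg p) o _ _ _).trans ?_
  exact Finset.sum_le_sum (fun e _ => mul_le_mul_of_nonneg_right (abs_im_rpow_le hp _) (ωf_nonneg p e))

theorem nnK_ofF_le (hp : 0 < p) (hp1 : p ≤ 1) (o : M) (v : M →₀ ℝ) :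
    nnK p o (ofF v : M →₀ 𝕜) ≤ nn p (ωf p) o v := by
  refine le_csInf (costSet_nonempty o v) ?_
  rintro _ ⟨f, t, h1, rfl⟩
  have hadd : ∀ v w : M →₀ ℝ, (ofF (v + w) : M →₀ 𝕜) = ofF v + ofF w := by
    intro v w; ext a; simp only [ofF_apply, Finsupp.add_apply, RCLike.ofReal_add]
  have hsmul : ∀ (t : ℝ) (v : M →₀ ℝ), (ofF (t • v) : M →₀ 𝕜) = (t : 𝕜) • ofF v := by
    intro t v; ext a
    simp only [ofF_apply, Finsupp.smul_apply, smul_eq_mul, RCLike.ofReal_mul]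
  have hdl : ∀ s : M, (ofF (dl s) : M →₀ 𝕜) = dlK 𝕜 s := by
    intro s; ext a
    rw [ofF_apply, Finsupp.single_apply, Finsupp.single_apply]
    split_ifs <;> simp
  have hed : ∀ e : M × M, (ofF (ed e) : M →₀ 𝕜) = edK 𝕜 e := by
    intro e
    have : ed e = dl e.1 + (-1 : ℝ) • dl e.2 := by rw [ed]; simp [sub_eq_add_neg]
    rw [this, hadd, hsmul, hdl, hdl, edK]
    simp [sub_eq_add_neg]
  have h2 : (ofF v : M →₀ 𝕜) = ∑ e ∈ f.support, ((f e : ℝ) : 𝕜) • edK 𝕜 e + (t : 𝕜) • dlK 𝕜 o := by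
    rw [h1, hadd, hsmul, hdl, bd_apply]
    congr 1
    have : ∀ S : Finset (M × M), (ofF (∑ e ∈ S, f e • ed e) : M →₀ 𝕜) = ∑ e ∈ S, ((f e : ℝ) : 𝕜) • edK 𝕜 e := by
      intro S
      induction S using Finset.induction_on with
      | empty => ext a; simp [ofF_apply]
      | insert a s ha ih =>
        rw [Finset.sum_insert ha, Finset.sum_insert ha, hadd, ih, hsmul, hed]
    exact this _
  rw [h2]
  have hPF := isPFK_nnK (𝕜 := 𝕜) hp hp1 o
  refine (hPF.add_le _ _).trans ?_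
  rw [hPF.smul, nnK_base, mul_zero, add_zero]
  refine (hPF.sum_le hp _ _).trans ?_
  refine Finset.sum_le_sum (fun e _ => ?_)
  rw [hPF.smul, RCLike.norm_ofReal]
  exact mul_le_mul_of_nonneg_left (nnK_edK_le hp o e) (abs_rpow_nonneg _)

theorem nnK_le_re_im (hp : 0 < p) (hp1 : p ≤ 1) (o : M) (v : M →₀ 𝕜) :
    nnK p o v ≤ nn p (ωf p) o (reF v) + nn p (ωf p) o (imF v) := by
  have h1 : v = ofF (reF v) + (RCLike.I : 𝕜) • ofF (imF v) := by
    ext a
    simp only [Finsupp.add_apply, Finsupp.smul_apply, ofF_apply, reF_apply, imF_apply, smul_eq_mul]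
    rw [mul_comm]
    exact (RCLike.re_add_im (v a)).symm
  have hPF := isPFK_nnK (𝕜 := 𝕜) hp hp1 o
  conv_lhs => rw [h1]
  refine (hPF.add_le _ _).trans (add_le_add (nnK_ofF_le hp hp1 o _) ?_)
  rw [hPF.smul]
  have h2 : ‖(RCLike.I : 𝕜)‖ ^ p ≤ 1 := by
    apply Real.rpow_le_one (norm_nonneg _) _ hp.le
    rcases RCLike.I_mul_I (K := 𝕜) with h | h
    · rw [h]; simp
    · have h3 : ‖(RCLike.I : 𝕜)‖ * ‖(RCLike.I : 𝕜)‖ = 1 := by
        rw [← norm_mul, h, norm_neg, norm_one]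
      nlinarith [norm_nonneg (RCLike.I : 𝕜)]
  have h3 := nnK_ofF_le (𝕜 := 𝕜) hp hp1 o (imF v)
  have h4 := nnK_nonneg (p := p) o (ofF (imF v) : M →₀ 𝕜)
  have h5 := norm_rpow_nonneg (p := p) (RCLike.I : 𝕜)
  nlinarith

end

end Pool.Agent.H262.FP
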