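import Mathlib
import Pool.Agent.H262.FK2

set_option autoImplicit false

/-!
Main theorem over `𝕜 = ℝ, ℂ` for finitely supported elements.
-/

namespace Pool.Agent.H262.FP

open Finset FreeP

noncomputable section

open scoped Classical

variable {𝕜 : Type} [RCLike 𝕜] {p : ℝ}

/-- lower `ℓ_p`-estimate for a subsequence, scalars `𝕜` -/
def LPK (𝕜 : Type) [RCLike 𝕜] {W : Type*} [AddCommGroup W] [Module 𝕜 W] (N : W → ℝ) (p : ℝ)
    (x : ℕ → W) : Prop :=
  ∃ φ : ℕ → ℕ, StrictMono φ ∧ ∃ c : ℝ, 0 < c ∧ ∀ (F : Finset ℕ) (β : ℕ → 𝕜),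
    c * ∑ k ∈ F, ‖β k‖ ^ p ≤ N (∑ k ∈ F, β k • x (φ k))

theorem principleK {W : Type*} [AddCommGroup W] [Module 𝕜 W] {N : W → ℝ}
    {x : ℕ → W} {B : ℝ} (hB : ∀ n, N (x n) ≤ B) {Q : ℕ → W → ℝ}
    (hQ0 : ∀ k v, 0 ≤ Q k v) (hQa : ∀ k v w, Q k (v + w) ≤ Q k v + Q k w)
    (hQn : ∀ k v, Q k (-v) = Q k v) (hQz : ∀ k, Q k 0 = 0)
    (hQ1 : ∀ k (t : 𝕜) v, Q k (t • v) ≤ 2 * ‖t‖ ^ p * Q k v)
    (hQ2 : ∀ k (t : 𝕜) v, ‖t‖ ^ p * Q k v ≤ 2 * Q k (t • v))
    {C : ℝ} (hC : 0 < C) (hsum : ∀ v (F : Finset ℕ), ∑ k ∈ F, Q k v ≤ C * N v)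
    {ν : ℕ → ℕ} (hν : StrictMono ν) {c : ℝ} (hc : 0 < c) (hlow : ∀ k, c ≤ Q k (x (ν k))) :
    LPK 𝕜 N p x := by
  obtain ⟨K, hK⟩ := exists_nat_ge (C * B / (c / 8))
  have hK' : C * B ≤ K * (c / 8) := by
    rwa [div_le_iff₀ (by positivity)] at hK
  obtain ⟨φ, hφ, hφ2⟩ := rosenthal_aux (c / 8) (by positivity) K (fun i j => Q j (x (ν i)))
    (fun i j => hQ0 _ _)
    (fun i F => ((hsum (x (ν i)) F).trans (mul_le_mul_of_nonneg_left (hB _) hC.le)).trans hK')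
  refine ⟨fun i => ν (φ i), fun i j hij => hν (hφ hij), c / (4 * C), by positivity, fun F β => ?_⟩
  have hQs : ∀ k (s : Finset ℕ) (f : ℕ → W), Q k (∑ i ∈ s, f i) ≤ ∑ i ∈ s, Q k (f i) := by
    intro k s f
    induction s using Finset.induction_on with
    | empty => simp [hQz]
    | insert a s ha ih =>
      rw [Finset.sum_insert ha, Finset.sum_insert ha]
      exact (hQa _ _ _).trans (by linarith)
  set v := ∑ k ∈ F, β k • x (ν (φ k)) with hv
  have h1 : ∀ j ∈ F, ‖β j‖ ^ p * c ≤ 2 * Q (φ j) v +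
      ∑ i ∈ F.erase j, 4 * ‖β i‖ ^ p * Q (φ j) (x (ν (φ i))) := by
    intro j hj
    have h2 : β j • x (ν (φ j)) = v + -∑ i ∈ F.erase j, β i • x (ν (φ i)) := by
      rw [hv, ← Finset.add_sum_erase F _ hj]; abel
    have h3 : Q (φ j) (β j • x (ν (φ j))) ≤ Q (φ j) v + ∑ i ∈ F.erase j, 2 * ‖β i‖ ^ p * Q (φ j) (x (ν (φ i))) := by
      rw [h2]
      refine (hQa _ _ _).trans (add_le_add le_rfl ?_)
      rw [hQn]
      refine (hQs _ _ _).trans ?_
      exact Finset.sum_le_sum (fun i _ => hQ1 _ _ _)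
    have h4 := hQ2 (φ j) (β j) (x (ν (φ j)))
    have h5 : ‖β j‖ ^ p * c ≤ ‖β j‖ ^ p * Q (φ j) (x (ν (φ j))) :=
      mul_le_mul_of_nonneg_left (hlow (φ j)) (norm_rpow_nonneg _)
    have h6 : ∑ i ∈ F.erase j, 4 * ‖β i‖ ^ p * Q (φ j) (x (ν (φ i)))
        = 2 * ∑ i ∈ F.erase j, 2 * ‖β i‖ ^ p * Q (φ j) (x (ν (φ i))) := by
      rw [Finset.mul_sum]; exact Finset.sum_congr rfl (fun i _ => by ring)
    rw [h6]
    linarith
  have h4 : ∑ j ∈ F, Q (φ j) v ≤ C * N v := by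
    have := hsum v (F.image φ)
    rwa [Finset.sum_image (fun a _ b _ hab => hφ.injective hab)] at this
  have h5 : ∑ j ∈ F, ∑ i ∈ F.erase j, 4 * ‖β i‖ ^ p * Q (φ j) (x (ν (φ i)))
      = ∑ i ∈ F, (4 * ‖β i‖ ^ p) * ∑ j ∈ F.erase i, Q (φ j) (x (ν (φ i))) := by
    have h6 : ∀ j ∈ F, ∑ i ∈ F.erase j, 4 * ‖β i‖ ^ p * Q (φ j) (x (ν (φ i)))
        = ∑ i ∈ F, if i ≠ j then 4 * ‖β i‖ ^ p * Q (φ j) (x (ν (φ i))) else 0 := by
      intro j _
      rw [← Finset.sum_filter]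
      congr 1
      ext i; simp [and_comm]
    have h7 : ∀ i ∈ F, (4 * ‖β i‖ ^ p) * ∑ j ∈ F.erase i, Q (φ j) (x (ν (φ i)))
        = ∑ j ∈ F, if i ≠ j then 4 * ‖β i‖ ^ p * Q (φ j) (x (ν (φ i))) else 0 := by
      intro i _
      rw [← Finset.sum_filter, Finset.mul_sum]
      congr 1
      ext j; simp [and_comm, eq_comm]
    rw [Finset.sum_congr rfl h6, Finset.sum_congr rfl h7, Finset.sum_comm]
  have h8 : ∑ i ∈ F, (4 * ‖β i‖ ^ p) * ∑ j ∈ F.erase i, Q (φ j) (x (ν (φ i)))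
      ≤ ∑ i ∈ F, (4 * ‖β i‖ ^ p) * (c / 8) := by
    refine Finset.sum_le_sum (fun i _ => ?_)
    exact mul_le_mul_of_nonneg_left (hφ2 i (F.erase i) (Finset.notMem_erase i F))
      (mul_nonneg (by norm_num) (norm_rpow_nonneg _))
  have h9 := Finset.sum_le_sum h1
  rw [Finset.sum_add_distrib, h5, ← Finset.sum_mul, ← Finset.mul_sum] at h9
  rw [← Finset.sum_mul, ← Finset.mul_sum] at h8
  rw [div_mul_eq_mul_div, div_le_iff₀ (by positivity)]
  nlinarith

variable {M : Type} [MetricSpace M]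

theorem LPK_of_det (hp : 0 < p) (hp1 : p ≤ 1) (o : M) {x : ℕ → M →₀ 𝕜} {B : ℝ}
    (hB : ∀ n, nnK p o (x n) ≤ B)
    (h : Det (nn p (ωf p) o) p (fun n => reF (x n)) ∨ Det (nn p (ωf p) o) p (fun n => imF (x n))) :
    LPK 𝕜 (nnK p o) p x := by
  have key : ∀ (ν : ℕ → ℕ) (Q : ℕ → (M →₀ ℝ) → ℝ) (C c : ℝ), StrictMono ν → (∀ k, IsPF p (Q k)) →
      0 < C → 0 < c → (∀ v (F : Finset ℕ), ∑ k ∈ F, Q k v ≤ C * nn p (ωf p) o v) →
      (∀ k, c ≤ Q k (reF (x (ν k))) + Q k (imF (x (ν k)))) → LPK 𝕜 (nnK p o) p x := by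
    intro ν Q C c hν hQ hC hc hsum hlow
    have hQ1 : ∀ k (t : 𝕜) (v : M →₀ 𝕜), Q k (reF (t • v)) + Q k (imF (t • v)) ≤
        2 * ‖t‖ ^ p * (Q k (reF v) + Q k (imF v)) := by
      intro k t v
      rw [reF_smul, imF_smul]
      have h1 := (hQ k).sub_le (RCLike.re t • reF v) (RCLike.im t • imF v)
      have h2 := (hQ k).add_le (RCLike.re t • imF v) (RCLike.im t • reF v)
      rw [(hQ k).smul, (hQ k).smul] at h1 h2
      have h3 := abs_re_rpow_le hp t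
      have h4 := abs_im_rpow_le hp t
      have h5 := (hQ k).nonneg (reF v)
      have h6 := (hQ k).nonneg (imF v)
      nlinarith
    refine principleK (𝕜 := 𝕜) hB (Q := fun k v => Q k (reF v) + Q k (imF v))
      (fun k v => add_nonneg ((hQ k).nonneg _) ((hQ k).nonneg _)) ?_ ?_ ?_ hQ1 ?_
      (C := 2 * C) (by positivity) ?_ hν hc hlow
    · intro k v w
      beta_reduce
      rw [reF_add, imF_add]
      have h1 := (hQ k).add_le (reF v) (reF w)
      have h2 := (hQ k).add_le (imF v) (imF w)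
      linarith
    · intro k v
      beta_reduce
      have h1 : reF (-v) = -reF v := by ext a; simp [reF_apply]
      have h2 : imF (-v) = -imF v := by ext a; simp [imF_apply]
      rw [h1, h2, (hQ k).neg, (hQ k).neg]
    · intro k
      have h1 : reF (0 : M →₀ 𝕜) = 0 := by ext a; simp [reF_apply]
      have h2 : imF (0 : M →₀ 𝕜) = 0 := by ext a; simp [imF_apply]
      beta_reduce
      rw [h1, h2, (hQ k).zero hp, add_zero]
    · intro k t v
      beta_reduce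
      by_cases ht : t = 0
      · subst ht
        rw [norm_zero, Real.zero_rpow hp.ne', zero_mul]
        exact mul_nonneg (by norm_num) (add_nonneg ((hQ k).nonneg _) ((hQ k).nonneg _))
      · have h1 := hQ1 k t⁻¹ (t • v)
        rw [smul_smul, inv_mul_cancel₀ ht, one_smul] at h1
        have h2 : ‖t‖ ^ p * ‖t⁻¹‖ ^ p = 1 := by
          rw [← Real.mul_rpow (norm_nonneg _) (norm_nonneg _), ← norm_mul, mul_inv_cancel₀ ht,
            norm_one, Real.one_rpow]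
        have h3 := norm_rpow_nonneg (p := p) t
        calc ‖t‖ ^ p * (Q k (reF v) + Q k (imF v))
            ≤ ‖t‖ ^ p * (2 * ‖t⁻¹‖ ^ p * (Q k (reF (t • v)) + Q k (imF (t • v)))) :=
              mul_le_mul_of_nonneg_left h1 h3
          _ = (‖t‖ ^ p * ‖t⁻¹‖ ^ p) * (2 * (Q k (reF (t • v)) + Q k (imF (t • v)))) := by ring
          _ = _ := by rw [h2, one_mul]
    · intro v F
      beta_reduce
      rw [Finset.sum_add_distrib]
      have h1 := hsum (reF v) F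
      have h2 := hsum (imF v) F
      have h3 := mul_le_mul_of_nonneg_left (nn_reF_le hp hp1 o v) hC.le
      have h4 := mul_le_mul_of_nonneg_left (nn_imF_le hp hp1 o v) hC.le
      linarith
  rcases h with ⟨ν, Q, C, c, hν, hQ, hC, hc, hsum, hlow⟩ | ⟨ν, Q, C, c, hν, hQ, hC, hc, hsum, hlow⟩
  · exact key ν Q C c hν hQ hC hc hsum (fun k => (hlow k).trans (le_add_of_nonneg_right ((hQ k).nonneg _)))
  · exact key ν Q C c hν hQ hC hc hsum (fun k => (hlow k).trans (le_add_of_nonneg_left ((hQ k).nonneg _)))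

/-- compactness: a Cauchy subsequence -/
theorem pigeonC (hp : 0 < p) (hp1 : p ≤ 1) (o : M) (E : Finset M) {w : ℕ → M →₀ ℝ}
    (hw : ∀ n, (w n).support ⊆ E) {B : ℝ} (hB : ∀ n, mass p E (w n) ≤ B) :
    ∃ φ : ℕ → ℕ, StrictMono φ ∧ ∀ c > 0, ∃ k0, ∀ k l, k0 ≤ k → k0 ≤ l →
      nn p (ωf p) o (w (φ k) - w (φ l)) < c := by
  set a : ℕ → (E → ℝ) := fun n u => w n u.1 with ha
  have hB0 : 0 ≤ B := (Finset.sum_nonneg (fun _ _ => abs_rpow_nonneg _)).trans (hB 0)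
  have hbd : ∀ n, a n ∈ Metric.closedBall (0 : E → ℝ) (B ^ (1 / p)) := by
    intro n
    rw [mem_closedBall_zero_iff, pi_norm_le_iff_of_nonneg (Real.rpow_nonneg hB0 _)]
    intro u
    have h1 : |w n u.1| ^ p ≤ B := by
      refine le_trans ?_ (hB n)
      exact Finset.single_le_sum (f := fun u => |w n u| ^ p) (fun _ _ => abs_rpow_nonneg _) u.2
    rw [Real.norm_eq_abs]
    have h2 := Real.rpow_le_rpow (abs_rpow_nonneg _) h1 (by positivity : (0:ℝ) ≤ 1 / p)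
    rwa [← Real.rpow_mul (abs_nonneg _), mul_one_div_cancel hp.ne', Real.rpow_one] at h2
  obtain ⟨L, _, φ, hφ, hL⟩ := (isCompact_closedBall (0 : E → ℝ) (B ^ (1 / p))).tendsto_subseq hbd
  refine ⟨φ, hφ, fun c hc => ?_⟩
  have hdiff : Filter.Tendsto (fun k => a (φ k) - L) Filter.atTop (nhds 0) := by
    have := Filter.Tendsto.sub hL (tendsto_const_nhds (x := L))
    rwa [sub_self] at this
  set g : (E → ℝ) → ℝ := fun v => ∑ u : E, |v u| ^ p * dist u.1 o ^ p with hg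
  have hgc : Continuous g := by
    refine continuous_finsetSum _ (fun u _ => ?_)
    refine Continuous.mul ?_ continuous_const
    exact Continuous.rpow_const ((continuous_apply u).abs) (fun _ => Or.inr hp.le)
  have hg0 : g 0 = 0 := by
    simp only [hg]
    apply Finset.sum_eq_zero
    intro u _
    rw [Pi.zero_apply, abs_zero, Real.zero_rpow hp.ne', zero_mul]
  have hlim : Filter.Tendsto (fun k => g (a (φ k) - L)) Filter.atTop (nhds 0) := by
    have := (hgc.tendsto 0).comp hdiff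
    rwa [hg0] at this
  obtain ⟨k0, hk0⟩ := (hlim.eventually (gt_mem_nhds (half_pos hc))).exists_forall_of_atTop
  refine ⟨k0, fun k l hk hl => ?_⟩
  have hsub : (w (φ k) - w (φ l)).support ⊆ E := by
    intro u hu
    by_contra hcon
    rw [Finsupp.mem_support_iff, Finsupp.sub_apply] at hu
    apply hu
    rw [Finsupp.notMem_support_iff.mp (fun h => hcon (hw _ h)),
      Finsupp.notMem_support_iff.mp (fun h => hcon (hw _ h)), sub_zero]
  refine lt_of_le_of_lt (nn_le_supported hp hp1 o E hsub) ?_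
  have h1 : ∑ u ∈ E, |(w (φ k) - w (φ l)) u| ^ p * dist u o ^ p ≤ g (a (φ k) - L) + g (a (φ l) - L) := by
    simp only [hg]
    rw [← Finset.sum_add_distrib, ← Finset.sum_coe_sort]
    refine Finset.sum_le_sum (fun u _ => ?_)
    rw [← add_mul]
    refine mul_le_mul_of_nonneg_right ?_ (Real.rpow_nonneg dist_nonneg _)
    have h2 : (w (φ k) - w (φ l)) u.1 = (a (φ k) - L) u + -((a (φ l) - L) u) := by
      rw [Finsupp.sub_apply, Pi.sub_apply, Pi.sub_apply]; simp only [ha]; ring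
    rw [h2]
    refine (abs_add_rpow_le hp hp1 _ _).trans ?_
    rw [abs_neg]
  have h2 := hk0 k hk
  have h3 := hk0 l hl
  linarith

/-- **Main theorem** over `𝕜` -/
theorem main_K (hp : 0 < p) (hp1 : p < 1) (o : M) {x : ℕ → M →₀ 𝕜} {B : ℝ}
    (hB : ∀ n, nnK p o (x n) ≤ B) {c0 : ℝ} (hc0 : 0 < c0) {K : ℕ}
    (hsep : ∀ n m, K ≤ n → n < m → c0 ≤ nnK p o (x n - x m)) :
    LPK 𝕜 (nnK p o) p x := by
  apply LPK_of_det hp hp1.le o hB
  by_contra hcon
  rw [not_or] at hcon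
  have hPF := isPF_f hp hp1.le o
  set c : ℝ := c0 / 200 with hcdef
  have hc : 0 < c := by positivity
  obtain ⟨E, B1, n1, h1⟩ := approx hp hp1 o hcon.1 hc
  obtain ⟨E', B2, n2, h2⟩ := approx hp hp1 o hcon.2 hc
  set n0 := max (max n1 n2) K with hn0
  have key1 : ∀ n, ∃ w : M →₀ ℝ, w.support ⊆ E ∧ mass p E w ≤ B1 ∧
      nn p (ωf p) o (reF (x (n0 + n)) - w) ≤ 41 * c := fun n => h1 (n0 + n) (by omega)
  have key2 : ∀ n, ∃ w : M →₀ ℝ, w.support ⊆ E' ∧ mass p E' w ≤ B2 ∧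
      nn p (ωf p) o (imF (x (n0 + n)) - w) ≤ 41 * c := fun n => h2 (n0 + n) (by omega)
  choose w hw1 hw2 hw3 using key1
  choose w' hw1' hw2' hw3' using key2
  obtain ⟨φ, hφ, hC1⟩ := pigeonC hp hp1.le o E hw1 hw2
  obtain ⟨ψ, hψ, hC2⟩ := pigeonC hp hp1.le o E' (w := fun n => w' (φ n)) (fun n => hw1' _) (fun n => hw2' _)
  obtain ⟨k1, hk1⟩ := hC1 c hc
  obtain ⟨k2, hk2⟩ := hC2 c hc
  set k := max k1 k2 with hk
  have hkψ : k ≤ ψ k := hψ.id_le k
  have hlt : ψ k < ψ (k+1) := hψ (Nat.lt_succ_self k)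
  set n := φ (ψ k) with hn
  set m := φ (ψ (k+1)) with hm
  have hnm : n < m := hφ hlt
  have e1 : nn p (ωf p) o (w n - w m) < c := hk1 _ _ (by omega) (by omega)
  have e2 : nn p (ωf p) o (w' n - w' m) < c := hk2 k (k+1) (by omega) (by omega)
  have h5 := hsep (n0 + n) (n0 + m) (by omega) (by omega)
  have h6 := nnK_le_re_im hp hp1.le o (x (n0 + n) - x (n0 + m))
  rw [reF_sub, imF_sub] at h6
  have h7 : reF (x (n0 + n)) - reF (x (n0 + m)) =
      (reF (x (n0 + n)) - w n) - (reF (x (n0 + m)) - w m) + (w n - w m) := by abel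
  have h8 : imF (x (n0 + n)) - imF (x (n0 + m)) =
      (imF (x (n0 + n)) - w' n) - (imF (x (n0 + m)) - w' m) + (w' n - w' m) := by abel
  rw [h7, h8] at h6
  have g1 := hPF.add_le ((reF (x (n0 + n)) - w n) - (reF (x (n0 + m)) - w m)) (w n - w m)
  have g2 := hPF.sub_le (reF (x (n0 + n)) - w n) (reF (x (n0 + m)) - w m)
  have g3 := hPF.add_le ((imF (x (n0 + n)) - w' n) - (imF (x (n0 + m)) - w' m)) (w' n - w' m)
  have g4 := hPF.sub_le (imF (x (n0 + n)) - w' n) (imF (x (n0 + m)) - w' m)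
  have g5 := hw3 n
  have g6 := hw3 m
  have g7 := hw3' n
  have g8 := hw3' m
  have : c0 = 200 * c := by rw [hcdef]; ring
  linarith

end

end Pool.Agent.H262.FP
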