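import Mathlib
import Pool.Agent.H262.FK3

set_option autoImplicit false

/-!
Transfer to Lipschitz free p-spaces given by the universal property.
-/

namespace Pool.Agent.H262.FP

open Finset FreeP

noncomputable section

open scoped Classical

variable {𝕜 : Type} [RCLike 𝕜] {p : ℝ}

theorem rpow_rpow_inv' (hp : 0 < p) {a : ℝ} (ha : 0 ≤ a) : (a ^ (1 / p)) ^ p = a := by
  rw [← Real.rpow_mul ha, one_div_mul_cancel hp.ne', Real.rpow_one]

theorem rpow_inv_rpow' (hp : 0 < p) {a : ℝ} (ha : 0 ≤ a) : (a ^ p) ^ (1 / p) = a := by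
  rw [← Real.rpow_mul ha, mul_one_div_cancel hp.ne', Real.rpow_one]

/-- the p-seminormed group attached to a p-functional -/
abbrev snGroup {W : Type} [AddCommGroup W] [Module 𝕜 W] {Q : W → ℝ} (hp : 0 < p)
    (hQ : IsPFK 𝕜 p Q) : SeminormedAddCommGroup W :=
  AddGroupSeminorm.toSeminormedAddCommGroup
    { toFun := Q
      map_zero' := hQ.zero hp
      add_le' := hQ.add_le
      neg' := hQ.neg }

/-- completion of a p-seminormed space -/
theorem exists_completion {W : Type} [AddCommGroup W] [Module 𝕜 W] {Q : W → ℝ} (hp : 0 < p)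
    (hQ : IsPFK 𝕜 p Q) :
    ∃ (G : Type) (_ : AddCommGroup G) (_ : Module 𝕜 G) (NG : G → ℝ) (j : W →ₗ[𝕜] G),
      IsPBanach 𝕜 p G NG ∧ (∀ v, NG (j v) ^ p = Q v) ∧ (∀ z, ∀ ε > 0, ∃ v, NG (z - j v) < ε) ∧
      (∀ (X : Type) [AddCommGroup X] [Module 𝕜 X] (NX : X → ℝ), IsPBanach 𝕜 p X NX →
        ∀ (T0 : W →ₗ[𝕜] X) (L : ℝ), 0 ≤ L → (∀ v, NX (T0 v) ≤ L * NG (j v)) →
          ∃ T : G →ₗ[𝕜] X, (∀ v, T (j v) = T0 v) ∧ ∀ z, NX (T z) ≤ L * NG z) := by
  letI : SeminormedAddCommGroup W := snGroup hp hQ
  have hnorm : ∀ v : W, ‖v‖ = Q v := fun v => rfl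
  have hsm : ∀ (t : 𝕜) (v : W), ‖t • v‖ = ‖t‖ ^ p * ‖v‖ := fun t v => hQ.smul t v
  haveI : UniformContinuousConstSMul 𝕜 W := ⟨fun t => by
    have hl : LipschitzWith (Real.toNNReal (‖t‖ ^ p)) (fun x : W => t • x) := by
      refine LipschitzWith.of_dist_le_mul (fun x y => ?_)
      rw [dist_eq_norm, dist_eq_norm, ← smul_sub, Real.coe_toNNReal _ (norm_rpow_nonneg _), hsm]
    exact hl.uniformContinuous⟩
  set G := UniformSpace.Completion W with hG
  have hcoe : ∀ v : W, ‖(v : G)‖ = Q v := fun v => UniformSpace.Completion.norm_coe v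
  have hsmG : ∀ (t : 𝕜) (z : G), ‖t • z‖ = ‖t‖ ^ p * ‖z‖ := by
    intro t z
    induction z using UniformSpace.Completion.induction_on with
    | hp =>
      apply isClosed_eq
      · exact (continuous_const_smul t).norm
      · exact continuous_const.mul continuous_norm
    | ih a =>
      rw [← UniformSpace.Completion.coe_smul, hcoe, hcoe]
      exact hQ.smul t a
  set j : W →ₗ[𝕜] G :=
    { toFun := fun v => (v : G)
      map_add' := fun a b => UniformSpace.Completion.coe_add a b
      map_smul' := fun t a => UniformSpace.Completion.coe_smul t a } with hj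
  set NG : G → ℝ := fun z => ‖z‖ ^ (1 / p) with hNG
  have hNGp : ∀ z, NG z ^ p = ‖z‖ := fun z => rpow_rpow_inv' hp (norm_nonneg z)
  have hip : 0 < 1 / p := by positivity
  refine ⟨G, inferInstance, inferInstance, NG, j, ?_, ?_, ?_, ?_⟩
  · refine ⟨fun x => Real.rpow_nonneg (norm_nonneg _) _, fun x => ?_, fun c x => ?_, fun x y => ?_,
      fun s hs => ?_⟩
    · simp only [hNG]
      rw [Real.rpow_eq_zero (norm_nonneg x) hip.ne', norm_eq_zero]
    · simp only [hNG]
      rw [hsmG, Real.mul_rpow (norm_rpow_nonneg _) (norm_nonneg _), rpow_inv_rpow' hp (norm_nonneg _)]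
    · rw [hNGp, hNGp, hNGp]; exact norm_add_le x y
    · have hcs : CauchySeq s := by
        rw [Metric.cauchySeq_iff]
        intro ε hε
        obtain ⟨K, hK⟩ := hs (ε ^ (1 / p)) (Real.rpow_pos_of_pos hε _)
        refine ⟨K, fun m hm n hn => ?_⟩
        have h1 := hK m hm n hn
        rw [dist_eq_norm]
        have h2 := Real.rpow_lt_rpow (Real.rpow_nonneg (norm_nonneg _) _) h1 hp
        rwa [hNGp, rpow_rpow_inv' hp hε.le] at h2
      obtain ⟨z, hz⟩ := cauchySeq_tendsto_of_complete hcs
      refine ⟨z, ?_⟩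
      rw [tendsto_iff_norm_sub_tendsto_zero] at hz
      have h1 : Filter.Tendsto (fun n => ‖s n - z‖ ^ (1 / p)) Filter.atTop (nhds ((0:ℝ) ^ (1 / p))) :=
        hz.rpow_const (Or.inr hip.le)
      rwa [Real.zero_rpow hip.ne'] at h1
  · intro v
    rw [hNGp]; exact hcoe v
  · intro z ε hε
    have hd : DenseRange ((↑) : W → G) := UniformSpace.Completion.denseRange_coe
    obtain ⟨v, hv⟩ := hd.exists_dist_lt z (Real.rpow_pos_of_pos hε p)
    refine ⟨v, ?_⟩
    rw [dist_eq_norm] at hv
    have h2 := Real.rpow_lt_rpow (norm_nonneg _) hv hip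
    rwa [rpow_inv_rpow' hp hε.le] at h2
  · intro X _ _ NX hX T0 L hL hT0
    have hXQ : IsPFK 𝕜 p (fun x => NX x ^ p) :=
      { nonneg := fun v => Real.rpow_nonneg (hX.nonneg v) _
        add_le := hX.add_le
        smul := fun t v => by rw [hX.smul, Real.mul_rpow (norm_nonneg _) (hX.nonneg v)] }
    letI instX : NormedAddCommGroup X := AddGroupNorm.toNormedAddCommGroup
      { toFun := fun x => NX x ^ p
        map_zero' := hXQ.zero hp
        add_le' := hXQ.add_le
        neg' := hXQ.neg
        eq_zero_of_map_eq_zero' := fun x hx => by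
          have h1 : NX x ^ p = 0 := hx
          rw [Real.rpow_eq_zero (hX.nonneg x) hp.ne'] at h1
          exact (hX.eq_zero_iff x).mp h1 }
    have hnX : ∀ x : X, ‖x‖ = NX x ^ p := fun x => rfl
    have hsX : ∀ (t : 𝕜) (x : X), ‖t • x‖ = ‖t‖ ^ p * ‖x‖ := fun t x => hXQ.smul t x
    haveI : ContinuousConstSMul 𝕜 X := ⟨fun t => by
      have hl : LipschitzWith (Real.toNNReal (‖t‖ ^ p)) (fun x : X => t • x) := by
        refine LipschitzWith.of_dist_le_mul (fun x y => ?_)
        rw [dist_eq_norm, dist_eq_norm, ← smul_sub, Real.coe_toNNReal _ (norm_rpow_nonneg _), hsX]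
      exact hl.continuous⟩
    haveI : CompleteSpace X := by
      apply Metric.complete_of_cauchySeq_tendsto
      intro s hs
      rw [Metric.cauchySeq_iff] at hs
      obtain ⟨z, hz⟩ := hX.complete s (fun ε hε => by
        obtain ⟨K, hK⟩ := hs (ε ^ p) (Real.rpow_pos_of_pos hε _)
        refine ⟨K, fun m hm n hn => ?_⟩
        have h1 := hK m hm n hn
        rw [dist_eq_norm, hnX] at h1
        have h2 := Real.rpow_lt_rpow (Real.rpow_nonneg (hX.nonneg _) _) h1 hip
        rwa [rpow_inv_rpow' hp (hX.nonneg _), rpow_inv_rpow' hp hε.le] at h2)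
      refine ⟨z, ?_⟩
      rw [tendsto_iff_norm_sub_tendsto_zero]
      have h1 : Filter.Tendsto (fun n => NX (s n - z) ^ p) Filter.atTop (nhds ((0:ℝ) ^ p)) :=
        hz.rpow_const (Or.inr hp.le)
      rw [Real.zero_rpow hp.ne'] at h1
      exact h1
    have hbound : ∀ v, ‖T0 v‖ ≤ L ^ p * ‖v‖ := by
      intro v
      rw [hnX]
      have h1 := Real.rpow_le_rpow (hX.nonneg _) (hT0 v) hp.le
      rw [Real.mul_rpow hL (Real.rpow_nonneg (norm_nonneg _) _)] at h1
      have h2 : NG (j v) ^ p = ‖v‖ := by rw [hNGp]; exact hcoe v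
      rwa [h2] at h1
    have hcont : Continuous T0.toAddMonoidHom := by
      have hl : LipschitzWith (Real.toNNReal (L ^ p)) (T0.toAddMonoidHom : W → X) := by
        refine LipschitzWith.of_dist_le_mul (fun x y => ?_)
        rw [dist_eq_norm, dist_eq_norm, ← map_sub, Real.coe_toNNReal _ (Real.rpow_nonneg hL _)]
        exact hbound _
      exact hl.continuous
    set T1 : G →+ X := T0.toAddMonoidHom.extension hcont with hT1
    have hT1c : Continuous T1 := AddMonoidHom.continuous_extension _ hcont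
    have hT1coe : ∀ v : W, T1 (v : G) = T0 v := fun v => AddMonoidHom.extension_coe _ hcont v
    refine ⟨{ toFun := T1, map_add' := map_add T1, map_smul' := fun t z => ?_ }, fun v => hT1coe v, fun z => ?_⟩
    · simp only [RingHom.id_apply]
      induction z using UniformSpace.Completion.induction_on with
      | hp =>
        apply isClosed_eq
        · exact hT1c.comp (continuous_const_smul t)
        · exact (continuous_const_smul t).comp hT1c
      | ih a =>
        rw [← UniformSpace.Completion.coe_smul, hT1coe, hT1coe, map_smul]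
    · have h1 : ‖T1 z‖ ≤ L ^ p * ‖z‖ := by
        induction z using UniformSpace.Completion.induction_on with
        | hp =>
          apply isClosed_le
          · exact hT1c.norm
          · exact continuous_const.mul continuous_norm
        | ih a =>
          rw [hT1coe, hcoe]
          exact hbound a
      change NX (T1 z) ≤ L * NG z
      have h2 := Real.rpow_le_rpow (norm_nonneg _) h1 hip.le
      rw [hnX, rpow_inv_rpow' hp (hX.nonneg _), Real.mul_rpow (Real.rpow_nonneg hL _) (norm_nonneg _),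
        rpow_inv_rpow' hp hL] at h2
      exact h2

variable {M : Type} [MetricSpace M]

/-- the norm of the free p-space is given by the explicit formula -/
theorem free_norm (hp : 0 < p) (hp1 : p ≤ 1) {o : M} {F : Type} [AddCommGroup F] [Module 𝕜 F]
    {N : F → ℝ} {δ : M → F} (hF : IsFreePSpace 𝕜 p M o F N δ) (μ : M →₀ 𝕜) :
    N (Finsupp.linearCombination 𝕜 δ μ) ^ p = nnK p o μ := by
  apply le_antisymm
  · have hQ : IsPFK 𝕜 p (fun v : M →₀ 𝕜 => N (Finsupp.linearCombination 𝕜 δ v) ^ p) :=
      { nonneg := fun v => Real.rpow_nonneg (hF.pbanach.nonneg _) _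
        add_le := fun v w => by rw [map_add]; exact hF.pbanach.add_le _ _
        smul := fun t v => by
          rw [map_smul, hF.pbanach.smul, Real.mul_rpow (norm_nonneg _) (hF.pbanach.nonneg _)] }
    have h := le_nnK hp hQ (o := o) (C := 1) ?_ (by norm_num) ?_ μ
    · rwa [one_mul] at h
    · rw [Finsupp.linearCombination_single, one_smul, hF.base, (hF.pbanach.eq_zero_iff 0).mpr rfl,
        Real.zero_rpow hp.ne']
    · intro e
      rw [edK, map_sub, Finsupp.linearCombination_single, Finsupp.linearCombination_single, one_smul,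
        one_smul, hF.isometric, one_mul, ωf]
  · obtain ⟨G, _, _, NG, j, hG, hj, _, _⟩ := exists_completion hp (isPFK_nnK (𝕜 := 𝕜) hp hp1 o)
    have hjo : j (dlK 𝕜 o) = 0 := by
      rw [← hG.eq_zero_iff]
      have h1 := hj (dlK 𝕜 o)
      rw [nnK_base, Real.rpow_eq_zero (hG.nonneg _) hp.ne'] at h1
      exact h1
    obtain ⟨T, hT1, hT2, _⟩ := hF.universal G NG hG (fun s => j (dlK 𝕜 s)) 1 zero_le_one hjo
      (fun s t => by
        rw [← map_sub, one_mul]
        have h1 := hj (dlK 𝕜 s - dlK 𝕜 t)
        have h2 := nnK_edK_le (𝕜 := 𝕜) hp o (s, t)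
        have h3 : NG (j (dlK 𝕜 s - dlK 𝕜 t)) ^ p ≤ dist s t ^ p := by rw [h1]; exact h2
        exact (Real.rpow_le_rpow_iff (hG.nonneg _) dist_nonneg hp).mp h3)
    have h1 : T (Finsupp.linearCombination 𝕜 δ μ) = j μ := by
      have : T.comp (Finsupp.linearCombination 𝕜 δ) = j := by
        apply Finsupp.lhom_ext'
        intro s
        ext
        simp only [LinearMap.comp_apply, Finsupp.lsingle_apply, Finsupp.linearCombination_single,
          one_smul]
        exact hT1 s
      rw [← this]; rfl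
    rw [← hj μ, ← h1]
    have h2 := hT2 (Finsupp.linearCombination 𝕜 δ μ)
    rw [one_mul] at h2
    exact Real.rpow_le_rpow (hG.nonneg _) h2 hp.le

/-- Lipschitz free p-spaces exist -/
theorem exists_free (hp : 0 < p) (hp1 : p ≤ 1) (o : M) :
    ∃ (F : Type) (_ : AddCommGroup F) (_ : Module 𝕜 F) (N : F → ℝ) (δ : M → F),
      IsFreePSpace 𝕜 p M o F N δ := by
  obtain ⟨G, _, _, NG, j, hG, hj, hd, hext⟩ := exists_completion hp (isPFK_nnK (𝕜 := 𝕜) hp hp1 o)
  have hjo : j (dlK 𝕜 o) = 0 := by
    rw [← hG.eq_zero_iff]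
    have h1 := hj (dlK 𝕜 o)
    rw [nnK_base, Real.rpow_eq_zero (hG.nonneg _) hp.ne'] at h1
    exact h1
  have hspan : ∀ v : M →₀ 𝕜, j v ∈ Submodule.span 𝕜 (Set.range (fun s => j (dlK 𝕜 s))) := by
    intro v
    rw [← Finsupp.sum_single v, Finsupp.sum, map_sum]
    refine Submodule.sum_mem _ (fun s _ => ?_)
    have : Finsupp.single s (v s) = v s • dlK 𝕜 s := by
      rw [Finsupp.smul_single, smul_eq_mul, mul_one]
    rw [this, map_smul]
    exact Submodule.smul_mem _ _ (Submodule.subset_span ⟨s, rfl⟩)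
  refine ⟨G, inferInstance, inferInstance, NG, fun s => j (dlK 𝕜 s), hG, hjo, ?_, ?_, ?_⟩
  · intro s t
    apply le_antisymm
    · have h2 := nnK_edK_le (𝕜 := 𝕜) hp o (s, t)
      have h3 : NG (j (dlK 𝕜 s) - j (dlK 𝕜 t)) ^ p ≤ dist s t ^ p := by
        rw [← map_sub, hj]; exact h2
      exact (Real.rpow_le_rpow_iff (hG.nonneg _) dist_nonneg hp).mp h3
    · -- lower bound by the 1-Lipschitz function dist · t
      set L : (M →₀ 𝕜) →ₗ[𝕜] 𝕜 := Finsupp.linearCombination 𝕜 (fun u => ((dist u t - dist o t : ℝ) : 𝕜)) with hL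
      have hQ : IsPFK 𝕜 p (fun v : M →₀ 𝕜 => ‖L v‖ ^ p) :=
        { nonneg := fun v => norm_rpow_nonneg _
          add_le := fun v w => by rw [map_add]; exact norm_add_rpow_le hp hp1 _ _
          smul := fun t v => by
            rw [map_smul, smul_eq_mul, norm_mul, Real.mul_rpow (norm_nonneg _) (norm_nonneg _)] }
      have hLe : ∀ e : M × M, L (edK 𝕜 e) = ((dist e.1 t - dist e.2 t : ℝ) : 𝕜) := by
        intro e
        rw [hL, edK, map_sub, Finsupp.linearCombination_single, Finsupp.linearCombination_single,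
          one_smul, one_smul, ← RCLike.ofReal_sub]
        congr 1; ring
      have h := le_nnK hp hQ (o := o) (C := 1) ?_ (by norm_num) ?_ (edK 𝕜 (s, t))
      · rw [one_mul, hLe, RCLike.norm_ofReal, dist_self, sub_zero, abs_of_nonneg dist_nonneg] at h
        have h3 : dist s t ^ p ≤ NG (j (dlK 𝕜 s) - j (dlK 𝕜 t)) ^ p := by
          rw [← map_sub, hj]; exact h
        exact (Real.rpow_le_rpow_iff dist_nonneg (hG.nonneg _) hp).mp h3
      · rw [hL, Finsupp.linearCombination_single, one_smul, sub_self, RCLike.ofReal_zero, norm_zero,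
          Real.zero_rpow hp.ne']
      · intro e
        rw [hLe, one_mul, RCLike.norm_ofReal, ωf]
        exact Real.rpow_le_rpow (abs_nonneg _) (abs_dist_sub_le _ _ _) hp.le
  · intro z ε hε
    obtain ⟨v, hv⟩ := hd z ε hε
    exact ⟨j v, hspan v, hv⟩
  · intro X _ _ NX hX f L hL hfo hf
    have hQ : IsPFK 𝕜 p (fun v : M →₀ 𝕜 => NX (Finsupp.linearCombination 𝕜 f v) ^ p) :=
      { nonneg := fun v => Real.rpow_nonneg (hX.nonneg _) _
        add_le := fun v w => by rw [map_add]; exact hX.add_le _ _
        smul := fun t v => by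
          rw [map_smul, hX.smul, Real.mul_rpow (norm_nonneg _) (hX.nonneg _)] }
    have hb : ∀ v, NX (Finsupp.linearCombination 𝕜 f v) ≤ L * NG (j v) := by
      intro v
      have h := le_nnK hp hQ (o := o) (C := L ^ p) ?_ (Real.rpow_nonneg hL _) ?_ v
      · rw [← hj v, ← Real.mul_rpow hL (hG.nonneg _)] at h
        exact (Real.rpow_le_rpow_iff (hX.nonneg _) (mul_nonneg hL (hG.nonneg _)) hp).mp h
      · rw [Finsupp.linearCombination_single, one_smul, hfo, (hX.eq_zero_iff 0).mpr rfl,
          Real.zero_rpow hp.ne']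
      · intro e
        rw [edK, map_sub, Finsupp.linearCombination_single, Finsupp.linearCombination_single, one_smul,
          one_smul, ωf, ← Real.mul_rpow hL dist_nonneg]
        exact Real.rpow_le_rpow (hX.nonneg _) (hf _ _) hp.le
    obtain ⟨T, hT1, hT2⟩ := hext X NX hX (Finsupp.linearCombination 𝕜 f) L hL hb
    refine ⟨T, fun s => ?_, hT2, ?_⟩
    · rw [hT1, Finsupp.linearCombination_single, one_smul]
    · rintro T' ⟨C, hC⟩ hT'
      have hagree : ∀ v, T' (j v) = T (j v) := by
        intro v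
        have : T'.comp j = T.comp j := by
          apply Finsupp.lhom_ext'
          intro s
          ext
          simp only [LinearMap.comp_apply, Finsupp.lsingle_apply]
          rw [hT' s, hT1, Finsupp.linearCombination_single, one_smul]
        exact LinearMap.congr_fun this v
      ext z
      rw [← sub_eq_zero, ← hX.eq_zero_iff]
      have hXp : ∀ a b, NX (a - b) ^ p ≤ NX a ^ p + NX b ^ p := by
        intro a b
        have h1 := hX.add_le a (-b)
        have h2 : NX (-b) = NX b := by
          have := hX.smul (-1) b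
          rwa [neg_one_smul, norm_neg, norm_one, one_mul] at this
        rwa [h2, ← sub_eq_add_neg] at h1
      have hsmall : ∀ ε > 0, NX (T' z - T z) ^ p ≤ ((max C 0) ^ p + L ^ p) * ε ^ p := by
        intro ε hε
        obtain ⟨v, hv⟩ := hd z ε hε
        have h1 : T' z - T z = T' (z - j v) - T (z - j v) := by
          rw [map_sub, map_sub, hagree]; abel
        rw [h1]
        refine (hXp _ _).trans ?_
        rw [add_mul]
        have hz0 := hG.nonneg (z - j v)
        refine add_le_add ?_ ?_
        · rw [← Real.mul_rpow (le_max_right _ _) hε.le]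
          refine Real.rpow_le_rpow (hX.nonneg _) ?_ hp.le
          refine (hC _).trans ?_
          calc C * NG (z - j v) ≤ max C 0 * NG (z - j v) :=
                mul_le_mul_of_nonneg_right (le_max_left _ _) hz0
            _ ≤ max C 0 * ε := mul_le_mul_of_nonneg_left hv.le (le_max_right _ _)
        · rw [← Real.mul_rpow hL hε.le]
          refine Real.rpow_le_rpow (hX.nonneg _) ?_ hp.le
          exact (hT2 _).trans (mul_le_mul_of_nonneg_left hv.le hL)
      have h0 : NX (T' z - T z) ^ p ≤ 0 := by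
        refine le_of_forall_pos_lt_add (fun η hη => ?_)
        set K := (max C 0) ^ p + L ^ p with hK
        have hK0 : 0 ≤ K := add_nonneg (Real.rpow_nonneg (le_max_right _ _) _) (Real.rpow_nonneg hL _)
        have h1 := hsmall ((η / (K + 1)) ^ (1 / p)) (Real.rpow_pos_of_pos (by positivity) _)
        rw [rpow_rpow_inv' hp (by positivity)] at h1
        have h2 : K * (η / (K + 1)) < η := by
          rw [mul_div_assoc', div_lt_iff₀ (by linarith)]
          nlinarith
        linarith
      have h1 := le_antisymm h0 (Real.rpow_nonneg (hX.nonneg _) _)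
      rwa [Real.rpow_eq_zero (hX.nonneg _) hp.ne'] at h1

end

end Pool.Agent.H262.FP
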