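import Mathlib
import Pool.Agent.H262.FK4

set_option autoImplicit false

/-!
The Schur p-property, Kalton's property and normed subspaces of Lipschitz free p-spaces.
-/

namespace Pool.Agent.H262.FP

open Finset FreeP

noncomputable section

open scoped Classical

variable {𝕜 : Type} [RCLike 𝕜] {p : ℝ}

theorem isPFK_rpow {F : Type} [AddCommGroup F] [Module 𝕜 F] {N : F → ℝ}
    (hF : IsPBanach 𝕜 p F N) : IsPFK 𝕜 p (fun z => N z ^ p) where
  nonneg := fun v => Real.rpow_nonneg (hF.nonneg v) _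
  add_le := hF.add_le
  smul := fun t v => by rw [hF.smul, Real.mul_rpow (norm_nonneg _) (hF.nonneg v)]

variable {M : Type} [MetricSpace M] {o : M} {F : Type} [AddCommGroup F] [Module 𝕜 F]
  {N : F → ℝ} {δ : M → F}

theorem exists_fin_approx (hp : 0 < p) (hF : IsFreePSpace 𝕜 p M o F N δ) (z : F) {ε : ℝ}
    (hε : 0 < ε) : ∃ μ : M →₀ 𝕜, N (z - Finsupp.linearCombination 𝕜 δ μ) ^ p ≤ ε := by
  obtain ⟨w, hw, h1⟩ := hF.dense z (ε ^ (1 / p)) (Real.rpow_pos_of_pos hε _)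
  rw [← Finsupp.range_linearCombination] at hw
  obtain ⟨μ, rfl⟩ := hw
  refine ⟨μ, ?_⟩
  have h3 := Real.rpow_le_rpow (hF.pbanach.nonneg _) h1.le hp.le
  rwa [rpow_rpow_inv' hp hε.le] at h3

theorem transferK (hp : 0 < p) (hp1 : p < 1) (hF : IsFreePSpace 𝕜 p M o F N δ)
    {y : ℕ → F} {B : ℝ} (hB : ∀ n, N (y n) ≤ B) {c0 : ℝ} (hc0 : 0 < c0)
    (hsep : ∀ n m, n < m → c0 ≤ N (y n - y m)) : LPK 𝕜 (fun z => N z ^ p) p y := by
  have hPF := isPFK_rpow hF.pbanach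
  have h0 := hF.pbanach.nonneg
  set ι := Finsupp.linearCombination 𝕜 δ with hι
  have hιN : ∀ μ : M →₀ 𝕜, N (ι μ) ^ p = nnK p o μ := free_norm hp hp1.le hF
  have happ : ∀ n : ℕ, ∃ μ : M →₀ 𝕜, N (y n - ι μ) ^ p ≤ 1 / ((n:ℝ) + 1) :=
    fun n => exists_fin_approx hp hF (y n) (by positivity)
  choose μ hμ using happ
  have hB0 : 0 ≤ B := (h0 _).trans (hB 0)
  have hτ1 : ∀ n : ℕ, 1 / ((n:ℝ) + 1) ≤ 1 := by
    intro n
    rw [div_le_one (by positivity)]
    have : (0:ℝ) ≤ n := Nat.cast_nonneg n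
    linarith
  have hb : ∀ n, nnK p o (μ n) ≤ B ^ p + 1 := by
    intro n
    rw [← hιN (μ n)]
    have h1 : ι (μ n) = y n - (y n - ι (μ n)) := by abel
    have h2 := hPF.sub_le (y n) (y n - ι (μ n))
    rw [← h1] at h2
    have h3 := Real.rpow_le_rpow (h0 _) (hB n) hp.le
    have h4 := hμ n
    have h5 := hτ1 n
    linarith
  have hc0p : 0 < c0 ^ p := Real.rpow_pos_of_pos hc0 _
  obtain ⟨K, hK⟩ := exists_nat_gt (4 / c0 ^ p)
  have hKτ : ∀ n, K ≤ n → 1 / ((n:ℝ) + 1) ≤ c0 ^ p / 4 := by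
    intro n hn
    have h1 : (K:ℝ) ≤ n := by exact_mod_cast hn
    rw [div_le_iff₀ (by positivity)]
    rw [div_lt_iff₀ hc0p] at hK
    nlinarith
  have hsep' : ∀ n m, K ≤ n → n < m → c0 ^ p / 2 ≤ nnK p o (μ n - μ m) := by
    intro n m hn hnm
    rw [← hιN, map_sub]
    have h1 : y n - y m = (ι (μ n) - ι (μ m)) + ((y n - ι (μ n)) - (y m - ι (μ m))) := by abel
    have h2 := hPF.add_le (ι (μ n) - ι (μ m)) ((y n - ι (μ n)) - (y m - ι (μ m)))
    rw [← h1] at h2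
    have h3 := hPF.sub_le (y n - ι (μ n)) (y m - ι (μ m))
    have h4 := Real.rpow_le_rpow hc0.le (hsep n m hnm) hp.le
    have h5 := (hμ n).trans (hKτ n hn)
    have h6 := (hμ m).trans (hKτ m (by omega))
    linarith
  obtain ⟨φ, hφ, c, hc, hlow⟩ := main_K hp hp1 o hb (by positivity : 0 < c0 ^ p / 2) hsep'
  obtain ⟨k0, hk0⟩ := exists_nat_gt (2 / c)
  have hφk : ∀ k, 1 / ((φ (k0 + k) : ℝ) + 1) ≤ c / 2 := by
    intro k
    have h1 : k0 + k ≤ φ (k0 + k) := hφ.id_le _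
    have h2 : (k0:ℝ) ≤ (φ (k0 + k) : ℝ) := by exact_mod_cast (Nat.le_add_right k0 k).trans h1
    rw [div_le_iff₀ (by positivity)]
    rw [div_lt_iff₀ hc] at hk0
    nlinarith
  refine ⟨fun k => φ (k0 + k), fun a b hab => hφ (by omega), c / 2, by positivity, fun G β => ?_⟩
  have h1 := hlow (G.image (fun k => k0 + k)) (fun k => β (k - k0))
  rw [Finset.sum_image (fun a _ b _ hab => Nat.add_left_cancel hab),
    Finset.sum_image (fun a _ b _ hab => Nat.add_left_cancel hab)] at h1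
  simp only [Nat.add_sub_cancel_left] at h1
  rw [← hιN] at h1
  have h2 : ι (∑ k ∈ G, β k • μ (φ (k0 + k))) = (∑ k ∈ G, β k • y (φ (k0 + k))) -
      ∑ k ∈ G, β k • (y (φ (k0 + k)) - ι (μ (φ (k0 + k)))) := by
    rw [map_sum, ← Finset.sum_sub_distrib]
    refine Finset.sum_congr rfl (fun k _ => ?_)
    rw [map_smul, smul_sub, sub_sub_cancel]
  have h3 := hPF.sub_le (∑ k ∈ G, β k • y (φ (k0 + k)))
    (∑ k ∈ G, β k • (y (φ (k0 + k)) - ι (μ (φ (k0 + k)))))
  rw [← h2] at h3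
  have h4 : N (∑ k ∈ G, β k • (y (φ (k0 + k)) - ι (μ (φ (k0 + k))))) ^ p ≤
      (c / 2) * ∑ k ∈ G, ‖β k‖ ^ p := by
    refine (hPF.sum_le hp _ _).trans ?_
    rw [Finset.mul_sum]
    refine Finset.sum_le_sum (fun k _ => ?_)
    have h5 := hPF.smul (β k) (y (φ (k0 + k)) - ι (μ (φ (k0 + k))))
    rw [h5, mul_comm]
    exact mul_le_mul_of_nonneg_right ((hμ _).trans (hφk k)) (norm_rpow_nonneg _)
  simp only at h3 ⊢
  linarith

omit [MetricSpace M] in
theorem equivLp_of_LPK (hp : 0 < p) (hF : IsPBanach 𝕜 p F N) {y : ℕ → F} {B : ℝ}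
    (hB : ∀ n, N (y n) ≤ B) (h : LPK 𝕜 (fun z => N z ^ p) p y) :
    ∃ φ : ℕ → ℕ, StrictMono φ ∧ EquivLp 𝕜 p N (fun n => y (φ n)) := by
  obtain ⟨φ, hφ, c, hc, hlow⟩ := h
  have hPF := isPFK_rpow hF
  have h0 := hF.nonneg
  have hip : 0 < 1 / p := by positivity
  have hB0 : 0 ≤ B := (h0 _).trans (hB 0)
  refine ⟨φ, hφ, c ^ (1 / p), max B (c ^ (1 / p)), Real.rpow_pos_of_pos hc _, le_max_right _ _,
    fun a => ?_⟩
  have hs0 : 0 ≤ ∑ k ∈ a.support, ‖a k‖ ^ p := Finset.sum_nonneg (fun _ _ => norm_rpow_nonneg _)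
  constructor
  · have h1 := hlow a.support (fun k => a k)
    have h2 := Real.rpow_le_rpow (mul_nonneg hc.le hs0) h1 hip.le
    rw [Real.mul_rpow hc.le hs0, rpow_inv_rpow' hp (h0 _)] at h2
    exact h2
  · have h1 := hPF.sum_le hp a.support (fun k => a k • y (φ k))
    have h2 : ∑ k ∈ a.support, N (a k • y (φ k)) ^ p ≤ B ^ p * ∑ k ∈ a.support, ‖a k‖ ^ p := by
      rw [Finset.mul_sum]
      refine Finset.sum_le_sum (fun k _ => ?_)
      have h5 := hPF.smul (a k) (y (φ k))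
      rw [h5, mul_comm]
      exact mul_le_mul_of_nonneg_right (Real.rpow_le_rpow (h0 _) (hB _) hp.le) (norm_rpow_nonneg _)
    have h3 := Real.rpow_le_rpow (Real.rpow_nonneg (h0 _) _) (h1.trans h2) hip.le
    rw [rpow_inv_rpow' hp (h0 _), Real.mul_rpow (Real.rpow_nonneg hB0 _) hs0,
      rpow_inv_rpow' hp hB0] at h3
    refine h3.trans ?_
    exact mul_le_mul_of_nonneg_right (le_max_left _ _) (Real.rpow_nonneg hs0 _)

/-- every Lipschitz free p-space has the Schur p-property -/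
theorem schur (hp : 0 < p) (hp1 : p < 1) (hF : IsFreePSpace 𝕜 p M o F N δ) : SchurP 𝕜 p F N := by
  intro A hA hbd hsep
  obtain ⟨B, hB⟩ := hbd
  obtain ⟨η, hη, hsep⟩ := hsep
  set e := hA.natEmbedding A with he
  have h1 := transferK hp hp1 hF (y := fun n => (e n : F)) (B := B) (fun n => hB _ (e n).2) hη
    (fun n m hnm => hsep _ (e n).2 _ (e m).2 (fun h => by
      have := e.injective (Subtype.ext h)
      omega))
  obtain ⟨φ, _, h2⟩ := equivLp_of_LPK hp hF.pbanach (fun n => hB _ (e n).2) h1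
  exact ⟨_, fun n => (e (φ n)).2, h2⟩

/-- a bounded set failing Kalton's property contains a sequence equivalent to the `ℓ_p` basis -/
theorem kalton (hp : 0 < p) (hp1 : p < 1) (hF : IsFreePSpace 𝕜 p M o F N δ) {W : Set F}
    {B : ℝ} (hB : ∀ x ∈ W, N x ≤ B) (hW : ¬ KaltonProperty 𝕜 N δ W) :
    ∃ x : ℕ → F, (∀ n, x n ∈ W) ∧ EquivLp 𝕜 p N x := by
  have hPF := isPFK_rpow hF.pbanach
  have h0 := hF.pbanach.nonneg
  unfold KaltonProperty at hW
  push Not at hW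
  obtain ⟨ε, hε, r, hr, hW⟩ := hW
  have hεp : 0 < ε ^ p := Real.rpow_pos_of_pos hε _
  have happ : ∀ z : F, ∃ μ : M →₀ 𝕜, N (z - Finsupp.linearCombination 𝕜 δ μ) ^ p ≤ ε ^ p / 2 :=
    fun z => exists_fin_approx hp hF z (by positivity)
  choose μ hμ using happ
  obtain ⟨y, hy1, hy2⟩ := exists_seq_of_forall_finset_exists (fun z : F => z ∈ W)
    (fun a b => ε ^ p / 2 ≤ N (a - b) ^ p) (fun s _ => by
      obtain ⟨b, hb, hb2⟩ := hW (s.biUnion (fun a => (μ a).support))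
      refine ⟨b, hb, fun a ha => ?_⟩
      have h1 := hb2 (Finsupp.linearCombination 𝕜 δ (μ a)) (fun η hη => by
        refine ⟨Finsupp.linearCombination 𝕜 δ (μ a), ?_, ?_⟩
        · rw [Finsupp.linearCombination_apply]
          refine Submodule.sum_mem _ (fun u hu => Submodule.smul_mem _ _ (Submodule.subset_span ?_))
          exact ⟨u, ⟨u, Finset.mem_biUnion.mpr ⟨a, ha, hu⟩, by rw [dist_self]; exact hr.le⟩, rfl⟩
        · rw [sub_self, (hF.pbanach.eq_zero_iff 0).mpr rfl]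
          exact hη)
      have h2 := Real.rpow_le_rpow hε.le h1.le hp.le
      have h3 : b - Finsupp.linearCombination 𝕜 δ (μ a) =
          (a - Finsupp.linearCombination 𝕜 δ (μ a)) - (a - b) := by abel
      have h4 := hPF.sub_le (a - Finsupp.linearCombination 𝕜 δ (μ a)) (a - b)
      rw [← h3] at h4
      have h5 := hμ a
      linarith)
  have hsep : ∀ n m, n < m → (ε ^ p / 2) ^ (1 / p) ≤ N (y n - y m) := by
    intro n m hnm
    have h1 := Real.rpow_le_rpow (by positivity) (hy2 n m hnm) (by positivity : (0:ℝ) ≤ 1 / p)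
    rwa [rpow_inv_rpow' hp (h0 _)] at h1
  have h1 := transferK hp hp1 hF (fun n => hB _ (hy1 n))
    (Real.rpow_pos_of_pos (by positivity : 0 < ε ^ p / 2) (1 / p)) hsep
  obtain ⟨φ, _, h2⟩ := equivLp_of_LPK hp hF.pbanach (fun n => hB _ (hy1 n)) h1
  exact ⟨_, fun n => hy1 _, h2⟩

/-- no infinite-dimensional normed space embeds -/
theorem no_normedK (hp : 0 < p) (hp1 : p < 1) (hF : IsFreePSpace 𝕜 p M o F N δ)
    (X : Type*) [NormedAddCommGroup X] [NormedSpace 𝕜 X]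
    (T : X →ₗ[𝕜] F) {C c : ℝ} (hc : 0 < c) (hT1 : ∀ x, N (T x) ≤ C * ‖x‖)
    (hT2 : ∀ x, c * ‖x‖ ≤ N (T x)) : FiniteDimensional 𝕜 X := by
  by_contra hX
  have h0 := hF.pbanach.nonneg
  obtain ⟨R, f, hR, hf1, hf2⟩ := exists_seq_norm_le_one_le_norm_sub (𝕜 := 𝕜) hX
  have hR0 : 0 < R := by linarith
  have hC0 : 0 ≤ C := by
    have h1 := hf2 (show (0:ℕ) ≠ 1 by norm_num)
    have h2 := hT1 (f 0 - f 1)
    have h3 := h0 (T (f 0 - f 1))
    by_contra hneg
    rw [not_le] at hneg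
    nlinarith
  have hLP := transferK hp hp1 hF (y := fun n => T (f n)) (B := C * R)
    (fun n => (hT1 _).trans (mul_le_mul_of_nonneg_left (hf1 n) hC0)) hc
    (fun n m hnm => by
      rw [← map_sub]
      have h1 := hf2 (ne_of_lt hnm)
      have h2 := hT2 (f n - f m)
      nlinarith)
  obtain ⟨φ, hφ, c', hc', hlow⟩ := hLP
  have key : ∀ k : ℕ, c' * k ≤ (C * R) ^ p * (k:ℝ) ^ p := by
    intro k
    have h1 := hlow (Finset.range k) (fun _ => 1)
    simp only [norm_one, Real.one_rpow, Finset.sum_const, Finset.card_range, one_smul,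
      nsmul_eq_mul, mul_one] at h1
    refine h1.trans ?_
    rw [← map_sum, ← Real.mul_rpow (by positivity) (Nat.cast_nonneg k)]
    refine Real.rpow_le_rpow (h0 _) ?_ hp.le
    refine (hT1 _).trans ?_
    rw [mul_assoc]
    refine mul_le_mul_of_nonneg_left ?_ hC0
    refine (norm_sum_le _ _).trans ?_
    have := Finset.sum_le_card_nsmul (Finset.range k) (fun i => ‖f (φ i)‖) R (fun i _ => hf1 _)
    rw [Finset.card_range, nsmul_eq_mul] at this
    linarith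
  have hlim : Filter.Tendsto (fun k : ℕ => (k:ℝ) ^ (1 - p)) Filter.atTop Filter.atTop :=
    (tendsto_rpow_atTop (by linarith)).comp tendsto_natCast_atTop_atTop
  obtain ⟨k, hk1, hk2⟩ := ((hlim.eventually_gt_atTop ((C * R) ^ p / c')).and
    (Filter.eventually_gt_atTop 0)).exists
  have hk0 : (0:ℝ) < k := by exact_mod_cast hk2
  have h1 := key k
  have h2 : (k:ℝ) = (k:ℝ) ^ p * (k:ℝ) ^ (1 - p) := by
    rw [← Real.rpow_add hk0]; simp
  have h3 : 0 < (k:ℝ) ^ p := Real.rpow_pos_of_pos hk0 _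
  rw [div_lt_iff₀ hc'] at hk1
  have h4 : c' * k = (k:ℝ) ^ p * ((k:ℝ) ^ (1 - p) * c') := by
    nth_rewrite 1 [h2]; ring
  rw [h4] at h1
  nlinarith

end

end Pool.Agent.H262.FP
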