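import Mathlib
import Pool.Agent.H262.FP7

set_option autoImplicit false

/-!
Transfer to complete models of the Lipschitz free p-space.
-/

namespace Pool.Agent.H262.FP

open Finset

noncomputable section

open scoped Classical

variable {M : Type*} [MetricSpace M] {p : ℝ}

/-- the set of costs of representations of `μ` -/
def repCosts (p : ℝ) (μ : M →₀ ℝ) : Set ℝ :=
  {t : ℝ | ∃ (n : ℕ) (b : Fin n → ℝ) (u v : Fin n → M),
    μ = ∑ j, b j • (Finsupp.single (u j) (1:ℝ) - Finsupp.single (v j) (1:ℝ)) ∧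
    t = ∑ j, |b j| ^ p * dist (u j) (v j) ^ p}

theorem isGLB_repCosts (hp : 0 < p) (hp1 : p ≤ 1) (o : M) (μ : M →₀ ℝ)
    (hμ : μ.sum (fun _ a => a) = 0) : IsGLB (repCosts p μ) (nn p (ωf p) o μ) := by
  have hωf := ωf_nonneg (M := M) p
  have hmem : ∀ (f : (M × M) →₀ ℝ), μ = bd f → cost p (ωf p) f ∈ repCosts p μ := by
    intro f hf
    set eqv := f.support.equivFin with heqv
    refine ⟨f.support.card, fun j => f (eqv.symm j).1, fun j => (eqv.symm j).1.1,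
      fun j => (eqv.symm j).1.2, ?_, ?_⟩
    · rw [hf, bd_apply, ← Finset.sum_coe_sort]
      rw [← Equiv.sum_comp eqv.symm]
      rfl
    · rw [cost, ← Finset.sum_coe_sort, ← Equiv.sum_comp eqv.symm]
      rfl
  have htot : tot μ = 0 := by
    rw [← hμ, tot, Finsupp.linearCombination_apply]
    simp
  constructor
  · rintro _ ⟨n, b, u, v, h1, rfl⟩
    have h2 := nn_sum_le hp hp1 hωf o Finset.univ b (fun j => (u j, v j))
    have h3 : ∑ j, b j • ed (u j, v j) = μ := h1.symm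
    rw [h3] at h2
    refine h2.trans (le_of_eq ?_)
    rfl
  · intro L hL
    refine le_csInf (costSet_nonempty o μ) ?_
    rintro _ ⟨f, t, h1, rfl⟩
    have h2 : t = 0 := by
      have := congrArg tot h1
      rw [htot, map_add, tot_bd, map_smul, tot_dl] at this
      simpa using this.symm
    rw [h2, zero_smul, add_zero] at h1
    exact hL (hmem f h1)

section transfer

variable {F : Type*} [AddCommGroup F] [Module ℝ F] {N : F → ℝ}

theorem isPF_rpow (hp : 0 < p) (h0 : ∀ x, 0 ≤ N x) (hs : ∀ (c : ℝ) (x : F), N (c • x) = |c| * N x)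
    (ha : ∀ x y, N (x + y) ^ p ≤ N x ^ p + N y ^ p) : IsPF p (fun z => N z ^ p) where
  nonneg := fun v => Real.rpow_nonneg (h0 v) _
  add_le := ha
  smul := fun t v => by rw [hs, Real.mul_rpow (abs_nonneg _) (h0 v)]

/-- transfer of the main theorem -/
theorem main_transfer (hp : 0 < p) (hp1 : p < 1) (o : M) (h0 : ∀ x, 0 ≤ N x)
    (hs : ∀ (c : ℝ) (x : F), N (c • x) = |c| * N x)
    (ha : ∀ x y, N (x + y) ^ p ≤ N x ^ p + N y ^ p) (ι : (M →₀ ℝ) →ₗ[ℝ] F)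
    (hι : ∀ μ : M →₀ ℝ, μ.sum (fun _ a => a) = 0 → N (ι μ) ^ p = nn p (ωf p) o μ)
    (hd : ∀ z : F, ∀ ε > 0, ∃ μ : M →₀ ℝ, μ.sum (fun _ a => a) = 0 ∧ N (z - ι μ) < ε)
    {y : ℕ → F} {B : ℝ} (hB : ∀ n, N (y n) ≤ B) {c0 : ℝ} (hc0 : 0 < c0)
    (hsep : ∀ n m, n < m → c0 ≤ N (y n - y m)) : LP (fun z => N z ^ p) p y := by
  have hPF := isPF_rpow hp h0 hs ha
  have hsumadd : ∀ (a b : M →₀ ℝ), a.sum (fun _ a => a) = 0 → b.sum (fun _ a => a) = 0 →
      (a - b).sum (fun _ a => a) = 0 := by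
    intro a b h1 h2
    rw [Finsupp.sum_sub_index (fun _ _ _ => rfl), h1, h2, sub_zero]
  have happ : ∀ n : ℕ, ∃ μ : M →₀ ℝ, μ.sum (fun _ a => a) = 0 ∧ N (y n - ι μ) ^ p ≤ 1 / ((n:ℝ) + 1) := by
    intro n
    have hpos : (0:ℝ) < 1 / ((n:ℝ) + 1) := by positivity
    obtain ⟨μ, h1, h2⟩ := hd (y n) ((1 / ((n:ℝ) + 1)) ^ (1 / p)) (Real.rpow_pos_of_pos hpos _)
    refine ⟨μ, h1, ?_⟩
    have h3 := Real.rpow_le_rpow (h0 _) h2.le hp.le
    rwa [← Real.rpow_mul hpos.le, one_div_mul_cancel hp.ne', Real.rpow_one] at h3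
  choose μ hμ0 hμ using happ
  have hB0 : 0 ≤ B := (h0 _).trans (hB 0)
  have hτ1 : ∀ n : ℕ, 1 / ((n:ℝ) + 1) ≤ 1 := by
    intro n
    rw [div_le_one (by positivity)]
    have : (0:ℝ) ≤ n := Nat.cast_nonneg n
    linarith
  have hb : ∀ n, nn p (ωf p) o (μ n) ≤ B ^ p + 1 := by
    intro n
    rw [← hι (μ n) (hμ0 n)]
    have h1 : ι (μ n) = y n - (y n - ι (μ n)) := by abel
    have h2 := hPF.sub_le (y n) (y n - ι (μ n))
    rw [← h1] at h2
    have h3 := Real.rpow_le_rpow (h0 _) (hB n) hp.le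
    have h4 := hμ n
    have h5 := hτ1 n
    linarith
  have hc0p : 0 < c0 ^ p := Real.rpow_pos_of_pos hc0 _
  obtain ⟨K, hK⟩ := exists_nat_gt (4 / c0 ^ p)
  have hKτ : ∀ n, K ≤ n → 1 / ((n:ℝ) + 1) ≤ c0 ^ p / 4 := by
    intro n hn
    have h1 : (K:ℝ) ≤ n := by exact_mod_cast hn
    rw [div_le_iff₀ (by positivity)]
    rw [div_lt_iff₀ hc0p] at hK
    nlinarith
  have hsep' : ∀ n m, K ≤ n → n < m → c0 ^ p / 2 ≤ nn p (ωf p) o (μ n - μ m) := by
    intro n m hn hnm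
    rw [← hι _ (hsumadd _ _ (hμ0 n) (hμ0 m)), map_sub]
    have h1 : y n - y m = (ι (μ n) - ι (μ m)) + ((y n - ι (μ n)) - (y m - ι (μ m))) := by abel
    have h2 := hPF.add_le (ι (μ n) - ι (μ m)) ((y n - ι (μ n)) - (y m - ι (μ m)))
    rw [← h1] at h2
    have h3 := hPF.sub_le (y n - ι (μ n)) (y m - ι (μ m))
    have h4 := Real.rpow_le_rpow hc0.le (hsep n m hnm) hp.le
    have h5 := (hμ n).trans (hKτ n hn)
    have h6 := (hμ m).trans (hKτ m (by omega))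
    linarith
  obtain ⟨φ, hφ, c, hc, hlow⟩ := main_fin hp hp1 o hb (by positivity : 0 < c0 ^ p / 2) hsep'
  obtain ⟨k0, hk0⟩ := exists_nat_gt (2 / c)
  have hφk : ∀ k, 1 / ((φ (k0 + k) : ℝ) + 1) ≤ c / 2 := by
    intro k
    have h1 : k0 + k ≤ φ (k0 + k) := hφ.id_le _
    have h2 : (k0:ℝ) ≤ (φ (k0 + k) : ℝ) := by exact_mod_cast (Nat.le_add_right k0 k).trans h1
    rw [div_le_iff₀ (by positivity)]
    rw [div_lt_iff₀ hc] at hk0
    nlinarith
  refine ⟨fun k => φ (k0 + k), fun a b hab => hφ (by omega), c / 2, by positivity, fun G β => ?_⟩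
  -- lower estimate
  have h1 := hlow (G.image (fun k => k0 + k)) (fun k => β (k - k0))
  rw [Finset.sum_image (fun a _ b _ hab => Nat.add_left_cancel hab),
    Finset.sum_image (fun a _ b _ hab => Nat.add_left_cancel hab)] at h1
  simp only [Nat.add_sub_cancel_left] at h1
  have hzero : (∑ k ∈ G, β k • μ (φ (k0 + k))).sum (fun _ a => a) = 0 := by
    have h2 : ∀ a : M →₀ ℝ, a.sum (fun _ a => a) = tot a := by
      intro a
      rw [tot, Finsupp.linearCombination_apply]; simp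
    rw [h2, map_sum]
    apply Finset.sum_eq_zero
    intro k _
    rw [map_smul, ← h2, hμ0, smul_zero]
  rw [← hι _ hzero] at h1
  have h2 : ι (∑ k ∈ G, β k • μ (φ (k0 + k))) = (∑ k ∈ G, β k • y (φ (k0 + k))) -
      ∑ k ∈ G, β k • (y (φ (k0 + k)) - ι (μ (φ (k0 + k)))) := by
    rw [map_sum, ← Finset.sum_sub_distrib]
    refine Finset.sum_congr rfl (fun k _ => ?_)
    rw [map_smul, smul_sub, sub_sub_cancel]
  have h3 := hPF.sub_le (∑ k ∈ G, β k • y (φ (k0 + k)))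
    (∑ k ∈ G, β k • (y (φ (k0 + k)) - ι (μ (φ (k0 + k)))))
  rw [← h2] at h3
  have h4 : N (∑ k ∈ G, β k • (y (φ (k0 + k)) - ι (μ (φ (k0 + k))))) ^ p ≤ (c / 2) * ∑ k ∈ G, |β k| ^ p := by
    refine (hPF.sum_le hp _ _).trans ?_
    rw [Finset.mul_sum]
    refine Finset.sum_le_sum (fun k _ => ?_)
    have h5 := hPF.smul (β k) (y (φ (k0 + k)) - ι (μ (φ (k0 + k))))
    rw [h5, mul_comm]
    exact mul_le_mul_of_nonneg_right ((hμ _).trans (hφk k)) (abs_rpow_nonneg _)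
  simp only at h3 ⊢
  linarith

/-- no infinite-dimensional normed space embeds -/
theorem no_normed (hp : 0 < p) (hp1 : p < 1) (o : M) (h0 : ∀ x, 0 ≤ N x)
    (hs : ∀ (c : ℝ) (x : F), N (c • x) = |c| * N x)
    (ha : ∀ x y, N (x + y) ^ p ≤ N x ^ p + N y ^ p) (ι : (M →₀ ℝ) →ₗ[ℝ] F)
    (hι : ∀ μ : M →₀ ℝ, μ.sum (fun _ a => a) = 0 → N (ι μ) ^ p = nn p (ωf p) o μ)
    (hd : ∀ z : F, ∀ ε > 0, ∃ μ : M →₀ ℝ, μ.sum (fun _ a => a) = 0 ∧ N (z - ι μ) < ε)
    (X : Type*) [NormedAddCommGroup X] [NormedSpace ℝ X] (hX : ¬ FiniteDimensional ℝ X)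
    (T : X →ₗ[ℝ] F) {C c : ℝ} (hc : 0 < c) (hT1 : ∀ x, N (T x) ≤ C * ‖x‖)
    (hT2 : ∀ x, c * ‖x‖ ≤ N (T x)) : False := by
  obtain ⟨R, f, hR, hf1, hf2⟩ := exists_seq_norm_le_one_le_norm_sub (𝕜 := ℝ) hX
  have hR0 : 0 < R := by linarith
  have hC0 : 0 ≤ C := by
    have h1 := hf2 (show (0:ℕ) ≠ 1 by norm_num)
    have h2 := hT1 (f 0 - f 1)
    have h3 := h0 (T (f 0 - f 1))
    by_contra hneg
    rw [not_le] at hneg
    nlinarith
  have hLP := main_transfer hp hp1 o h0 hs ha ι hι hd (y := fun n => T (f n)) (B := C * R)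
    (fun n => (hT1 _).trans (mul_le_mul_of_nonneg_left (hf1 n) hC0)) hc
    (fun n m hnm => by
      rw [← map_sub]
      have h1 := hf2 (ne_of_lt hnm)
      have h2 := hT2 (f n - f m)
      nlinarith)
  obtain ⟨φ, hφ, c', hc', hlow⟩ := hLP
  have key : ∀ k : ℕ, c' * k ≤ (C * R) ^ p * (k:ℝ) ^ p := by
    intro k
    have h1 := hlow (Finset.range k) (fun _ => 1)
    simp only [abs_one, Real.one_rpow, Finset.sum_const, Finset.card_range, one_smul, nsmul_eq_mul,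
      mul_one] at h1
    refine h1.trans ?_
    rw [← map_sum, ← Real.mul_rpow (by positivity) (Nat.cast_nonneg k)]
    refine Real.rpow_le_rpow (h0 _) ?_ hp.le
    refine (hT1 _).trans ?_
    rw [mul_assoc]
    refine mul_le_mul_of_nonneg_left ?_ hC0
    refine (norm_sum_le _ _).trans ?_
    have := Finset.sum_le_card_nsmul (Finset.range k) (fun i => ‖f (φ i)‖) R (fun i _ => hf1 _)
    rw [Finset.card_range, nsmul_eq_mul] at this
    linarith
  have hlim : Filter.Tendsto (fun k : ℕ => (k:ℝ) ^ (1 - p)) Filter.atTop Filter.atTop :=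
    (tendsto_rpow_atTop (by linarith)).comp tendsto_natCast_atTop_atTop
  obtain ⟨k, hk1, hk2⟩ := ((hlim.eventually_gt_atTop ((C * R) ^ p / c')).and
    (Filter.eventually_gt_atTop 0)).exists
  have hk0 : (0:ℝ) < k := by exact_mod_cast hk2
  have h1 := key k
  have h2 : (k:ℝ) = (k:ℝ) ^ p * (k:ℝ) ^ (1 - p) := by
    rw [← Real.rpow_add hk0]; simp
  have h3 : 0 < (k:ℝ) ^ p := Real.rpow_pos_of_pos hk0 _
  rw [div_lt_iff₀ hc'] at hk1
  have h4 : c' * k = (k:ℝ) ^ p * ((k:ℝ) ^ (1 - p) * c') := by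
    nth_rewrite 1 [h2]; ring
  rw [h4] at h1
  nlinarith

end transfer

end

end Pool.Agent.H262.FP
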