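import Mathlib

set_option autoImplicit false

namespace Pool.H262.LS

open Set Cardinal

section hull
variable {Ω : Type} (Φ : Finset Ω → Set Ω)

/-- closed sets for a finitary operation with countable values -/
def Cl (N : Set Ω) : Prop := ∀ F : Finset Ω, (F : Set Ω) ⊆ N → Φ F ⊆ N

/-- the generated closed set -/
def hull (A : Set Ω) : Set Ω := ⋂₀ {N | Cl Φ N ∧ A ⊆ N}

theorem hull_cl (A : Set Ω) : Cl Φ (hull Φ A) := by
  intro F hF
  refine subset_sInter ?_
  intro N hN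
  exact hN.1 F (hF.trans (sInter_subset_of_mem hN))

theorem subset_hull (A : Set Ω) : A ⊆ hull Φ A := subset_sInter fun _ hN => hN.2

theorem hull_min {A N : Set Ω} (h : Cl Φ N) (hA : A ⊆ N) : hull Φ A ⊆ N :=
  sInter_subset_of_mem ⟨h, hA⟩

theorem hull_mono {A B : Set Ω} (h : A ⊆ B) : hull Φ A ⊆ hull Φ B :=
  hull_min Φ (hull_cl Φ B) (h.trans (subset_hull Φ B))

theorem hull_of_cl {N : Set Ω} (h : Cl Φ N) : hull Φ N = N :=
  Subset.antisymm (hull_min Φ h subset_rfl) (subset_hull Φ N)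

theorem hull_finitary (A : Set Ω) (ω : Ω) (h : ω ∈ hull Φ A) :
    ∃ F : Finset Ω, (F : Set Ω) ⊆ A ∧ ω ∈ hull Φ (F : Set Ω) := by
  classical
  have hcl : Cl Φ {ω | ∃ F : Finset Ω, (F : Set Ω) ⊆ A ∧ ω ∈ hull Φ (F : Set Ω)} := by
    intro G hG
    have h1 : ∀ ω : Ω, ∃ F : Finset Ω, (F : Set Ω) ⊆ A ∧ (ω ∈ G → ω ∈ hull Φ (F : Set Ω)) := by
      intro ω
      by_cases hω : ω ∈ G
      · obtain ⟨F, h1, h2⟩ := hG hω
        exact ⟨F, h1, fun _ => h2⟩
      · exact ⟨∅, by simp, fun h => absurd h hω⟩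
    choose f hf1 hf2 using h1
    have h2 : ((G.biUnion f : Finset Ω) : Set Ω) ⊆ A := by
      intro x hx
      rw [Finset.mem_coe, Finset.mem_biUnion] at hx
      obtain ⟨ω, _, hx⟩ := hx
      exact hf1 ω hx
    have h3 : (G : Set Ω) ⊆ hull Φ ((G.biUnion f : Finset Ω) : Set Ω) := by
      intro x hx
      refine hull_mono Φ ?_ (hf2 x hx)
      intro y hy
      rw [Finset.mem_coe, Finset.mem_biUnion]
      exact ⟨x, hx, hy⟩
    intro x hx
    exact ⟨_, h2, hull_cl Φ _ G h3 hx⟩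
  have hsub : A ⊆ {ω | ∃ F : Finset Ω, (F : Set Ω) ⊆ A ∧ ω ∈ hull Φ (F : Set Ω)} := by
    intro x hx
    exact ⟨{x}, by simpa using hx, subset_hull Φ _ (by simp)⟩
  exact hull_min Φ hcl hsub h

theorem hull_finitary' (A : Set Ω) (G : Finset Ω) (h : (G : Set Ω) ⊆ hull Φ A) :
    ∃ F : Finset Ω, (F : Set Ω) ⊆ A ∧ (G : Set Ω) ⊆ hull Φ (F : Set Ω) := by
  classical
  have h1 : ∀ ω : Ω, ∃ F : Finset Ω, (F : Set Ω) ⊆ A ∧ (ω ∈ G → ω ∈ hull Φ (F : Set Ω)) := by
    intro ω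
    by_cases hω : ω ∈ G
    · obtain ⟨F, h1, h2⟩ := hull_finitary Φ A ω (h hω)
      exact ⟨F, h1, fun _ => h2⟩
    · exact ⟨∅, by simp, fun h => absurd h hω⟩
  choose f hf1 hf2 using h1
  refine ⟨G.biUnion f, ?_, ?_⟩
  · intro x hx
    rw [Finset.mem_coe, Finset.mem_biUnion] at hx
    obtain ⟨ω, _, hx⟩ := hx
    exact hf1 ω hx
  · intro x hx
    refine hull_mono Φ ?_ (hf2 x hx)
    intro y hy
    rw [Finset.mem_coe, Finset.mem_biUnion]
    exact ⟨x, hx, hy⟩

/-- in a linear order of generators, finite subsets of the hull of a set are caught early -/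
theorem hull_chain {ι : Type} [LinearOrder ι] (a : ι → Ω) (S : Set ι) (G : Finset Ω)
    (h : (G : Set Ω) ⊆ hull Φ (a '' S)) :
    (G : Set Ω) ⊆ hull Φ ∅ ∨ ∃ η ∈ S, (G : Set Ω) ⊆ hull Φ (a '' Iic η) := by
  classical
  obtain ⟨F, hF1, hF2⟩ := hull_finitary' Φ _ G h
  obtain ⟨T, hT1, hT2⟩ := (Finset.subset_set_image_iff).1 hF1
  rcases T.eq_empty_or_nonempty with hT | hT
  · left
    rw [hT] at hT2
    rw [Finset.image_empty] at hT2
    rw [← hT2] at hF2
    simpa using hF2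
  · right
    refine ⟨T.max' hT, hT1 (T.max'_mem hT), hF2.trans (hull_mono Φ ?_)⟩
    rw [← hT2]
    intro x hx
    rw [Finset.mem_coe, Finset.mem_image] at hx
    obtain ⟨t, ht, rfl⟩ := hx
    exact ⟨t, T.le_max' t ht, rfl⟩

/-- stages of the hull -/
def stg (A : Set Ω) : ℕ → Set Ω
  | 0 => A
  | n+1 => stg A n ∪ ⋃ F : {F : Finset Ω // (F : Set Ω) ⊆ stg A n}, Φ F.1

theorem stg_mono (A : Set Ω) (n k : ℕ) : stg Φ A n ⊆ stg Φ A (n + k) := by
  induction k with
  | zero => exact subset_rfl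
  | succ k ih =>
    refine ih.trans ?_
    rw [← add_assoc, stg]
    exact subset_union_left

theorem hull_sub_stg (A : Set Ω) : hull Φ A ⊆ ⋃ n, stg Φ A n := by
  classical
  refine hull_min Φ ?_ (subset_iUnion (fun n => stg Φ A n) 0)
  intro F hF
  have h1 : ∀ ω : Ω, ∃ n, ω ∈ F → ω ∈ stg Φ A n := by
    intro ω
    by_cases h : ω ∈ F
    · obtain ⟨n, hn⟩ := mem_iUnion.1 (hF h)
      exact ⟨n, fun _ => hn⟩
    · exact ⟨0, fun h' => absurd h' h⟩
  choose f hf using h1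
  have h2 : (F : Set Ω) ⊆ stg Φ A (F.sup f) := by
    intro x hx
    have hle : f x ≤ F.sup f := Finset.le_sup (f := f) hx
    obtain ⟨k, hk⟩ := Nat.exists_eq_add_of_le hle
    rw [hk]
    exact stg_mono Φ A _ _ (hf x hx)
  intro x hx
  refine mem_iUnion.2 ⟨F.sup f + 1, ?_⟩
  rw [stg]
  exact Or.inr (mem_iUnion.2 ⟨⟨F, h2⟩, hx⟩)

theorem card_fin_sub (B : Set Ω) : #{F : Finset Ω // (F : Set Ω) ⊆ B} ≤ max #B ℵ₀ := by
  classical
  have h : Function.Surjective
      (fun l : List B => (⟨(l.map Subtype.val).toFinset, by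
        intro x hx
        rw [Finset.mem_coe, List.mem_toFinset, List.mem_map] at hx
        obtain ⟨y, _, rfl⟩ := hx
        exact y.2⟩ : {F : Finset Ω // (F : Set Ω) ⊆ B})) := by
    rintro ⟨F, hF⟩
    refine ⟨F.toList.attach.map (fun y => ⟨y.1, hF (by
      have := y.2
      rw [Finset.mem_toList] at this
      exact this)⟩), ?_⟩
    apply Subtype.ext
    ext x
    simp
  refine (Cardinal.mk_le_of_surjective h).trans ?_
  rw [max_comm]
  exact Cardinal.mk_list_le_max _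

theorem hull_card (hΦ : ∀ F, (Φ F).Countable) (A : Set Ω) : #(hull Φ A) ≤ max #A ℵ₀ := by
  classical
  have hst : ∀ n, #(stg Φ A n) ≤ max #A ℵ₀ := by
    intro n
    induction n with
    | zero => exact le_max_left _ _
    | succ n ih =>
      rw [stg]
      refine (Cardinal.mk_union_le _ _).trans ?_
      refine Cardinal.add_le_of_le (le_max_right _ _) ih ?_
      refine (Cardinal.mk_iUnion_le _).trans ?_
      refine Cardinal.mul_le_of_le ?_ ((card_fin_sub _).trans (max_le ih (le_max_right _ _))) ?_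
      · exact le_max_right _ _
      · refine (ciSup_le' ?_)
        intro F
        refine le_trans ?_ (le_max_right _ _)
        exact Cardinal.le_aleph0_iff_set_countable.2 (hΦ F.1)
  refine (Cardinal.mk_le_mk_of_subset (hull_sub_stg Φ A)).trans ?_
  refine (Cardinal.mk_iUnion_le _).trans ?_
  refine Cardinal.mul_le_of_le (le_max_right _ _) ?_ (ciSup_le' hst)
  rw [Cardinal.mk_nat]
  exact le_max_right _ _

end hull

end Pool.H262.LS
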