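import Pool.Agent.H262.LS1

set_option autoImplicit false

namespace Pool.H262.LS

open Set Cardinal Topology

variable {L : Type} {𝒦 : Set (L → ℝ)}

/-- trace of a closed set on the compact set of functions -/
def KN (N : Set (L ⊕ 𝒦)) : Set (L → ℝ) := Subtype.val '' {k : 𝒦 | Sum.inr k ∈ N}

/-- data for the retraction machinery -/
structure Sy (L : Type) (𝒦 : Set (L → ℝ)) where
  Φ : Finset (L ⊕ 𝒦) → Set (L ⊕ 𝒦)
  hΦ : ∀ F, (Φ F).Countable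
  h1 : ∀ N, Cl Φ N → ∀ y : L, ∃ x : L, Sum.inl x ∈ N ∧ ∀ k : 𝒦, Sum.inr k ∈ N → k.1 y = k.1 x
  h2 : ∀ N, Cl Φ N → ∀ k : 𝒦, ∃ k' ∈ closure (KN N), ∀ l : L, Sum.inl l ∈ N → k' l = k.1 l
  hc : IsCompact 𝒦

variable (𝒮 : Sy L 𝒦)

/-- bundled closed sets -/
abbrev CS := {N : Set (L ⊕ 𝒦) // Cl 𝒮.Φ N}

/-- the map on points -/
noncomputable def pj (N : CS 𝒮) (l : L) : L := Classical.choose (𝒮.h1 N.1 N.2 l)

theorem pj_mem (N : CS 𝒮) (l : L) : Sum.inl (pj 𝒮 N l) ∈ N.1 :=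
  (Classical.choose_spec (𝒮.h1 N.1 N.2 l)).1

theorem pj_eq (N : CS 𝒮) (l : L) (k : 𝒦) (hk : Sum.inr k ∈ N.1) : k.1 l = k.1 (pj 𝒮 N l) :=
  (Classical.choose_spec (𝒮.h1 N.1 N.2 l)).2 k hk

theorem KN_sub (N : Set (L ⊕ 𝒦)) : closure (KN N) ⊆ closure 𝒦 := by
  apply closure_mono
  rintro _ ⟨k, _, rfl⟩
  exact k.2

theorem R1 (N : CS 𝒮) (k' : L → ℝ) (hk : k' ∈ closure (KN N.1)) (l : L) :
    k' l = k' (pj 𝒮 N l) := by
  have hcl : IsClosed {k' : L → ℝ | k' l = k' (pj 𝒮 N l)} :=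
    isClosed_eq (continuous_apply l) (continuous_apply _)
  have hsub : KN N.1 ⊆ {k' : L → ℝ | k' l = k' (pj 𝒮 N l)} := by
    rintro _ ⟨k, hk, rfl⟩
    exact pj_eq 𝒮 N l k hk
  exact (closure_minimal hsub hcl) hk

theorem R2 (N : CS 𝒮) (k : 𝒦) : (fun l => k.1 (pj 𝒮 N l)) ∈ closure (KN N.1) := by
  obtain ⟨k', hk', hk2⟩ := 𝒮.h2 N.1 N.2 k
  have : (fun l => k.1 (pj 𝒮 N l)) = k' := by
    funext l
    rw [R1 𝒮 N k' hk' l, hk2 _ (pj_mem 𝒮 N l)]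
  rw [this]
  exact hk'

theorem R3 (N : CS 𝒮) (k : 𝒦) (l : L) (hl : Sum.inl l ∈ N.1) : k.1 (pj 𝒮 N l) = k.1 l := by
  obtain ⟨k', hk', hk2⟩ := 𝒮.h2 N.1 N.2 k
  rw [← hk2 _ (pj_mem 𝒮 N l), ← R1 𝒮 N k' hk' l, hk2 _ hl]

/-- the retraction on the compact set of functions -/
noncomputable def rt (N : CS 𝒮) (k : 𝒦) : 𝒦 :=
  ⟨fun l => k.1 (pj 𝒮 N l), by
    have h := KN_sub N.1 (R2 𝒮 N k)
    rwa [𝒮.hc.isClosed.closure_eq] at h⟩

theorem rt_apply (N : CS 𝒮) (k : 𝒦) (l : L) : (rt 𝒮 N k).1 l = k.1 (pj 𝒮 N l) := rfl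

theorem rt_mem (N : CS 𝒮) (k : 𝒦) : (rt 𝒮 N k).1 ∈ closure (KN N.1) := R2 𝒮 N k

theorem KN_mono {N M : Set (L ⊕ 𝒦)} (h : N ⊆ M) : closure (KN N) ⊆ closure (KN M) := by
  apply closure_mono
  rintro _ ⟨k, hk, rfl⟩
  exact ⟨k, h hk, rfl⟩

theorem R6 (N M : CS 𝒮) (h : N.1 ⊆ M.1) (k : 𝒦) : rt 𝒮 M (rt 𝒮 N k) = rt 𝒮 N k := by
  apply Subtype.ext
  funext l
  rw [rt_apply, ← R1 𝒮 M (rt 𝒮 N k).1 (KN_mono h (rt_mem 𝒮 N k)) l]

theorem R4 (N M : CS 𝒮) (h : N.1 ⊆ M.1) (k : 𝒦) (l : L) (hl : Sum.inl (pj 𝒮 M l) ∈ N.1) :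
    (rt 𝒮 N k).1 l = (rt 𝒮 M k).1 l := by
  rw [R1 𝒮 M (rt 𝒮 N k).1 (KN_mono h (rt_mem 𝒮 N k)) l, rt_apply, rt_apply]
  exact R3 𝒮 N k _ hl

theorem rt_univ (M : CS 𝒮) (h : M.1 = Set.univ) (k : 𝒦) : rt 𝒮 M k = k := by
  apply Subtype.ext
  funext l
  rw [rt_apply]
  exact R3 𝒮 M k l (by rw [h]; trivial)

/-- continuous functions on the compact set -/
abbrev GG (𝒦 : Set (L → ℝ)) := {g : 𝒦 → ℝ // Continuous g}

theorem unif (hc : IsCompact 𝒦) (g : GG 𝒦) (ε : ℝ) (hε : 0 < ε) :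
    ∃ F : Finset L, ∀ k k' : 𝒦, (∀ l ∈ F, k.1 l = k'.1 l) → |g.1 k - g.1 k'| < ε := by
  classical
  haveI : CompactSpace 𝒦 := isCompact_iff_compactSpace.1 hc
  let C : Set (𝒦 × 𝒦) := {p | ε ≤ |g.1 p.1 - g.1 p.2|}
  have hgc : Continuous (fun p : 𝒦 × 𝒦 => |g.1 p.1 - g.1 p.2|) :=
    ((g.2.comp continuous_fst).sub (g.2.comp continuous_snd)).abs
  have hC : IsCompact C := (isClosed_le continuous_const hgc).isCompact
  let U : L → Set (𝒦 × 𝒦) := fun l => {p | p.1.1 l ≠ p.2.1 l}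
  have hU : ∀ l, IsOpen (U l) := by
    intro l
    have h1 : Continuous (fun p : 𝒦 × 𝒦 => p.1.1 l) :=
      (continuous_apply l).comp (continuous_subtype_val.comp continuous_fst)
    have h2 : Continuous (fun p : 𝒦 × 𝒦 => p.2.1 l) :=
      (continuous_apply l).comp (continuous_subtype_val.comp continuous_snd)
    exact (isClosed_eq h1 h2).isOpen_compl
  have hcov : C ⊆ ⋃ l, U l := by
    intro p hp
    by_contra hcon
    have heq : p.1 = p.2 := by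
      apply Subtype.ext
      funext l
      by_contra hl
      exact hcon (mem_iUnion.2 ⟨l, hl⟩)
    have : ε ≤ |g.1 p.1 - g.1 p.2| := hp
    rw [heq, sub_self, abs_zero] at this
    linarith
  obtain ⟨F, hF⟩ := hC.elim_finite_subcover U hU hcov
  refine ⟨F, ?_⟩
  intro k k' hkk
  by_contra hcon
  push Not at hcon
  have : (k, k') ∈ ⋃ l ∈ F, U l := hF hcon
  rw [mem_iUnion₂] at this
  obtain ⟨l, hl, hne⟩ := this
  exact hne (hkk l hl)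

theorem R5 (g : GG 𝒦) (ε : ℝ) (hε : 0 < ε) (M : CS 𝒮) :
    ∃ G : Finset (L ⊕ 𝒦), (G : Set (L ⊕ 𝒦)) ⊆ M.1 ∧ ∀ N : CS 𝒮, N.1 ⊆ M.1 →
      (G : Set (L ⊕ 𝒦)) ⊆ N.1 → ∀ x, |g.1 (rt 𝒮 N x) - g.1 (rt 𝒮 M x)| < ε := by
  classical
  obtain ⟨F, hF⟩ := unif 𝒮.hc g ε hε
  refine ⟨F.image (fun l => Sum.inl (pj 𝒮 M l)), ?_, ?_⟩
  · intro x hx
    rw [Finset.mem_coe, Finset.mem_image] at hx
    obtain ⟨l, _, rfl⟩ := hx
    exact pj_mem 𝒮 M l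
  · intro N hNM hG x
    apply hF
    intro l hl
    apply R4 𝒮 N M hNM
    apply hG
    rw [Finset.mem_coe, Finset.mem_image]
    exact ⟨l, hl, rfl⟩

/-- countable covers by sets of small local diameter, after composing with a retraction -/
def SLD (M : CS 𝒮) : Prop :=
  ∀ ε : ℝ, 0 < ε → ∃ c : GG 𝒦 → ℕ, ∀ g : GG 𝒦, ∀ᶠ h in 𝓝 g, c h = c g →
    ∀ x, |h.1 (rt 𝒮 M x) - g.1 (rt 𝒮 M x)| ≤ ε

theorem sld_countable (M : CS 𝒮) (hM : M.1.Countable) : SLD 𝒮 M := by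
  classical
  intro ε hε
  haveI : CompactSpace 𝒦 := isCompact_iff_compactSpace.1 𝒮.hc
  let LM := {l : L // Sum.inl l ∈ M.1}
  haveI : Countable LM := by
    have h : (Sum.inl ⁻¹' M.1 : Set L).Countable := hM.preimage Sum.inl_injective
    exact h.to_subtype
  let ρ : 𝒦 → (LM → ℝ) := fun k l => k.1 l.1
  have hρ : Continuous ρ := by
    apply continuous_pi
    intro l
    exact (continuous_apply l.1).comp continuous_subtype_val
  let K' : Set (LM → ℝ) := Set.range ρ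
  have hK' : IsCompact K' := isCompact_range hρ
  haveI : CompactSpace K' := isCompact_iff_compactSpace.1 hK'
  let p' : L → LM := fun l => ⟨pj 𝒮 M l, pj_mem 𝒮 M l⟩
  have hs : ∀ u : K', (fun l => u.1 (p' l)) ∈ 𝒦 := by
    rintro ⟨_, k, rfl⟩
    exact (rt 𝒮 M k).2
  let s : K' → 𝒦 := fun u => ⟨fun l => u.1 (p' l), hs u⟩
  have hsc : Continuous s := by
    apply Continuous.subtype_mk
    apply continuous_pi
    intro l
    exact (continuous_apply (p' l)).comp continuous_subtype_val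
  have hsr : ∀ k, s ⟨ρ k, k, rfl⟩ = rt 𝒮 M k := by
    intro k
    apply Subtype.ext
    funext l
    rfl
  let T : GG 𝒦 → C(K', ℝ) := fun g => ⟨fun u => g.1 (s u), g.2.comp hsc⟩
  obtain ⟨D, hDc, hDd⟩ := TopologicalSpace.exists_countable_dense C(K', ℝ)
  have hne : D.Nonempty := by
    by_contra h
    rw [not_nonempty_iff_eq_empty] at h
    rw [h] at hDd
    have := hDd (0 : C(K', ℝ))
    rw [closure_empty] at this
    exact this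
  obtain ⟨d, hd⟩ := hDc.exists_eq_range hne
  have h1 : ∀ g : GG 𝒦, ∃ n, dist (T g) (d n) < ε / 2 := by
    intro g
    obtain ⟨y, hy, hyd⟩ := Metric.mem_closure_iff.1 (hDd (T g)) (ε / 2) (by linarith)
    rw [hd] at hy
    obtain ⟨n, rfl⟩ := hy
    exact ⟨n, hyd⟩
  choose c hc using h1
  refine ⟨c, ?_⟩
  intro g
  refine Filter.Eventually.of_forall ?_
  intro h hcg x
  have h2 : dist (T h) (T g) < ε := by
    have h3 := hc h
    have h4 := hc g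
    rw [hcg] at h3
    calc dist (T h) (T g) ≤ dist (T h) (d (c g)) + dist (d (c g)) (T g) := dist_triangle _ _ _
      _ < ε / 2 + ε / 2 := by
        rw [dist_comm (d (c g)) (T g)]
        exact add_lt_add h3 h4
      _ = ε := by ring
  have h5 := (ContinuousMap.dist_apply_le_dist (f := T h) (g := T g) (⟨ρ x, x, rfl⟩ : K'))
  have h6 : dist (T h ⟨ρ x, x, rfl⟩) (T g ⟨ρ x, x, rfl⟩) =
      |h.1 (rt 𝒮 M x) - g.1 (rt 𝒮 M x)| := by
    rw [Real.dist_eq]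
    change |h.1 (s ⟨ρ x, x, rfl⟩) - g.1 (s ⟨ρ x, x, rfl⟩)| = _
    rw [hsr]
  rw [← h6]
  exact h5.trans h2.le

end Pool.H262.LS
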