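import Pool.Agent.H262.LS2

set_option autoImplicit false

namespace Pool.H262.LS

open Set Cardinal Topology

variable {L : Type} {𝒦 : Set (L → ℝ)} (𝒮 : Sy L 𝒦)

section chain

variable {ι : Type} [LinearOrder ι] [WellFoundedLT ι] (a : ι → L ⊕ 𝒦)

/-- hull of a set of indices -/
def HS (S : Set ι) : CS 𝒮 := ⟨hull 𝒮.Φ (a '' S), hull_cl _ _⟩

theorem HS_mono {S T : Set ι} (h : S ⊆ T) : (HS 𝒮 a S).1 ⊆ (HS 𝒮 a T).1 :=
  hull_mono _ (image_mono h)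

/-- increments -/
noncomputable def DD (ξ : ι) (g : GG 𝒦) (x : 𝒦) : ℝ :=
  g.1 (rt 𝒮 (HS 𝒮 a (Iic ξ)) x) - g.1 (rt 𝒮 (HS 𝒮 a (Iio ξ)) x)

theorem chain_step (g : GG 𝒦) (ε : ℝ) (hε : 0 < ε) (S : Set ι) :
    (∀ N : CS 𝒮, N.1 ⊆ (HS 𝒮 a S).1 → (HS 𝒮 a ∅).1 ⊆ N.1 →
      ∀ x, |g.1 (rt 𝒮 N x) - g.1 (rt 𝒮 (HS 𝒮 a S) x)| < ε) ∨
    ∃ η ∈ S, ∀ N : CS 𝒮, N.1 ⊆ (HS 𝒮 a S).1 → (HS 𝒮 a (Iic η)).1 ⊆ N.1 →
      ∀ x, |g.1 (rt 𝒮 N x) - g.1 (rt 𝒮 (HS 𝒮 a S) x)| < ε := by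
  obtain ⟨G, hG1, hG2⟩ := R5 𝒮 g ε hε (HS 𝒮 a S)
  rcases hull_chain 𝒮.Φ a S G hG1 with h | ⟨η, hη, h⟩
  · left
    intro N hN1 hN2
    apply hG2 N hN1
    refine h.trans (Subset.trans ?_ hN2)
    change hull 𝒮.Φ ∅ ⊆ hull 𝒮.Φ (a '' ∅)
    exact hull_mono _ (empty_subset _)
  · right
    exact ⟨η, hη, fun N hN1 hN2 => hG2 N hN1 (h.trans hN2)⟩

theorem fin_step (g : GG 𝒦) (δ : ℝ) (hδ : 0 < δ) (S : Set ι) (hS : ∀ ξ ∈ S, Iio ξ ⊆ S)
    (ih : ∀ ξ ∈ S, ({η | ∃ x, δ < |DD 𝒮 a η g x|} ∩ Iio ξ).Finite) :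
    ({η | ∃ x, δ < |DD 𝒮 a η g x|} ∩ S).Finite := by
  classical
  have hsub : ∀ ξ ∈ S, Iic ξ ⊆ S := by
    intro ξ hξ η hη
    rcases (lt_or_eq_of_le (show η ≤ ξ from hη)) with h | h
    · exact hS ξ hξ h
    · rw [h]; exact hξ
  rcases chain_step 𝒮 a g (δ / 2) (by linarith) S with h | ⟨η₀, hη₀, h⟩
  · have : {η | ∃ x, δ < |DD 𝒮 a η g x|} ∩ S = ∅ := by
      rw [eq_empty_iff_forall_notMem]
      rintro η ⟨⟨x, hx⟩, hηS⟩
      have h1 := h (HS 𝒮 a (Iic η)) (HS_mono 𝒮 a (hsub η hηS)) (HS_mono 𝒮 a (empty_subset _)) x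
      have h2 := h (HS 𝒮 a (Iio η)) (HS_mono 𝒮 a (hS η hηS)) (HS_mono 𝒮 a (empty_subset _)) x
      rw [DD] at hx
      rw [abs_lt] at h1 h2
      rcases lt_abs.1 hx with h3 | h3 <;> linarith [h1.1, h1.2, h2.1, h2.2]
    rw [this]; exact finite_empty
  · refine ((ih η₀ hη₀).union (finite_singleton η₀)).subset ?_
    rintro η ⟨⟨x, hx⟩, hηS⟩
    rcases lt_trichotomy η η₀ with hlt | heq | hgt
    · exact Or.inl ⟨⟨x, hx⟩, hlt⟩
    · exact Or.inr heq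
    · exfalso
      have hI1 : Iic η₀ ⊆ Iio η := fun z hz => lt_of_le_of_lt hz hgt
      have hI2 : Iic η₀ ⊆ Iic η := fun z hz => le_trans hz hgt.le
      have h1 := h (HS 𝒮 a (Iic η)) (HS_mono 𝒮 a (hsub η hηS)) (HS_mono 𝒮 a hI2) x
      have h2 := h (HS 𝒮 a (Iio η)) (HS_mono 𝒮 a (hS η hηS)) (HS_mono 𝒮 a hI1) x
      rw [DD] at hx
      rw [abs_lt] at h1 h2
      rcases lt_abs.1 hx with h3 | h3 <;> linarith [h1.1, h1.2, h2.1, h2.2]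

theorem fin_all (g : GG 𝒦) (δ : ℝ) (hδ : 0 < δ) :
    {η | ∃ x, δ < |DD 𝒮 a η g x|}.Finite := by
  have h : ∀ ξ : ι, ({η | ∃ x, δ < |DD 𝒮 a η g x|} ∩ Iio ξ).Finite := by
    intro ξ
    induction ξ using WellFoundedLT.induction with
    | ind ξ ih =>
      apply fin_step 𝒮 a g δ hδ
      · intro ζ hζ z hz
        exact lt_trans hz hζ
      · intro ζ hζ
        exact ih ζ hζ
  have h2 := fin_step 𝒮 a g δ hδ Set.univ (fun _ _ => subset_univ _) (fun ξ _ => h ξ)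
  rwa [inter_univ] at h2

theorem app_step (g : GG 𝒦) (S : Set ι) (hS : ∀ ξ ∈ S, Iio ξ ⊆ S)
    (ih : ∀ ξ ∈ S, ∀ ε : ℝ, 0 < ε → ∃ F : Finset ι, (F : Set ι) ⊆ Iio ξ ∧
      ∀ x, |g.1 (rt 𝒮 (HS 𝒮 a (Iio ξ)) x) - g.1 (rt 𝒮 (HS 𝒮 a ∅) x) -
        ∑ η ∈ F, DD 𝒮 a η g x| < ε) (ε : ℝ) (hε : 0 < ε) :
    ∃ F : Finset ι, (F : Set ι) ⊆ S ∧
      ∀ x, |g.1 (rt 𝒮 (HS 𝒮 a S) x) - g.1 (rt 𝒮 (HS 𝒮 a ∅) x) -
        ∑ η ∈ F, DD 𝒮 a η g x| < ε := by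
  classical
  rcases chain_step 𝒮 a g (ε / 2) (by linarith) S with h | ⟨η₀, hη₀, h⟩
  · refine ⟨∅, by simp, ?_⟩
    intro x
    have h1 := h (HS 𝒮 a ∅) (HS_mono 𝒮 a (empty_subset _)) subset_rfl x
    rw [Finset.sum_empty, sub_zero, abs_sub_comm]
    linarith
  · obtain ⟨F, hF1, hF2⟩ := ih η₀ hη₀ (ε / 2) (by linarith)
    have hnot : η₀ ∉ F := fun hmem => lt_irrefl _ (hF1 hmem)
    refine ⟨insert η₀ F, ?_, ?_⟩
    · intro z hz
      rw [Finset.mem_coe, Finset.mem_insert] at hz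
      rcases hz with rfl | hz
      · exact hη₀
      · exact hS η₀ hη₀ (hF1 hz)
    · intro x
      have hsub : Iic η₀ ⊆ S := by
        intro η hη
        rcases (lt_or_eq_of_le (show η ≤ η₀ from hη)) with h | h
        · exact hS η₀ hη₀ h
        · rw [h]; exact hη₀
      have h1 := h (HS 𝒮 a (Iic η₀)) (HS_mono 𝒮 a hsub) subset_rfl x
      have h2 := hF2 x
      rw [Finset.sum_insert hnot]
      have h3 : DD 𝒮 a η₀ g x = g.1 (rt 𝒮 (HS 𝒮 a (Iic η₀)) x) -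
        g.1 (rt 𝒮 (HS 𝒮 a (Iio η₀)) x) := rfl
      rw [h3]
      rw [abs_lt] at h1 h2 ⊢
      constructor <;> linarith [h1.1, h1.2, h2.1, h2.2]

theorem app_all (g : GG 𝒦) (ε : ℝ) (hε : 0 < ε) :
    ∃ F : Finset ι, ∀ x, |g.1 (rt 𝒮 (HS 𝒮 a Set.univ) x) - g.1 (rt 𝒮 (HS 𝒮 a ∅) x) -
        ∑ η ∈ F, DD 𝒮 a η g x| < ε := by
  have h : ∀ ξ : ι, ∀ ε : ℝ, 0 < ε → ∃ F : Finset ι, (F : Set ι) ⊆ Iio ξ ∧
      ∀ x, |g.1 (rt 𝒮 (HS 𝒮 a (Iio ξ)) x) - g.1 (rt 𝒮 (HS 𝒮 a ∅) x) -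
        ∑ η ∈ F, DD 𝒮 a η g x| < ε := by
    intro ξ
    induction ξ using WellFoundedLT.induction with
    | ind ξ ih =>
      intro ε hε
      apply app_step 𝒮 a g (Iio ξ)
      · intro ζ hζ z hz
        exact lt_trans hz hζ
      · intro ζ hζ
        exact ih ζ hζ
      · exact hε
  obtain ⟨F, _, hF⟩ := app_step 𝒮 a g Set.univ (fun _ _ => subset_univ _) (fun ξ _ => h ξ) ε hε
  exact ⟨F, hF⟩

theorem sld_step (h0 : SLD 𝒮 (HS 𝒮 a ∅)) (hQ : ∀ ξ, SLD 𝒮 (HS 𝒮 a (Iic ξ))) :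
    SLD 𝒮 (HS 𝒮 a Set.univ) := by
  classical
  intro ε hε
  -- colorings
  choose c0 hc0 using h0 (ε / 8) (by linarith)
  have hεn : ∀ n : ℕ, 0 < ε / (8 * ((n : ℝ) + 1)) := by
    intro n
    positivity
  choose cc hcc using fun (n : ℕ) (ξ : ι) => hQ ξ (ε / (8 * ((n : ℝ) + 1))) (hεn n)
  -- approximation
  choose F1 hF1 using fun g : GG 𝒦 => app_all 𝒮 a g (ε / 4) (by linarith)
  let F : GG 𝒦 → Finset ι := fun g => (F1 g).filter (fun η => ∃ x, DD 𝒮 a η g x ≠ 0)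
  have hF : ∀ g x, |g.1 (rt 𝒮 (HS 𝒮 a Set.univ) x) - g.1 (rt 𝒮 (HS 𝒮 a ∅) x) -
        ∑ η ∈ F g, DD 𝒮 a η g x| < ε / 4 := by
    intro g x
    have h1 : ∑ η ∈ F g, DD 𝒮 a η g x = ∑ η ∈ F1 g, DD 𝒮 a η g x := by
      apply Finset.sum_filter_of_ne
      intro η _ hne
      exact ⟨x, hne⟩
    rw [h1]
    exact hF1 g x
  -- threshold
  have hm : ∀ g : GG 𝒦, ∃ m : ℕ, ∀ η ∈ F g, ∃ x, 1 / ((m : ℝ) + 1) < |DD 𝒮 a η g x| := by
    intro g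
    have h1 : ∀ η : ι, ∃ m : ℕ, η ∈ F g → ∃ x, 1 / ((m : ℝ) + 1) < |DD 𝒮 a η g x| := by
      intro η
      by_cases hη : η ∈ F g
      · obtain ⟨x, hx⟩ := (Finset.mem_filter.1 hη).2
        obtain ⟨m, hm⟩ := exists_nat_one_div_lt (abs_pos.2 hx)
        exact ⟨m, fun _ => ⟨x, hm⟩⟩
      · exact ⟨0, fun h => absurd h hη⟩
    choose mm hmm using h1
    refine ⟨(F g).sup mm, ?_⟩
    intro η hη
    obtain ⟨x, hx⟩ := hmm η hη
    refine ⟨x, lt_of_le_of_lt ?_ hx⟩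
    have hle : mm η ≤ (F g).sup mm := Finset.le_sup (f := mm) hη
    have hle' : (mm η : ℝ) ≤ (((F g).sup mm : ℕ) : ℝ) := by exact_mod_cast hle
    apply one_div_le_one_div_of_le
    · positivity
    · linarith
  choose m hm using hm
  have hfin : ∀ (g : GG 𝒦) (k : ℕ), {η | ∃ x, 1 / ((k : ℝ) + 1) < |DD 𝒮 a η g x|}.Finite :=
    fun g k => fin_all 𝒮 a g _ (by positivity)
  let B : GG 𝒦 → ℕ → Finset ι := fun g k => (hfin g k).toFinset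
  have hB : ∀ g k η, η ∈ B g k ↔ ∃ x, 1 / ((k : ℝ) + 1) < |DD 𝒮 a η g x| := by
    intro g k η
    simp only [B, Set.Finite.mem_toFinset]
    rfl
  have hFB : ∀ g η, η ∈ F g → η ∈ B g (m g) := by
    intro g η hη
    rw [hB]
    exact hm g η hη
  let lab : GG 𝒦 → ℕ × List (ℕ × Bool) × ℕ := fun g =>
    (m g, (B g (m g)).toList.map (fun ξ => (cc (B g (m g)).card ξ g, decide (ξ ∈ F g))), c0 g)
  obtain ⟨enc, henc⟩ : ∃ enc : ℕ × List (ℕ × Bool) × ℕ → ℕ, Function.Injective enc :=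
    ⟨Encodable.encode, Encodable.encode_injective⟩
  refine ⟨fun g => enc (lab g), ?_⟩
  intro g
  -- neighborhoods
  have hev1 : ∀ᶠ h in 𝓝 g, ∀ ξ ∈ B g (m g), cc (B g (m g)).card ξ h = cc (B g (m g)).card ξ g →
      ∀ x, |h.1 (rt 𝒮 (HS 𝒮 a (Iic ξ)) x) - g.1 (rt 𝒮 (HS 𝒮 a (Iic ξ)) x)| ≤
        ε / (8 * (((B g (m g)).card : ℝ) + 1)) := by
    rw [Filter.eventually_all_finset]
    intro ξ _
    exact hcc (B g (m g)).card ξ g
  have hev2 : ∀ᶠ h in 𝓝 g, ∀ ξ ∈ B g (m g), ξ ∈ B h (m g) := by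
    rw [Filter.eventually_all_finset]
    intro ξ hξ
    obtain ⟨x, hx⟩ := (hB _ _ _).1 hξ
    have hev : ∀ k : 𝒦, Continuous (fun h : GG 𝒦 => h.1 k) :=
      fun k => (continuous_apply k).comp continuous_subtype_val
    have hcont : Continuous (fun h : GG 𝒦 => |DD 𝒮 a ξ h x|) := by
      unfold DD
      exact ((hev _).sub (hev _)).abs
    have hop : IsOpen {h : GG 𝒦 | 1 / ((m g : ℝ) + 1) < |DD 𝒮 a ξ h x|} :=
      isOpen_lt continuous_const hcont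
    filter_upwards [hop.mem_nhds hx] with h hh
    rw [hB]
    exact ⟨x, hh⟩
  filter_upwards [hc0 g, hev1, hev2] with h hh0 hh1 hh2 hlab x
  have hl := henc hlab
  simp only [lab, Prod.mk.injEq] at hl
  obtain ⟨hl1, hl2, hl3⟩ := hl
  have hsub : B g (m g) ⊆ B h (m g) := fun ξ hξ => hh2 ξ hξ
  have hcard : (B h (m g)).card = (B g (m g)).card := by
    have := congrArg List.length hl2
    rw [List.length_map, List.length_map, Finset.length_toList, Finset.length_toList, hl1] at this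
    exact this
  have hBeq : B h (m g) = B g (m g) := (Finset.eq_of_subset_of_card_le hsub hcard.le).symm
  rw [hl1, hBeq] at hl2
  rw [List.map_inj_left] at hl2
  have hcol : ∀ ξ ∈ B g (m g), cc (B g (m g)).card ξ h = cc (B g (m g)).card ξ g := by
    intro ξ hξ
    have := hl2 ξ (Finset.mem_toList.2 hξ)
    exact (Prod.mk.inj this).1
  have hFeq : F h = F g := by
    ext ξ
    constructor
    · intro hξ
      have h1 : ξ ∈ B g (m g) := by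
        have := hFB h ξ hξ
        rwa [hl1, hBeq] at this
      have := (Prod.mk.inj (hl2 ξ (Finset.mem_toList.2 h1))).2
      rw [decide_eq_decide] at this
      exact this.1 hξ
    · intro hξ
      have h1 : ξ ∈ B g (m g) := hFB g ξ hξ
      have := (Prod.mk.inj (hl2 ξ (Finset.mem_toList.2 h1))).2
      rw [decide_eq_decide] at this
      exact this.2 hξ
  -- estimate
  set n := (B g (m g)).card with hn
  have hQx : ∀ ξ ∈ B g (m g), ∀ x, |h.1 (rt 𝒮 (HS 𝒮 a (Iic ξ)) x) -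
      g.1 (rt 𝒮 (HS 𝒮 a (Iic ξ)) x)| ≤ ε / (8 * ((n : ℝ) + 1)) :=
    fun ξ hξ => hh1 ξ hξ (hcol ξ hξ)
  have hPx : ∀ ξ ∈ B g (m g), ∀ x, |h.1 (rt 𝒮 (HS 𝒮 a (Iio ξ)) x) -
      g.1 (rt 𝒮 (HS 𝒮 a (Iio ξ)) x)| ≤ ε / (8 * ((n : ℝ) + 1)) := by
    intro ξ hξ x
    have := hQx ξ hξ (rt 𝒮 (HS 𝒮 a (Iio ξ)) x)
    rwa [R6 𝒮 (HS 𝒮 a (Iio ξ)) (HS 𝒮 a (Iic ξ)) (HS_mono 𝒮 a (fun z hz => le_of_lt hz)) x] at this
  have hDx : ∀ ξ ∈ F g, |DD 𝒮 a ξ h x - DD 𝒮 a ξ g x| ≤ 2 * (ε / (8 * ((n : ℝ) + 1))) := by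
    intro ξ hξ
    have h1 := hQx ξ (hFB g ξ hξ) x
    have h2 := hPx ξ (hFB g ξ hξ) x
    unfold DD
    rw [abs_le] at h1 h2 ⊢
    constructor <;> linarith [h1.1, h1.2, h2.1, h2.2]
  have hsum : |∑ ξ ∈ F g, DD 𝒮 a ξ h x - ∑ ξ ∈ F g, DD 𝒮 a ξ g x| ≤ ε / 4 := by
    rw [← Finset.sum_sub_distrib]
    refine (Finset.abs_sum_le_sum_abs _ _).trans ?_
    refine (Finset.sum_le_sum hDx).trans ?_
    rw [Finset.sum_const, nsmul_eq_mul]
    have hcardF : ((F g).card : ℝ) ≤ n := by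
      have : (F g).card ≤ (B g (m g)).card := Finset.card_le_card (fun ξ hξ => hFB g ξ hξ)
      exact_mod_cast this
    have hpos : 0 < ε / (8 * ((n : ℝ) + 1)) := hεn n
    calc ((F g).card : ℝ) * (2 * (ε / (8 * ((n : ℝ) + 1))))
        ≤ ((n : ℝ) + 1) * (2 * (ε / (8 * ((n : ℝ) + 1)))) := by
          apply mul_le_mul_of_nonneg_right _ (by linarith)
          linarith
      _ = ε / 4 := by
          have : (n : ℝ) + 1 ≠ 0 := by positivity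
          field_simp
          ring
  have hA := hF h x
  have hG := hF g x
  rw [hFeq] at hA
  have h0x := hh0 hl3 x
  rw [abs_lt] at hA hG
  rw [abs_le] at hsum h0x ⊢
  constructor <;> linarith [hA.1, hA.2, hG.1, hG.2, hsum.1, hsum.2, h0x.1, h0x.2]

end chain

theorem sld_all (M : CS 𝒮) : SLD 𝒮 M := by
  classical
  obtain ⟨κ, hκ⟩ : ∃ κ : Cardinal.{0}, #M.1 = κ := ⟨_, rfl⟩
  induction κ using WellFoundedLT.induction generalizing M with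
  | ind κ ih =>
    by_cases hle : κ ≤ ℵ₀
    · apply sld_countable
      rw [← Cardinal.le_aleph0_iff_set_countable, hκ]
      exact hle
    · push Not at hle
      obtain ⟨r, hr, hord⟩ := Cardinal.exists_ord_eq M.1
      letI : LinearOrder M.1 := linearOrderOfSTO r
      haveI : WellFoundedLT M.1 := ⟨hr.wf⟩
      have hIio : ∀ ξ : M.1, #(Iio ξ) < κ := by
        intro ξ
        rw [← hκ]
        exact Cardinal.mk_Iio_lt ξ hord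
      have hIic : ∀ ξ : M.1, #(Iic ξ) < κ := by
        intro ξ
        rw [← Iio_insert]
        refine lt_of_le_of_lt (Cardinal.mk_insert_le) ?_
        exact Cardinal.add_lt_of_lt hle.le (hIio ξ) (lt_of_lt_of_le Cardinal.one_lt_aleph0 hle.le)
      have hcard : ∀ S : Set M.1, #S < κ → #(HS 𝒮 (Subtype.val : M.1 → L ⊕ 𝒦) S).1 < κ := by
        intro S hS
        refine lt_of_le_of_lt (hull_card 𝒮.Φ 𝒮.hΦ _) ?_
        rw [max_lt_iff]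
        exact ⟨lt_of_le_of_lt Cardinal.mk_image_le hS, hle⟩
      have hall := sld_step 𝒮 (Subtype.val : M.1 → L ⊕ 𝒦)
        (ih _ (hcard ∅ (by rw [Cardinal.mk_emptyCollection]; exact lt_trans Cardinal.aleph0_pos hle)) _ rfl)
        (fun ξ => ih _ (hcard _ (hIic ξ)) _ rfl)
      have hM : HS 𝒮 (Subtype.val : M.1 → L ⊕ 𝒦) Set.univ = M := by
        apply Subtype.ext
        change hull 𝒮.Φ (Subtype.val '' Set.univ) = M.1
        rw [image_univ, Subtype.range_coe_subtype]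
        exact hull_of_cl 𝒮.Φ M.2
      rwa [hM] at hall

end Pool.H262.LS
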