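import Pool.Agent.H262.LS4

set_option autoImplicit false

namespace Pool.H262.LS

open Set Topology

theorem sigma_discrete (X : Type) [TopologicalSpace X]
    (hX : ∃ (K : Type) (_ : TopologicalSpace K), CompactSpace K ∧ T2Space K ∧
        ∃ f : X → (K → ℝ), Topology.IsEmbedding f ∧ ∀ x, Continuous (f x))
    (hL : LindelofSpace X)
    (hsc : ∀ S : Set X, S.Nonempty → ∃ x ∈ S, ∃ U : Set X, IsOpen U ∧ U ∩ S = {x}) :
    ∃ D : ℕ → Set X, (⋃ n, D n) = Set.univ ∧ ∀ n, ∀ x ∈ D n, ∃ U : Set X, IsOpen U ∧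
      U ∩ D n = {x} := by
  classical
  obtain ⟨K, _, hK, _, f, hf, hfc⟩ := hX
  have hreg : RegularSpace X := hf.isInducing.regularSpace
  let e : K → (X → ℝ) := fun k x => f x k
  have he : Continuous e := continuous_pi fun x => hfc x
  have hcomp : IsCompact (Set.range e) := isCompact_range he
  have hcont : ∀ k ∈ Set.range e, Continuous k := by
    rintro _ ⟨k, rfl⟩
    exact (continuous_apply k).comp hf.continuous
  obtain ⟨rk, hrk⟩ := exists_rank hsc
  choose U hUo hUx hUr using hrk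
  -- norm radius
  have hrad : ∀ x : X, ∃ n : ℕ, ∀ y : X, (∀ k, |f y k - f x k| ≤ 1 / ((n : ℝ) + 1)) → y ∈ U x := by
    intro x
    obtain ⟨V, hV, hVU⟩ := hf.isInducing.isOpen_iff.1 (hUo x)
    have hxV : f x ∈ V := by
      have : x ∈ f ⁻¹' V := by rw [hVU]; exact hUx x
      exact this
    obtain ⟨I, u, hu1, hu2⟩ := isOpen_pi_iff.1 hV _ hxV
    have hε : ∀ i : K, ∃ ε : ℝ, 0 < ε ∧ (i ∈ I → ∀ t : ℝ, |t - f x i| < ε → t ∈ u i) := by
      intro i
      by_cases hi : i ∈ I
      · obtain ⟨ε, hε, hball⟩ := Metric.isOpen_iff.1 (hu1 i hi).1 _ (hu1 i hi).2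
        refine ⟨ε, hε, fun _ t ht => hball ?_⟩
        rw [Metric.mem_ball, Real.dist_eq]
        exact ht
      · exact ⟨1, one_pos, fun h => absurd h hi⟩
    choose e' he1 he2 using hε
    obtain ⟨ε, hε, hεI⟩ : ∃ ε : ℝ, 0 < ε ∧ ∀ i ∈ I, ε ≤ e' i := by
      rcases I.eq_empty_or_nonempty with hI | hI
      · exact ⟨1, one_pos, by rw [hI]; simp⟩
      · refine ⟨I.inf' hI e', ?_, fun i hi => Finset.inf'_le e' hi⟩
        rw [Finset.lt_inf'_iff]
        exact fun i _ => he1 i
    obtain ⟨n, hn⟩ := exists_nat_one_div_lt hε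
    refine ⟨n, ?_⟩
    intro y hy
    have : y ∈ f ⁻¹' V := by
      apply hu2
      intro i hi
      exact he2 i hi _ (lt_of_le_of_lt (hy i) (lt_of_lt_of_le hn (hεI i hi)))
    rwa [hVU] at this
  choose N hN using hrad
  have hsld := fun n : ℕ => sld_main hsc hcomp hcont (1 / ((n : ℝ) + 1)) (by positivity)
  choose c hc using hsld
  let ev : X → GG (Set.range e) := fun x => ⟨fun k => k.1 x, (continuous_apply x).comp
    continuous_subtype_val⟩
  have hev : Continuous ev := by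
    apply Continuous.subtype_mk
    apply continuous_pi
    intro k
    exact hcont k.1 k.2
  refine ⟨fun p => {x | N x = p.unpair.1 ∧ c p.unpair.1 (ev x) = p.unpair.2}, ?_, ?_⟩
  · rw [Set.eq_univ_iff_forall]
    intro x
    rw [mem_iUnion]
    refine ⟨Nat.pair (N x) (c (N x) (ev x)), ?_⟩
    simp only [Nat.unpair_pair]
    exact ⟨rfl, rfl⟩
  · intro p x hx
    obtain ⟨hx1, hx2⟩ := hx
    have h1 := hev.continuousAt.eventually (hc p.unpair.1 (ev x))
    obtain ⟨O, hO1, hO2, hO3⟩ := eventually_nhds_iff.1 h1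
    refine ⟨O, hO2, ?_⟩
    ext y
    constructor
    · rintro ⟨hyO, hy1, hy2⟩
      by_contra hne
      have hne' : y ≠ x := hne
      have h2 := hO1 y hyO (hy2.trans hx2.symm)
      have h3 : ∀ k, |f y k - f x k| ≤ 1 / ((p.unpair.1 : ℝ) + 1) := fun k => h2 ⟨e k, k, rfl⟩
      have h4 : y ∈ U x := hN x y (by rw [hx1]; exact h3)
      have h5 : x ∈ U y := hN y x (by
        rw [hy1]
        intro k
        rw [abs_sub_comm]
        exact h3 k)
      exact lt_asymm (hUr x y h4 hne') (hUr y x h5 (Ne.symm hne'))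
    · rintro rfl
      exact ⟨hO3, hx1, hx2⟩

end Pool.H262.LS
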