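import Pool.Agent.H262.LS4

set_option autoImplicit false

namespace Pool.H262.LS

open Set Topology

theorem theta (L : Type) [TopologicalSpace L] [T35Space L] [LindelofSpace L]
    (hsc : ∀ S : Set L, S.Nonempty → ∃ x ∈ S, ∃ U : Set L, IsOpen U ∧ U ∩ S = {x})
    (K : Set {f : L → ℝ // Continuous f}) (hK : IsCompact K)
    (Y : Set {g : K → ℝ // Continuous g})
    (𝒰 : Set (Set Y)) (hU : ∀ U ∈ 𝒰, IsOpen U) (hcov : ⋃₀ 𝒰 = Set.univ) :
    ∃ 𝒢 : ℕ → Set (Set Y), (∀ n, ∀ G ∈ 𝒢 n, IsOpen G ∧ ∃ U ∈ 𝒰, G ⊆ U) ∧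
      ∀ y : Y, ∃ n, (∃ G ∈ 𝒢 n, y ∈ G) ∧ {G ∈ 𝒢 n | y ∈ G}.Finite := by
  classical
  let 𝒦 : Set (L → ℝ) := Subtype.val '' K
  have hcomp : IsCompact 𝒦 := hK.image continuous_subtype_val
  have hcont : ∀ k ∈ 𝒦, Continuous k := by
    rintro _ ⟨k, _, rfl⟩
    exact k.2
  have hmem : ∀ k : 𝒦, (⟨k.1, hcont k.1 k.2⟩ : {f : L → ℝ // Continuous f}) ∈ K := by
    rintro ⟨_, k, hk, rfl⟩
    exact hk
  let φ : 𝒦 → K := fun k => ⟨⟨k.1, hcont k.1 k.2⟩, hmem k⟩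
  have hφ : Continuous φ := by
    apply Continuous.subtype_mk
    apply Continuous.subtype_mk
    exact continuous_subtype_val
  have hφs : ∀ k : K, ∃ k' : 𝒦, φ k' = k := by
    intro k
    exact ⟨⟨k.1.1, k.1, k.2, rfl⟩, rfl⟩
  let T : Y → GG 𝒦 := fun y => ⟨fun k => y.1.1 (φ k), y.1.2.comp hφ⟩
  have hT : Continuous T := by
    apply Continuous.subtype_mk
    apply continuous_pi
    intro k
    exact (continuous_apply (φ k)).comp (continuous_subtype_val.comp continuous_subtype_val)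
  have hsld := fun n : ℕ => sld_main hsc hcomp hcont (1 / ((n : ℝ) + 1)) (by positivity)
  choose c hc using hsld
  -- well-order of the cover
  obtain ⟨r, hr⟩ : ∃ r : Set Y → Set Y → Prop, IsWellOrder (Set Y) r :=
    ⟨WellOrderingRel, inferInstance⟩
  have hne : ∀ y : Y, {U : Set Y | U ∈ 𝒰 ∧ y ∈ U}.Nonempty := by
    intro y
    have : y ∈ ⋃₀ 𝒰 := by rw [hcov]; trivial
    exact this
  let α : Y → Set Y := fun y => hr.wf.min _ (hne y)
  have hα1 : ∀ y, α y ∈ 𝒰 := fun y => (hr.wf.min_mem _ (hne y)).1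
  have hα2 : ∀ y, y ∈ α y := fun y => (hr.wf.min_mem _ (hne y)).2
  have hα3 : ∀ y U, U ∈ 𝒰 → y ∈ U → ¬ r U (α y) := fun y U h1 h2 =>
    hr.wf.not_lt_min _ (show U ∈ {U : Set Y | U ∈ 𝒰 ∧ y ∈ U} from ⟨h1, h2⟩)
  -- norm radius
  have hrad : ∀ y : Y, ∃ n : ℕ, ∀ z : Y, (∀ k, |z.1.1 k - y.1.1 k| ≤ 1 / ((n : ℝ) + 1)) →
      z ∈ α y := by
    intro y
    let J : Y → (K → ℝ) := fun y => y.1.1
    have hJ : Topology.IsInducing J := Topology.IsInducing.subtypeVal.comp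
      Topology.IsInducing.subtypeVal
    obtain ⟨V, hV, hVU⟩ := hJ.isOpen_iff.1 (hU _ (hα1 y))
    have hyV : J y ∈ V := by
      have : y ∈ J ⁻¹' V := by rw [hVU]; exact hα2 y
      exact this
    obtain ⟨I, u, hu1, hu2⟩ := isOpen_pi_iff.1 hV _ hyV
    have hε : ∀ i : K, ∃ ε : ℝ, 0 < ε ∧ (i ∈ I → ∀ t : ℝ, |t - y.1.1 i| < ε → t ∈ u i) := by
      intro i
      by_cases hi : i ∈ I
      · obtain ⟨ε, hε, hball⟩ := Metric.isOpen_iff.1 (hu1 i hi).1 _ (hu1 i hi).2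
        refine ⟨ε, hε, fun _ t ht => hball ?_⟩
        rw [Metric.mem_ball, Real.dist_eq]
        exact ht
      · exact ⟨1, one_pos, fun h => absurd h hi⟩
    choose e' he1 he2 using hε
    obtain ⟨ε, hε, hεI⟩ : ∃ ε : ℝ, 0 < ε ∧ ∀ i ∈ I, ε ≤ e' i := by
      rcases I.eq_empty_or_nonempty with hI | hI
      · exact ⟨1, one_pos, by rw [hI]; simp⟩
      · refine ⟨I.inf' hI e', ?_, fun i hi => Finset.inf'_le e' hi⟩
        rw [Finset.lt_inf'_iff]
        exact fun i _ => he1 i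
    obtain ⟨n, hn⟩ := exists_nat_one_div_lt hε
    refine ⟨n, ?_⟩
    intro z hz
    have : z ∈ J ⁻¹' V := by
      apply hu2
      intro i hi
      exact he2 i hi _ (lt_of_le_of_lt (hz i) (lt_of_lt_of_le hn (hεI i hi)))
    rwa [hVU] at this
  choose N hN using hrad
  have hnb : ∀ (n : ℕ) (y : Y), ∃ V : Set Y, IsOpen V ∧ y ∈ V ∧ ∀ z ∈ V, c n (T z) = c n (T y) →
      ∀ k, |z.1.1 k - y.1.1 k| ≤ 1 / ((n : ℝ) + 1) := by
    intro n y
    have h1 := hT.continuousAt.eventually (hc n (T y))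
    obtain ⟨O, hO1, hO2, hO3⟩ := eventually_nhds_iff.1 h1
    refine ⟨O, hO2, hO3, ?_⟩
    intro z hz hcz k
    obtain ⟨k', rfl⟩ := hφs k
    exact hO1 z hz hcz k'
  choose V hVo hVy hVz using hnb
  let G : ℕ → ℕ → Set Y → Set Y := fun n m U =>
    ⋃ y ∈ {y : Y | N y = n ∧ c n (T y) = m ∧ α y = U}, V n y ∩ U
  refine ⟨fun p => {H | ∃ U ∈ 𝒰, H = G p.unpair.1 p.unpair.2 U}, ?_, ?_⟩
  · rintro p _ ⟨U, hU', rfl⟩
    refine ⟨?_, U, hU', ?_⟩
    · refine isOpen_biUnion ?_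
      intro y _
      exact (hVo _ y).inter (hU U hU')
    · intro z hz
      obtain ⟨y, _, hz⟩ := mem_iUnion₂.1 hz
      exact hz.2
  · intro z
    refine ⟨Nat.pair (N z) (c (N z) (T z)), ?_, ?_⟩
    · refine ⟨_, ⟨α z, hα1 z, rfl⟩, ?_⟩
      simp only [Nat.unpair_pair]
      refine mem_iUnion₂.2 ⟨z, ⟨rfl, rfl, rfl⟩, hVy _ z, hα2 z⟩
    · refine (finite_singleton (G (N z) (c (N z) (T z)) (α z))).subset ?_
      rintro H ⟨⟨U, hU', hH⟩, hzH⟩
      simp only [Nat.unpair_pair] at hH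
      rw [hH] at hzH
      obtain ⟨y, ⟨hy1, hy2, hy3⟩, hzV, hzU⟩ := mem_iUnion₂.1 hzH
      have h1 := hVz (N z) y z hzV hy2.symm
      have h2 : y ∈ α z := hN z y (by
        intro k
        rw [abs_sub_comm]
        exact h1 k)
      have h3 : z ∈ α y := by rw [hy3]; exact hzU
      have h4 : ¬ r (α z) (α y) := hα3 y _ (hα1 z) h2
      have h5 : ¬ r (α y) (α z) := hα3 z _ (hα1 y) h3
      have h6 : α z = α y := by
        haveI := hr
        rcases trichotomous_of r (α z) (α y) with h | h | h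
        · exact absurd h h4
        · exact h
        · exact absurd h h5
      rw [hH, ← hy3, ← h6]
      rfl

end Pool.H262.LS
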