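import Mathlib

set_option autoImplicit false

/-!
An explicit rigid (only scalar operators) 1/2-Banach space: preparation.
-/

namespace Pool.Agent.H262.Rig

open Finset

noncomputable section

/-- scaling constants `λ_k` -/
def lam : ℕ → ℕ
  | 0 => 2
  | (k+1) => (k+2) * lam k + 1

/-- block boundaries `m_k` -/
def mm : ℕ → ℕ
  | 0 => 1
  | (k+1) => mm k + ((k+1) * mm k * lam k)^2

/-- block lengths `N_k` -/
def bl (k : ℕ) : ℕ := ((k+1) * mm k * lam k)^2

/-- the coefficients `γ_k` -/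
def gam (k : ℕ) : ℝ := ((lam k : ℝ) / (bl k : ℝ))^2

theorem lam_pos (k : ℕ) : 2 ≤ lam k := by
  induction k with
  | zero => simp [lam]
  | succ k ih => simp only [lam]; nlinarith

theorem lam_succ (k : ℕ) : (lam (k+1) : ℝ) = (k+2) * lam k + 1 := by
  simp [lam]

theorem mm_succ (k : ℕ) : mm (k+1) = mm k + bl k := rfl

theorem mm_pos (k : ℕ) : 1 ≤ mm k := by
  induction k with
  | zero => simp [mm]
  | succ k ih => rw [mm_succ]; omega

theorem bl_pos (k : ℕ) : 1 ≤ bl k := by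
  unfold bl
  have h1 := lam_pos k
  have h2 := mm_pos k
  have : 0 < (k+1) * mm k * lam k := by positivity
  exact Nat.one_le_pow _ _ this

theorem mm_lt_succ (k : ℕ) : mm k < mm (k+1) := by
  rw [mm_succ]; have := bl_pos k; omega

theorem mm_strictMono : StrictMono mm := strictMono_nat_of_lt_succ mm_lt_succ

theorem lt_mm (k : ℕ) : k < mm k := by
  induction k with
  | zero => simp [mm]
  | succ k ih => have := mm_lt_succ k; omega

theorem lam_mono : Monotone lam := by
  apply monotone_nat_of_le_succ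
  intro k
  simp only [lam]; nlinarith [lam_pos k]

theorem gam_nonneg (k : ℕ) : 0 ≤ gam k := by unfold gam; positivity

theorem sqrt_gam (k : ℕ) : √(gam k) = (lam k : ℝ) / (bl k : ℝ) := by
  unfold gam
  rw [Real.sqrt_sq (by positivity)]

theorem bl_sqrt_gam (k : ℕ) : (bl k : ℝ) * √(gam k) = lam k := by
  rw [sqrt_gam]
  have : (0:ℝ) < bl k := by exact_mod_cast bl_pos k
  field_simp

theorem sqrt_bl (k : ℕ) : √(bl k : ℝ) = (k+1) * mm k * lam k := by
  unfold bl
  push_cast
  rw [Real.sqrt_sq (by positivity)]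

/-- `m_k * sqrt (γ_k N_k) = 1/(k+1)` -/
theorem mm_sqrt_gam_bl (k : ℕ) : (mm k : ℝ) * √(gam k * bl k) = 1 / (k+1) := by
  rw [Real.sqrt_mul (gam_nonneg k), sqrt_gam]
  have hb : (bl k : ℝ) = √(bl k : ℝ) * √(bl k : ℝ) := (Real.mul_self_sqrt (by positivity)).symm
  have h1 : (0:ℝ) < lam k := by exact_mod_cast (by have := lam_pos k; omega : 0 < lam k)
  have h2 : (0:ℝ) < mm k := by exact_mod_cast mm_pos k
  have h3 : √(bl k : ℝ) = (k+1) * mm k * lam k := sqrt_bl k
  have h4 : (0:ℝ) < √(bl k : ℝ) := by rw [h3]; positivity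
  calc (mm k : ℝ) * ((lam k : ℝ) / (bl k : ℝ) * √(bl k : ℝ))
      = (mm k : ℝ) * ((lam k : ℝ) / (√(bl k : ℝ) * √(bl k : ℝ)) * √(bl k : ℝ)) := by rw [← hb]
    _ = (mm k : ℝ) * lam k / √(bl k : ℝ) := by field_simp
    _ = 1 / (k+1) := by
        rw [h3]
        have : (0:ℝ) < (k:ℝ)+1 := by positivity
        field_simp

/-! ### the cost functional -/

theorem sqrt_abs_add_le (a b : ℝ) : √|a + b| ≤ √|a| + √|b| := by
  rw [Real.sqrt_le_left (by positivity)]
  have h1 := Real.mul_self_sqrt (abs_nonneg a)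
  have h2 := Real.mul_self_sqrt (abs_nonneg b)
  have h3 := abs_add_le a b
  nlinarith [Real.sqrt_nonneg |a|, Real.sqrt_nonneg |b|, mul_nonneg (Real.sqrt_nonneg |a|) (Real.sqrt_nonneg |b|)]

theorem sqrt_abs_sub_le (a b : ℝ) : √|a - b| ≤ √|a| + √|b| := by
  have := sqrt_abs_add_le a (-b)
  rwa [abs_neg, ← sub_eq_add_neg] at this

theorem sqrt_abs_mul (a b : ℝ) : √|a * b| = √|a| * √|b| := by
  rw [abs_mul, Real.sqrt_mul (abs_nonneg a)]

theorem sqrt_abs_sum_le {ι : Type*} (s : Finset ι) (f : ι → ℝ) :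
    √|∑ i ∈ s, f i| ≤ ∑ i ∈ s, √|f i| := by
  classical
  induction s using Finset.induction_on with
  | empty => simp
  | insert a s ha ih =>
    rw [Finset.sum_insert ha, Finset.sum_insert ha]
    exact (sqrt_abs_add_le _ _).trans (by linarith)

/-- finitely supported sequences -/
abbrev FF := ℕ →₀ ℝ

/-- cost -/
def cost (b : ℕ →₀ ℝ) : ℝ := ∑ n ∈ b.support, √|b n|

theorem cost_nonneg (b : ℕ →₀ ℝ) : 0 ≤ cost b := by
  unfold cost; exact Finset.sum_nonneg (fun _ _ => Real.sqrt_nonneg _)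

theorem cost_eq_sum {b : ℕ →₀ ℝ} {S : Finset ℕ} (h : b.support ⊆ S) :
    cost b = ∑ n ∈ S, √|b n| := by
  unfold cost
  apply Finset.sum_subset h
  intro n _ hn
  rw [Finsupp.notMem_support_iff] at hn
  simp [hn]

theorem sum_le_cost (b : ℕ →₀ ℝ) (S : Finset ℕ) : ∑ n ∈ S, √|b n| ≤ cost b := by
  classical
  rw [cost_eq_sum (Finset.subset_union_left : b.support ⊆ b.support ∪ S)]
  exact Finset.sum_le_sum_of_subset_of_nonneg Finset.subset_union_right
    (fun _ _ _ => Real.sqrt_nonneg _)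

theorem sqrt_abs_le_cost (b : ℕ →₀ ℝ) (n : ℕ) : √|b n| ≤ cost b := by
  simpa using sum_le_cost b {n}

theorem cost_zero : cost 0 = 0 := by simp [cost]

theorem cost_neg (b : ℕ →₀ ℝ) : cost (-b) = cost b := by
  unfold cost
  rw [Finsupp.support_neg]
  simp

theorem cost_add_le (a b : ℕ →₀ ℝ) : cost (a + b) ≤ cost a + cost b := by
  classical
  rw [cost_eq_sum (Finsupp.support_add : (a+b).support ⊆ a.support ∪ b.support),
    cost_eq_sum (Finset.subset_union_left : a.support ⊆ a.support ∪ b.support),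
    cost_eq_sum (Finset.subset_union_right : b.support ⊆ a.support ∪ b.support),
    ← Finset.sum_add_distrib]
  exact Finset.sum_le_sum (fun n _ => by rw [Finsupp.add_apply]; exact sqrt_abs_add_le _ _)

theorem cost_sub_le (a b : ℕ →₀ ℝ) : cost (a - b) ≤ cost a + cost b := by
  rw [sub_eq_add_neg, ← cost_neg b]; exact cost_add_le _ _

theorem cost_smul (t : ℝ) (b : ℕ →₀ ℝ) : cost (t • b) = √|t| * cost b := by
  rw [cost_eq_sum (Finsupp.support_smul : (t • b).support ⊆ b.support), cost, Finset.mul_sum]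
  refine Finset.sum_congr rfl (fun n _ => ?_)
  rw [Finsupp.smul_apply, smul_eq_mul, sqrt_abs_mul]

theorem cost_single (n : ℕ) (t : ℝ) : cost (Finsupp.single n t) = √|t| := by
  classical
  rw [cost_eq_sum (Finsupp.support_single_subset : (Finsupp.single n t).support ⊆ {n})]
  simp

theorem cost_sum_le {ι : Type*} (s : Finset ι) (f : ι → ℕ →₀ ℝ) :
    cost (∑ i ∈ s, f i) ≤ ∑ i ∈ s, cost (f i) := by
  classical
  induction s using Finset.induction_on with
  | empty => simp [cost_zero]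
  | insert a s ha ih =>
    rw [Finset.sum_insert ha, Finset.sum_insert ha]
    exact (cost_add_le _ _).trans (by linarith)

/-! ### relators -/

/-- basis vector -/
abbrev ee (n : ℕ) : ℕ →₀ ℝ := Finsupp.single n 1

/-- first index -/
def ia (k : ℕ) : ℕ := (Nat.unpair (Nat.unpair k).1).1
/-- second index -/
def ib (k : ℕ) : ℕ := (Nat.unpair (Nat.unpair k).1).2

theorem ia_le (k : ℕ) : ia k ≤ k :=
  (Nat.unpair_left_le _).trans (Nat.unpair_left_le _)
theorem ib_le (k : ℕ) : ib k ≤ k :=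
  (Nat.unpair_right_le _).trans (Nat.unpair_left_le _)

/-- the vectors `x_k` -/
def xx (k : ℕ) : ℕ →₀ ℝ := (1/4 : ℝ) • (ee (ia k) + ee (ib k))

theorem exists_xx (a b J : ℕ) : ∃ j, J ≤ j ∧ xx j = (1/4 : ℝ) • (ee a + ee b) := by
  refine ⟨Nat.pair (Nat.pair a b) J, Nat.right_le_pair _ _, ?_⟩
  simp [xx, ia, ib]

theorem cost_xx (k : ℕ) : cost (xx k) ≤ 1 := by
  unfold xx
  rw [cost_smul]
  have h1 : cost (ee (ia k) + ee (ib k)) ≤ 2 := by
    refine (cost_add_le _ _).trans ?_
    rw [cost_single, cost_single]; norm_num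
  have h2 : √|(1/4:ℝ)| = 1/2 := by
    rw [abs_of_pos (by norm_num), show (1/4:ℝ) = (1/2)^2 by norm_num, Real.sqrt_sq (by norm_num)]
  rw [h2]; linarith

theorem xx_apply_of_le {k n : ℕ} (h : mm k ≤ n) : xx k n = 0 := by
  unfold xx
  have h1 := ia_le k
  have h2 := ib_le k
  have h3 := lt_mm k
  have h4 : ia k ≠ n := by omega
  have h5 : ib k ≠ n := by omega
  simp [h4, h5]

/-- block vector -/
def blk (k : ℕ) : ℕ →₀ ℝ := ∑ n ∈ Finset.Ico (mm k) (mm (k+1)), ee n

theorem blk_apply (k n : ℕ) : blk k n = if n ∈ Finset.Ico (mm k) (mm (k+1)) then 1 else 0 := by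
  classical
  unfold blk
  rw [Finsupp.finsetSum_apply]
  simp [Finsupp.single_apply]

/-- relators -/
def rr (k : ℕ) : ℕ →₀ ℝ := xx k - gam k • blk k

theorem rr_apply (k n : ℕ) :
    rr k n = xx k n - gam k * (if n ∈ Finset.Ico (mm k) (mm (k+1)) then 1 else 0) := by
  unfold rr
  rw [Finsupp.sub_apply, Finsupp.smul_apply, blk_apply, smul_eq_mul]

/-- sum over blocks -/
theorem sum_blocks (g : ℕ → ℝ) (j : ℕ) : ∀ L, j ≤ L →
    ∑ k ∈ Finset.Ico j L, ∑ n ∈ Finset.Ico (mm k) (mm (k+1)), g n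
      = ∑ n ∈ Finset.Ico (mm j) (mm L), g n := by
  intro L hL
  induction L, hL using Nat.le_induction with
  | base => simp
  | succ L hL ih =>
    rw [Finset.sum_Ico_succ_top hL, ih]
    exact Finset.sum_Ico_consecutive g (mm_strictMono.monotone hL) (mm_lt_succ L).le

end

end Pool.Agent.H262.Rig
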