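import Mathlib
import Pool.Agent.H262.Rig1

set_option autoImplicit false

namespace Pool.Agent.H262.Rig

open Finset

noncomputable section

theorem xx_apply_ge {l j n : ℕ} (hl : l ≤ j) (hn : mm j ≤ n) : xx l n = 0 :=
  xx_apply_of_le ((mm_strictMono.monotone hl).trans hn)

theorem block_unique {k l n : ℕ} (hk : n ∈ Finset.Ico (mm k) (mm (k+1)))
    (hl : n ∈ Finset.Ico (mm l) (mm (l+1))) : k = l := by
  rw [Finset.mem_Ico] at hk hl
  by_contra hne
  rcases lt_or_gt_of_ne hne with h | h
  · have := mm_strictMono.monotone (show k+1 ≤ l by omega); omega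
  · have := mm_strictMono.monotone (show l+1 ≤ k by omega); omega

/-- Key Lemma, first part -/
theorem key1 (i L : ℕ) (hiL : i ≤ L) (e z s : ℕ →₀ ℝ) (c : ℕ → ℝ)
    (he : ∀ n, mm i ≤ n → e n = 0)
    (hrel : e = z - s + ∑ k ∈ Finset.range L, c k • rr k) :
    ∑ k ∈ Finset.Ico i L, ((lam k : ℝ) - 1) * √|c k| ≤ cost z + cost s := by
  classical
  have hpt : ∀ k ∈ Finset.Ico i L, ∀ n ∈ Finset.Ico (mm k) (mm (k+1)),
      √(gam k) * √|c k| ≤ √|z n| + √|s n|
        + ∑ l ∈ Finset.Ico i L, √|c l| * √|xx l n| := by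
    intro k hk n hn
    have hk' := Finset.mem_Ico.mp hk
    have hn' := Finset.mem_Ico.mp hn
    have hjn : mm i ≤ n := (mm_strictMono.monotone (show i ≤ k by omega)).trans hn'.1
    have h0 : e n = 0 := he n hjn
    have h1 : e n = z n - s n + ∑ l ∈ Finset.range L, c l * rr l n := by
      rw [hrel, Finsupp.add_apply, Finsupp.sub_apply, Finsupp.finsetSum_apply]
      simp only [Finsupp.smul_apply, smul_eq_mul]
    have h2 : ∑ l ∈ Finset.range L, c l * rr l n
        = ∑ l ∈ Finset.range L, c l * xx l n - c k * gam k := by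
      have : ∀ l ∈ Finset.range L, c l * rr l n = c l * xx l n - (if l = k then c k * gam k else 0) := by
        intro l _
        rw [rr_apply]
        by_cases hlk : l = k
        · subst hlk; rw [if_pos hn]; simp; ring
        · have : n ∉ Finset.Ico (mm l) (mm (l+1)) := fun h => hlk (block_unique h hn)
          rw [if_neg this]; simp [hlk]
      rw [Finset.sum_congr rfl this, Finset.sum_sub_distrib, Finset.sum_ite_eq' (Finset.range L) k,
        if_pos (Finset.mem_range.mpr hk'.2)]
    have h3 : ∑ l ∈ Finset.range L, c l * xx l n = ∑ l ∈ Finset.Ico i L, c l * xx l n := by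
      symm
      apply Finset.sum_subset
      · intro l hl; rw [Finset.mem_Ico] at hl; exact Finset.mem_range.mpr hl.2
      · intro l hl hl'
        have : l ≤ i := by
          by_contra hcon
          exact hl' (Finset.mem_Ico.mpr ⟨by omega, Finset.mem_range.mp hl⟩)
        rw [xx_apply_ge this hjn, mul_zero]
    have h4 : gam k * c k = z n - s n + ∑ l ∈ Finset.Ico i L, c l * xx l n := by
      rw [h0, h2, h3] at h1; linarith
    have h5 : √|gam k * c k| = √(gam k) * √|c k| := by
      rw [sqrt_abs_mul, abs_of_nonneg (gam_nonneg k)]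
    rw [← h5, h4]
    refine (sqrt_abs_add_le _ _).trans ?_
    refine add_le_add (sqrt_abs_sub_le _ _) ?_
    refine (sqrt_abs_sum_le _ _).trans ?_
    exact Finset.sum_le_sum (fun l _ => (sqrt_abs_mul _ _).le)
  have hsum : ∑ k ∈ Finset.Ico i L, (lam k : ℝ) * √|c k| ≤
      ∑ k ∈ Finset.Ico i L, ∑ n ∈ Finset.Ico (mm k) (mm (k+1)),
        (√|z n| + √|s n| + ∑ l ∈ Finset.Ico i L, √|c l| * √|xx l n|) := by
    refine Finset.sum_le_sum (fun k hk => ?_)
    have : (lam k : ℝ) * √|c k| = ∑ n ∈ Finset.Ico (mm k) (mm (k+1)), √(gam k) * √|c k| := by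
      rw [Finset.sum_const, Nat.card_Ico, mm_succ, Nat.add_sub_cancel_left, nsmul_eq_mul,
        ← mul_assoc, bl_sqrt_gam]
    rw [this]
    exact Finset.sum_le_sum (fun n hn => hpt k hk n hn)
  rw [sum_blocks _ i L hiL, Finset.sum_add_distrib, Finset.sum_add_distrib,
    Finset.sum_comm] at hsum
  have h6 : ∑ l ∈ Finset.Ico i L, ∑ n ∈ Finset.Ico (mm i) (mm L), √|c l| * √|xx l n|
      ≤ ∑ l ∈ Finset.Ico i L, √|c l| := by
    refine Finset.sum_le_sum (fun l _ => ?_)
    rw [← Finset.mul_sum]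
    have := (sum_le_cost (xx l) (Finset.Ico (mm i) (mm L))).trans (cost_xx l)
    have h7 := Real.sqrt_nonneg |c l|
    nlinarith
  have h8 := sum_le_cost z (Finset.Ico (mm i) (mm L))
  have h9 := sum_le_cost s (Finset.Ico (mm i) (mm L))
  have h10 : ∑ k ∈ Finset.Ico i L, ((lam k : ℝ) - 1) * √|c k|
      = ∑ k ∈ Finset.Ico i L, (lam k : ℝ) * √|c k| - ∑ k ∈ Finset.Ico i L, √|c k| := by
    rw [← Finset.sum_sub_distrib]
    exact Finset.sum_congr rfl (fun k _ => by ring)
  rw [h10]
  linarith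

/-- Key Lemma, second part -/
theorem key2 (j L : ℕ) (hjL : j < L) (e z s : ℕ →₀ ℝ) (c : ℕ → ℝ)
    (he : ∀ n, mm j ≤ n → e n = 0)
    (hrel : e = z - s + ∑ k ∈ Finset.range L, c k • rr k) :
    cost (e - c j • xx j - ∑ k ∈ Finset.range j, c k • rr k) ≤
      ∑ n ∈ Finset.range (mm j), √|z n| + cost s + ∑ k ∈ Finset.Ico (j+1) L, √|c k| := by
  classical
  set w : ℕ →₀ ℝ := e - c j • xx j - ∑ k ∈ Finset.range j, c k • rr k with hw
  have hwn : ∀ n, w n = e n - c j * xx j n - ∑ k ∈ Finset.range j, c k * rr k n := by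
    intro n
    rw [hw, Finsupp.sub_apply, Finsupp.sub_apply, Finsupp.finsetSum_apply]
    simp only [Finsupp.smul_apply, smul_eq_mul]
  have hen : ∀ n, e n = z n - s n + ∑ l ∈ Finset.range L, c l * rr l n := by
    intro n
    conv_lhs => rw [hrel]
    rw [Finsupp.add_apply, Finsupp.sub_apply, Finsupp.finsetSum_apply]
    simp only [Finsupp.smul_apply, smul_eq_mul]
  have hsupp : w.support ⊆ Finset.range (mm j) := by
    intro n hn
    by_contra hcon
    rw [Finset.mem_range, not_lt] at hcon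
    rw [Finsupp.mem_support_iff] at hn
    apply hn
    rw [hwn, he n hcon, xx_apply_of_le hcon]
    have : ∑ k ∈ Finset.range j, c k * rr k n = 0 := by
      apply Finset.sum_eq_zero
      intro k hk
      rw [Finset.mem_range] at hk
      have h1 : mm (k+1) ≤ n := (mm_strictMono.monotone (show k+1 ≤ j by omega)).trans hcon
      rw [rr_apply, xx_apply_of_le ((mm_lt_succ k).le.trans h1), if_neg]
      · simp
      · rw [Finset.mem_Ico]; omega
    rw [this]; simp
  rw [cost_eq_sum hsupp]
  have hpt : ∀ n ∈ Finset.range (mm j), √|w n| ≤ √|z n| + √|s n|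
      + ∑ l ∈ Finset.Ico (j+1) L, √|c l| * √|xx l n| := by
    intro n hn
    rw [Finset.mem_range] at hn
    have h1 : ∑ l ∈ Finset.range L, c l * rr l n =
        ∑ l ∈ Finset.range j, c l * rr l n + c j * rr j n + ∑ l ∈ Finset.Ico (j+1) L, c l * rr l n := by
      rw [← Finset.sum_range_succ, Finset.sum_range_add_sum_Ico _ hjL]
    have h2 : rr j n = xx j n := by
      rw [rr_apply, if_neg (by rw [Finset.mem_Ico]; omega)]; simp
    have h3 : ∑ l ∈ Finset.Ico (j+1) L, c l * rr l n = ∑ l ∈ Finset.Ico (j+1) L, c l * xx l n := by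
      refine Finset.sum_congr rfl (fun l hl => ?_)
      rw [Finset.mem_Ico] at hl
      have := mm_strictMono.monotone (show j ≤ l by omega)
      rw [rr_apply, if_neg (by rw [Finset.mem_Ico]; omega)]; simp
    have h4 : w n = z n - s n + ∑ l ∈ Finset.Ico (j+1) L, c l * xx l n := by
      rw [hwn, hen, h1, h2, h3]; ring
    rw [h4]
    refine (sqrt_abs_add_le _ _).trans ?_
    refine add_le_add (sqrt_abs_sub_le _ _) ?_
    refine (sqrt_abs_sum_le _ _).trans ?_
    exact Finset.sum_le_sum (fun l _ => (sqrt_abs_mul _ _).le)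
  refine (Finset.sum_le_sum hpt).trans ?_
  rw [Finset.sum_add_distrib, Finset.sum_add_distrib, Finset.sum_comm]
  have h6 : ∑ l ∈ Finset.Ico (j+1) L, ∑ n ∈ Finset.range (mm j), √|c l| * √|xx l n|
      ≤ ∑ l ∈ Finset.Ico (j+1) L, √|c l| := by
    refine Finset.sum_le_sum (fun l _ => ?_)
    rw [← Finset.mul_sum]
    have := (sum_le_cost (xx l) (Finset.range (mm j))).trans (cost_xx l)
    have h7 := Real.sqrt_nonneg |c l|
    nlinarith
  have h9 := sum_le_cost s (Finset.range (mm j))
  linarith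

end

end Pool.Agent.H262.Rig
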