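import Mathlib
import Pool.Agent.H262.Rig2

set_option autoImplicit false

namespace Pool.Agent.H262.Rig

open Finset

noncomputable section

/-- type synonym of finitely supported sequences, carrying the cost norm -/
def FS : Type := ℕ →₀ ℝ

instance : AddCommGroup FS := inferInstanceAs (AddCommGroup (ℕ →₀ ℝ))
instance : Module ℝ FS := inferInstanceAs (Module ℝ (ℕ →₀ ℝ))

/-- to FS -/
def toFS : (ℕ →₀ ℝ) ≃ₗ[ℝ] FS := LinearEquiv.refl ℝ _

/-- cost seminorm on FS -/
def costSN : AddGroupSeminorm FS where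
  toFun := fun b => cost (toFS.symm b)
  map_zero' := by simp [cost_zero]
  add_le' := fun a b => by rw [map_add]; exact cost_add_le _ _
  neg' := fun a => by rw [map_neg]; exact cost_neg _

instance : SeminormedAddCommGroup FS := costSN.toSeminormedAddCommGroup

theorem norm_toFS (b : ℕ →₀ ℝ) : ‖toFS b‖ = cost b := rfl

/-- closed span of relators (no closure taken) -/
def M0 : Submodule ℝ FS := Submodule.span ℝ (Set.range (fun k => toFS (rr k)))

/-- the quotient -/
abbrev QS : Type := FS ⧸ M0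

/-- half-homogeneous norms -/
class HalfNorm (E : Type*) [SeminormedAddCommGroup E] [Module ℝ E] : Prop where
  norm_smul_le' : ∀ (t : ℝ) (x : E), ‖t • x‖ ≤ √|t| * ‖x‖

theorem hn_smul_le {E : Type*} [SeminormedAddCommGroup E] [Module ℝ E] [HalfNorm E]
    (t : ℝ) (x : E) : ‖t • x‖ ≤ √|t| * ‖x‖ := HalfNorm.norm_smul_le' t x

theorem hn_smul {E : Type*} [SeminormedAddCommGroup E] [Module ℝ E] [HalfNorm E]
    (t : ℝ) (x : E) : ‖t • x‖ = √|t| * ‖x‖ := by
  apply le_antisymm (hn_smul_le t x)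
  by_cases ht : t = 0
  · subst ht; simp
  · have h1 : ‖x‖ ≤ √|t⁻¹| * ‖t • x‖ := by
      have := hn_smul_le t⁻¹ (t • x)
      rwa [smul_smul, inv_mul_cancel₀ ht, one_smul] at this
    have h2 : √|t| * √|t⁻¹| = 1 := by
      rw [← sqrt_abs_mul, mul_inv_cancel₀ ht]; simp
    calc √|t| * ‖x‖ ≤ √|t| * (√|t⁻¹| * ‖t • x‖) :=
          mul_le_mul_of_nonneg_left h1 (Real.sqrt_nonneg _)
      _ = ‖t • x‖ := by rw [← mul_assoc, h2, one_mul]

instance : HalfNorm FS where
  norm_smul_le' := fun t x => by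
    have : t • x = toFS (t • toFS.symm x) := by rw [map_smul]; simp
    rw [this, norm_toFS, cost_smul]
    rfl

instance : HalfNorm QS where
  norm_smul_le' := fun t x => by
    refine le_of_forall_pos_lt_add (fun ε hε => ?_)
    have hpos : 0 < √|t| + 1 := by positivity
    obtain ⟨m, hm, hlt⟩ := Submodule.Quotient.norm_mk_lt x (ε := ε / (√|t| + 1)) (by positivity)
    have h1 : ‖t • x‖ ≤ ‖t • m‖ := by
      rw [← hm, ← Submodule.Quotient.mk_smul]
      exact Submodule.Quotient.norm_mk_le M0 _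
    have h2 : ‖t • m‖ ≤ √|t| * ‖m‖ := hn_smul_le t m
    have h3 : √|t| * ‖m‖ ≤ √|t| * (‖x‖ + ε / (√|t| + 1)) :=
      mul_le_mul_of_nonneg_left hlt.le (Real.sqrt_nonneg _)
    have h4 : √|t| * (ε / (√|t| + 1)) < ε := by
      rw [mul_div_assoc', div_lt_iff₀ hpos]
      nlinarith [Real.sqrt_nonneg |t|]
    nlinarith

theorem HalfNorm.continuousSMul (E : Type*) [SeminormedAddCommGroup E] [Module ℝ E] [HalfNorm E] :
    ContinuousSMul ℝ E := by
  constructor
  rw [continuous_iff_continuousAt]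
  rintro ⟨t, x⟩
  rw [ContinuousAt, tendsto_iff_norm_sub_tendsto_zero]
  have hb : ∀ p : ℝ × E, ‖p.1 • p.2 - t • x‖ ≤ √|p.1| * ‖p.2 - x‖ + √|p.1 - t| * ‖x‖ := by
    intro p
    have : p.1 • p.2 - t • x = p.1 • (p.2 - x) + (p.1 - t) • x := by
      rw [smul_sub, sub_smul]; abel
    rw [this]
    exact (norm_add_le _ _).trans (add_le_add (hn_smul_le _ _) (hn_smul_le _ _))
  refine squeeze_zero (fun _ => norm_nonneg _) hb ?_
  have hc : Continuous (fun p : ℝ × E => √|p.1| * ‖p.2 - x‖ + √|p.1 - t| * ‖x‖) := by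
    fun_prop
  have := hc.tendsto (t, x)
  simpa using this

instance HalfNorm.uniformContinuousConstSMul (E : Type*) [SeminormedAddCommGroup E] [Module ℝ E]
    [HalfNorm E] : UniformContinuousConstSMul ℝ E where
  uniformContinuous_const_smul := fun t => by
    have hl : LipschitzWith (Real.toNNReal √|t|) (fun x : E => t • x) := by
      refine LipschitzWith.of_dist_le_mul (fun x y => ?_)
      rw [dist_eq_norm, dist_eq_norm, ← smul_sub, Real.coe_toNNReal _ (Real.sqrt_nonneg _)]
      exact hn_smul_le _ _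
    exact hl.uniformContinuous

/-- the rigid space -/
abbrev RS : Type := UniformSpace.Completion QS

instance : HalfNorm RS where
  norm_smul_le' := fun t x => by
    induction x using UniformSpace.Completion.induction_on with
    | hp => 
      apply isClosed_le
      · exact (continuous_const_smul t).norm
      · exact continuous_const.mul continuous_norm
    | ih a =>
      rw [← UniformSpace.Completion.coe_smul, UniformSpace.Completion.norm_coe,
        UniformSpace.Completion.norm_coe]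
      exact hn_smul_le t a

instance : ContinuousSMul ℝ RS := HalfNorm.continuousSMul RS
instance : ContinuousSMul ℝ QS := HalfNorm.continuousSMul QS

/-- the class of a finitely supported sequence in the rigid space -/
def br : (ℕ →₀ ℝ) →ₗ[ℝ] RS where
  toFun := fun b => ((Submodule.Quotient.mk (toFS b) : QS) : RS)
  map_add' := fun a b => by
    rw [map_add, Submodule.Quotient.mk_add, UniformSpace.Completion.coe_add]
  map_smul' := fun t b => by
    rw [map_smul, Submodule.Quotient.mk_smul, UniformSpace.Completion.coe_smul]; rfl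

theorem norm_br_eq (b : ℕ →₀ ℝ) : ‖br b‖ = ‖(Submodule.Quotient.mk (toFS b) : QS)‖ :=
  UniformSpace.Completion.norm_coe _

theorem norm_br_le (b : ℕ →₀ ℝ) : ‖br b‖ ≤ cost b := by
  rw [norm_br_eq]
  exact Submodule.Quotient.norm_mk_le M0 _

theorem br_rr (k : ℕ) : br (rr k) = 0 := by
  have : (Submodule.Quotient.mk (toFS (rr k)) : QS) = 0 := by
    rw [Submodule.Quotient.mk_eq_zero]
    exact Submodule.subset_span ⟨k, rfl⟩
  change ((Submodule.Quotient.mk (toFS (rr k)) : QS) : RS) = 0
  rw [this]; rfl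

theorem br_xx (k : ℕ) : br (xx k) = gam k • ∑ n ∈ Finset.Ico (mm k) (mm (k+1)), br (ee n) := by
  have h := br_rr k
  unfold rr blk at h
  rw [map_sub, map_smul, map_sum, sub_eq_zero] at h
  exact h

/-- representation of elements of M0 -/
theorem mem_M0 {b : ℕ →₀ ℝ} (h : toFS b ∈ M0) :
    ∃ (c : ℕ → ℝ) (L : ℕ), ∀ L', L ≤ L' → b = ∑ k ∈ Finset.range L', c k • rr k := by
  rw [M0, Finsupp.mem_span_range_iff_exists_finsupp] at h
  obtain ⟨c, hc⟩ := h
  obtain ⟨L, hL⟩ := c.support.exists_nat_subset_range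
  refine ⟨c, L, fun L' hL' => ?_⟩
  have h1 : b = c.sum fun k t => t • rr k := by
    apply toFS.injective
    rw [← hc, Finsupp.sum, Finsupp.sum, map_sum]
    exact Finset.sum_congr rfl (fun k _ => (map_smul toFS _ _).symm)
  rw [h1, Finsupp.sum]
  apply Finset.sum_subset (hL.trans (Finset.range_mono hL'))
  intro n _ hn
  rw [Finsupp.notMem_support_iff] at hn
  rw [hn, zero_smul]

/-- if `[b]` has norm `< ε`, some representative has cost `< ε` -/
theorem exists_rep {b : ℕ →₀ ℝ} {ε : ℝ} (h : ‖br b‖ < ε) :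
    ∃ (s : ℕ →₀ ℝ) (c : ℕ → ℝ) (L : ℕ), cost s < ε ∧
      ∀ L', L ≤ L' → s - b = ∑ k ∈ Finset.range L', c k • rr k := by
  rw [norm_br_eq] at h
  obtain ⟨m, hm, hlt⟩ := Submodule.Quotient.norm_mk_lt (Submodule.Quotient.mk (toFS b) : QS)
    (sub_pos.mpr h)
  rw [add_sub_cancel] at hlt
  have h1 : toFS (toFS.symm m - b) ∈ M0 := by
    rw [map_sub, LinearEquiv.apply_symm_apply]
    exact (Submodule.Quotient.eq M0).mp hm
  obtain ⟨c, L, hc⟩ := mem_M0 h1
  exact ⟨toFS.symm m, c, L, hlt, hc⟩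

theorem exists_approx (y : RS) {ε : ℝ} (hε : 0 < ε) :
    ∃ b : ℕ →₀ ℝ, ‖y - br b‖ < ε ∧ cost b < ‖y‖ + ε := by
  have hd : DenseRange ((↑) : QS → RS) := UniformSpace.Completion.denseRange_coe
  obtain ⟨q, hq⟩ := hd.exists_dist_lt y (half_pos hε)
  have hq' : ‖q‖ < ‖y‖ + ε / 2 := by
    rw [← UniformSpace.Completion.norm_coe]
    have : ‖(q : RS)‖ ≤ ‖y‖ + dist y q := by
      rw [dist_comm, dist_eq_norm]
      calc ‖(q : RS)‖ = ‖y + (q - y)‖ := by congr 1; abel
        _ ≤ _ := norm_add_le _ _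
    linarith
  obtain ⟨m, hm, hlt⟩ := Submodule.Quotient.norm_mk_lt q (half_pos hε)
  refine ⟨toFS.symm m, ?_, ?_⟩
  · have : br (toFS.symm m) = (q : RS) := by
      change ((Submodule.Quotient.mk (toFS (toFS.symm m)) : QS) : RS) = q
      rw [LinearEquiv.apply_symm_apply, hm]
    rw [this, ← dist_eq_norm]; linarith
  · change ‖m‖ < _
    linarith

end

end Pool.Agent.H262.Rig
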