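import Mathlib
import Pool.Agent.H262.Rig3

set_option autoImplicit false

namespace Pool.Agent.H262.Rig

open Finset

noncomputable section

/-- continuous operators between half-normed spaces are bounded -/
theorem bounded {E G : Type*} [SeminormedAddCommGroup E] [Module ℝ E] [HalfNorm E]
    [SeminormedAddCommGroup G] [Module ℝ G] [HalfNorm G] (T : E →L[ℝ] G) :
    ∃ C : ℝ, 0 < C ∧ ∀ y, ‖T y‖ ≤ C * ‖y‖ := by
  have hcont : Filter.Tendsto T (nhds 0) (nhds 0) := by
    have := T.continuous.tendsto 0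
    rwa [map_zero] at this
  rw [Metric.tendsto_nhds_nhds] at hcont
  obtain ⟨δ, hδ, h⟩ := hcont 1 one_pos
  simp only [dist_zero_right] at h
  refine ⟨2 / δ, by positivity, fun y => ?_⟩
  by_contra hcon
  rw [not_le] at hcon
  have hpos : 0 < ‖T y‖ := lt_of_le_of_lt (by positivity) hcon
  set t : ℝ := (‖T y‖⁻¹)^2 with ht
  have hst : √|t| = ‖T y‖⁻¹ := by
    rw [ht, abs_of_nonneg (by positivity), Real.sqrt_sq (by positivity)]
  have h1 : ‖t • y‖ < δ := by
    rw [hn_smul, hst]
    rw [inv_mul_lt_iff₀ hpos]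
    rw [div_mul_eq_mul_div, div_lt_iff₀ hδ] at hcon
    nlinarith [norm_nonneg y]
  have h2 := h h1
  rw [map_smul, hn_smul, hst, inv_mul_cancel₀ hpos.ne'] at h2
  exact lt_irrefl _ h2

theorem norm_br_ee (n : ℕ) : ‖br (ee n)‖ ≤ 1 := by
  refine (norm_br_le _).trans ?_
  rw [cost_single]; simp

theorem abs_apply_le (b : ℕ →₀ ℝ) (n : ℕ) : |b n| ≤ (cost b)^2 := by
  have h1 := sqrt_abs_le_cost b n
  have h2 := Real.sq_sqrt (abs_nonneg (b n))
  rw [← h2]
  exact pow_le_pow_left₀ (Real.sqrt_nonneg _) h1 2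

theorem rigid_approx (T : RS →L[ℝ] RS) (a b : ℕ) (ε : ℝ) (hε : 0 < ε) :
    ∃ t : ℝ, ‖T (br ((1/4 : ℝ) • (ee a + ee b))) - t • br ((1/4 : ℝ) • (ee a + ee b))‖ < 6 * ε := by
  classical
  set v : RS := br ((1/4 : ℝ) • (ee a + ee b)) with hv
  obtain ⟨C, hC, hT⟩ := bounded T
  obtain ⟨e, he, _⟩ := exists_approx (T v) hε
  obtain ⟨J0, hJ0⟩ := e.support.exists_nat_subset_range
  obtain ⟨J1, hJ1⟩ := exists_nat_ge ((C + 1 + 2 * ε) / ε)
  obtain ⟨j, hj, hxj⟩ := exists_xx a b (max J0 J1)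
  have hjJ0 : J0 ≤ j := (le_max_left _ _).trans hj
  have hjJ1 : (C + 1 + 2 * ε) / ε ≤ j := hJ1.trans (by exact_mod_cast (le_max_right _ _).trans hj)
  have hjε : C + 1 + 2 * ε ≤ ε * j := by
    rw [div_le_iff₀ hε] at hjJ1; linarith
  have hlam : (2:ℝ) ≤ lam j := by exact_mod_cast lam_pos j
  have hlam0 : (0:ℝ) < lam j := by linarith
  have hen : ∀ n, mm j ≤ n → e n = 0 := by
    intro n hn
    have h1 := lt_mm j
    by_contra hne
    have h2 := hJ0 (Finsupp.mem_support_iff.mpr hne)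
    rw [Finset.mem_range] at h2
    omega
  have hη : 0 < min (ε / lam j) 1 := lt_min (by positivity) one_pos
  choose y hy1 hy2 using fun n => exists_approx (T (br (ee n))) hη
  have hcy : ∀ n, cost (y n) ≤ C + 1 := by
    intro n
    have h1 : ‖T (br (ee n))‖ ≤ C := by
      refine (hT _).trans ?_
      have := norm_br_ee n
      nlinarith
    have h2 := hy2 n
    have h3 : min (ε / lam j) 1 ≤ 1 := min_le_right _ _
    linarith
  have hcard : ((Finset.Ico (mm j) (mm (j+1))).card : ℝ) = bl j := by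
    rw [Nat.card_Ico, mm_succ, Nat.add_sub_cancel_left]
  set z : ℕ →₀ ℝ := gam j • ∑ n ∈ Finset.Ico (mm j) (mm (j+1)), y n with hz
  have hvj : v = gam j • ∑ n ∈ Finset.Ico (mm j) (mm (j+1)), br (ee n) := by
    rw [hv, ← hxj, br_xx]
  have hzv : ‖T v - br z‖ ≤ ε := by
    have h1 : T v - br z = gam j • ∑ n ∈ Finset.Ico (mm j) (mm (j+1)), (T (br (ee n)) - br (y n)) := by
      rw [hvj, hz, map_smul, map_smul, map_sum, map_sum, ← smul_sub, Finset.sum_sub_distrib]
    rw [h1]
    refine (hn_smul_le _ _).trans ?_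
    have h2 : ‖∑ n ∈ Finset.Ico (mm j) (mm (j+1)), (T (br (ee n)) - br (y n))‖ ≤ bl j * (ε / lam j) := by
      refine (norm_sum_le _ _).trans ?_
      rw [← hcard, ← nsmul_eq_mul]
      refine Finset.sum_le_card_nsmul _ _ _ (fun n _ => ?_)
      exact (hy1 n).le.trans (min_le_left _ _)
    rw [abs_of_nonneg (gam_nonneg j)]
    calc √(gam j) * ‖∑ n ∈ Finset.Ico (mm j) (mm (j+1)), (T (br (ee n)) - br (y n))‖
        ≤ √(gam j) * (bl j * (ε / lam j)) := mul_le_mul_of_nonneg_left h2 (Real.sqrt_nonneg _)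
      _ = (bl j * √(gam j)) * (ε / lam j) := by ring
      _ = ε := by rw [bl_sqrt_gam]; field_simp
  have hze : ‖br (z - e)‖ < 2 * ε := by
    have : br (z - e) = (T v - br e) - (T v - br z) := by rw [map_sub]; abel
    rw [this]
    refine (norm_sub_le _ _).trans_lt ?_
    linarith
  obtain ⟨s, c, L0, hs, hc⟩ := exists_rep hze
  set L := max L0 (j+1) with hL
  have hjL : j < L := by
    have := le_max_right L0 (j+1)
    omega
  have hrel : e = z - s + ∑ k ∈ Finset.range L, c k • rr k := by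
    rw [← hc L (le_max_left _ _)]; abel
  have hcz : cost z ≤ lam j * (C + 1) := by
    rw [hz, cost_smul, abs_of_nonneg (gam_nonneg j)]
    have h1 : cost (∑ n ∈ Finset.Ico (mm j) (mm (j+1)), y n) ≤ bl j * (C + 1) := by
      refine (cost_sum_le _ _).trans ?_
      rw [← hcard, ← nsmul_eq_mul]
      exact Finset.sum_le_card_nsmul _ _ _ (fun n _ => hcy n)
    calc √(gam j) * cost (∑ n ∈ Finset.Ico (mm j) (mm (j+1)), y n)
        ≤ √(gam j) * (bl j * (C + 1)) := mul_le_mul_of_nonneg_left h1 (Real.sqrt_nonneg _)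
      _ = (bl j * √(gam j)) * (C + 1) := by ring
      _ = lam j * (C + 1) := by rw [bl_sqrt_gam]
  have hk1 := key1 (j+1) L hjL e z s c
    (fun n hn => hen n ((mm_lt_succ j).le.trans hn)) hrel
  set S := ∑ k ∈ Finset.Ico (j+1) L, √|c k| with hS
  have hS0 : 0 ≤ S := Finset.sum_nonneg (fun _ _ => Real.sqrt_nonneg _)
  have hS1 : ((j:ℝ)+2) * lam j * S ≤ ∑ k ∈ Finset.Ico (j+1) L, ((lam k : ℝ) - 1) * √|c k| := by
    rw [hS, Finset.mul_sum]
    refine Finset.sum_le_sum (fun k hk => ?_)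
    rw [Finset.mem_Ico] at hk
    have h1 : (lam (j+1) : ℝ) ≤ lam k := by exact_mod_cast lam_mono hk.1
    rw [lam_succ] at h1
    refine mul_le_mul_of_nonneg_right ?_ (Real.sqrt_nonneg _)
    linarith
  have hS2 : S ≤ ε := by
    have h1 : ((j:ℝ)+2) * lam j * S ≤ lam j * (C+1) + 2 * ε := by linarith
    have h2 : lam j * (C+1) + 2 * ε ≤ lam j * (C + 1 + 2 * ε) := by nlinarith
    have h3 : ((j:ℝ)+2) * S ≤ C + 1 + 2 * ε := by
      have : (lam j : ℝ) * (((j:ℝ)+2) * S) ≤ lam j * (C + 1 + 2 * ε) := by linarith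
      exact le_of_mul_le_mul_left this hlam0
    have h4 : ((j:ℝ)+2) * S ≤ ((j:ℝ)+2) * ε := by
      have : (0:ℝ) ≤ j := Nat.cast_nonneg j
      nlinarith
    exact le_of_mul_le_mul_left h4 (by positivity)
  have hk2 := key2 j L hjL e z s c hen hrel
  have hzn : ∀ n, √|z n| ≤ √(gam j * bl j) * (C + 1) := by
    intro n
    have h1 : |z n| ≤ (gam j * bl j) * (C+1)^2 := by
      rw [hz, Finsupp.smul_apply, smul_eq_mul, abs_mul, abs_of_nonneg (gam_nonneg j), mul_assoc]
      refine mul_le_mul_of_nonneg_left ?_ (gam_nonneg j)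
      rw [Finsupp.finsetSum_apply, ← hcard, ← nsmul_eq_mul]
      refine (Finset.abs_sum_le_sum_abs _ _).trans ?_
      refine Finset.sum_le_card_nsmul _ _ _ (fun i _ => ?_)
      refine (abs_apply_le _ _).trans ?_
      exact pow_le_pow_left₀ (cost_nonneg _) (hcy i) 2
    calc √|z n| ≤ √((gam j * bl j) * (C+1)^2) := Real.sqrt_le_sqrt h1
      _ = √(gam j * bl j) * (C + 1) := by
          rw [Real.sqrt_mul (mul_nonneg (gam_nonneg j) (by positivity)), Real.sqrt_sq (by positivity)]
  have hzs : ∑ n ∈ Finset.range (mm j), √|z n| ≤ ε := by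
    have h1 : ∑ n ∈ Finset.range (mm j), √|z n| ≤ mm j * (√(gam j * bl j) * (C + 1)) := by
      have := Finset.sum_le_card_nsmul (Finset.range (mm j)) (fun n => √|z n|) _ (fun n _ => hzn n)
      rwa [Finset.card_range, nsmul_eq_mul] at this
    have h2 : mm j * (√(gam j * bl j) * (C + 1)) = (C + 1) / (j + 1) := by
      rw [← mul_assoc, mm_sqrt_gam_bl]; ring
    rw [h2] at h1
    refine h1.trans ?_
    rw [div_le_iff₀ (by positivity)]
    nlinarith
  have hfin : ‖br e - c j • v‖ ≤ 4 * ε := by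
    have h1 : br (e - c j • xx j - ∑ k ∈ Finset.range j, c k • rr k) = br e - c j • v := by
      rw [map_sub, map_sub, map_smul, map_sum, hxj, ← hv]
      have : ∑ k ∈ Finset.range j, br (c k • rr k) = 0 := by
        apply Finset.sum_eq_zero
        intro k _
        rw [map_smul, br_rr, smul_zero]
      rw [this, sub_zero]
    rw [← h1]
    refine (norm_br_le _).trans ?_
    refine hk2.trans ?_
    linarith
  refine ⟨c j, ?_⟩
  have : T v - c j • v = (T v - br e) + (br e - c j • v) := by abel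
  rw [this]
  refine (norm_add_le _ _).trans_lt ?_
  linarith

theorem rigid_step (T : RS →L[ℝ] RS) (a b : ℕ) :
    ∃ t : ℝ, T (br (ee a + ee b)) = t • br (ee a + ee b) := by
  set v : RS := br ((1/4 : ℝ) • (ee a + ee b)) with hv
  have hcl : IsClosed ((Submodule.span ℝ {v} : Submodule ℝ RS) : Set RS) :=
    Submodule.closed_of_finiteDimensional _
  have hmem : T v ∈ closure ((Submodule.span ℝ {v} : Submodule ℝ RS) : Set RS) := by
    rw [Metric.mem_closure_iff]
    intro ε hε
    obtain ⟨t, ht⟩ := rigid_approx T a b (ε/6) (by positivity)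
    refine ⟨t • v, Submodule.smul_mem _ _ (Submodule.mem_span_singleton_self v), ?_⟩
    rw [dist_eq_norm]
    linarith
  rw [hcl.closure_eq, SetLike.mem_coe, Submodule.mem_span_singleton] at hmem
  obtain ⟨t, ht⟩ := hmem
  refine ⟨t, ?_⟩
  have hv4 : br (ee a + ee b) = (4:ℝ) • v := by
    rw [hv, map_smul, smul_smul]; norm_num
  rw [hv4, map_smul, ← ht, smul_comm]

theorem dense_br : Dense (Set.range (br : (ℕ →₀ ℝ) → RS)) := by
  intro y
  rw [Metric.mem_closure_iff]
  intro ε hε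
  obtain ⟨b, hb, _⟩ := exists_approx y hε
  exact ⟨br b, ⟨b, rfl⟩, by rwa [dist_eq_norm]⟩

theorem br_eq_sum (b : ℕ →₀ ℝ) : br b = b.sum fun n t => t • br (ee n) := by
  conv_lhs => rw [← Finsupp.sum_single b]
  rw [Finsupp.sum, map_sum, Finsupp.sum]
  refine Finset.sum_congr rfl (fun n _ => ?_)
  rw [← map_smul]
  congr 1
  simp

/-- every continuous operator on `RS` is scalar -/
theorem rigid (T : RS →L[ℝ] RS) : ∃ τ : ℝ, ∀ y, T y = τ • y := by
  have hdiag : ∀ a, ∃ t : ℝ, T (br (ee a)) = t • br (ee a) := by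
    intro a
    obtain ⟨t, ht⟩ := rigid_step T a a
    refine ⟨t, ?_⟩
    have h2 : br (ee a + ee a) = (2:ℝ) • br (ee a) := by
      rw [map_add, two_smul]
    rw [h2, map_smul, smul_comm t] at ht
    exact smul_right_injective RS (two_ne_zero) ht
  have hex : ∃ τ : ℝ, ∀ a, T (br (ee a)) = τ • br (ee a) := by
    by_cases h0 : ∃ a0, br (ee a0) ≠ 0
    · obtain ⟨a0, ha0⟩ := h0
      obtain ⟨τ, hτ⟩ := hdiag a0
      refine ⟨τ, fun a => ?_⟩
      by_cases hdep : ∃ r : ℝ, br (ee a) = r • br (ee a0)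
      · obtain ⟨r, hr⟩ := hdep
        rw [hr, map_smul, hτ, smul_comm]
      · obtain ⟨ta, hta⟩ := hdiag a
        obtain ⟨t, ht⟩ := rigid_step T a a0
        rw [map_add, map_add, hta, hτ, smul_add] at ht
        have h1 : (ta - t) • br (ee a) = (t - τ) • br (ee a0) := by
          rw [sub_smul, sub_smul, sub_eq_sub_iff_add_eq_add, ht, add_comm]
        have h2 : ta - t = 0 := by
          by_contra hne
          apply hdep
          refine ⟨(ta - t)⁻¹ * (t - τ), ?_⟩
          rw [mul_smul, ← h1, smul_smul, inv_mul_cancel₀ hne, one_smul]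
        rw [h2, zero_smul] at h1
        have h3 : t - τ = 0 := by
          rcases smul_eq_zero.mp h1.symm with h | h
          · exact h
          · exact absurd h ha0
        have : ta = τ := by linarith
        rw [hta, this]
    · push Not at h0
      exact ⟨0, fun a => by rw [h0 a]; simp⟩
  obtain ⟨τ, hτ⟩ := hex
  refine ⟨τ, ?_⟩
  have hc1 : Continuous fun y : RS => T y := T.continuous
  have hc2 : Continuous fun y : RS => τ • y := continuous_const_smul τ
  have heq : Set.EqOn (fun y : RS => T y) (fun y : RS => τ • y) (Set.range (br : (ℕ →₀ ℝ) → RS)) := by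
    rintro _ ⟨b, rfl⟩
    simp only
    rw [br_eq_sum, Finsupp.sum, map_sum, Finset.smul_sum]
    refine Finset.sum_congr rfl (fun n _ => ?_)
    rw [map_smul, hτ, smul_comm]
  intro y
  exact congrFun (Continuous.ext_on dense_br hc1 hc2 heq) y

end

end Pool.Agent.H262.Rig
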