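import Mathlib
import Pool.Agent.H262.Rig4

set_option autoImplicit false

namespace Pool.Agent.H262.Rig

open Finset

noncomputable section

theorem br_ee_zero_ne : br (ee 0) ≠ 0 := by
  intro h0
  have h : ‖br (ee 0)‖ < 1/4 := by rw [h0]; simp
  obtain ⟨s, c, L, hs, hc⟩ := exists_rep h
  have hrel := hc L le_rfl
  have hrel' : ee 0 = 0 - (-s) + ∑ k ∈ Finset.range L, (-c k) • rr k := by
    have : ∑ k ∈ Finset.range L, (-c k) • rr k = - ∑ k ∈ Finset.range L, c k • rr k := by
      rw [← Finset.sum_neg_distrib]; exact Finset.sum_congr rfl (fun k _ => neg_smul _ _)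
    rw [this, ← hrel]; abel
  have he : ∀ n, mm 0 ≤ n → (ee 0) n = 0 := by
    intro n hn
    have : mm 0 = 1 := rfl
    rw [Finsupp.single_apply, if_neg (by omega)]
  have hk1 := key1 0 L (Nat.zero_le _) (ee 0) 0 (-s) (fun k => -c k) he hrel'
  rw [cost_zero, cost_neg, zero_add] at hk1
  have h1 : ∑ k ∈ Finset.Ico 0 L, √|-c k| ≤ cost s := by
    refine le_trans (Finset.sum_le_sum (fun k _ => ?_)) hk1
    have h2 : (2:ℝ) ≤ lam k := by exact_mod_cast lam_pos k
    have := Real.sqrt_nonneg |-c k|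
    nlinarith
  have h3 : (1:ℝ) = s 0 + ∑ k ∈ Finset.range L, (-c k) * xx k 0 := by
    have h4 := DFunLike.congr_fun hrel' 0
    rw [Finsupp.add_apply, Finsupp.finsetSum_apply] at h4
    simp only [Finsupp.smul_apply, smul_eq_mul, Finsupp.single_eq_same, zero_sub, neg_neg] at h4
    rw [h4]
    congr 1
    refine Finset.sum_congr rfl (fun k _ => ?_)
    have := mm_pos k
    rw [rr_apply, if_neg (by rw [Finset.mem_Ico]; omega)]; simp
  have h5 : √|(1:ℝ)| ≤ √|s 0| + ∑ k ∈ Finset.range L, √|-c k| * √|xx k 0| := by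
    rw [h3]
    refine (sqrt_abs_add_le _ _).trans ?_
    refine add_le_add le_rfl ?_
    refine (sqrt_abs_sum_le _ _).trans ?_
    exact Finset.sum_le_sum (fun l _ => (sqrt_abs_mul _ _).le)
  have h6 : ∑ k ∈ Finset.range L, √|-c k| * √|xx k 0| ≤ ∑ k ∈ Finset.Ico 0 L, √|-c k| := by
    rw [Finset.range_eq_Ico]
    refine Finset.sum_le_sum (fun k _ => ?_)
    have h7 := (sqrt_abs_le_cost (xx k) 0).trans (cost_xx k)
    have := Real.sqrt_nonneg |-c k|
    nlinarith
  have h8 := sqrt_abs_le_cost s 0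
  simp only [abs_one, Real.sqrt_one] at h5
  linarith

/-- the dual is trivial -/
theorem dual_zero (f : RS →L[ℝ] ℝ) : f = 0 := by
  classical
  have hcont : Filter.Tendsto f (nhds 0) (nhds 0) := by
    have := f.continuous.tendsto 0
    rwa [map_zero] at this
  rw [Metric.tendsto_nhds_nhds] at hcont
  obtain ⟨δ, hδ, h⟩ := hcont 1 one_pos
  simp only [dist_zero_right] at h
  set M : ℝ := ((δ/2)^2)⁻¹ with hM
  have hM0 : 0 < M := by positivity
  have hb : ∀ n, |f (br (ee n))| ≤ M := by
    intro n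
    have h1 : ‖((δ/2)^2 : ℝ) • br (ee n)‖ < δ := by
      rw [hn_smul, abs_of_nonneg (by positivity), Real.sqrt_sq (by positivity)]
      have := norm_br_ee n
      nlinarith
    have h2 := h h1
    rw [map_smul, smul_eq_mul, Real.norm_eq_abs, abs_mul, abs_of_pos (by positivity)] at h2
    rw [hM, ← one_div, le_div_iff₀ (by positivity)]
    linarith
  have hab : ∀ a, f (br (ee a)) = 0 := by
    intro a
    have key : ∀ ε > 0, |f (br ((1/4 : ℝ) • (ee a + ee a)))| ≤ ε := by
      intro ε hε
      obtain ⟨J, hJ⟩ := exists_nat_ge (M / ε)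
      obtain ⟨j, hj, hxj⟩ := exists_xx a a J
      have hjM : M ≤ ε * j := by
        have : M / ε ≤ j := hJ.trans (by exact_mod_cast hj)
        rw [div_le_iff₀ hε] at this; linarith
      rw [← hxj, br_xx, map_smul, map_sum, smul_eq_mul, abs_mul, abs_of_nonneg (gam_nonneg j)]
      have h1 : |∑ n ∈ Finset.Ico (mm j) (mm (j+1)), f (br (ee n))| ≤ bl j * M := by
        refine (Finset.abs_sum_le_sum_abs _ _).trans ?_
        have := Finset.sum_le_card_nsmul (Finset.Ico (mm j) (mm (j+1))) (fun n => |f (br (ee n))|) M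
          (fun n _ => hb n)
        rwa [Nat.card_Ico, mm_succ, Nat.add_sub_cancel_left, nsmul_eq_mul] at this
      have h2 : gam j * bl j ≤ 1 / (j+1) := by
        have h3 := mm_sqrt_gam_bl j
        have h4 : (1:ℝ) ≤ mm j := by exact_mod_cast mm_pos j
        have h5 : 0 ≤ gam j * bl j := mul_nonneg (gam_nonneg j) (by positivity)
        have h6 := Real.sqrt_nonneg (gam j * bl j)
        have h7 : √(gam j * bl j) ≤ 1 / (j+1) := by nlinarith
        have h8 : (1:ℝ) / (j+1) ≤ 1 := by
          rw [div_le_one (by positivity)]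
          have : (0:ℝ) ≤ j := Nat.cast_nonneg j
          linarith
        calc gam j * bl j = √(gam j * bl j) * √(gam j * bl j) := (Real.mul_self_sqrt h5).symm
          _ ≤ (1 / (j+1)) * 1 := mul_le_mul h7 (h7.trans h8) h6 (by positivity)
          _ = 1 / (j+1) := mul_one _
      calc gam j * |∑ n ∈ Finset.Ico (mm j) (mm (j+1)), f (br (ee n))|
          ≤ gam j * (bl j * M) := mul_le_mul_of_nonneg_left h1 (gam_nonneg j)
        _ = (gam j * bl j) * M := by ring
        _ ≤ (1 / (j+1)) * M := mul_le_mul_of_nonneg_right h2 hM0.le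
        _ ≤ ε := by
            rw [one_div_mul_eq_div, div_le_iff₀ (by positivity)]
            nlinarith
    have h0 : f (br ((1/4 : ℝ) • (ee a + ee a))) = 0 := by
      rw [← abs_nonpos_iff]
      exact le_of_forall_pos_le_add (fun ε hε => by simpa using key ε hε)
    rw [map_smul, map_smul, map_add, map_add, smul_eq_mul] at h0
    linarith
  have heq : Set.EqOn (fun y : RS => f y) (fun y : RS => (0 : RS →L[ℝ] ℝ) y)
      (Set.range (br : (ℕ →₀ ℝ) → RS)) := by
    rintro _ ⟨b, rfl⟩
    simp only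
    rw [br_eq_sum, Finsupp.sum, map_sum, ContinuousLinearMap.zero_apply]
    refine Finset.sum_eq_zero (fun n _ => ?_)
    rw [map_smul, hab, smul_zero]
  ext y
  exact congrFun (Continuous.ext_on dense_br f.continuous (0 : RS →L[ℝ] ℝ).continuous heq) y

theorem not_finiteDimensional : ¬ FiniteDimensional ℝ RS := by
  intro hfin
  have h := (Module.forall_dual_apply_eq_zero_iff ℝ (br (ee 0))).mp (fun φ => by
    have h1 := dual_zero (LinearMap.toContinuousLinearMap φ)
    have h2 : (LinearMap.toContinuousLinearMap φ) (br (ee 0)) = 0 := by rw [h1]; rfl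
    exact h2)
  exact br_ee_zero_ne h

instance : TopologicalSpace.SeparableSpace RS := by
  rw [← TopologicalSpace.isSeparable_univ_iff]
  have h1 : TopologicalSpace.IsSeparable (Set.range (fun n => br (ee n))) :=
    (Set.countable_range _).isSeparable
  have h2 := (h1.span (R := ℝ)).closure
  have h3 : (Set.range (br : (ℕ →₀ ℝ) → RS)) ⊆
      ((Submodule.span ℝ (Set.range (fun n => br (ee n))) : Submodule ℝ RS) : Set RS) := by
    rintro _ ⟨b, rfl⟩
    rw [br_eq_sum, Finsupp.sum]
    exact Submodule.sum_mem _ (fun n _ => Submodule.smul_mem _ _ (Submodule.subset_span ⟨n, rfl⟩))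
  refine h2.mono ?_
  rw [← dense_br.closure_eq]
  exact closure_mono h3

/-- the counterexample space -/
abbrev XS : Type := RS × (ℕ → ℝ)

/-- continuous linear operators from ω to RS have finite rank -/
theorem finite_rank (K : (ℕ → ℝ) →L[ℝ] RS) :
    ∃ I : Finset ℕ, ∀ w, K w ∈ Submodule.span ℝ ((fun i => K (Pi.single i 1)) '' (I : Set ℕ)) := by
  classical
  have hcont : Filter.Tendsto K (nhds 0) (nhds 0) := by
    have := K.continuous.tendsto 0
    rwa [map_zero] at this
  have hU : K ⁻¹' (Metric.ball 0 1) ∈ nhds (0 : ℕ → ℝ) := hcont (Metric.ball_mem_nhds _ one_pos)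
  rw [nhds_pi, Filter.mem_pi'] at hU
  obtain ⟨I, t, ht, hsub⟩ := hU
  have hker : ∀ w : ℕ → ℝ, (∀ i ∈ I, w i = 0) → K w = 0 := by
    intro w hw
    by_contra hne
    have hpos : 0 < ‖K w‖ := norm_pos_iff.mpr hne
    have h1 : ((‖K w‖⁻¹)^2 : ℝ) • w ∈ K ⁻¹' (Metric.ball 0 1) := by
      apply hsub
      intro i hi
      have : (((‖K w‖⁻¹)^2 : ℝ) • w) i = 0 := by
        rw [Pi.smul_apply, hw i hi, smul_zero]
      rw [this]
      exact mem_of_mem_nhds (ht i)
    rw [Set.mem_preimage, mem_ball_zero_iff, map_smul, hn_smul, abs_of_nonneg (by positivity),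
      Real.sqrt_sq (by positivity), inv_mul_cancel₀ hpos.ne'] at h1
    exact lt_irrefl _ h1
  refine ⟨I, fun w => ?_⟩
  have h2 : K (w - ∑ i ∈ I, w i • Pi.single i (1:ℝ)) = 0 := by
    apply hker
    intro i hi
    rw [Pi.sub_apply, Finset.sum_apply, Finset.sum_eq_single i]
    · simp
    · intro b _ hb
      simp [Pi.single_apply, hb.symm]
    · intro h; exact absurd hi h
  rw [map_sub, sub_eq_zero, map_sum] at h2
  rw [h2]
  refine Submodule.sum_mem _ (fun i hi => ?_)
  rw [map_smul]
  exact Submodule.smul_mem _ _ (Submodule.subset_span ⟨i, hi, rfl⟩)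

theorem not_hypercyclic (T : XS →L[ℝ] XS) (x : XS) :
    ¬ Dense (Set.range (fun n : ℕ => (⇑T)^[n] x)) := by
  classical
  intro hd
  obtain ⟨τ, hτ⟩ := rigid ((ContinuousLinearMap.fst ℝ RS (ℕ → ℝ)).comp
    (T.comp (ContinuousLinearMap.inl ℝ RS (ℕ → ℝ))))
  set K : (ℕ → ℝ) →L[ℝ] RS := (ContinuousLinearMap.fst ℝ RS (ℕ → ℝ)).comp
    (T.comp (ContinuousLinearMap.inr ℝ RS (ℕ → ℝ))) with hK
  obtain ⟨I, hI⟩ := finite_rank K
  set W : Submodule ℝ RS := Submodule.span ℝ
    (insert x.1 ((fun i => K (Pi.single i 1)) '' (I : Set ℕ))) with hW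
  have hWfin : FiniteDimensional ℝ W := by
    apply FiniteDimensional.span_of_finite
    exact (I.finite_toSet.image _).insert _
  have hTfst : ∀ y : XS, (T y).1 = τ • y.1 + K y.2 := by
    intro y
    have h1 : y = ContinuousLinearMap.inl ℝ RS (ℕ → ℝ) y.1 + ContinuousLinearMap.inr ℝ RS (ℕ → ℝ) y.2 := by
      ext1 <;> simp
    have h2 : (T y).1 = (T (ContinuousLinearMap.inl ℝ RS (ℕ → ℝ) y.1)).1
        + (T (ContinuousLinearMap.inr ℝ RS (ℕ → ℝ) y.2)).1 := by
      conv_lhs => rw [h1, map_add]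
      rfl
    rw [h2, ← hτ y.1]
    rfl
  have hKW : ∀ w, K w ∈ W := by
    intro w
    exact Submodule.span_mono (Set.subset_insert _ _) (hI w)
  have horb : ∀ n : ℕ, ((⇑T)^[n] x).1 ∈ W := by
    intro n
    induction n with
    | zero => exact Submodule.subset_span (Set.mem_insert _ _)
    | succ n ih =>
      rw [Function.iterate_succ_apply', hTfst]
      exact W.add_mem (W.smul_mem _ ih) (hKW _)
  have hcl : IsClosed (W : Set RS) := Submodule.closed_of_finiteDimensional W
  have hdr : DenseRange (Prod.fst : XS → RS) := Prod.fst_surjective.denseRange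
  have hd2 := hdr.dense_image continuous_fst hd
  have hsub : Prod.fst '' (Set.range (fun n : ℕ => (⇑T)^[n] x)) ⊆ (W : Set RS) := by
    rintro _ ⟨_, ⟨n, rfl⟩, rfl⟩
    exact horb n
  have htop : W = ⊤ := by
    rw [Submodule.eq_top_iff']
    intro y
    have h1 := (hd2.mono hsub) y
    rwa [hcl.closure_eq] at h1
  apply not_finiteDimensional
  rw [htop] at hWfin
  exact Module.Finite.equiv (Submodule.topEquiv : (⊤ : Submodule ℝ RS) ≃ₗ[ℝ] RS)

/-- the dual of the counterexample space is infinite-dimensional -/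
theorem dual_inf : ¬ FiniteDimensional ℝ (XS →L[ℝ] ℝ) := by
  classical
  intro hfin
  set g : ℕ → (XS →L[ℝ] ℝ) := fun n =>
    (ContinuousLinearMap.proj n : (ℕ → ℝ) →L[ℝ] ℝ).comp (ContinuousLinearMap.snd ℝ RS (ℕ → ℝ)) with hg
  have hli : LinearIndependent ℝ g := by
    rw [linearIndependent_iff']
    intro s c hc i hi
    have h1 := congrArg (fun φ : XS →L[ℝ] ℝ => φ ((0 : RS), Pi.single i (1:ℝ))) hc
    simp only [ContinuousLinearMap.zero_apply] at h1
    rw [ContinuousLinearMap.sum_apply, Finset.sum_eq_single i] at h1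
    · simpa [hg] using h1
    · intro b _ hb
      simp [hg, Pi.single_apply, hb]
    · intro h; exact absurd hi h
  exact not_finite_of_infinite_of_finite hli
where
  not_finite_of_infinite_of_finite {g : ℕ → (XS →L[ℝ] ℝ)} [FiniteDimensional ℝ (XS →L[ℝ] ℝ)]
      (hli : LinearIndependent ℝ g) : False := by
    have := hli.finite
    exact not_finite ℕ

end

end Pool.Agent.H262.Rig
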