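import Mathlib

set_option autoImplicit false

noncomputable section

namespace Pool.Agent.H262.ZSet

open Set Topology Filter

/-- The unit interval. -/
abbrev J : Type := Set.Icc (0:ℝ) 1

/-- Continuous surjections of the unit interval. -/
abbrev SJ : Type := {f : C(Set.Icc (0:ℝ) 1, Set.Icc (0:ℝ) 1) // Function.Surjective ⇑f}

/-- Plateau function: `1` for `|t| ≤ 1`, `0` for `2 ≤ |t|`. -/
def beta (t : ℝ) : ℝ := max 0 (min 1 (2 - |t|))

lemma beta_cont : Continuous beta := by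
  unfold beta; fun_prop

lemma beta_nonneg (t : ℝ) : 0 ≤ beta t := le_max_left _ _

lemma beta_le_one (t : ℝ) : beta t ≤ 1 := max_le zero_le_one (min_le_left _ _)

lemma beta_eq_one {t : ℝ} (h : |t| ≤ 1) : beta t = 1 := by
  unfold beta
  rw [min_eq_left (by linarith), max_eq_right zero_le_one]

lemma beta_eq_zero {t : ℝ} (h : 2 ≤ |t|) : beta t = 0 := by
  unfold beta
  rw [max_eq_left]
  exact (min_le_right _ _).trans (by linarith)

/-- Affine stretching about `1/2`. -/
def stretch (k y : ℝ) : ℝ := (1 + 2 * k) * (y - 1 / 2) + 1 / 2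

lemma abs_stretch_sub {k y : ℝ} (hk : 0 ≤ k) (h0 : 0 ≤ y) (h1 : y ≤ 1) :
    |stretch k y - y| ≤ k := by
  unfold stretch
  rw [abs_le]
  constructor <;> nlinarith

/-- The modified function before clamping. -/
def raw (k η : ℝ) (s : J → ℝ) (f : J → J) (x : J) : ℝ :=
  stretch k (f x) + ∑ᶠ p : J, s p * beta (((x : ℝ) - p) / η) * ((p : ℝ) - stretch k (f x))

/-- Active centres are `8 η`-separated. -/
def Sep (η : ℝ) (s : J → ℝ) : Prop :=
  ∀ p q : J, s p ≠ 0 → s q ≠ 0 → p ≠ q → 8 * η < |(p : ℝ) - q|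

lemma raw_single {k η : ℝ} (hη : 0 < η) {s : J → ℝ} (hs : Sep η s) (f : J → J) {x p : J}
    (hp : s p ≠ 0) (hx : |(x : ℝ) - p| ≤ 2 * η) :
    raw k η s f x = stretch k (f x) + s p * beta (((x : ℝ) - p) / η) *
      ((p : ℝ) - stretch k (f x)) := by
  unfold raw
  congr 1
  apply finsum_eq_single
  intro q hq
  by_cases hsq : s q = 0
  · simp [hsq]
  have h1 := hs p q hp hsq (Ne.symm hq)
  have h2 : 2 ≤ |((x : ℝ) - q) / η| := by
    rw [abs_div, abs_of_pos hη, le_div_iff₀ hη]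
    have h3 : |(p : ℝ) - q| ≤ |(x : ℝ) - q| + |(x : ℝ) - p| := by
      have := abs_sub_le (p : ℝ) x q
      rw [abs_sub_comm (p : ℝ) x] at this
      linarith
    linarith
  rw [beta_eq_zero h2]
  ring

lemma raw_none {k η : ℝ} (hη : 0 < η) {s : J → ℝ} (f : J → J) {x : J}
    (hx : ∀ p : J, s p ≠ 0 → 2 * η ≤ |(x : ℝ) - p|) :
    raw k η s f x = stretch k (f x) := by
  unfold raw
  have : ∑ᶠ p : J, s p * beta (((x : ℝ) - p) / η) * ((p : ℝ) - stretch k (f x)) = 0 := by
    apply finsum_eq_zero_of_forall_eq_zero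
    intro p
    by_cases hp : s p = 0
    · simp [hp]
    have h2 : 2 ≤ |((x : ℝ) - p) / η| := by
      rw [abs_div, abs_of_pos hη, le_div_iff₀ hη]
      exact hx p hp
    rw [beta_eq_zero h2]
    ring
  rw [this, add_zero]

/-- Clamping to the unit interval. -/
def clampI (y : ℝ) : J := projIcc 0 1 zero_le_one y

lemma clampI_of_mem (p : J) : clampI (p : ℝ) = p := by
  unfold clampI
  exact projIcc_val zero_le_one p

lemma abs_clampI_sub (y : ℝ) (p : J) : |(clampI y : ℝ) - p| ≤ |y - p| := by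
  have h := abs_projIcc_sub_projIcc (h := (zero_le_one : (0:ℝ) ≤ 1)) (c := y) (d := (p : ℝ))
  rw [projIcc_val zero_le_one p] at h
  exact h

/-- Hypotheses on the data at a fixed function. -/
structure Good (k η : ℝ) (s : J → ℝ) (f : J → J) : Prop where
  hk : 0 < k
  hk' : k ≤ 1 / 8
  hη : 0 < η
  hη' : η < 1 / 16
  sep : Sep η s
  s0 : ∀ p, 0 ≤ s p
  s1 : ∀ p, s p ≤ 1
  near : ∀ p : J, s p ≠ 0 → |(f p : ℝ) - p| < k
  osc : ∀ x y : J, |(x : ℝ) - y| ≤ 4 * η → |(f x : ℝ) - f y| < k / 2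

lemma Good.error {k η : ℝ} {s : J → ℝ} {f : J → J} (h : Good k η s f) (x : J) :
    |raw k η s f x - f x| ≤ 4 * k := by
  have hst := abs_stretch_sub h.hk.le (f x).2.1 (f x).2.2
  by_cases hx : ∃ p : J, s p ≠ 0 ∧ |(x : ℝ) - p| ≤ 2 * η
  · obtain ⟨p, hp, hxp⟩ := hx
    rw [raw_single h.hη h.sep f hp hxp]
    have h1 := h.near p hp
    have h2 := h.osc p x (by rw [abs_sub_comm]; linarith [h.hη])
    have hb0 := beta_nonneg (((x : ℝ) - p) / η)
    have hb1 := beta_le_one (((x : ℝ) - p) / η)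
    have hs0 := h.s0 p
    have hs1 := h.s1 p
    have hw0 : 0 ≤ s p * beta (((x : ℝ) - p) / η) := mul_nonneg hs0 hb0
    have hw1 : s p * beta (((x : ℝ) - p) / η) ≤ 1 := by
      calc _ ≤ 1 * 1 := mul_le_mul hs1 hb1 hb0 zero_le_one
        _ = 1 := one_mul 1
    have h3 : |(p : ℝ) - stretch k (f x)| ≤ 3 * k := by
      have e : (p : ℝ) - stretch k (f x)
          = -((f p : ℝ) - p) + ((f p : ℝ) - f x) + -(stretch k (f x) - f x) := by ring
      rw [e]
      calc _ ≤ |-((f p : ℝ) - p)| + |(f p : ℝ) - f x| + |-(stretch k (f x) - f x)| :=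
            abs_add_three _ _ _
        _ ≤ k + k / 2 + k := by
            rw [abs_neg, abs_neg]; linarith
        _ ≤ 3 * k := by linarith [h.hk]
    have h4 : |s p * beta (((x : ℝ) - p) / η) * ((p : ℝ) - stretch k (f x))| ≤ 3 * k := by
      rw [abs_mul, abs_of_nonneg hw0]
      calc _ ≤ 1 * |(p : ℝ) - stretch k (f x)| :=
            mul_le_mul_of_nonneg_right hw1 (abs_nonneg _)
        _ ≤ 3 * k := by rw [one_mul]; exact h3
    have e2 : stretch k (f x) + s p * beta (((x : ℝ) - p) / η) * ((p : ℝ) - stretch k (f x))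
        - f x = (stretch k (f x) - f x)
          + s p * beta (((x : ℝ) - p) / η) * ((p : ℝ) - stretch k (f x)) := by ring
    rw [e2]
    calc _ ≤ |stretch k (f x) - f x|
          + |s p * beta (((x : ℝ) - p) / η) * ((p : ℝ) - stretch k (f x))| := abs_add_le _ _
      _ ≤ k + 3 * k := add_le_add hst h4
      _ = 4 * k := by ring
  · push Not at hx
    rw [raw_none h.hη f (fun p hp => (hx p hp).le)]
    linarith [h.hk]

lemma Good.plateau {k η : ℝ} {s : J → ℝ} {f : J → J} (h : Good k η s f) {p : J}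
    (hp : s p = 1) (x : J) (hx : |(x : ℝ) - p| ≤ η) : clampI (raw k η s f x) = p := by
  rw [raw_single h.hη h.sep f (by rw [hp]; exact one_ne_zero) (by linarith [h.hη])]
  rw [beta_eq_one, hp]
  · have e : stretch k (f x) + 1 * 1 * ((p : ℝ) - stretch k (f x)) = p := by ring
    rw [e, clampI_of_mem]
  · rw [abs_div, abs_of_pos h.hη, div_le_one h.hη]
    exact hx

/-- Every point is `4 η`-close to a point outside all bumps. -/
lemma Good.exists_free {k η : ℝ} {s : J → ℝ} {f : J → J} (h : Good k η s f) (x : J) :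
    ∃ y : J, |(y : ℝ) - x| ≤ 4 * η ∧ ∀ p : J, s p ≠ 0 → 2 * η ≤ |(y : ℝ) - p| := by
  by_cases hx : ∃ p : J, s p ≠ 0 ∧ |(x : ℝ) - p| ≤ 2 * η
  · obtain ⟨p, hp, hxp⟩ := hx
    have key : ∃ y : J, |(y : ℝ) - p| = 2 * η := by
      have hη := h.hη
      have hη' := h.hη'
      rcases le_total (p : ℝ) (1 / 2) with hh | hh
      · refine ⟨⟨(p : ℝ) + 2 * η, ?_, ?_⟩, ?_⟩
        · linarith [p.2.1]
        · linarith
        · simp only [add_sub_cancel_left]
          rw [abs_of_pos]; linarith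
      · refine ⟨⟨(p : ℝ) - 2 * η, ?_, ?_⟩, ?_⟩
        · linarith
        · linarith [p.2.2]
        · simp only [sub_sub_cancel_left, abs_neg]
          rw [abs_of_pos]; linarith
    obtain ⟨y, hy⟩ := key
    refine ⟨y, ?_, ?_⟩
    · have := abs_sub_le (y : ℝ) p x
      rw [abs_sub_comm (p : ℝ) x] at this
      linarith
    · intro q hq
      by_cases hqp : q = p
      · rw [hqp, hy]
      · have h1 := h.sep p q hp hq (Ne.symm hqp)
        have h2 := abs_sub_le (p : ℝ) y q
        rw [abs_sub_comm (p : ℝ) y] at h2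
        linarith [h.hη]
  · push Not at hx
    exact ⟨x, by simpa using (by linarith [h.hη] : (0:ℝ) ≤ 4 * η), fun p hp => (hx p hp).le⟩

lemma Good.exists_zero {k η : ℝ} {s : J → ℝ} {f : J → J} (h : Good k η s f)
    (hf : Function.Surjective f) : ∃ y : J, (clampI (raw k η s f y) : ℝ) ≤ 0 := by
  obtain ⟨x, hx⟩ := hf ⟨0, by norm_num, by norm_num⟩
  obtain ⟨y, hy, hfree⟩ := h.exists_free x
  refine ⟨y, ?_⟩
  rw [raw_none h.hη f hfree]
  have h1 := h.osc y x hy
  rw [hx] at h1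
  simp only [sub_zero] at h1
  have h2 := (abs_lt.mp h1).2
  have h3 : stretch k (f y) ≤ 0 := by
    unfold stretch
    nlinarith [h.hk, h.hk']
  unfold clampI
  rw [projIcc_of_le_left zero_le_one h3]

lemma Good.exists_one {k η : ℝ} {s : J → ℝ} {f : J → J} (h : Good k η s f)
    (hf : Function.Surjective f) : ∃ y : J, (1:ℝ) ≤ (clampI (raw k η s f y) : ℝ) := by
  obtain ⟨x, hx⟩ := hf ⟨1, by norm_num, by norm_num⟩
  obtain ⟨y, hy, hfree⟩ := h.exists_free x
  refine ⟨y, ?_⟩
  rw [raw_none h.hη f hfree]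
  have h1 := h.osc y x hy
  rw [hx] at h1
  simp only at h1
  have h2 := (abs_lt.mp h1).1
  have h3 : 1 ≤ stretch k (f y) := by
    unfold stretch
    nlinarith [h.hk, h.hk']
  unfold clampI
  rw [projIcc_of_right_le zero_le_one h3]

/-- A surjection which is constantly `p` on a small interval around `p` is not in the closure
of the transitive maps. -/
lemma not_mem_closure (f : SJ) (p : J) (η : ℝ) (hη : 0 < η) (hη' : η < 1 / 2)
    (h : ∀ x : J, |(x : ℝ) - p| ≤ η → f.1 x = p) :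
    f ∉ closure {h : {f : C(Set.Icc (0:ℝ) 1, Set.Icc (0:ℝ) 1) // Function.Surjective ⇑f} |
            ∀ U V : Set (Set.Icc (0:ℝ) 1), IsOpen U → IsOpen V → U.Nonempty → V.Nonempty →
              ∃ n : ℕ, 0 < n ∧ ((⇑h.1)^[n] '' U ∩ V).Nonempty} := by
  intro hmem
  rw [Metric.mem_closure_iff] at hmem
  obtain ⟨g, hg, hd⟩ := hmem η hη
  have hstep : ∀ x : J, |(x : ℝ) - p| ≤ η → |((g.1 x : J) : ℝ) - p| ≤ η := by
    intro x hx
    have h1 : dist (f.1 x) (g.1 x) ≤ dist f.1 g.1 := ContinuousMap.dist_apply_le_dist x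
    rw [h x hx] at h1
    have h2 : dist (p : ℝ) (g.1 x : ℝ) < η := lt_of_le_of_lt h1 hd
    rw [Real.dist_eq, abs_sub_comm] at h2
    exact h2.le
  have hiter : ∀ n : ℕ, ∀ x : J, |(x : ℝ) - p| ≤ η → |(((⇑g.1)^[n] x : J) : ℝ) - p| ≤ η := by
    intro n
    induction n with
    | zero => intro x hx; simpa using hx
    | succ n ih =>
      intro x hx
      rw [Function.iterate_succ_apply]
      exact ih _ (hstep x hx)
  have hU : IsOpen {x : J | |(x : ℝ) - p| < η} :=
    isOpen_lt (by fun_prop) continuous_const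
  have hV : IsOpen {x : J | η < |(x : ℝ) - p|} :=
    isOpen_lt continuous_const (by fun_prop)
  have hUne : {x : J | |(x : ℝ) - p| < η}.Nonempty := ⟨p, by simpa using hη⟩
  have hVne : {x : J | η < |(x : ℝ) - p|}.Nonempty := by
    rcases le_total (p : ℝ) (1 / 2) with hh | hh
    · refine ⟨⟨1, by norm_num, by norm_num⟩, ?_⟩
      change η < |(1:ℝ) - p|
      rw [abs_of_nonneg (by linarith)]; linarith
    · refine ⟨⟨0, by norm_num, by norm_num⟩, ?_⟩
      change η < |(0:ℝ) - p|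
      rw [abs_sub_comm, sub_zero, abs_of_nonneg (by linarith)]; linarith
  obtain ⟨n, -, y, ⟨x, hx, hxy⟩, hy⟩ := hg _ _ hU hV hUne hVne
  have h1 := hiter n x (le_of_lt hx)
  rw [hxy] at h1
  exact absurd hy (not_lt.mpr h1)

end Pool.Agent.H262.ZSet
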