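import Mathlib
import Pool.Agent.H262.ZSetA

set_option autoImplicit false

noncomputable section

namespace Pool.Agent.H262.ZSet

open Set Topology Filter

lemma exists_fixed (f : C(J, J)) : ∃ p : J, f p = p := by
  have h0 : ∃ a : J, (f a : ℝ) - a ≤ 0 := ⟨⟨1, by norm_num, by norm_num⟩, by
    have := (f ⟨1, by norm_num, by norm_num⟩).2.2
    simp only
    linarith⟩
  have h1 : ∃ b : J, 0 ≤ (f b : ℝ) - b := ⟨⟨0, by norm_num, by norm_num⟩, by
    have := (f ⟨0, by norm_num, by norm_num⟩).2.1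
    simp only
    linarith⟩
  obtain ⟨a, ha⟩ := h0
  obtain ⟨b, hb⟩ := h1
  have hc : Continuous (fun x : J => (f x : ℝ) - x) := by fun_prop
  obtain ⟨p, hp⟩ := mem_range_of_exists_le_of_exists_ge hc ⟨a, ha⟩ ⟨b, hb⟩
  refine ⟨p, Subtype.ext ?_⟩
  simp only at hp
  linarith

/-- The target set for the bump size. -/
def tset (κ : SJ → ℝ) (σ : J → SJ → ℝ) (f : SJ) : Set ℝ :=
  {c : ℝ | 0 < c ∧ c < 1 / 16 ∧ (∀ x y : J, |(x : ℝ) - y| ≤ 4 * c → |(f.1 x : ℝ) - f.1 y| < κ f / 2)
    ∧ Sep c (fun p => σ p f)}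

lemma tset_convex (κ : SJ → ℝ) (σ : J → SJ → ℝ) (f : SJ) : Convex ℝ (tset κ σ f) := by
  apply Set.OrdConnected.convex
  constructor
  rintro a ⟨ha0, ha1, ha2, ha3⟩ b ⟨hb0, hb1, hb2, hb3⟩ c ⟨hac, hcb⟩
  refine ⟨ha0.trans_le hac, hcb.trans_lt hb1, ?_, ?_⟩
  · intro x y hxy
    exact hb2 x y (by linarith)
  · intro p q hp hq hpq
    have := hb3 p q hp hq hpq
    linarith

lemma tset_local (κ : SJ → ℝ) (hκ : Continuous κ) (hκ0 : ∀ f, 0 < κ f) (σ : J → SJ → ℝ)
    (hσ : LocallyFinite fun p => Function.support (σ p)) (f₀ : SJ) :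
    ∃ c : ℝ, ∀ᶠ f in 𝓝 f₀, c ∈ tset κ σ f := by
  obtain ⟨N, hN, hfin⟩ := hσ f₀
  set A : Set J := {p | (Function.support (σ p) ∩ N).Nonempty} with hA
  -- choose c
  have e1 : ∀ᶠ c : ℝ in 𝓝[>] 0, 0 < c := eventually_mem_nhdsWithin
  have e2 : ∀ᶠ c : ℝ in 𝓝[>] 0, c < 1 / 16 :=
    nhdsWithin_le_nhds (eventually_lt_nhds (by norm_num))
  have hu : UniformContinuous (fun x : J => (f₀.1 x : ℝ)) :=
    CompactSpace.uniformContinuous_of_continuous (by fun_prop)
  obtain ⟨d, hd, hdd⟩ := Metric.uniformContinuous_iff.mp hu (κ f₀ / 8) (by linarith [hκ0 f₀])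
  have e3 : ∀ᶠ c : ℝ in 𝓝[>] 0, c < d / 4 :=
    nhdsWithin_le_nhds (eventually_lt_nhds (by linarith))
  have e4 : ∀ᶠ c : ℝ in 𝓝[>] 0, ∀ pq ∈ A ×ˢ A, pq.1 ≠ pq.2 → 8 * c < |(pq.1 : ℝ) - pq.2| := by
    rw [Filter.eventually_all_finite (hfin.prod hfin)]
    rintro ⟨p, q⟩ -
    by_cases hpq : p = q
    · exact Eventually.of_forall fun c h => absurd hpq h
    · have hpos : 0 < |(p : ℝ) - q| := by
        rw [abs_pos, sub_ne_zero]
        exact fun h => hpq (Subtype.ext h)
      have : ∀ᶠ c : ℝ in 𝓝[>] 0, c < |(p : ℝ) - q| / 8 :=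
        nhdsWithin_le_nhds (eventually_lt_nhds (by linarith))
      filter_upwards [this] with c hc _
      linarith
  obtain ⟨c, hc1, hc2, hc3, hc4⟩ := (e1.and (e2.and (e3.and e4))).exists
  refine ⟨c, ?_⟩
  have g1 : ∀ᶠ f in 𝓝 f₀, f ∈ N := hN
  have g2 : ∀ᶠ f in 𝓝 f₀, dist f f₀ < κ f₀ / 16 :=
    Metric.ball_mem_nhds f₀ (by linarith [hκ0 f₀])
  have g3 : ∀ᶠ f in 𝓝 f₀, κ f₀ / 2 < κ f :=
    (hκ.tendsto f₀).eventually (eventually_gt_nhds (by linarith [hκ0 f₀]))
  filter_upwards [g1, g2, g3] with f hfN hfd hfκ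
  refine ⟨hc1, hc2, ?_, ?_⟩
  · intro x y hxy
    have h1 : dist x y < d := by
      rw [Subtype.dist_eq, Real.dist_eq]; linarith
    have h2 := hdd h1
    rw [Real.dist_eq] at h2
    have h3 : ∀ z : J, |(f.1 z : ℝ) - f₀.1 z| < κ f₀ / 16 := by
      intro z
      have : dist (f.1 z) (f₀.1 z) ≤ dist f.1 f₀.1 := ContinuousMap.dist_apply_le_dist z
      exact lt_of_le_of_lt this hfd
    have e : (f.1 x : ℝ) - f.1 y = ((f.1 x : ℝ) - f₀.1 x) + ((f₀.1 x : ℝ) - f₀.1 y)
        + -((f.1 y : ℝ) - f₀.1 y) := by ring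
    rw [e]
    have h4 := abs_add_three ((f.1 x : ℝ) - f₀.1 x) ((f₀.1 x : ℝ) - f₀.1 y)
      (-((f.1 y : ℝ) - f₀.1 y))
    rw [abs_neg] at h4
    have h5 := h3 x
    have h6 := h3 y
    linarith
  · intro p q hp hq hpq
    exact hc4 (p, q) ⟨⟨f, hp, hfN⟩, ⟨f, hq, hfN⟩⟩ hpq

theorem zset (ε : SJ → ℝ) (hε : Continuous ε) (hpos : ∀ g, 0 < ε g) :
    ∃ φ : SJ → SJ, Continuous φ ∧ ∀ g, dist (φ g) g < ε g ∧
      φ g ∉ closure {h : {f : C(Set.Icc (0:ℝ) 1, Set.Icc (0:ℝ) 1) // Function.Surjective ⇑f} |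
            ∀ U V : Set (Set.Icc (0:ℝ) 1), IsOpen U → IsOpen V → U.Nonempty → V.Nonempty →
              ∃ n : ℕ, 0 < n ∧ ((⇑h.1)^[n] '' U ∩ V).Nonempty} := by
  set κ : SJ → ℝ := fun f => min (ε f) 1 / 8 with hκdef
  have hκ : Continuous κ := by fun_prop
  have hκ0 : ∀ f, 0 < κ f := fun f => by
    have := hpos f
    have : 0 < min (ε f) 1 := lt_min this one_pos
    simp only [hκdef]; linarith
  have hκ1 : ∀ f, κ f ≤ 1 / 8 := fun f => by
    have : min (ε f) 1 ≤ 1 := min_le_right _ _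
    simp only [hκdef]; linarith
  have hκε : ∀ f, 8 * κ f ≤ ε f := fun f => by
    have : min (ε f) 1 ≤ ε f := min_le_left _ _
    simp only [hκdef]; linarith
  -- the cover
  let U : J → Set SJ := fun p => {f | |(f.1 p : ℝ) - p| < κ f}
  have hUo : ∀ p, IsOpen (U p) := fun p => by
    have hc : Continuous fun f : SJ => |(f.1 p : ℝ) - p| := by
      have h1 : Continuous fun f : SJ => f.1 p :=
        (continuous_eval_const (F := C(J, J)) p).comp continuous_subtype_val
      fun_prop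
    exact isOpen_lt hc hκ
  have hUc : (univ : Set SJ) ⊆ ⋃ p, U p := by
    intro f _
    obtain ⟨p, hp⟩ := exists_fixed f.1
    refine mem_iUnion.mpr ⟨p, ?_⟩
    change |(f.1 p : ℝ) - p| < κ f
    rw [hp, sub_self, abs_zero]
    exact hκ0 f
  obtain ⟨σ, hσ⟩ := BumpCovering.exists_isSubordinate isClosed_univ U hUo hUc
  have hlf : LocallyFinite fun p => Function.support (σ p) := σ.locallyFinite
  obtain ⟨η, hη⟩ := exists_continuous_forall_mem_convex_of_local_const
    (t := tset κ (fun p f => σ p f)) (tset_convex κ _) (tset_local κ hκ hκ0 _ hlf)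
  have hgood : ∀ f : SJ, Good (κ f) (η f) (fun p => σ p f) f.1 := by
    intro f
    obtain ⟨h1, h2, h3, h4⟩ := hη f
    refine ⟨hκ0 f, hκ1 f, h1, h2, h4, fun p => σ.nonneg p f, fun p => σ.le_one p f, ?_, h3⟩
    intro p hp
    exact hσ p (subset_closure hp)
  -- joint continuity
  have hcont : Continuous fun z : SJ × J =>
      clampI (raw (κ z.1) (η z.1) (fun p => σ p z.1) z.1.1 z.2) := by
    unfold clampI
    refine continuous_projIcc.comp ?_
    unfold raw
    have hev : Continuous fun z : SJ × J => z.1.1 z.2 := by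
      have : Continuous fun z : C(J, J) × J => z.1 z.2 := continuous_eval
      exact this.comp (continuous_subtype_val.prodMap continuous_id)
    have hst : Continuous fun z : SJ × J => stretch (κ z.1) (z.1.1 z.2) := by
      unfold stretch
      fun_prop
    refine hst.add ?_
    refine continuous_finsum ?_ ?_
    · intro p
      have hb : Continuous fun z : SJ × J => beta (((z.2 : ℝ) - p) / η z.1) := by
        refine beta_cont.comp ?_
        refine Continuous.div ?_ ?_ ?_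
        · fun_prop
        · fun_prop
        · intro z
          exact (hgood z.1).hη.ne'
      have hs : Continuous fun z : SJ × J => σ p z.1 := by fun_prop
      exact (hs.mul hb).mul (continuous_const.sub hst)
    · have h2 : LocallyFinite fun p => (Prod.fst : SJ × J → SJ) ⁻¹' Function.support (σ p) :=
        hlf.preimage_continuous continuous_fst
      refine h2.subset ?_
      intro p z hz
      simp only [mem_preimage, Function.mem_support] at hz ⊢
      intro h0
      apply hz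
      rw [h0]; ring
  let F : C(SJ × J, J) := ⟨_, hcont⟩
  have hsurj : ∀ f : SJ, Function.Surjective ⇑(F.curry f) := by
    intro f y
    obtain ⟨a, ha⟩ := (hgood f).exists_zero f.2
    obtain ⟨b, hb⟩ := (hgood f).exists_one f.2
    have h1 : F.curry f a ≤ y := by
      change ((clampI (raw (κ f) (η f) (fun p => σ p f) f.1 a) : J) : ℝ) ≤ y
      exact ha.trans y.2.1
    have h2 : y ≤ F.curry f b := by
      change (y : ℝ) ≤ ((clampI (raw (κ f) (η f) (fun p => σ p f) f.1 b) : J) : ℝ)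
      exact y.2.2.trans hb
    exact mem_range_of_exists_le_of_exists_ge (F.curry f).continuous ⟨a, h1⟩ ⟨b, h2⟩
  refine ⟨fun f => ⟨F.curry f, hsurj f⟩, ?_, ?_⟩
  · exact Continuous.subtype_mk F.curry.continuous _
  · intro f
    constructor
    · have h1 : dist (F.curry f) f.1 ≤ 4 * κ f := by
        rw [ContinuousMap.dist_le (by linarith [hκ0 f])]
        intro x
        rw [Subtype.dist_eq, Real.dist_eq]
        exact (abs_clampI_sub _ _).trans ((hgood f).error x)
      change dist (F.curry f) f.1 < ε f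
      have := hκε f
      have := hκ0 f
      linarith
    · obtain ⟨p, hp⟩ : ∃ p, σ p f = 1 := ⟨σ.ind f (mem_univ f), σ.ind_apply f (mem_univ f)⟩
      refine not_mem_closure _ p (η f) (hgood f).hη (by linarith [(hgood f).hη']) ?_
      intro x hx
      exact (hgood f).plateau hp x hx

end Pool.Agent.H262.ZSet
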